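import Pool.Agent.Lib.MP_f23696_ag.Ctx

/-! # HAHN: derivations of Hahn series, extension of derivations -/

namespace Pool.Agent.MLD

open scoped Classical
noncomputable section

universe u v w

namespace Hahn

/-- a family of additive maps of the coefficients, as a map of Hahn series -/
def mapCoeff {Γ : Type w} [PartialOrder Γ] {R : Type v} [CommRing R] (φ : Γ → R →+ R)
    (f : HahnSeries Γ R) : HahnSeries Γ R where
  coeff := fun γ => φ γ (f.coeff γ)
  isPWO_support' := f.isPWO_support.mono (by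
    intro γ hγ
    rw [HahnSeries.mem_support]
    intro h
    apply hγ
    show φ γ (f.coeff γ) = 0
    rw [h, map_zero])

theorem mapCoeff_support {Γ : Type w} [PartialOrder Γ] {R : Type v} [CommRing R]
    (φ : Γ → R →+ R) (f : HahnSeries Γ R) : (mapCoeff φ f).support ⊆ f.support := by
  intro γ hγ
  rw [HahnSeries.mem_support] at hγ ⊢
  intro h
  apply hγ
  show φ γ (f.coeff γ) = 0
  rw [h, map_zero]

/-- the derivation of Hahn series given by maps of the coefficients -/
theorem exists_der {k : Type u} [Field k] {Γ : Type w} [AddCommMonoid Γ] [PartialOrder Γ]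
    [IsOrderedCancelAddMonoid Γ] {R : Type v} [CommRing R] [Algebra k R] (φ : Γ → R →+ R)
    (hk : ∀ γ (c : k) (a : R), φ γ (c • a) = c • φ γ a)
    (hmul : ∀ γ δ (a b : R), φ (γ + δ) (a * b) = a * φ δ b + b * φ γ a) :
    ∃ E : Derivation k (HahnSeries Γ R) (HahnSeries Γ R), ∀ f γ,
      (E f).coeff γ = φ γ (f.coeff γ) := by
  refine ⟨Derivation.mk' (R := k)
    { toFun := mapCoeff φ
      map_add' := ?_
      map_smul' := ?_ } ?_, fun f γ => rfl⟩
  · intro f g
    ext γ
    show φ γ ((f + g).coeff γ) = φ γ (f.coeff γ) + φ γ (g.coeff γ)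
    rw [HahnSeries.coeff_add, map_add]
  · intro c f
    ext γ
    show φ γ ((c • f).coeff γ) = c • φ γ (f.coeff γ)
    rw [HahnSeries.coeff_smul, hk]
  · intro f g
    ext γ
    show φ γ ((f * g).coeff γ) = (f * mapCoeff φ g + g * mapCoeff φ f).coeff γ
    rw [HahnSeries.coeff_add, mul_comm g (mapCoeff φ f),
      HahnSeries.coeff_mul_right' (g.isPWO_support) (mapCoeff_support φ g),
      HahnSeries.coeff_mul_left' (f.isPWO_support) (mapCoeff_support φ f),
      HahnSeries.coeff_mul, map_sum, ← Finset.sum_add_distrib]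
    refine Finset.sum_congr rfl fun ij hij => ?_
    have h1 : ij.1 + ij.2 = γ := (Finset.mem_antidiagonal.mp hij).2.2
    rw [← h1, hmul]
    show _ = f.coeff ij.1 * φ ij.2 (g.coeff ij.2) + φ ij.1 (f.coeff ij.1) * g.coeff ij.2
    rw [mul_comm (g.coeff ij.2)]

end Hahn

section HAHN
variable {k : Type u} [Field k]

theorem hcoef_exists {Γ : Type w} [AddCommMonoid Γ] [PartialOrder Γ] [IsOrderedCancelAddMonoid Γ]
    {R : Type v} [CommRing R] [Algebra k R] (Δ : Derivation k R R) :
    ∃ E : Derivation k (HahnSeries Γ R) (HahnSeries Γ R), ∀ f γ, (E f).coeff γ = Δ (f.coeff γ) :=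
  Hahn.exists_der (fun _ => (Δ : R →ₗ[k] R).toAddMonoidHom) (fun _ c a => Δ.map_smul c a)
    (fun _ _ a b => Δ.leibniz a b)

theorem heul_exists {Γ : Type w} [AddCommMonoid Γ] [PartialOrder Γ] [IsOrderedCancelAddMonoid Γ]
    {R : Type v} [CommRing R] [Algebra k R] (l : Γ →+ ℤ) :
    ∃ E : Derivation k (HahnSeries Γ R) (HahnSeries Γ R),
      ∀ f γ, (E f).coeff γ = (l γ : R) * f.coeff γ := by
  refine Hahn.exists_der (fun γ => AddMonoidHom.mulLeft ((l γ : ℤ) : R)) (fun γ c a => ?_)
    (fun γ δ a b => ?_)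
  · show ((l γ : ℤ) : R) * (c • a) = c • (((l γ : ℤ) : R) * a)
    rw [mul_smul_comm]
  · show ((l (γ + δ) : ℤ) : R) * (a * b) = a * (((l δ : ℤ) : R) * b) + b * (((l γ : ℤ) : R) * a)
    rw [map_add]
    push_cast
    ring

theorem dext {K : Type v} [Field K] [CharZero K] [Algebra k K] (δ : Derivation k K K) :
    ∃ δ' : Derivation k (AlgebraicClosure K) (AlgebraicClosure K),
      ∀ a : K, δ' (algebraMap K _ a) = algebraMap K _ (δ a) := by
  have : Algebra.FormallyEtale K (AlgebraicClosure K) :=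
    Algebra.FormallyEtale.of_isSeparable K (AlgebraicClosure K)
  let e := KaehlerDifferential.tensorKaehlerEquivOfFormallyEtale k K (AlgebraicClosure K)
  let φ0 : Ω[K⁄k] →ₗ[K] AlgebraicClosure K :=
    (Algebra.linearMap K (AlgebraicClosure K)).comp δ.liftKaehlerDifferential
  let φ : Ω[AlgebraicClosure K⁄k] →ₗ[AlgebraicClosure K] AlgebraicClosure K :=
    (φ0.liftBaseChange (AlgebraicClosure K)).comp e.symm.toLinearMap
  refine ⟨φ.compDer (KaehlerDifferential.D k (AlgebraicClosure K)), fun a => ?_⟩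
  show φ (KaehlerDifferential.D k (AlgebraicClosure K) (algebraMap K _ a)) = _
  show (φ0.liftBaseChange (AlgebraicClosure K))
    (e.symm (KaehlerDifferential.D k (AlgebraicClosure K) (algebraMap K _ a))) = _
  rw [KaehlerDifferential.tensorKaehlerEquivOfFormallyEtale_symm_D_algebraMap,
    LinearMap.liftBaseChange_tmul, one_smul]
  show algebraMap K (AlgebraicClosure K) (δ.liftKaehlerDifferential (KaehlerDifferential.D k K a)) = _
  rw [Derivation.liftKaehlerDifferential_comp_D]

end HAHN

end

end Pool.Agent.MLD
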