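import Pool.Agent.Lib.MP_f23696_ag.Ctx

/-!
# Arithmetic of the multiplicities (module ARI)
-/

open scoped Classical

noncomputable section

universe u v w

namespace Pool.Agent.MLD

namespace Ari

/-- three natural numbers `2 ≤ a ≤ b ≤ c` with `1/a + 1/b + 1/c > 1` -/
theorem nat_cases {a b c : ℕ} (ha : 2 ≤ a) (hab : a ≤ b) (hbc : b ≤ c)
    (h : a * b * c < b * c + a * c + a * b) : a = 2 ∧ (b = 2 ∨ b = 3 ∧ c ≤ 5) := by
  have h1 : a < 3 := by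
    by_contra h3
    push Not at h3
    have h4 : 3 * (b * c) ≤ a * (b * c) := Nat.mul_le_mul_right _ h3
    have h5 : a * c ≤ b * c := Nat.mul_le_mul_right _ hab
    have h6 : a * b ≤ c * b := Nat.mul_le_mul_right _ (hab.trans hbc)
    nlinarith
  have h2 : a = 2 := by omega
  subst h2
  refine ⟨rfl, ?_⟩
  have h3 : b < 4 := by
    by_contra h4
    push Not at h4
    nlinarith [Nat.mul_le_mul_right c h4]
  interval_cases b
  · exact Or.inl rfl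
  · right
    refine ⟨rfl, ?_⟩
    omega

theorem core {ι : Type u} (B : Finset ι) (μ : ι → ℕ) (hμ : ∀ Q ∈ B, 1 ≤ μ Q) (d : ℝ) (hd : 0 < d)
    (hint : ∀ L : ℕ, (∀ Q ∈ B, μ Q ∣ L) → ∃ z : ℤ, (L : ℝ) * d = z) (x y z : ι)
    (hS : (B.filter fun Q => 2 ≤ μ Q) = {x, y, z}) (hx : 2 ≤ μ x) (hxy : μ x ≤ μ y)
    (hyz : μ y ≤ μ z)
    (hlt : d < 1 / (μ x : ℝ) + 1 / (μ y : ℝ) + 1 / (μ z : ℝ) - 1) :
    μ x = 2 ∧ μ y = 2 ∧ 3 ≤ μ z ∧ Odd (μ z) := by
  have hx' : (0 : ℝ) < μ x := by exact_mod_cast (by omega : 0 < μ x)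
  have hy' : (0 : ℝ) < μ y := by exact_mod_cast (by omega : 0 < μ y)
  have hz' : (0 : ℝ) < μ z := by exact_mod_cast (by omega : 0 < μ z)
  -- common multiples
  have hL : ∀ L : ℕ, 0 < L → μ x ∣ L → μ y ∣ L → μ z ∣ L → 1 ≤ (L : ℝ) * d := by
    intro L hL0 h1 h2 h3
    obtain ⟨w, hw⟩ := hint L (by
      intro Q hQ
      by_cases h : 2 ≤ μ Q
      · have h4 : Q ∈ (B.filter fun Q => 2 ≤ μ Q) := Finset.mem_filter.2 ⟨hQ, h⟩
        rw [hS] at h4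
        simp only [Finset.mem_insert, Finset.mem_singleton] at h4
        rcases h4 with rfl | rfl | rfl
        · exact h1
        · exact h2
        · exact h3
      · have h5 := hμ Q hQ
        have h6 : μ Q = 1 := by omega
        rw [h6]
        exact one_dvd _)
    have h7 : 0 < (L : ℝ) * d := mul_pos (by exact_mod_cast hL0) hd
    rw [hw] at h7 ⊢
    have h8 : 0 < w := by exact_mod_cast h7
    exact_mod_cast h8
  have hnat : μ x * μ y * μ z < μ y * μ z + μ x * μ z + μ x * μ y := by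
    have h1 : 1 < 1 / (μ x : ℝ) + 1 / (μ y : ℝ) + 1 / (μ z : ℝ) := by linarith
    have h2 : (μ x : ℝ) * μ y * μ z < μ y * μ z + μ x * μ z + μ x * μ y := by
      have h3 : (μ x : ℝ) * μ y * μ z * 1 <
          (μ x : ℝ) * μ y * μ z * (1 / (μ x : ℝ) + 1 / (μ y : ℝ) + 1 / (μ z : ℝ)) :=
        mul_lt_mul_of_pos_left h1 (by positivity)
      have h4 : (μ x : ℝ) * μ y * μ z * (1 / (μ x : ℝ) + 1 / (μ y : ℝ) + 1 / (μ z : ℝ)) =
          μ y * μ z + μ x * μ z + μ x * μ y := by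
        field_simp
      linarith
    exact_mod_cast h2
  obtain ⟨h1, h2⟩ := nat_cases hx hxy hyz hnat
  rcases h2 with h2 | ⟨h2, h3⟩
  · -- (2, 2, c)
    have h4 : Odd (μ z) := by
      rw [← Nat.not_even_iff_odd]
      intro h5
      have h6 := hL (μ z) (by omega) (by rw [h1]; exact h5.two_dvd) (by rw [h2]; exact h5.two_dvd)
        dvd_rfl
      have h7 : d < 1 / (μ z : ℝ) := by
        rw [h1, h2] at hlt
        push_cast at hlt
        linarith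
      rw [lt_div_iff₀ hz'] at h7
      nlinarith
    refine ⟨h1, h2, ?_, h4⟩
    obtain ⟨t, ht⟩ := h4
    omega
  · exfalso
    rw [h1, h2] at hlt
    rw [h2] at hyz
    have h4 : μ z = 3 ∨ μ z = 4 ∨ μ z = 5 := by omega
    rcases h4 with h4 | h4 | h4
    · have h5 := hL 6 (by norm_num) (by rw [h1]; norm_num) (by rw [h2]; norm_num)
        (by rw [h4]; norm_num)
      rw [h4] at hlt
      norm_num at hlt h5
      linarith
    · have h5 := hL 12 (by norm_num) (by rw [h1]; norm_num) (by rw [h2]; norm_num)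
        (by rw [h4]; norm_num)
      rw [h4] at hlt
      norm_num at hlt h5
      linarith
    · have h5 := hL 30 (by norm_num) (by rw [h1]; norm_num) (by rw [h2]; norm_num)
        (by rw [h4]; norm_num)
      rw [h4] at hlt
      norm_num at hlt h5
      linarith

end Ari

theorem arith {ι : Type u} (B : Finset ι) (μ : ι → ℕ) (hμ : ∀ Q ∈ B, 1 ≤ μ Q) (p : ι → ℝ)
    (hp : ∀ Q ∈ B, p Q ≤ 1) (d e : ℝ) (hd : 0 < d) (he : 1 < e)
    (hde : d * e = 2 - ∑ Q ∈ B, (1 - p Q / μ Q))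
    (hint : ∀ L : ℕ, (∀ Q ∈ B, μ Q ∣ L) → ∃ z : ℤ, (L : ℝ) * d = z) :
    (B.filter fun Q => 2 ≤ μ Q).card ≤ 2 ∨
    ∃ Q₁ Q₂ Q₃, Q₁ ≠ Q₂ ∧ Q₁ ≠ Q₃ ∧ Q₂ ≠ Q₃ ∧ (B.filter fun Q => 2 ≤ μ Q) = {Q₁, Q₂, Q₃} ∧
      μ Q₁ = 2 ∧ μ Q₂ = 2 ∧ 3 ≤ μ Q₃ ∧ Odd (μ Q₃) := by
  have h1 : ∑ Q ∈ B.filter (fun Q => 2 ≤ μ Q), (1 - 1 / (μ Q : ℝ)) ≤
      ∑ Q ∈ B, (1 - p Q / μ Q) := by
    have h2 : ∀ Q ∈ B, (1 : ℝ) - 1 / (μ Q : ℝ) ≤ 1 - p Q / μ Q := by
      intro Q hQ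
      have h3 : (0 : ℝ) < μ Q := by exact_mod_cast hμ Q hQ
      have h4 : p Q / μ Q ≤ 1 / (μ Q : ℝ) := div_le_div_of_nonneg_right (hp Q hQ) h3.le
      linarith
    have h5 : ∀ Q ∈ B, (0 : ℝ) ≤ 1 - 1 / (μ Q : ℝ) := by
      intro Q hQ
      have h3 : (1 : ℝ) ≤ μ Q := by exact_mod_cast hμ Q hQ
      have h4 : 1 / (μ Q : ℝ) ≤ 1 := by
        rw [div_le_one (by linarith)]
        exact h3
      linarith
    calc ∑ Q ∈ B.filter (fun Q => 2 ≤ μ Q), (1 - 1 / (μ Q : ℝ))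
        ≤ ∑ Q ∈ B, (1 - 1 / (μ Q : ℝ)) :=
          Finset.sum_le_sum_of_subset_of_nonneg (Finset.filter_subset _ _)
            (fun Q hQ _ => h5 Q hQ)
      _ ≤ _ := Finset.sum_le_sum h2
  have h2 : d < 2 - ∑ Q ∈ B.filter (fun Q => 2 ≤ μ Q), (1 - 1 / (μ Q : ℝ)) := by
    have h3 : d < d * e := by nlinarith
    linarith
  by_cases hcard : (B.filter fun Q => 2 ≤ μ Q).card ≤ 2
  · exact Or.inl hcard
  right
  push Not at hcard
  have h3 : ((B.filter fun Q => 2 ≤ μ Q).card : ℝ) * (1 / 2) ≤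
      ∑ Q ∈ B.filter (fun Q => 2 ≤ μ Q), (1 - 1 / (μ Q : ℝ)) := by
    rw [← nsmul_eq_mul]
    refine Finset.card_nsmul_le_sum _ _ _ ?_
    intro Q hQ
    rw [Finset.mem_filter] at hQ
    have h4 : (2 : ℝ) ≤ μ Q := by exact_mod_cast hQ.2
    have h5 : 1 / (μ Q : ℝ) ≤ 1 / 2 := one_div_le_one_div_of_le (by norm_num) h4
    linarith
  have h4 : (B.filter fun Q => 2 ≤ μ Q).card = 3 := by
    have h5 : ((B.filter fun Q => 2 ≤ μ Q).card : ℝ) < 4 := by linarith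
    have h6 : (B.filter fun Q => 2 ≤ μ Q).card < 4 := by exact_mod_cast h5
    omega
  obtain ⟨x, y, z, hxy, hxz, hyz, hS⟩ := Finset.card_eq_three.1 h4
  have hmem : ∀ Q, Q = x ∨ Q = y ∨ Q = z → 2 ≤ μ Q := by
    intro Q hQ
    have h5 : Q ∈ (B.filter fun Q => 2 ≤ μ Q) := by
      rw [hS]
      simpa using hQ
    exact (Finset.mem_filter.1 h5).2
  have hx := hmem x (Or.inl rfl)
  have hy := hmem y (Or.inr (Or.inl rfl))
  have hz := hmem z (Or.inr (Or.inr rfl))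
  rw [hS, Finset.sum_insert (by simp [hxy, hxz]), Finset.sum_insert (by simp [hyz]),
    Finset.sum_singleton] at h2
  have key : ∀ a b c : ι, a ≠ b → a ≠ c → b ≠ c → ({x, y, z} : Finset ι) = {a, b, c} →
      2 ≤ μ a → μ a ≤ μ b → μ b ≤ μ c →
      d < 1 / (μ a : ℝ) + 1 / (μ b : ℝ) + 1 / (μ c : ℝ) - 1 →
      ∃ Q₁ Q₂ Q₃, Q₁ ≠ Q₂ ∧ Q₁ ≠ Q₃ ∧ Q₂ ≠ Q₃ ∧ (B.filter fun Q => 2 ≤ μ Q) = {Q₁, Q₂, Q₃} ∧
      μ Q₁ = 2 ∧ μ Q₂ = 2 ∧ 3 ≤ μ Q₃ ∧ Odd (μ Q₃) := by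
    intro a b c hab hac hbc habc h1 h2 h3 h5
    exact ⟨a, b, c, hab, hac, hbc, hS.trans habc,
      Ari.core B μ hμ d hd hint a b c (hS.trans habc) h1 h2 h3 h5⟩
  rcases le_total (μ x) (μ y) with h6 | h6 <;> rcases le_total (μ y) (μ z) with h7 | h7 <;>
    rcases le_total (μ x) (μ z) with h8 | h8
  · exact key x y z hxy hxz hyz rfl hx h6 h7 (by linarith)
  · exact key x y z hxy hxz hyz rfl hx h6 h7 (by linarith)
  · exact key x z y hxz hxy hyz.symm (by ext; simp; tauto) hx h8 h7 (by linarith)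
  · exact key z x y hxz.symm hyz.symm hxy (by ext; simp; tauto) hz h8 h6 (by linarith)
  · exact key y x z hxy.symm hyz hxz (by ext; simp; tauto) hy h6 h8 (by linarith)
  · exact key y z x hyz hxy.symm hxz.symm (by ext; simp; tauto) hy h7 h8 (by linarith)
  · exact key z y x hyz.symm hxz.symm hxy.symm (by ext; simp; tauto) hz h7 h6 (by linarith)
  · exact key z y x hyz.symm hxz.symm hxy.symm (by ext; simp; tauto) hz h7 h6 (by linarith)

end Pool.Agent.MLD
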