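import Mathlib

/-!
# MP_f23696_ag: the combinatorial table of heights

`table` : the purely combinatorial step of the lower semicontinuity theorem in complexity one.
-/

namespace Pool.Agent.MP_f23696_ag.Table

open Finset

/-- platonic triples, ordered form -/
theorem plato_ord (a b c : ℕ) (ha : 2 ≤ a) (hab : a ≤ b) (hbc : b ≤ c) (d : ℚ) (N : ℕ) (t : ℤ)
    (hN : N = Nat.lcm a (Nat.lcm b c)) (ht : d * N = t) (h0 : 0 < d)
    (h1 : d < 1 / (a : ℚ) + 1 / b + 1 / c - 1) : a = 2 ∧ b = 2 ∧ Odd c := by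
  have hb : 2 ≤ b := le_trans ha hab
  have hc : 2 ≤ c := le_trans hb hbc
  have hNpos : 0 < N := by
    rw [hN]; exact Nat.lcm_pos (by omega) (Nat.lcm_pos (by omega) (by omega))
  have hNq : (0 : ℚ) < N := by exact_mod_cast hNpos
  have htpos : 0 < t := by
    have : (0 : ℚ) < t := by rw [← ht]; positivity
    exact_mod_cast this
  have ht1 : (1 : ℚ) ≤ t := by exact_mod_cast htpos
  have haq : (2 : ℚ) ≤ a := by exact_mod_cast ha
  have hbq : (2 : ℚ) ≤ b := by exact_mod_cast hb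
  have hcq : (2 : ℚ) ≤ c := by exact_mod_cast hc
  simp only [one_div] at h1
  have inv_le : ∀ (x : ℕ) (y : ℕ), 0 < y → y ≤ x → (x : ℚ)⁻¹ ≤ (y : ℚ)⁻¹ := by
    intro x y hy hxy
    rw [← one_div, ← one_div]
    apply one_div_le_one_div_of_le
    · exact_mod_cast hy
    · exact_mod_cast hxy
  -- d * N ≥ 1, d < s, hence 1 < s * N
  have key : 1 < ((a : ℚ)⁻¹ + (b : ℚ)⁻¹ + (c : ℚ)⁻¹ - 1) * N := by
    have : d * N < ((a : ℚ)⁻¹ + (b : ℚ)⁻¹ + (c : ℚ)⁻¹ - 1) * N := mul_lt_mul_of_pos_right h1 hNq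
    linarith
  have ha2 : a = 2 := by
    by_contra hne
    have h3 : 3 ≤ a := by omega
    have e1 := inv_le a 3 (by norm_num) h3
    have e2 := inv_le b 3 (by norm_num) (by omega)
    have e3 := inv_le c 3 (by norm_num) (by omega)
    norm_num at e1 e2 e3
    linarith
  subst ha2
  have hb3 : b ≤ 3 := by
    by_contra hne
    have e2 := inv_le b 4 (by norm_num) (by omega)
    have e3 := inv_le c 4 (by norm_num) (by omega)
    norm_num at e2 e3 h1
    linarith
  have hb23 : b = 2 ∨ b = 3 := by omega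
  rcases hb23 with rfl | rfl
  · refine ⟨rfl, rfl, ?_⟩
    by_contra hodd
    rw [Nat.not_odd_iff_even] at hodd
    obtain ⟨k, hk⟩ := hodd
    have hlcm : Nat.lcm 2 (Nat.lcm 2 c) = c := by
      have h2c : 2 ∣ c := ⟨k, by omega⟩
      rw [Nat.lcm_eq_right h2c, Nat.lcm_eq_right h2c]
    rw [hN, hlcm] at key
    have hc0 : (c : ℚ) ≠ 0 := by positivity
    norm_num at key
    rw [inv_mul_cancel₀ hc0] at key
    exact lt_irrefl _ key
  · have hc5 : c ≤ 5 := by
      by_contra hne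
      have e3 := inv_le c 6 (by norm_num) (by omega)
      norm_num at e3 h1
      linarith
    exfalso
    have : c = 3 ∨ c = 4 ∨ c = 5 := by omega
    rcases this with rfl | rfl | rfl
    · have : N = 6 := by rw [hN]; decide
      rw [this] at key; norm_num at key
    · have : N = 12 := by rw [hN]; decide
      rw [this] at key; norm_num at key
    · have : N = 30 := by rw [hN]; decide
      rw [this] at key; norm_num at key

/-- platonic triples, any order -/
theorem plato (a b c : ℕ) (ha : 2 ≤ a) (hb : 2 ≤ b) (hc : 2 ≤ c) (d : ℚ) (N : ℕ) (t : ℤ)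
    (hN : N = Nat.lcm a (Nat.lcm b c)) (ht : d * N = t) (h0 : 0 < d)
    (h1 : d < 1 / (a : ℚ) + 1 / b + 1 / c - 1) :
    (a = 2 ∧ b = 2 ∧ Odd c) ∨ (a = 2 ∧ c = 2 ∧ Odd b) ∨ (b = 2 ∧ c = 2 ∧ Odd a) := by
  rcases le_total a b with hab | hab <;> rcases le_total b c with hbc | hbc <;>
    rcases le_total a c with hac | hac
  · exact Or.inl (plato_ord a b c ha hab hbc d N t hN ht h0 h1)
  · exact Or.inl (plato_ord a b c ha hab hbc d N t hN ht h0 h1)
  · -- a ≤ c ≤ b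
    obtain ⟨h1', h2', h3'⟩ := plato_ord a c b ha hac hbc d N t
      (by rw [hN, Nat.lcm_comm b c]) ht h0 (by linarith)
    exact Or.inr (Or.inl ⟨h1', h2', h3'⟩)
  · -- c ≤ a ≤ b
    obtain ⟨h1', h2', h3'⟩ := plato_ord c a b hc hac hab d N t
      (by rw [hN, ← Nat.lcm_assoc, Nat.lcm_comm (Nat.lcm a b) c]) ht h0 (by linarith)
    exact Or.inr (Or.inl ⟨h2', h1', h3'⟩)
  · -- b ≤ a ≤ c
    obtain ⟨h1', h2', h3'⟩ := plato_ord b a c hb hab hac d N t
      (by rw [hN, ← Nat.lcm_assoc, Nat.lcm_comm a b, Nat.lcm_assoc]) ht h0 (by linarith)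
    exact Or.inl ⟨h2', h1', h3'⟩
  · -- b ≤ c ≤ a
    obtain ⟨h1', h2', h3'⟩ := plato_ord b c a hb hbc hac d N t
      (by rw [hN, ← Nat.lcm_assoc b c a, Nat.lcm_comm (Nat.lcm b c) a]) ht h0 (by linarith)
    exact Or.inr (Or.inr ⟨h1', h2', h3'⟩)
  · -- b ≤ a, c ≤ b, a ≤ c : all equal
    obtain ⟨h1', h2', h3'⟩ := plato_ord c b a hc hbc hab d N t
      (by rw [hN, Nat.lcm_comm c (Nat.lcm b a), Nat.lcm_comm b a, Nat.lcm_assoc]) ht h0
      (by linarith)
    exact Or.inr (Or.inr ⟨h2', h1', h3'⟩)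
  · obtain ⟨h1', h2', h3'⟩ := plato_ord c b a hc hbc hab d N t
      (by rw [hN, Nat.lcm_comm c (Nat.lcm b a), Nat.lcm_comm b a, Nat.lcm_assoc]) ht h0
      (by linarith)
    exact Or.inr (Or.inr ⟨h2', h1', h3'⟩)

/-- The conclusion of the table: heights `ν` (multiples of `μ`), common height `j`, excess `r` at
the place `Qs`. -/
def Sol {ι : Type*} [DecidableEq ι] (F : Finset ι) (μ : ι → ℕ) (P Q₁ : ι) (n : ℕ) : Prop :=
  ∃ (j r : ℕ) (Qs : ι) (ν : ι → ℕ), Qs ∈ F ∧ (∀ Q, Q ∉ F → ν Q = j) ∧ (∀ Q, μ Q ∣ ν Q) ∧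
    (∀ Q, ν Q + (if Q = P then n else 0) = j + (if Q = Qs then r else 0)) ∧ 0 < ν Q₁ ∧
    ∑ Q ∈ F, ((ν Q : ℚ) / μ Q) ≤ 1 + j * ((F.card : ℚ) - 2)

theorem row_sum {ι : Type*} [DecidableEq ι] (F S : Finset ι) (μ ν : ι → ℕ) (j : ℕ) (hS : S ⊆ F)
    (h : ∀ Q ∈ F, Q ∉ S → μ Q = 1 ∧ ν Q = j) :
    ∑ Q ∈ F, ((ν Q : ℚ) / μ Q) = ∑ Q ∈ S, ((ν Q : ℚ) / μ Q) + j * ((F.card : ℚ) - S.card) := by
  rw [← Finset.sum_sdiff hS, add_comm]
  congr 1
  have : ∀ Q ∈ F \ S, ((ν Q : ℚ) / μ Q) = j := by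
    intro Q hQ
    rw [Finset.mem_sdiff] at hQ
    obtain ⟨h1, h2⟩ := h Q hQ.1 hQ.2
    rw [h1, h2]; simp
  rw [Finset.sum_congr rfl this, Finset.sum_const, Finset.card_sdiff_of_subset hS, nsmul_eq_mul,
    Nat.cast_sub (Finset.card_le_card hS)]
  ring

section rows

variable {ι : Type*} [DecidableEq ι] {F : Finset ι} {μ : ι → ℕ} {P Q₁ : ι} {n : ℕ}

theorem row1 (hP : P ∈ F) (hPQ : Q₁ ≠ P) (hn : 1 ≤ n) (hμ : ∀ Q, Q ≠ P → μ Q = 1) :
    Sol F μ P Q₁ n := by
  refine ⟨1, n - 1, P, fun Q => if Q = P then 0 else 1, hP, ?_, ?_, ?_, ?_, ?_⟩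
  · intro Q hQ
    have : Q ≠ P := fun h => hQ (h ▸ hP)
    simp [this]
  · intro Q
    by_cases h : Q = P
    · simp [h]
    · simp [h, hμ Q h]
  · intro Q
    by_cases h : Q = P
    · simp only [h, if_true]; omega
    · simp [h]
  · simp [hPQ]
  · rw [row_sum F {P} μ _ 1 (by simpa using hP)]
    · simp only [Finset.sum_singleton, if_true, Nat.cast_zero, zero_div, Finset.card_singleton,
        Nat.cast_one]
      linarith
    · intro Q _ hQ'
      have : Q ≠ P := by simpa using hQ'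
      exact ⟨hμ Q this, by simp [this]⟩

theorem row2a (hP : P ∈ F) (hPQ : Q₁ ≠ P) {A : ι} (hA : A ∈ F) (hAP : A ≠ P)
    (hAn : μ A ≤ n) (hA1 : 1 ≤ μ A) (hμ : ∀ Q, Q ≠ P → Q ≠ A → μ Q = 1) :
    Sol F μ P Q₁ n := by
  have hA0 : (μ A : ℚ) ≠ 0 := by positivity
  refine ⟨μ A, n - μ A, P, fun Q => if Q = P then 0 else μ A, hP, ?_, ?_, ?_, ?_, ?_⟩
  · intro Q hQ
    have : Q ≠ P := fun h => hQ (h ▸ hP)
    simp [this]
  · intro Q
    by_cases h : Q = P
    · simp [h]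
    · by_cases h' : Q = A
      · simp [h', hAP]
      · simp [h, hμ Q h h']
  · intro Q
    by_cases h : Q = P
    · simp only [h, if_true]; omega
    · simp [h]
  · simp [hPQ]; omega
  · rw [row_sum F {P, A} μ _ (μ A) (by intro x hx; simp at hx; rcases hx with rfl | rfl <;> assumption)]
    · rw [Finset.sum_pair hAP.symm, Finset.card_pair hAP.symm]
      simp only [if_true, hAP, if_false, Nat.cast_zero, zero_div, zero_add]
      rw [div_self hA0]
      push_cast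
      linarith
    · intro Q _ hQ'
      simp at hQ'
      exact ⟨hμ Q hQ'.1 hQ'.2, by simp [hQ'.1]⟩

theorem row2b (hP : P ∈ F) (hPQ : Q₁ ≠ P) (hn : 1 ≤ n) {A : ι} (hA : A ∈ F) (hAP : A ≠ P)
    (hAn : n ≤ μ A) (hμ : ∀ Q, Q ≠ P → Q ≠ A → μ Q = 1) :
    Sol F μ P Q₁ n := by
  have hA0 : (μ A : ℚ) ≠ 0 := by
    have : 0 < μ A := by omega
    positivity
  refine ⟨n, μ A - n, A, fun Q => if Q = P then 0 else if Q = A then μ A else n, hA,
    ?_, ?_, ?_, ?_, ?_⟩
  · intro Q hQ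
    have h1 : Q ≠ P := fun h => hQ (h ▸ hP)
    have h2 : Q ≠ A := fun h => hQ (h ▸ hA)
    simp [h1, h2]
  · intro Q
    by_cases h : Q = P
    · simp [h]
    · by_cases h' : Q = A
      · simp [h', hAP]
      · simp [h, hμ Q h h']
  · intro Q
    by_cases h : Q = P
    · simp [h, hAP.symm]
    · by_cases h' : Q = A
      · simp only [h', hAP, if_false, if_true]; omega
      · simp [h, h']
  · simp only [hPQ, if_false]
    split_ifs <;> omega
  · rw [row_sum F {P, A} μ _ n (by intro x hx; simp at hx; rcases hx with rfl | rfl <;> assumption)]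
    · rw [Finset.sum_pair hAP.symm, Finset.card_pair hAP.symm]
      simp only [if_true, hAP, if_false, Nat.cast_zero, zero_div, zero_add]
      rw [div_self hA0]
      push_cast
      linarith
    · intro Q _ hQ'
      simp at hQ'
      exact ⟨hμ Q hQ'.1 hQ'.2, by simp [hQ'.1, hQ'.2]⟩

theorem exists_ceil (n m : ℕ) (hn : 1 ≤ n) (hm : 1 ≤ m) :
    ∃ c : ℕ, 1 ≤ c ∧ n ≤ m * c ∧ m * (c - 1) < n := by
  classical
  have hex : ∃ c : ℕ, n ≤ m * c := ⟨n, by nlinarith⟩
  refine ⟨Nat.find hex, ?_, Nat.find_spec hex, ?_⟩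
  · by_contra h
    have h0 : Nat.find hex = 0 := by omega
    have := Nat.find_spec hex
    rw [h0] at this
    omega
  · by_contra h
    have h := Nat.le_of_not_lt h
    have h1 : 1 ≤ Nat.find hex := by
      by_contra h
      have h0 : Nat.find hex = 0 := by omega
      have := Nat.find_spec hex
      rw [h0] at this
      omega
    have := Nat.find_min' hex h
    omega

theorem row3 (hP : P ∈ F) (hPQ : Q₁ ≠ P) (hn : 1 ≤ n) {A B : ι} (hA : A ∈ F) (hB : B ∈ F)
    (hAP : A ≠ P) (hBP : B ≠ P) (hAB : A ≠ B) (hμP : μ P = 1) (hBA : μ B ≤ μ A) (hB2 : 2 ≤ μ B)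
    (hμ : ∀ Q, Q ≠ P → Q ≠ A → Q ≠ B → μ Q = 1) :
    Sol F μ P Q₁ n := by
  obtain ⟨c, hc1, hc2, hc3⟩ := exists_ceil n (μ B) hn (by omega)
  obtain ⟨e, he1, he2, he3⟩ := exists_ceil (μ B * c) (μ A) (by omega) (by omega)
  have hec : e ≤ c := by
    by_contra h
    have h1 : c ≤ e - 1 := by omega
    have h2 : μ B * c ≤ μ A * (e - 1) := Nat.mul_le_mul hBA h1
    omega
  have h2c : 2 * c ≤ n + 1 := by
    have : 2 * (c - 1) ≤ μ B * (c - 1) := Nat.mul_le_mul_right _ hB2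
    omega
  have hA0 : (μ A : ℚ) ≠ 0 := by
    have : 0 < μ A := by omega
    positivity
  have hB0 : (μ B : ℚ) ≠ 0 := by
    have : 0 < μ B := by omega
    positivity
  refine ⟨μ B * c, μ A * e - μ B * c, A,
    fun Q => if Q = P then μ B * c - n else if Q = A then μ A * e else μ B * c, hA,
    ?_, ?_, ?_, ?_, ?_⟩
  · intro Q hQ
    have h1 : Q ≠ P := fun h => hQ (h ▸ hP)
    have h2 : Q ≠ A := fun h => hQ (h ▸ hA)
    simp [h1, h2]
  · intro Q
    by_cases h : Q = P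
    · simp [h, hμP]
    · by_cases h' : Q = A
      · simp [h', hAP]
      · by_cases h'' : Q = B
        · simp [h'', hBP, hAB.symm]
        · simp [h, h', hμ Q h h' h'']
  · intro Q
    by_cases h : Q = P
    · simp only [h, if_true, hAP.symm, if_false]; omega
    · by_cases h' : Q = A
      · simp only [h', hAP, if_false, if_true]; omega
      · simp [h, h']
  · simp only [hPQ, if_false]
    split_ifs <;> nlinarith
  · rw [row_sum F {P, A, B} μ _ (μ B * c) (by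
      intro x hx; simp at hx; rcases hx with rfl | rfl | rfl <;> assumption)]
    · rw [Finset.sum_insert (by simp [hAP.symm, hBP.symm]), Finset.sum_pair hAB,
        Finset.card_insert_of_notMem (by simp [hAP.symm, hBP.symm]), Finset.card_pair hAB]
      simp only [if_true, hAP, hBP, hAB.symm, if_false, hμP]
      rw [Nat.cast_sub hc2]
      push_cast
      rw [mul_div_cancel_left₀ _ hA0, mul_div_cancel_left₀ _ hB0]
      have h1 : (e : ℚ) + c ≤ n + 1 := by exact_mod_cast (by omega : e + c ≤ n + 1)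
      linarith
    · intro Q _ hQ'
      simp at hQ'
      exact ⟨hμ Q hQ'.1 hQ'.2.1 hQ'.2.2, by simp [hQ'.1, hQ'.2.1]⟩

theorem row4 (hP : P ∈ F) (hPQ : Q₁ ≠ P) (hn : 1 ≤ n) {A B C : ι} (hA : A ∈ F) (hB : B ∈ F)
    (hC : C ∈ F) (hAP : A ≠ P) (hBP : B ≠ P) (hCP : C ≠ P) (hAB : A ≠ B) (hAC : A ≠ C)
    (hBC : B ≠ C) (hμP : μ P = 1) (hA2 : μ A = 2) (hB2 : μ B = 2) (hC1 : 1 ≤ μ C)
    (hμ : ∀ Q, Q ≠ P → Q ≠ A → Q ≠ B → Q ≠ C → μ Q = 1) :
    Sol F μ P Q₁ n := by
  obtain ⟨c, hc1, hc2, hc3⟩ := exists_ceil n 2 hn (by omega)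
  obtain ⟨e, he1, he2, he3⟩ := exists_ceil (2 * c) (μ C) (by omega) (by omega)
  have hen : e ≤ n + 1 := by
    have : 1 * (e - 1) ≤ μ C * (e - 1) := Nat.mul_le_mul_right _ hC1
    omega
  have hC0 : (μ C : ℚ) ≠ 0 := by
    have : 0 < μ C := by omega
    positivity
  refine ⟨2 * c, μ C * e - 2 * c, C,
    fun Q => if Q = P then 2 * c - n else if Q = C then μ C * e else 2 * c, hC,
    ?_, ?_, ?_, ?_, ?_⟩
  · intro Q hQ
    have h1 : Q ≠ P := fun h => hQ (h ▸ hP)
    have h2 : Q ≠ C := fun h => hQ (h ▸ hC)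
    simp [h1, h2]
  · intro Q
    by_cases h : Q = P
    · simp [h, hμP]
    · by_cases h' : Q = C
      · simp [h', hCP]
      · by_cases h2 : Q = A
        · simp [h2, hAP, hAC, hA2]
        · by_cases h3 : Q = B
          · simp [h3, hBP, hBC, hB2]
          · simp [h, h', hμ Q h h2 h3 h']
  · intro Q
    by_cases h : Q = P
    · simp only [h, if_true, hCP.symm, if_false]; omega
    · by_cases h' : Q = C
      · simp only [h', hCP, if_false, if_true]; omega
      · simp [h, h']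
  · simp only [hPQ, if_false]
    split_ifs <;> nlinarith
  · rw [row_sum F {P, A, B, C} μ _ (2 * c) (by
      intro x hx; simp at hx; rcases hx with rfl | rfl | rfl | rfl <;> assumption)]
    · rw [Finset.sum_insert (by simp [hAP.symm, hBP.symm, hCP.symm]),
        Finset.sum_insert (by simp [hAB, hAC]), Finset.sum_pair hBC,
        Finset.card_insert_of_notMem (by simp [hAP.symm, hBP.symm, hCP.symm]),
        Finset.card_insert_of_notMem (by simp [hAB, hAC]), Finset.card_pair hBC]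
      simp only [if_true, hAP, hBP, hCP, hAC, hBC, if_false, hμP, hA2, hB2]
      rw [Nat.cast_sub hc2]
      push_cast
      rw [mul_div_cancel_left₀ _ hC0]
      have h1 : (e : ℚ) ≤ n + 1 := by exact_mod_cast hen
      linarith
    · intro Q _ hQ'
      simp at hQ'
      exact ⟨hμ Q hQ'.1 hQ'.2.1 hQ'.2.2.1 hQ'.2.2.2, by simp [hQ'.1, hQ'.2.2.2]⟩

/-- `P` carries the odd number, the other two carry `2`. -/
theorem row5 (hP : P ∈ F) (hPQ : Q₁ ≠ P) (hn : 1 ≤ n) {A B : ι} (hA : A ∈ F) (hB : B ∈ F)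
    (hAP : A ≠ P) (hBP : B ≠ P) (hAB : A ≠ B) (hodd : Odd (μ P)) (hA2 : μ A = 2) (hB2 : μ B = 2)
    (hμ : ∀ Q, Q ≠ P → Q ≠ A → Q ≠ B → μ Q = 1) :
    Sol F μ P Q₁ n := by
  rcases (by omega : n = 1 ∨ 2 ≤ n) with h1 | h2
  · obtain ⟨k, hk⟩ := hodd
    have hP0 : (μ P : ℚ) ≠ 0 := by
      have : 0 < μ P := by omega
      positivity
    refine ⟨μ P + 1, 0, P, fun Q => if Q = P then μ P else μ P + 1, hP, ?_, ?_, ?_, ?_, ?_⟩
    · intro Q hQ
      have h1 : Q ≠ P := fun h => hQ (h ▸ hP)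
      simp [h1]
    · intro Q
      by_cases h : Q = P
      · simp [h]
      · by_cases h' : Q = A
        · simp only [h', hAP, if_false, hA2]; omega
        · by_cases h'' : Q = B
          · simp only [h'', hBP, if_false, hB2]; omega
          · simp [h, hμ Q h h' h'']
    · intro Q
      by_cases h : Q = P
      · simp only [h, if_true]; omega
      · simp [h]
    · simp [hPQ]
    · rw [row_sum F {P, A, B} μ _ (μ P + 1) (by
        intro x hx; simp at hx; rcases hx with rfl | rfl | rfl <;> assumption)]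
      · rw [Finset.sum_insert (by simp [hAP.symm, hBP.symm]), Finset.sum_pair hAB,
          Finset.card_insert_of_notMem (by simp [hAP.symm, hBP.symm]), Finset.card_pair hAB]
        simp only [if_true, hAP, hBP, if_false, hA2, hB2]
        rw [div_self hP0]
        push_cast
        linarith
      · intro Q _ hQ'
        simp at hQ'
        exact ⟨hμ Q hQ'.1 hQ'.2.1 hQ'.2.2, by simp [hQ'.1]⟩
  · refine ⟨2, n - 2, P, fun Q => if Q = P then 0 else 2, hP, ?_, ?_, ?_, ?_, ?_⟩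
    · intro Q hQ
      have h1 : Q ≠ P := fun h => hQ (h ▸ hP)
      simp [h1]
    · intro Q
      by_cases h : Q = P
      · simp [h]
      · by_cases h' : Q = A
        · simp [h', hAP, hA2]
        · by_cases h'' : Q = B
          · simp [h'', hBP, hB2]
          · simp [h, hμ Q h h' h'']
    · intro Q
      by_cases h : Q = P
      · simp only [h, if_true]; omega
      · simp [h]
    · simp [hPQ]
    · rw [row_sum F {P, A, B} μ _ 2 (by
        intro x hx; simp at hx; rcases hx with rfl | rfl | rfl <;> assumption)]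
      · rw [Finset.sum_insert (by simp [hAP.symm, hBP.symm]), Finset.sum_pair hAB,
          Finset.card_insert_of_notMem (by simp [hAP.symm, hBP.symm]), Finset.card_pair hAB]
        simp only [if_true, hAP, hBP, if_false, hA2, hB2, Nat.cast_zero, zero_div]
        push_cast
        linarith
      · intro Q _ hQ'
        simp at hQ'
        exact ⟨hμ Q hQ'.1 hQ'.2.1 hQ'.2.2, by simp [hQ'.1]⟩

/-- `P` carries `2`, `A` carries `2`, `C` carries the odd number. -/
theorem row6 (hP : P ∈ F) (hPQ : Q₁ ≠ P) (hn : 1 ≤ n) {A C : ι} (hA : A ∈ F) (hC : C ∈ F)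
    (hAP : A ≠ P) (hCP : C ≠ P) (hAC : A ≠ C) (hodd : Odd (μ C)) (hP2 : μ P = 2) (hA2 : μ A = 2)
    (hμ : ∀ Q, Q ≠ P → Q ≠ A → Q ≠ C → μ Q = 1) :
    Sol F μ P Q₁ n := by
  have hC1 : 1 ≤ μ C := hodd.pos
  have hC0 : (μ C : ℚ) ≠ 0 := by
    have : 0 < μ C := by omega
    positivity
  have hsub : ({P, A, C} : Finset ι) ⊆ F := by
    intro x hx; simp at hx; rcases hx with rfl | rfl | rfl <;> assumption
  have hCq : (1 : ℚ) ≤ μ C := by exact_mod_cast hC1
  obtain ⟨k, hk⟩ := hodd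
  rcases (by omega : n = 1 ∨ 2 * μ C ≤ n ∨ (n < 2 * μ C ∧ n % 2 = 0 ∧ 2 ≤ n) ∨
    (n < 2 * μ C ∧ n % 2 = 1 ∧ 3 ≤ n)) with h1 | h1 | ⟨h1, h2, h3⟩ | ⟨h1, h2, h3⟩
  · -- n = 1
    refine ⟨μ C, 1, A, fun Q => if Q = P then μ C - 1 else if Q = A then μ C + 1 else μ C, hA,
      ?_, ?_, ?_, ?_, ?_⟩
    · intro Q hQ
      have h1 : Q ≠ P := fun h => hQ (h ▸ hP)
      have h2 : Q ≠ A := fun h => hQ (h ▸ hA)
      simp [h1, h2]
    · intro Q
      by_cases h : Q = P
      · simp only [h, if_true, hP2]; omega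
      · by_cases h' : Q = A
        · simp only [h', hAP, if_false, if_true, hA2]; omega
        · by_cases h'' : Q = C
          · simp [h'', hCP, hAC.symm]
          · simp [h, h', hμ Q h h' h'']
    · intro Q
      by_cases h : Q = P
      · simp only [h, if_true, hAP.symm, if_false]; omega
      · by_cases h' : Q = A
        · simp [h', hAP]
        · simp [h, h']
    · simp only [hPQ, if_false]
      split_ifs <;> omega
    · rw [row_sum F {P, A, C} μ _ (μ C) hsub]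
      · rw [Finset.sum_insert (by simp [hAP.symm, hCP.symm]), Finset.sum_pair hAC,
          Finset.card_insert_of_notMem (by simp [hAP.symm, hCP.symm]), Finset.card_pair hAC]
        simp only [if_true, hAP, hCP, hAC.symm, if_false, hA2, hP2]
        rw [Nat.cast_sub hC1, div_self hC0]
        push_cast
        linarith
      · intro Q _ hQ'
        simp at hQ'
        exact ⟨hμ Q hQ'.1 hQ'.2.1 hQ'.2.2, by simp [hQ'.1, hQ'.2.1]⟩
  · -- 2o ≤ n
    refine ⟨2 * μ C, n - 2 * μ C, P, fun Q => if Q = P then 0 else 2 * μ C, hP,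
      ?_, ?_, ?_, ?_, ?_⟩
    · intro Q hQ
      have h1 : Q ≠ P := fun h => hQ (h ▸ hP)
      simp [h1]
    · intro Q
      by_cases h : Q = P
      · simp [h]
      · by_cases h' : Q = A
        · simp [h', hAP, hA2]
        · by_cases h'' : Q = C
          · simp [h'', hCP]
          · simp [h, hμ Q h h' h'']
    · intro Q
      by_cases h : Q = P
      · simp only [h, if_true]; omega
      · simp [h]
    · simp only [hPQ, if_false]; omega
    · rw [row_sum F {P, A, C} μ _ (2 * μ C) hsub]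
      · rw [Finset.sum_insert (by simp [hAP.symm, hCP.symm]), Finset.sum_pair hAC,
          Finset.card_insert_of_notMem (by simp [hAP.symm, hCP.symm]), Finset.card_pair hAC]
        simp only [if_true, hAP, hCP, if_false, hA2, hP2]
        push_cast
        rw [mul_div_assoc, mul_div_assoc, div_self hC0]
        linarith
      · intro Q _ hQ'
        simp at hQ'
        exact ⟨hμ Q hQ'.1 hQ'.2.1 hQ'.2.2, by simp [hQ'.1]⟩
  · -- n even < 2o
    refine ⟨2 * μ C, 0, P, fun Q => if Q = P then 2 * μ C - n else 2 * μ C, hP,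
      ?_, ?_, ?_, ?_, ?_⟩
    · intro Q hQ
      have h1 : Q ≠ P := fun h => hQ (h ▸ hP)
      simp [h1]
    · intro Q
      by_cases h : Q = P
      · simp only [h, if_true, hP2]; omega
      · by_cases h' : Q = A
        · simp [h', hAP, hA2]
        · by_cases h'' : Q = C
          · simp [h'', hCP]
          · simp [h, hμ Q h h' h'']
    · intro Q
      by_cases h : Q = P
      · simp only [h, if_true]; omega
      · simp [h]
    · simp only [hPQ, if_false]; omega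
    · rw [row_sum F {P, A, C} μ _ (2 * μ C) hsub]
      · rw [Finset.sum_insert (by simp [hAP.symm, hCP.symm]), Finset.sum_pair hAC,
          Finset.card_insert_of_notMem (by simp [hAP.symm, hCP.symm]), Finset.card_pair hAC]
        simp only [if_true, hAP, hCP, if_false, hA2, hP2]
        rw [Nat.cast_sub (by omega)]
        push_cast
        rw [mul_div_assoc (2 : ℚ) (μ C : ℚ) (μ C : ℚ), div_self hC0]
        have hnq : (2 : ℚ) ≤ n := by exact_mod_cast h3
        linarith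
      · intro Q _ hQ'
        simp at hQ'
        exact ⟨hμ Q hQ'.1 hQ'.2.1 hQ'.2.2, by simp [hQ'.1]⟩
  · -- n odd, 3 ≤ n < 2o
    refine ⟨2 * μ C, 1, P, fun Q => if Q = P then 2 * μ C + 1 - n else 2 * μ C, hP,
      ?_, ?_, ?_, ?_, ?_⟩
    · intro Q hQ
      have h1 : Q ≠ P := fun h => hQ (h ▸ hP)
      simp [h1]
    · intro Q
      by_cases h : Q = P
      · simp only [h, if_true, hP2]; omega
      · by_cases h' : Q = A
        · simp [h', hAP, hA2]
        · by_cases h'' : Q = C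
          · simp [h'', hCP]
          · simp [h, hμ Q h h' h'']
    · intro Q
      by_cases h : Q = P
      · simp only [h, if_true]; omega
      · simp [h]
    · simp only [hPQ, if_false]; omega
    · rw [row_sum F {P, A, C} μ _ (2 * μ C) hsub]
      · rw [Finset.sum_insert (by simp [hAP.symm, hCP.symm]), Finset.sum_pair hAC,
          Finset.card_insert_of_notMem (by simp [hAP.symm, hCP.symm]), Finset.card_pair hAC]
        simp only [if_true, hAP, hCP, if_false, hA2, hP2]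
        rw [Nat.cast_sub (by omega)]
        push_cast
        rw [mul_div_assoc (2 : ℚ) (μ C : ℚ) (μ C : ℚ), div_self hC0]
        have hnq : (3 : ℚ) ≤ n := by exact_mod_cast h3
        linarith
      · intro Q _ hQ'
        simp at hQ'
        exact ⟨hμ Q hQ'.1 hQ'.2.1 hQ'.2.2, by simp [hQ'.1]⟩

omit [DecidableEq ι] in
theorem term_nonneg (hμ1 : ∀ Q, 1 ≤ μ Q) (Q : ι) : (0 : ℚ) ≤ 1 - 1 / (μ Q : ℚ) := by
  have h : (1 : ℚ) ≤ μ Q := by exact_mod_cast hμ1 Q
  have : 1 / (μ Q : ℚ) ≤ 1 := by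
    rw [div_le_one (by linarith)]; exact h
  linarith

omit [DecidableEq ι] in
theorem half_sum (hμ1 : ∀ Q, 1 ≤ μ Q) (S : Finset ι) (hS : S ⊆ F) (h2 : ∀ Q ∈ S, 2 ≤ μ Q) :
    (S.card : ℚ) / 2 ≤ ∑ Q ∈ F, (1 - 1 / (μ Q : ℚ)) := by
  have h1 : ∑ Q ∈ S, (1 - 1 / (μ Q : ℚ)) ≤ ∑ Q ∈ F, (1 - 1 / (μ Q : ℚ)) :=
    Finset.sum_le_sum_of_subset_of_nonneg hS (fun Q _ _ => term_nonneg hμ1 Q)
  have h3 : ∑ _Q ∈ S, (1 / 2 : ℚ) ≤ ∑ Q ∈ S, (1 - 1 / (μ Q : ℚ)) := by
    apply Finset.sum_le_sum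
    intro Q hQ
    have h : (2 : ℚ) ≤ μ Q := by exact_mod_cast h2 Q hQ
    have : 1 / (μ Q : ℚ) ≤ 1 / 2 := one_div_le_one_div_of_le (by norm_num) h
    linarith
  rw [Finset.sum_const, nsmul_eq_mul] at h3
  linarith

theorem triple (hμ1 : ∀ Q, 1 ≤ μ Q) {A B C : ι} (hA : A ∈ F) (hB : B ∈ F) (hC : C ∈ F)
    (hAB : A ≠ B) (hAC : A ≠ C) (hBC : B ≠ C) (hA2 : 2 ≤ μ A) (hB2 : 2 ≤ μ B) (hC2 : 2 ≤ μ C)
    (hμ : ∀ Q ∈ F, Q ≠ A → Q ≠ B → Q ≠ C → μ Q = 1)
    (d : ℚ) (h0 : 0 < d) (h1 : d < 2 - ∑ Q ∈ F, (1 - 1 / (μ Q : ℚ)))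
    (h2 : ∀ N : ℕ, (∀ Q ∈ F, μ Q ∣ N) → ∃ t : ℤ, d * N = t) :
    (μ A = 2 ∧ μ B = 2 ∧ Odd (μ C)) ∨ (μ A = 2 ∧ μ C = 2 ∧ Odd (μ B)) ∨
      (μ B = 2 ∧ μ C = 2 ∧ Odd (μ A)) := by
  obtain ⟨t, ht⟩ := h2 (Nat.lcm (μ A) (Nat.lcm (μ B) (μ C))) (by
    intro Q hQ
    by_cases hqa : Q = A
    · rw [hqa]; exact Nat.dvd_lcm_left _ _
    by_cases hqb : Q = B
    · rw [hqb]; exact (Nat.dvd_lcm_left _ _).trans (Nat.dvd_lcm_right _ _)
    by_cases hqc : Q = C
    · rw [hqc]; exact (Nat.dvd_lcm_right _ _).trans (Nat.dvd_lcm_right _ _)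
    rw [hμ Q hQ hqa hqb hqc]; exact one_dvd _)
  refine plato (μ A) (μ B) (μ C) hA2 hB2 hC2 d _ t rfl ht h0 ?_
  have h3 : ∑ Q ∈ ({A, B, C} : Finset ι), (1 - 1 / (μ Q : ℚ)) ≤ ∑ Q ∈ F, (1 - 1 / (μ Q : ℚ)) := by
    apply Finset.sum_le_sum_of_subset_of_nonneg
    · intro x hx; simp at hx; rcases hx with rfl | rfl | rfl <;> assumption
    · intro Q _ _; exact term_nonneg hμ1 Q
  rw [Finset.sum_insert (by simp [hAB, hAC]), Finset.sum_pair hBC] at h3
  linarith

/-- **The table.**  `F` is a finite set of places, `μ` the multiplicities (`1` outside `F`),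
`n ≥ 1` the height of the given valuation at `P`, and `d` a positive rational number with
`d < 2 - ∑ (1 - 1/μ)` such that `d * N` is an integer for all common multiples `N` of the `μ`.
Then there are heights `ν Q`, multiples of `μ Q`, with `ν + n δ_P = j + r δ_{Qs}` and
`∑_F ν Q / μ Q ≤ 1 + j (|F| - 2)`. -/
theorem table (hP : P ∈ F) (hPQ : Q₁ ≠ P) (hn : 1 ≤ n) (hμ1 : ∀ Q, 1 ≤ μ Q)
    (hμF : ∀ Q, Q ∉ F → μ Q = 1) (d : ℚ) (h0 : 0 < d)
    (h1 : d < 2 - ∑ Q ∈ F, (1 - 1 / (μ Q : ℚ)))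
    (h2 : ∀ N : ℕ, (∀ Q ∈ F, μ Q ∣ N) → ∃ t : ℤ, d * N = t) :
    Sol F μ P Q₁ n := by
  classical
  set G : Finset ι := F.filter (fun Q => Q ≠ P ∧ μ Q ≠ 1) with hG
  have hGF : G ⊆ F := Finset.filter_subset _ _
  have hGm : ∀ Q, Q ∈ G ↔ Q ∈ F ∧ Q ≠ P ∧ μ Q ≠ 1 := by
    intro Q; rw [hG, Finset.mem_filter]
  have hG2 : ∀ Q ∈ G, 2 ≤ μ Q := by
    intro Q hQ
    have h3 := ((hGm Q).1 hQ).2.2
    have h4 := hμ1 Q
    omega
  have hone : ∀ Q, Q ≠ P → Q ∉ G → μ Q = 1 := by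
    intro Q hQP hQG
    by_cases hQF : Q ∈ F
    · by_contra h
      exact hQG ((hGm Q).2 ⟨hQF, hQP, h⟩)
    · exact hμF Q hQF
  have hcard : G.card ≤ 3 := by
    by_contra h
    have h4 : (4 : ℚ) ≤ G.card := by exact_mod_cast (by omega : 4 ≤ G.card)
    have := half_sum hμ1 G hGF hG2
    linarith
  rcases (by omega : G.card = 0 ∨ G.card = 1 ∨ G.card = 2 ∨ G.card = 3) with hc | hc | hc | hc
  · rw [Finset.card_eq_zero] at hc
    exact row1 hP hPQ hn (fun Q hQ => hone Q hQ (by rw [hc]; simp))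
  · rw [Finset.card_eq_one] at hc
    obtain ⟨A, hA⟩ := hc
    have hAG : A ∈ G := by rw [hA]; simp
    obtain ⟨hAF, hAP, _⟩ := (hGm A).1 hAG
    have hμ' : ∀ Q, Q ≠ P → Q ≠ A → μ Q = 1 := fun Q h h' => hone Q h (by rw [hA]; simpa using h')
    rcases le_total (μ A) n with h | h
    · exact row2a hP hPQ hAF hAP h (hμ1 A) hμ'
    · exact row2b hP hPQ hn hAF hAP h hμ'
  · rw [Finset.card_eq_two] at hc
    obtain ⟨A, B, hAB, hABG⟩ := hc
    have hAG : A ∈ G := by rw [hABG]; simp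
    have hBG : B ∈ G := by rw [hABG]; simp
    obtain ⟨hAF, hAP, _⟩ := (hGm A).1 hAG
    obtain ⟨hBF, hBP, _⟩ := (hGm B).1 hBG
    have hμ' : ∀ Q, Q ≠ P → Q ≠ A → Q ≠ B → μ Q = 1 := fun Q h h' h'' =>
      hone Q h (by rw [hABG]; simp [h', h''])
    by_cases hμP : μ P = 1
    · rcases le_total (μ B) (μ A) with h | h
      · exact row3 hP hPQ hn hAF hBF hAP hBP hAB hμP h (hG2 B hBG) hμ'
      · exact row3 hP hPQ hn hBF hAF hBP hAP hAB.symm hμP h (hG2 A hAG)
          (fun Q h1 h2 h3 => hμ' Q h1 h3 h2)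
    · have hP2 : 2 ≤ μ P := by have := hμ1 P; omega
      rcases triple hμ1 hP hAF hBF hAP.symm hBP.symm hAB hP2 (hG2 A hAG) (hG2 B hBG)
        (fun Q _ h h' h'' => hμ' Q h h' h'') d h0 h1 h2 with h | h | h
      · exact row6 hP hPQ hn hAF hBF hAP hBP hAB h.2.2 h.1 h.2.1 hμ'
      · exact row6 hP hPQ hn hBF hAF hBP hAP hAB.symm h.2.2 h.1 h.2.1
          (fun Q h1 h2 h3 => hμ' Q h1 h3 h2)
      · exact row5 hP hPQ hn hAF hBF hAP hBP hAB h.2.2 h.1 h.2.1 hμ'
  · have hμP : μ P = 1 := by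
      by_contra hne
      have hP2 : 2 ≤ μ P := by have := hμ1 P; omega
      have hPG : P ∉ G := fun h => ((hGm P).1 h).2.1 rfl
      have h4 : (insert P G).card = 4 := by rw [Finset.card_insert_of_notMem hPG, hc]
      have h5 := half_sum (F := F) hμ1 (insert P G) (Finset.insert_subset hP hGF) (by
        intro x hx
        rw [Finset.mem_insert] at hx
        rcases hx with hx | hx
        · rw [hx]; exact hP2
        · exact hG2 x hx)
      rw [h4] at h5
      push_cast at h5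
      linarith
    rw [Finset.card_eq_three] at hc
    obtain ⟨A, B, C, hAB, hAC, hBC, hABG⟩ := hc
    have hAG : A ∈ G := by rw [hABG]; simp
    have hBG : B ∈ G := by rw [hABG]; simp
    have hCG : C ∈ G := by rw [hABG]; simp
    obtain ⟨hAF, hAP, _⟩ := (hGm A).1 hAG
    obtain ⟨hBF, hBP, _⟩ := (hGm B).1 hBG
    obtain ⟨hCF, hCP, _⟩ := (hGm C).1 hCG
    have hμ' : ∀ Q, Q ≠ P → Q ≠ A → Q ≠ B → Q ≠ C → μ Q = 1 := fun Q h h1 h2 h3 =>
      hone Q h (by rw [hABG]; simp [h1, h2, h3])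
    rcases triple hμ1 hAF hBF hCF hAB hAC hBC (hG2 A hAG) (hG2 B hBG) (hG2 C hCG)
      (fun Q _ h h' h'' => by
        by_cases hQP : Q = P
        · rw [hQP]; exact hμP
        · exact hμ' Q hQP h h' h'') d h0 h1 h2 with h | h | h
    · exact row4 hP hPQ hn hAF hBF hCF hAP hBP hCP hAB hAC hBC hμP h.1 h.2.1 (hμ1 C) hμ'
    · exact row4 hP hPQ hn hAF hCF hBF hAP hCP hBP hAC hAB hBC.symm hμP h.1 h.2.1 (hμ1 B)
        (fun Q h1 h2 h3 h4 => hμ' Q h1 h2 h4 h3)
    · exact row4 hP hPQ hn hBF hCF hAF hBP hCP hAP hBC hAB.symm hAC.symm hμP h.1 h.2.1 (hμ1 A)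
        (fun Q h1 h2 h3 h4 => hμ' Q h1 h4 h2 h3)

end rows

end Pool.Agent.MP_f23696_ag.Table
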