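import Pool.Agent.Lib.MP_f23696_ag.Ctx

set_option autoImplicit false

/-!
# PROJECT LSC, module BET: choice of linear forms adapted to a submonoid of `ℤ ^ m`
-/

namespace Pool.Agent.MLD

open scoped Classical
noncomputable section

universe u v w

namespace Bet

theorem exists_den {ι : Type*} [Fintype ι] (q : ι → ℚ) :
    ∃ N : ℕ, 0 < N ∧ ∃ z : ι → ℤ, ∀ i, (z i : ℚ) = N * q i := by
  refine ⟨∏ i, (q i).den, Finset.prod_pos fun i _ => (q i).pos, ?_⟩
  have h : ∀ i, ∃ z : ℤ, (z : ℚ) = ((∏ i, (q i).den : ℕ) : ℚ) * q i := by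
    intro i
    obtain ⟨K, hK⟩ := Finset.dvd_prod_of_mem (fun i => (q i).den) (Finset.mem_univ i)
    refine ⟨K * (q i).num, ?_⟩
    rw [hK]
    push_cast
    have : (q i) * (q i).den = (q i).num := Rat.mul_den_eq_num (q i)
    rw [← this]
    ring
  choose z hz using h
  exact ⟨z, hz⟩

/-- the rational points coming from `Γ` -/
def gset {m : ℕ} (Γ : AddSubmonoid (Fin m → ℤ)) : Set (Fin m → ℚ) :=
  {x : Fin m → ℚ | ∃ u ∈ Γ, x = fun i => (u i : ℚ)}

theorem span_diff {m : ℕ} (Γ : AddSubmonoid (Fin m → ℤ)) (x : Fin m → ℚ)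
    (hx : x ∈ Submodule.span ℚ (gset Γ)) :
    ∃ M : ℕ, 0 < M ∧ ∃ u ∈ Γ, ∃ t ∈ Γ, ∀ j, (M : ℚ) * x j = (u j : ℚ) - t j := by
  induction hx using Submodule.span_induction with
  | mem x hx =>
    obtain ⟨u, hu, rfl⟩ := hx
    exact ⟨1, one_pos, u, hu, 0, Γ.zero_mem, fun j => by simp⟩
  | zero => exact ⟨1, one_pos, 0, Γ.zero_mem, 0, Γ.zero_mem, fun j => by simp⟩
  | add x y _ _ hx hy =>
    obtain ⟨M, hM, u, hu, t, ht, h⟩ := hx
    obtain ⟨M', hM', u', hu', t', ht', h'⟩ := hy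
    refine ⟨M * M', Nat.mul_pos hM hM', M' • u + M • u',
      Γ.add_mem (Γ.nsmul_mem hu _) (Γ.nsmul_mem hu' _), M' • t + M • t',
      Γ.add_mem (Γ.nsmul_mem ht _) (Γ.nsmul_mem ht' _), fun j => ?_⟩
    simp only [Pi.add_apply, Pi.smul_apply]
    simp only [nsmul_eq_mul]
    push_cast
    linear_combination (M' : ℚ) * h j + (M : ℚ) * h' j
  | smul a x _ hx =>
    obtain ⟨M, hM, u, hu, t, ht, h⟩ := hx
    have hd : a * a.den = a.num := Rat.mul_den_eq_num a
    rcases le_total 0 a.num with h0 | h0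
    · obtain ⟨n, hn⟩ := Int.eq_ofNat_of_zero_le h0
      refine ⟨M * a.den, Nat.mul_pos hM a.pos, n • u, Γ.nsmul_mem hu _, n • t,
        Γ.nsmul_mem ht _, fun j => ?_⟩
      rw [hn] at hd
      simp only [Pi.smul_apply, nsmul_eq_mul, smul_eq_mul]
      push_cast at hd ⊢
      linear_combination (n : ℚ) * h j + (M : ℚ) * x j * hd
    · obtain ⟨n, hn⟩ := Int.eq_ofNat_of_zero_le (neg_nonneg.mpr h0)
      have hn' : a.num = -(n : ℤ) := by rw [← hn]; ring
      refine ⟨M * a.den, Nat.mul_pos hM a.pos, n • t, Γ.nsmul_mem ht _, n • u,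
        Γ.nsmul_mem hu _, fun j => ?_⟩
      rw [hn'] at hd
      simp only [Pi.smul_apply, nsmul_eq_mul, smul_eq_mul]
      push_cast at hd ⊢
      linear_combination -(n : ℚ) * h j + (M : ℚ) * x j * hd

theorem exists_basis {m : ℕ} (W : Submodule ℚ (Fin m → ℚ)) :
    ∃ (B : Module.Basis (Fin m) ℚ (Fin m → ℚ)) (I : Finset (Fin m)),
      I.card = Module.finrank ℚ W ∧ (∀ i ∈ I, B i ∈ W) ∧
      ∀ i ∉ I, ∀ x ∈ W, B.repr x i = 0 := by
  obtain ⟨W', hW'⟩ := W.exists_isCompl
  let b1 := Module.finBasis ℚ W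
  let b2 := Module.finBasis ℚ W'
  let b12 := (b1.prod b2).map (Submodule.prodEquivOfIsCompl W W' hW')
  have hcard : Fintype.card (Fin (Module.finrank ℚ W) ⊕ Fin (Module.finrank ℚ W')) = m := by
    rw [← Module.finrank_eq_card_basis b12]
    simp
  let σ := Fintype.equivFinOfCardEq hcard
  refine ⟨b12.reindex σ, Finset.univ.map (Function.Embedding.inl.trans σ.toEmbedding), ?_, ?_, ?_⟩
  · simp
  · intro i hi
    simp only [Finset.mem_map, Finset.mem_univ, true_and] at hi
    obtain ⟨a, rfl⟩ := hi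
    rw [Module.Basis.reindex_apply]
    simp [b12, Submodule.prodEquivOfIsCompl]
  · intro i hi x hx
    rw [Module.Basis.repr_reindex_apply]
    rcases h : σ.symm i with a | c
    · exfalso
      apply hi
      simp only [Finset.mem_map, Finset.mem_univ, true_and]
      refine ⟨a, ?_⟩
      have := congrArg σ h
      simpa using this.symm
    · have h1 : (Submodule.prodEquivOfIsCompl W W' hW').symm x = (⟨x, hx⟩, 0) :=
        Submodule.prodEquivOfIsCompl_symm_apply_left W W' hW' ⟨x, hx⟩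
      simp [b12, h1]

end Bet

theorem beta {m : ℕ} (Γ : AddSubmonoid (Fin m → ℤ)) :
    ∃ (β : Matrix (Fin m) (Fin m) ℤ) (I : Finset (Fin m)) (α : ℤ) (e : Fin m → Fin m → ℤ),
      β.det ≠ 0 ∧
      I.card = Module.finrank ℚ (Submodule.span ℚ
        {x : Fin m → ℚ | ∃ u ∈ Γ, x = fun i => (u i : ℚ)}) ∧
      (∀ u ∈ Γ, ∀ i ∉ I, ∑ j, β i j * u j = 0) ∧ 0 < α ∧
      (∀ i i', ∑ j, β i' j * e i j = if i = i' then α else 0) ∧
      (∀ i ∈ I, ∃ u ∈ Γ, ∃ t ∈ Γ, e i + t = u) ∧
      ∀ w : Fin m → ℤ, (∀ u ∈ Γ, ∑ i, w i * u i = 0) →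
        ∃ l : Fin m → ℚ, ∀ j, (w j : ℚ) = ∑ i ∈ Iᶜ, l i * β i j := by
  obtain ⟨B, I, hI, hIW, hIc⟩ := Bet.exists_basis (Submodule.span ℚ (Bet.gset Γ))
  -- coordinates of the standard basis vectors
  have hrep : ∀ (x : Fin m → ℚ) (i : Fin m),
      B.repr x i = ∑ j, B.repr (Pi.single j 1) i * x j := by
    intro x i
    conv_lhs => rw [← Finset.univ_sum_single x]
    rw [map_sum, Finsupp.finsetSum_apply]
    refine Finset.sum_congr rfl fun j _ => ?_
    have : (Pi.single j (x j) : Fin m → ℚ) = x j • Pi.single j 1 := by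
      rw [← Pi.single_smul, smul_eq_mul, mul_one]
    rw [this, map_smul, Finsupp.smul_apply, smul_eq_mul, mul_comm]
  obtain ⟨N, hN, z, hz⟩ := Bet.exists_den
    (fun p : Fin m × Fin m => B.repr (Pi.single p.2 1) p.1)
  have hz' : ∀ i j, (z (i, j) : ℚ) = N * B.repr (Pi.single j 1) i := fun i j => hz (i, j)
  have hN0 : (N : ℚ) ≠ 0 := by exact_mod_cast hN.ne'
  have hzsum : ∀ (x : Fin m → ℚ) (i : Fin m), ∑ j, (z (i, j) : ℚ) * x j = N * B.repr x i := by
    intro x i
    rw [hrep, Finset.mul_sum]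
    refine Finset.sum_congr rfl fun j _ => ?_
    rw [hz']
    ring
  have hE : ∀ i, ∃ M : ℕ, 0 < M ∧ ∃ e : Fin m → ℤ, (∀ j, (e j : ℚ) = M * B i j) ∧
      (i ∈ I → ∃ u ∈ Γ, ∃ t ∈ Γ, e + t = u) := by
    intro i
    by_cases hi : i ∈ I
    · obtain ⟨M, hM, u, hu, t, ht, h⟩ := Bet.span_diff Γ (B i) (hIW i hi)
      exact ⟨M, hM, u - t, fun j => by rw [h j]; simp, fun _ => ⟨u, hu, t, ht, by simp⟩⟩
    · obtain ⟨M, hM, e, he⟩ := Bet.exists_den (B i)
      exact ⟨M, hM, e, he, fun h => absurd h hi⟩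
  choose M hM e he heI using hE
  have hK : ∀ i, ∃ K : ℕ, (∏ i, M i) = M i * K := fun i =>
    Finset.dvd_prod_of_mem M (Finset.mem_univ i)
  choose K hK using hK
  have hP : 0 < ∏ i, M i := Finset.prod_pos fun i _ => hM i
  have heq : ∀ i j, ((K i * e i j : ℤ) : ℚ) = ((∏ i, M i : ℕ) : ℚ) * B i j := by
    intro i j
    rw [hK i]
    push_cast
    rw [he i j]
    ring
  have hdet : (Matrix.of fun i j => z (i, j)).det ≠ 0 := by
    intro h0
    have h1 : ((Matrix.of fun i j => z (i, j)).map (Int.castRingHom ℚ)).det = 0 := by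
      rw [← RingHom.mapMatrix_apply, ← RingHom.map_det, h0, map_zero]
    have h2 : (Matrix.of fun i j => z (i, j)).map (Int.castRingHom ℚ) =
        (N : ℚ) • B.toMatrix (Pi.basisFun ℚ (Fin m)) := by
      ext i j
      simp [Module.Basis.toMatrix_apply, hz']
    rw [h2, Matrix.det_smul, mul_eq_zero] at h1
    rcases h1 with h1 | h1
    · exact pow_ne_zero _ hN0 h1
    · have := B.isUnit_det (Pi.basisFun ℚ (Fin m))
      rw [Module.Basis.det_apply] at this
      exact this.ne_zero h1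
  refine ⟨Matrix.of fun i j => z (i, j), I, (N : ℤ) * ((∏ i, M i : ℕ) : ℤ),
    fun i j => K i * e i j, hdet, hI, ?_, ?_, ?_, ?_, ?_⟩
  · intro u hu i hi
    have h1 := hzsum (fun j => (u j : ℚ)) i
    rw [hIc i hi _ (Submodule.subset_span ⟨u, hu, rfl⟩), mul_zero] at h1
    simp only [Matrix.of_apply]
    exact_mod_cast h1
  · positivity
  · intro i i'
    simp only [Matrix.of_apply]
    have h1 : ∑ j, ((z (i', j) : ℚ) * ((K i * e i j : ℤ) : ℚ)) =
        if i = i' then ((N : ℚ) * ((∏ i, M i : ℕ) : ℚ)) else 0 := by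
      calc ∑ j, ((z (i', j) : ℚ) * ((K i * e i j : ℤ) : ℚ))
          = ((∏ i, M i : ℕ) : ℚ) * ∑ j, (z (i', j) : ℚ) * B i j := by
            rw [Finset.mul_sum]
            refine Finset.sum_congr rfl fun j _ => ?_
            rw [heq]
            ring
        _ = _ := by
            rw [hzsum, Module.Basis.repr_self, Finsupp.single_apply]
            split_ifs <;> ring
    split_ifs at h1 ⊢ with hii
    · exact_mod_cast h1
    · exact_mod_cast h1
  · intro i hi
    obtain ⟨u, hu, t, ht, h⟩ := heI i hi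
    refine ⟨K i • u, Γ.nsmul_mem hu _, K i • t, Γ.nsmul_mem ht _, ?_⟩
    rw [← h]
    ext j
    simp [mul_add]
  · intro w hw
    -- the linear form `w` vanishes on `W`
    have hW : ∀ x ∈ Submodule.span ℚ (Bet.gset Γ), ∑ j, (w j : ℚ) * x j = 0 := by
      intro x hx
      induction hx using Submodule.span_induction with
      | mem x hx =>
        obtain ⟨u, hu, rfl⟩ := hx
        have h2 : ((∑ i, w i * u i : ℤ) : ℚ) = 0 := by rw [hw u hu, Int.cast_zero]
        push_cast at h2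
        exact h2
      | zero => simp
      | add x y _ _ hx hy =>
        simp only [Pi.add_apply, mul_add, Finset.sum_add_distrib, hx, hy, add_zero]
      | smul a x _ hx =>
        have : ∑ j, (w j : ℚ) * (a • x) j = a * ∑ j, (w j : ℚ) * x j := by
          rw [Finset.mul_sum]
          refine Finset.sum_congr rfl fun j _ => ?_
          simp only [Pi.smul_apply, smul_eq_mul]
          ring
        rw [this, hx, mul_zero]
    refine ⟨fun i => (∑ j, (w j : ℚ) * B i j) / N, fun j => ?_⟩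
    have h1 : ∀ i ∈ I, ∑ j, (w j : ℚ) * B i j = 0 := fun i hi => hW _ (hIW i hi)
    have h2 : (Pi.single j 1 : Fin m → ℚ) = ∑ i, B.repr (Pi.single j 1) i • B i :=
      (B.sum_repr _).symm
    have h3 : (w j : ℚ) = ∑ j', (w j' : ℚ) * (Pi.single j 1 : Fin m → ℚ) j' := by
      simp [Pi.single_apply]
    have h4 : (w j : ℚ) = ∑ i, B.repr (Pi.single j 1) i * ∑ j', (w j' : ℚ) * B i j' := by
      rw [h3, h2]
      simp only [Finset.sum_apply, Pi.smul_apply, smul_eq_mul, Finset.mul_sum]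
      rw [Finset.sum_comm]
      refine Finset.sum_congr rfl fun i _ => Finset.sum_congr rfl fun j' _ => ?_
      rw [← h2]
      ring
    rw [h4, ← Finset.sum_add_sum_compl I, Finset.sum_eq_zero (s := I), zero_add]
    · refine Finset.sum_congr rfl fun i _ => ?_
      simp only [Matrix.of_apply]
      rw [hz']
      field_simp
    · intro i hi
      rw [h1 i hi, mul_zero]

end

end Pool.Agent.MLD
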