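import Pool.Agent.Lib.MP_f23696_ag.Ctx

/-!
# The bridge from the transcendence basis to the internal vocabulary (module BRG)
-/

namespace Pool.Agent.MLD

open scoped Classical
noncomputable section

universe u v w

namespace Brg

variable {k : Type u} [Field k] {m : ℕ} {K : Type v} [Field K] [Algebra k K]

/-- the embedding of the rational functions in one variable -/
def iot (t : K) (ht : Transcendental k t) : RatFunc k →ₐ[k] K :=
  RatFunc.liftAlgHom (Polynomial.aeval t) (by
    intro p hp
    have h0 : p ≠ 0 := nonZeroDivisors.ne_zero hp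
    rw [Submonoid.mem_comap]
    apply mem_nonZeroDivisors_of_ne_zero
    intro h
    exact h0 ((transcendental_iff.mp ht) p h))

theorem iot_poly (t : K) (ht : Transcendental k t) (p : Polynomial k) :
    iot t ht (algebraMap _ _ p) = Polynomial.aeval t p := by
  rw [iot, RatFunc.liftAlgHom_apply]
  simp

theorem iot_X (t : K) (ht : Transcendental k t) : iot t ht RatFunc.X = t := by
  rw [← RatFunc.algebraMap_X, iot_poly, Polynomial.aeval_X]

theorem adjoin_eq (t : K) (ht : Transcendental k t) (f : K) :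
    f ∈ IntermediateField.adjoin k {t} ↔ ∃ g, f = iot t ht g := by
  constructor
  · intro h
    have h1 : IntermediateField.adjoin k {t} ≤ (iot t ht).fieldRange := by
      rw [IntermediateField.adjoin_le_iff, Set.singleton_subset_iff]
      exact ⟨RatFunc.X, iot_X t ht⟩
    obtain ⟨g, hg⟩ := h1 h
    exact ⟨g, hg.symm⟩
  · rintro ⟨g, rfl⟩
    have hp : ∀ p : Polynomial k, Polynomial.aeval t p ∈ IntermediateField.adjoin k {t} := by
      intro p
      exact IntermediateField.algebra_adjoin_le_adjoin k {t}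
        (Polynomial.aeval_mem_adjoin_singleton k t)
    rw [← RatFunc.num_div_denom g, map_div₀, iot_poly, iot_poly]
    exact div_mem (hp _) (hp _)

theorem mv_zero (s : Finset (Fin m → ℤ)) (p : (Fin m → ℤ) → Polynomial k)
    (e : (Fin m → ℤ) → (Fin m →₀ ℕ)) (he : ∀ u ∈ s, ∀ v ∈ s, e u = e v → u = v)
    (h : ∑ u ∈ s, Polynomial.aeval (MvPolynomial.X (0 : Fin (m + 1)) : MvPolynomial _ k) (p u) *
      ∏ i, (MvPolynomial.X (Fin.succ i) : MvPolynomial (Fin (m + 1)) k) ^ (e u i) = 0) :
    ∀ u ∈ s, p u = 0 := by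
  intro u hu
  have h1 := congrArg (MvPolynomial.finSuccEquiv k m) h
  rw [map_zero, map_sum] at h1
  have e1 : ∀ v, MvPolynomial.finSuccEquiv k m
      (Polynomial.aeval (MvPolynomial.X (0 : Fin (m + 1)) : MvPolynomial _ k) (p v)) =
      (p v).map (MvPolynomial.C : k →+* MvPolynomial (Fin m) k) := by
    intro v
    rw [← AlgEquiv.toAlgHom_apply, ← Polynomial.aeval_algHom_apply]
    rw [AlgEquiv.toAlgHom_apply, MvPolynomial.finSuccEquiv_X_zero]
    rw [Polynomial.aeval_X_left_eq_map]
    rfl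
  have e2 : ∀ v, MvPolynomial.finSuccEquiv k m
      (∏ i, (MvPolynomial.X (Fin.succ i) : MvPolynomial (Fin (m + 1)) k) ^ (e v i)) =
      Polynomial.C (MvPolynomial.monomial (e v) (1 : k)) := by
    intro v
    rw [map_prod]
    have : ∀ i, MvPolynomial.finSuccEquiv k m
        ((MvPolynomial.X (Fin.succ i) : MvPolynomial (Fin (m + 1)) k) ^ (e v i)) =
        Polynomial.C ((MvPolynomial.X i) ^ (e v i)) := by
      intro i
      rw [map_pow, MvPolynomial.finSuccEquiv_X_succ, ← Polynomial.C_pow]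
    simp only [this]
    rw [← map_prod]
    congr 1
    rw [MvPolynomial.monomial_eq]
    simp [Finsupp.prod_fintype]
  ext j
  have h2 := congrArg (fun P => MvPolynomial.coeff (e u) (Polynomial.coeff P j)) h1
  simp only [map_mul, e1, e2, Polynomial.finsetSum_coeff, Polynomial.coeff_mul_C,
    Polynomial.coeff_map, Polynomial.coeff_zero, MvPolynomial.coeff_zero,
    MvPolynomial.coeff_sum] at h2
  rw [Finset.sum_eq_single_of_mem u hu] at h2
  · simpa [MvPolynomial.C_mul_monomial] using h2
  · intro v hv hne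
    rw [MvPolynomial.C_mul_monomial, MvPolynomial.coeff_monomial, if_neg]
    intro h3
    exact hne (he v hv u hu h3)

theorem li (y : Fin (m + 1) → K) (hind : AlgebraicIndependent k y) (ht : Transcendental k (y 0))
    (s : Finset (Fin m → ℤ)) (g : (Fin m → ℤ) → RatFunc k)
    (h : ∑ u ∈ s, iot (y 0) ht (g u) * ∏ i, y (Fin.succ i) ^ u i = 0) : ∀ u ∈ s, g u = 0 := by
  obtain ⟨b, hb⟩ := IsLocalization.exist_integer_multiples (nonZeroDivisors (Polynomial k)) s g
  have hb0 : (b : Polynomial k) ≠ 0 := nonZeroDivisors.ne_zero b.2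
  have hp : ∀ u, ∃ p : Polynomial k, u ∈ s → algebraMap (Polynomial k) (RatFunc k) p =
      algebraMap (Polynomial k) (RatFunc k) (b : Polynomial k) * g u := by
    intro u
    by_cases hu : u ∈ s
    · obtain ⟨p, hp⟩ := hb u hu
      refine ⟨p, fun _ => ?_⟩
      rw [hp, Algebra.smul_def]
    · exact ⟨0, fun h => absurd h hu⟩
  choose p hp using hp
  set N : ℕ := ∑ u ∈ s, ∑ i, (u i).natAbs with hN
  have hN1 : ∀ u ∈ s, ∀ i, 0 ≤ u i + N := by
    intro u hu i
    have h1 : (u i).natAbs ≤ ∑ i, (u i).natAbs :=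
      Finset.single_le_sum (f := fun i => (u i).natAbs) (fun _ _ => Nat.zero_le _)
        (Finset.mem_univ i)
    have h2 : ∑ i, (u i).natAbs ≤ N :=
      Finset.single_le_sum (f := fun u : Fin m → ℤ => ∑ i, (u i).natAbs)
        (fun _ _ => Nat.zero_le _) hu
    omega
  set e : (Fin m → ℤ) → (Fin m →₀ ℕ) := fun u =>
    Finsupp.equivFunOnFinite.symm (fun i => (u i + N).toNat) with he
  have he1 : ∀ u i, e u i = (u i + N).toNat := fun u i => rfl
  have hy : ∀ i, y i ≠ 0 := fun i => hind.ne_zero i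
  have key : ∑ u ∈ s, Polynomial.aeval (MvPolynomial.X (0 : Fin (m + 1)) :
      MvPolynomial _ k) (p u) *
      ∏ i, (MvPolynomial.X (Fin.succ i) : MvPolynomial (Fin (m + 1)) k) ^ (e u i) = 0 := by
    have hinj := hind
    rw [AlgebraicIndependent] at hinj
    apply hinj
    rw [map_zero, map_sum]
    have h2 : iot (y 0) ht (algebraMap _ _ (b : Polynomial k)) * (∏ i : Fin m, y (Fin.succ i) ^ N) *
        (∑ u ∈ s, iot (y 0) ht (g u) * ∏ i, y (Fin.succ i) ^ u i) = 0 := by
      rw [h, mul_zero]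
    rw [← h2, Finset.mul_sum]
    apply Finset.sum_congr rfl
    intro u hu
    rw [map_mul, map_prod]
    have e1 : (MvPolynomial.aeval y) (Polynomial.aeval (MvPolynomial.X (0 : Fin (m + 1)) :
        MvPolynomial _ k) (p u)) = iot (y 0) ht (algebraMap _ _ (b : Polynomial k)) *
        iot (y 0) ht (g u) := by
      rw [← map_mul, ← hp u hu, iot_poly, ← Polynomial.aeval_algHom_apply, MvPolynomial.aeval_X]
    rw [e1]
    have e2 : ∏ i, (MvPolynomial.aeval y) ((MvPolynomial.X (Fin.succ i) :
        MvPolynomial (Fin (m + 1)) k) ^ (e u i)) =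
        (∏ i : Fin m, y (Fin.succ i) ^ N) * ∏ i, y (Fin.succ i) ^ u i := by
      rw [← Finset.prod_mul_distrib]
      apply Finset.prod_congr rfl
      intro i _
      rw [map_pow, MvPolynomial.aeval_X, he1, ← zpow_natCast, Int.toNat_of_nonneg (hN1 u hu i),
        zpow_add₀ (hy _), zpow_natCast, mul_comm]
    rw [e2]
    ring
  intro u hu
  have h3 := mv_zero s p e (by
    intro v hv w hw hvw
    funext i
    have h4 := congrArg (fun f => f i) hvw
    simp only [he1] at h4
    have h5 := hN1 v hv i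
    have h6 := hN1 w hw i
    omega) key u hu
  have h4 := hp u hu
  rw [h3, map_zero] at h4
  rcases mul_eq_zero.mp h4.symm with h5 | h5
  · exfalso
    apply hb0
    have h6 : Function.Injective (algebraMap (Polynomial k) (RatFunc k)) :=
      IsFractionRing.injective _ _
    apply h6
    rw [h5, map_zero]
  · exact h5

end Brg

variable {k : Type u} [Field k] [CharZero k] {m : ℕ} {K : Type v} [Field K]
  [Algebra k K]

theorem bridge (y : Fin (m + 1) → K) (hind : AlgebraicIndependent k y)
    (hgen : IntermediateField.adjoin k (Set.range y) = ⊤)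
    (D : Fin (m + 1) → Derivation k K K) (hD : ∀ i j, D i (y j) = if i = j then 1 else 0) :
    ∃ C : Ctx k K m, C.der = D ∧ C.ι RatFunc.X = y 0 ∧ (∀ i, C.x i = y i.succ) ∧
      ∀ f : K, IsSemiInv (k := k) y f ↔ ∃ g u, f = C.mon g u := by
  have ht : Transcendental k (y 0) := hind.transcendental 0
  have hX := Brg.iot_X (y 0) ht
  refine ⟨⟨Brg.iot (y 0) ht, fun i => y i.succ, fun i => hind.ne_zero _, ?_, ?_, D, ?_, ?_, ?_, ?_⟩,
    rfl, hX, fun _ => rfl, ?_⟩
  · exact Brg.li y hind ht
  · rw [hX, ← hgen]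
    congr 1
    ext f
    constructor
    · rintro (h | ⟨i, h⟩)
      · exact ⟨0, h.symm⟩
      · exact ⟨i.succ, h⟩
    · rintro ⟨i, rfl⟩
      refine Fin.cases ?_ (fun i => ?_) i
      · exact Or.inl rfl
      · exact Or.inr ⟨i, rfl⟩
  · rw [hX, hD, if_pos rfl]
  · intro i
    rw [hD, if_neg (Fin.succ_ne_zero i).symm]
  · intro j
    rw [hX, hD, if_neg (Fin.succ_ne_zero j)]
  · intro j i
    rw [hD]
    simp only [Fin.succ_inj]
    by_cases h : i = j
    · rw [if_pos h, if_pos h.symm]
    · rw [if_neg h, if_neg (fun h' => h h'.symm)]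
  · intro f
    rw [IsSemiInv]
    constructor
    · rintro ⟨g, hg, w, rfl⟩
      obtain ⟨g', rfl⟩ := (Brg.adjoin_eq (y 0) ht g).mp hg
      exact ⟨g', w, rfl⟩
    · rintro ⟨g, u, rfl⟩
      exact ⟨_, (Brg.adjoin_eq (y 0) ht _).mpr ⟨g, rfl⟩, u, rfl⟩

end

end Pool.Agent.MLD
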