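import Pool.Agent.Lib.MP_f23696_ag.Defs

/-!
Definitions for the lower semicontinuity of minimal log discrepancies of varieties with a torus
action of complexity one and arbitrary quotient curve (MP_f23696_ag).
-/

namespace Pool.Agent.MLD

universe u v

variable {k : Type u} {K : Type v} [Field k] [Field K] [Algebra k K]

/-- `f` is a semi-invariant rational function: `f = g y_1^{u_1} ⋯ y_m^{u_m}` with `g` in the field
`K₀` of invariants. -/
def IsSemiInvC (K₀ : IntermediateField k K) {m : ℕ} (y : Fin (m + 1) → K) (f : K) : Prop :=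
  ∃ g ∈ K₀, ∃ w : Fin m → ℤ, f = g * ∏ i, y i.succ ^ w i

/-- `p` is generated by semi-invariant elements (`V(p)` is stable under the torus). -/
def IsInvIdealC (K₀ : IntermediateField k K) {m : ℕ} (y : Fin (m + 1) → K) {A : Subalgebra k K}
    (p : Ideal A) : Prop :=
  p = Ideal.span {a : A | a ∈ p ∧ IsSemiInvC K₀ y (a : K)}

end Pool.Agent.MLD
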