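import Pool.Agent.Lib.MP_f23696_ag.Ctx

/-!
LSC module DVR: height one primes of normal Noetherian domains are discrete valuations.
-/

namespace Pool.Agent.MLD

open scoped Classical
noncomputable section

universe u v w

namespace Dvr

open IsDedekindDomain WithZero

theorem core {A : Type u} [CommRing A] [IsDomain A] [IsNoetherianRing A] [IsIntegrallyClosed A]
    {K : Type v} [Field K] [Algebra A K] [IsFractionRing A K] (p : Ideal A) [p.IsPrime]
    (hp0 : p ≠ ⊥) (hp : ∀ q : Ideal A, q.IsPrime → q ≠ ⊥ → q ≤ p → q = p) :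
    ∃ w : Valuation K (WithZero (Multiplicative ℤ)),
      (∀ a : A, w (algebraMap A K a) ≤ 1) ∧ (∀ a : A, w (algebraMap A K a) < 1 ↔ a ∈ p) ∧
      (∃ π : K, w π = WithZero.exp (-1 : ℤ)) ∧
      ∀ f : K, w f ≤ 1 → ∃ s : A, s ∉ p ∧ ∃ a : A, algebraMap A K s * f = algebraMap A K a := by
  have hS : p.primeCompl ≤ nonZeroDivisors A := Ideal.primeCompl_le_nonZeroDivisors p
  let B := Localization.AtPrime p
  let _ : Algebra B K := (IsLocalization.lift (M := p.primeCompl) (g := algebraMap A K)
    (fun y => IsUnit.mk0 _ ((map_ne_zero_iff _ (IsFractionRing.injective A K)).2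
      (nonZeroDivisors.ne_zero (hS y.2))))).toAlgebra
  have : IsScalarTower A B K := IsScalarTower.of_algebraMap_eq fun a => by
    change _ = IsLocalization.lift _ _
    rw [IsLocalization.lift_eq]
  have : IsFractionRing B K := IsFractionRing.isFractionRing_of_isDomain_of_isLocalization
    p.primeCompl B K
  have : IsDomain B := IsLocalization.isDomain_localization hS
  have : IsNoetherianRing B := IsLocalization.isNoetherianRing p.primeCompl B inferInstance
  have : IsIntegrallyClosed B := isIntegrallyClosed_of_isLocalization B p.primeCompl hS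
  have hmax : ∀ P : Ideal B, P.IsPrime → P ≠ ⊥ → P = IsLocalRing.maximalIdeal B := by
    intro P hP hP0
    have h1 : P.under A = p := by
      refine hp _ (Ideal.comap_isPrime _ _) ?_ ?_
      · intro h
        apply hP0
        rw [← IsLocalization.map_under p.primeCompl B P, h, Ideal.map_bot]
      · intro a ha
        by_contra hn
        apply hP.ne_top
        rw [Ideal.eq_top_iff_one]
        have : IsUnit (algebraMap A B a) := IsLocalization.map_units B (⟨a, hn⟩ : p.primeCompl)
        exact (Ideal.eq_top_iff_one _).1 (Ideal.eq_top_of_isUnit_mem _ ha this)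
    rw [← IsLocalization.map_under p.primeCompl B P, h1]
    exact Localization.AtPrime.map_eq_maximalIdeal
  have : Ring.DimensionLEOne B := ⟨fun {P} h0 hP => by
    rw [hmax P hP h0]; infer_instance⟩
  have : IsDedekindDomain B := { }
  have hb : IsLocalRing.maximalIdeal B ≠ ⊥ := by
    intro h
    apply hp0
    rw [eq_bot_iff]
    intro a ha
    have : algebraMap A B a ∈ IsLocalRing.maximalIdeal B :=
      (IsLocalization.AtPrime.to_map_mem_maximal_iff B p a).2 ha
    rw [h, Ideal.mem_bot] at this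
    have := (IsLocalization.injective B hS) (this.trans (map_zero _).symm)
    simpa using this
  let v : HeightOneSpectrum B := ⟨IsLocalRing.maximalIdeal B, inferInstance, hb⟩
  refine ⟨v.valuation K, ?_, ?_, v.valuation_exists_uniformizer K, ?_⟩
  · intro a
    rw [IsScalarTower.algebraMap_apply A B K]
    exact v.valuation_le_one _
  · intro a
    rw [IsScalarTower.algebraMap_apply A B K, v.valuation_lt_one_iff_mem]
    exact IsLocalization.AtPrime.to_map_mem_maximal_iff B p a
  · intro f hf
    obtain ⟨b, rfl⟩ := HeightOneSpectrum.mem_integers_of_valuation_le_one (R := B) K f (by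
      intro v'
      have : v' = v := HeightOneSpectrum.ext (hmax _ v'.isPrime v'.ne_bot)
      rw [this]; exact hf)
    obtain ⟨⟨a, s⟩, h⟩ := IsLocalization.surj p.primeCompl b
    refine ⟨s, s.2, a, ?_⟩
    have := congrArg (algebraMap B K) h
    rw [map_mul, ← IsScalarTower.algebraMap_apply, ← IsScalarTower.algebraMap_apply] at this
    rw [mul_comm]; exact this

end Dvr

variable {k : Type u} [Field k] {K : Type v} [Field K] [Algebra k K]

theorem dvr (A : Subalgebra k K) (hN : IsNoetherianRing A)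
    (hfrac : ∀ f : K, ∃ a b : A, (b : K) ≠ 0 ∧ f = (a : K) / b)
    (hnorm : ∀ f : K, IsIntegral A f → f ∈ A) (p : Ideal A) (hp : IsHeightOne p) :
    ∃ v : DVal k K, v.HasCenter A p ∧
      ∀ f : K, f ≠ 0 → (0 ≤ v.ord f ↔ ∃ s : A, s ∉ p ∧ (s : K) * f ∈ A) := by
  have : IsFractionRing A K := IsFractionRing.of_field A K fun z => by
    obtain ⟨a, b, _, h⟩ := hfrac z
    exact ⟨a, b, h⟩
  have : IsIntegrallyClosed A := by
    rw [isIntegrallyClosed_iff K]
    intro x hx
    exact ⟨⟨x, hnorm x hx⟩, rfl⟩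
  have := hp.1
  obtain ⟨w, h1, h2, ⟨π, hπ⟩, h4⟩ := Dvr.core (K := K) p hp.2.1 hp.2.2
  have hw : ∀ f : K, f ≠ 0 → w f ≠ 0 := fun f hf => (Valuation.ne_zero_iff w).2 hf
  have h0 : ∀ f : K, f ≠ 0 → (0 ≤ -(WithZero.log (w f)) ↔ w f ≤ 1) := by
    intro f hf
    rw [← WithZero.log_le_log (hw f hf) one_ne_zero, WithZero.log_one]
    omega
  have h0' : ∀ f : K, f ≠ 0 → (0 < -(WithZero.log (w f)) ↔ w f < 1) := by
    intro f hf
    rw [← WithZero.log_lt_log (hw f hf) one_ne_zero, WithZero.log_one]
    omega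
  have hnot : ∀ s : A, s ∉ p → w (s : K) = 1 := by
    intro s hs
    refine le_antisymm (h1 s) ?_
    by_contra hc
    exact hs ((h2 s).1 (not_le.1 hc))
  let v : DVal k K :=
    { ord := fun f => -(WithZero.log (w f))
      ord_mul := by
        intro a b ha hb
        simp only [map_mul]
        rw [WithZero.log_mul (hw a ha) (hw b hb)]
        ring
      ord_add := by
        intro a b ha hb hab
        rcases le_total (w a) (w b) with h | h
        · have h3 : w (a + b) ≤ w b := (w.map_add a b).trans (max_le h le_rfl)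
          have := (WithZero.log_le_log (hw _ hab) (hw b hb)).2 h3
          exact (min_le_right _ _).trans (neg_le_neg this)
        · have h3 : w (a + b) ≤ w a := (w.map_add a b).trans (max_le le_rfl h)
          have := (WithZero.log_le_log (hw _ hab) (hw a ha)).2 h3
          exact (min_le_left _ _).trans (neg_le_neg this)
      ord_algebraMap := by
        intro c hc
        have hc' : algebraMap k A c ≠ 0 := by
          intro h
          exact hc ((algebraMap k A).injective (h.trans (map_zero _).symm))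
        have hu : IsUnit (algebraMap k A c) := (IsUnit.mk0 c hc).map (algebraMap k A)
        have hnp : algebraMap k A c ∉ p := fun h => hp.1.ne_top (Ideal.eq_top_of_isUnit_mem _ h hu)
        have := hnot _ hnp
        change -(WithZero.log (w (algebraMap k K c))) = 0
        have h5 : algebraMap k K c = ((algebraMap k A c : A) : K) := rfl
        rw [h5, this, WithZero.log_one, neg_zero]
      exists_ord_eq_one := by
        refine ⟨π, ?_, ?_⟩
        · rintro rfl
          rw [map_zero] at hπ
          exact WithZero.exp_ne_zero hπ.symm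
        · simp only [hπ, WithZero.log_exp, neg_neg] }
  refine ⟨v, ⟨?_, ?_⟩, ?_⟩
  · intro a ha
    exact (h0 _ ha).2 (h1 a)
  · intro a
    constructor
    · intro hap ha
      exact (h0' _ ha).2 ((h2 a).2 hap)
    · intro h
      by_cases ha : (a : K) = 0
      · have : a = 0 := Subtype.ext ha
        rw [this]; exact p.zero_mem
      · exact (h2 a).1 ((h0' _ ha).1 (h ha))
  · intro f hf
    change 0 ≤ -(WithZero.log (w f)) ↔ _
    rw [h0 f hf]
    constructor
    · intro h
      obtain ⟨s, hs, a, ha⟩ := h4 f h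
      exact ⟨s, hs, by
        have : (s : K) * f = (a : K) := ha
        rw [this]; exact a.2⟩
    · rintro ⟨s, hs, ha⟩
      have h5 := h1 ⟨_, ha⟩
      have h6 : algebraMap A K ⟨_, ha⟩ = (s : K) * f := rfl
      rw [h6, map_mul, hnot s hs, one_mul] at h5
      exact h5

theorem dvr_unique (A : Subalgebra k K) (hN : IsNoetherianRing A)
    (hfrac : ∀ f : K, ∃ a b : A, (b : K) ≠ 0 ∧ f = (a : K) / b)
    (hnorm : ∀ f : K, IsIntegral A f → f ∈ A) (p : Ideal A) (hp : IsHeightOne p)
    (v v' : DVal k K) (hv : v.HasCenter A p) (hv' : v'.HasCenter A p) (f : K) (hf : f ≠ 0) :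
    v.ord f = v'.ord f := by
  obtain ⟨w, hwc, hw⟩ := dvr A hN hfrac hnorm p hp
  suffices key : ∀ v : DVal k K, v.HasCenter A p → ∀ f : K, f ≠ 0 → v.ord f = w.ord f by
    rw [key v hv f hf, key v' hv' f hf]
  clear hv hv' hf f v v'
  intro v hv
  have hone : v.ord 1 = 0 := by
    have := v.ord_mul 1 1 one_ne_zero one_ne_zero
    rw [mul_one] at this; omega
  have honew : w.ord 1 = 0 := by
    have := w.ord_mul 1 1 one_ne_zero one_ne_zero
    rw [mul_one] at this; omega
  have hinvw : ∀ g : K, g ≠ 0 → w.ord g⁻¹ = -w.ord g := by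
    intro g hg
    have := w.ord_mul g g⁻¹ hg (inv_ne_zero hg)
    rw [mul_inv_cancel₀ hg, honew] at this; omega
  have hinvv : ∀ g : K, g ≠ 0 → v.ord g⁻¹ = -v.ord g := by
    intro g hg
    have := v.ord_mul g g⁻¹ hg (inv_ne_zero hg)
    rw [mul_inv_cancel₀ hg, hone] at this; omega
  -- elements of `A` outside `p`
  have hout : ∀ (u : DVal k K), u.HasCenter A p → ∀ s : A, s ∉ p → (s : K) ≠ 0 ∧ u.ord (s : K) = 0 := by
    intro u hu s hs
    have h0 : (s : K) ≠ 0 := fun h => hs (by
      have : s = 0 := Subtype.ext h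
      rw [this]; exact p.zero_mem)
    refine ⟨h0, le_antisymm ?_ (hu.1 s h0)⟩
    by_contra hc
    exact hs ((hu.2 s).2 fun _ => not_le.1 hc)
  -- nonnegative
  have hnn : ∀ g : K, g ≠ 0 → 0 ≤ w.ord g → 0 ≤ v.ord g := by
    intro g hg h
    obtain ⟨s, hs, ha⟩ := (hw g hg).1 h
    obtain ⟨hs0, hsv⟩ := hout v hv s hs
    have h1 := v.ord_mul (s : K) g hs0 hg
    have h2 := hv.1 ⟨_, ha⟩ (mul_ne_zero hs0 hg)
    change 0 ≤ v.ord ((s : K) * g) at h2
    omega
  have hzero : ∀ g : K, g ≠ 0 → w.ord g = 0 → v.ord g = 0 := by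
    intro g hg h
    have h1 := hnn g hg h.ge
    have h2 := hnn g⁻¹ (inv_ne_zero hg) (by rw [hinvw g hg]; omega)
    rw [hinvv g hg] at h2
    omega
  obtain ⟨π, hπ0, hπ⟩ := w.exists_ord_eq_one
  have hzpw : ∀ n : ℤ, w.ord (π ^ n) = n := by
    intro n
    induction n using Int.induction_on with
    | zero => simpa using honew
    | succ i ih =>
      rw [zpow_add_one₀ hπ0, w.ord_mul _ _ (zpow_ne_zero _ hπ0) hπ0, ih, hπ]
    | pred i ih =>
      rw [zpow_sub_one₀ hπ0, w.ord_mul _ _ (zpow_ne_zero _ hπ0) (inv_ne_zero hπ0), ih,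
        hinvw π hπ0, hπ]; ring
  have hzpv : ∀ n : ℤ, v.ord (π ^ n) = n * v.ord π := by
    intro n
    induction n using Int.induction_on with
    | zero => simpa using hone
    | succ i ih =>
      rw [zpow_add_one₀ hπ0, v.ord_mul _ _ (zpow_ne_zero _ hπ0) hπ0, ih]; ring
    | pred i ih =>
      rw [zpow_sub_one₀ hπ0, v.ord_mul _ _ (zpow_ne_zero _ hπ0) (inv_ne_zero hπ0), ih,
        hinvv π hπ0]; ring
  have hmul : ∀ g : K, g ≠ 0 → v.ord g = w.ord g * v.ord π := by
    intro g hg
    have h1 : g = π ^ (w.ord g) * (g * (π ^ (w.ord g))⁻¹) := by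
      field_simp
    have hne : g * (π ^ (w.ord g))⁻¹ ≠ 0 := mul_ne_zero hg (inv_ne_zero (zpow_ne_zero _ hπ0))
    have h2 : w.ord (g * (π ^ (w.ord g))⁻¹) = 0 := by
      rw [w.ord_mul _ _ hg (inv_ne_zero (zpow_ne_zero _ hπ0)), hinvw _ (zpow_ne_zero _ hπ0), hzpw]
      ring
    have h3 := hzero _ hne h2
    have h4 := v.ord_mul (π ^ (w.ord g)) _ (zpow_ne_zero _ hπ0) hne
    rw [← h1, h3, add_zero, hzpv] at h4
    exact h4
  have hπpos : 0 < v.ord π := by
    obtain ⟨s, hs, ha⟩ := (hw π hπ0).1 (by omega)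
    obtain ⟨hs0, hsv⟩ := hout v hv s hs
    obtain ⟨_, hsw⟩ := hout w hwc s hs
    have h1 := w.ord_mul (s : K) π hs0 hπ0
    have h2 : (⟨_, ha⟩ : A) ∈ p := (hwc.2 _).2 fun _ => by
      change 0 < w.ord ((s : K) * π); omega
    have h3 := (hv.2 _).1 h2 (mul_ne_zero hs0 hπ0)
    change 0 < v.ord ((s : K) * π) at h3
    have h4 := v.ord_mul (s : K) π hs0 hπ0
    omega
  have hπ1 : v.ord π = 1 := by
    obtain ⟨a, ha0, ha⟩ := v.exists_ord_eq_one
    have h1 := hmul a ha0
    rw [ha] at h1
    have h2 : v.ord π ∣ 1 := ⟨w.ord a, by rw [mul_comm]; exact h1⟩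
    exact Int.eq_one_of_dvd_one hπpos.le h2
  intro g hg
  rw [hmul g hg, hπ1, mul_one]

end

end Pool.Agent.MLD
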