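import Pool.Agent.Lib.MP_f23696_ag.Ctx

/-!
# The logarithmic inequality (module JAC of project LSC)

`∑ v(b_i) - 1 - ord_v(dy) ≤ v(jac D b)`.
-/

set_option autoImplicit false

namespace Pool.Agent.MLD

open scoped Classical
noncomputable section

universe u v w

namespace Jac

variable {k : Type u} {K : Type v} [Field k] [Field K] [Algebra k K]

theorem ord_one (v : DVal k K) : v.ord 1 = 0 := by
  have h := v.ord_mul 1 1 one_ne_zero one_ne_zero
  rw [one_mul] at h
  omega

theorem ord_inv (v : DVal k K) (a : K) (ha : a ≠ 0) : v.ord a⁻¹ = -v.ord a := by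
  have h := v.ord_mul a a⁻¹ ha (inv_ne_zero ha)
  rw [mul_inv_cancel₀ ha, ord_one] at h
  omega

theorem ord_pow (v : DVal k K) (a : K) (ha : a ≠ 0) (n : ℕ) : v.ord (a ^ n) = n * v.ord a := by
  induction n with
  | zero => simp [ord_one]
  | succ n ih =>
    rw [pow_succ, v.ord_mul _ _ (pow_ne_zero _ ha) ha, ih]
    push_cast
    ring

theorem ord_zpow (v : DVal k K) (a : K) (ha : a ≠ 0) (n : ℤ) : v.ord (a ^ n) = n * v.ord a := by
  cases n with
  | ofNat n =>
    rw [Int.ofNat_eq_natCast, zpow_natCast, ord_pow v a ha]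
  | negSucc n =>
    rw [zpow_negSucc, ord_inv v _ (pow_ne_zero _ ha), ord_pow v a ha]
    push_cast [Int.negSucc_eq]
    ring

theorem ord_prod {ι : Type w} (v : DVal k K) (s : Finset ι) (f : ι → K) (hf : ∀ i ∈ s, f i ≠ 0) :
    v.ord (∏ i ∈ s, f i) = ∑ i ∈ s, v.ord (f i) := by
  induction s using Finset.induction_on with
  | empty => simp [ord_one]
  | insert a s ha ih =>
    rw [Finset.prod_insert ha, Finset.sum_insert ha,
      v.ord_mul _ _ (hf a (Finset.mem_insert_self _ _))
        (Finset.prod_ne_zero_iff.2 fun i hi => hf i (Finset.mem_insert_of_mem hi)),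
      ih fun i hi => hf i (Finset.mem_insert_of_mem hi)]

/-- the order of `a` is at least `N` -/
def LB (v : DVal k K) (N : ℤ) (a : K) : Prop := a ≠ 0 → N ≤ v.ord a

theorem LB.zero (v : DVal k K) (N : ℤ) : LB v N 0 := fun h => absurd rfl h

theorem LB.mono {v : DVal k K} {M N : ℤ} {a : K} (h : LB v N a) (hM : M ≤ N) : LB v M a :=
  fun h0 => hM.trans (h h0)

theorem LB.add {v : DVal k K} {N : ℤ} {a b : K} (ha : LB v N a) (hb : LB v N b) :
    LB v N (a + b) := by
  intro h0
  rcases eq_or_ne a 0 with rfl | ha0
  · rw [zero_add] at h0 ⊢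
    exact hb h0
  rcases eq_or_ne b 0 with rfl | hb0
  · rw [add_zero] at h0 ⊢
    exact ha h0
  exact (le_min (ha ha0) (hb hb0)).trans (v.ord_add a b ha0 hb0 h0)

theorem LB.sum {ι : Type w} {v : DVal k K} {N : ℤ} (s : Finset ι) (f : ι → K)
    (hf : ∀ i ∈ s, LB v N (f i)) : LB v N (∑ i ∈ s, f i) := by
  induction s using Finset.induction_on with
  | empty => rw [Finset.sum_empty]; exact LB.zero v N
  | insert a s ha ih =>
    rw [Finset.sum_insert ha]
    exact (hf a (Finset.mem_insert_self _ _)).add
      (ih fun i hi => hf i (Finset.mem_insert_of_mem hi))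

theorem LB.mul {v : DVal k K} {M N : ℤ} {a b : K} (ha : LB v M a) (hb : LB v N b) :
    LB v (M + N) (a * b) := by
  intro h0
  have ha0 := left_ne_zero_of_mul h0
  have hb0 := right_ne_zero_of_mul h0
  rw [v.ord_mul a b ha0 hb0]
  exact add_le_add (ha ha0) (hb hb0)

/-- adding multiples of a vector to some columns -/
theorem det_rank_one {n : ℕ} (A : Matrix (Fin n) (Fin n) K) (p q : Fin n → K) :
    (Matrix.of fun r l => A r l + q l * p r).det =
      A.det + ∑ l, q l * (A.updateCol l p).det := by
  have key : ∀ S : Finset (Fin n),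
      (Matrix.of fun r l => A r l + (if l ∈ S then q l else 0) * p r).det =
        A.det + ∑ l ∈ S, q l * (A.updateCol l p).det := by
    intro S
    induction S using Finset.induction_on with
    | empty =>
      simp only [Finset.notMem_empty, if_false, zero_mul, add_zero, Finset.sum_empty]
      rfl
    | insert a S ha ih =>
      set M : Matrix (Fin n) (Fin n) K :=
        Matrix.of fun r l => A r l + (if l ∈ S then q l else 0) * p r with hM
      have h1 : (Matrix.of fun r l => A r l + (if l ∈ insert a S then q l else 0) * p r) =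
          M.updateCol a (fun r => A r a + q a * p r) := by
        ext r l
        rcases eq_or_ne l a with rfl | hl
        · simp [Matrix.updateCol_self]
        · simp [hM, Finset.mem_insert, hl]
      have h2 : (fun r => A r a + q a * p r) = (fun r => M r a) + q a • p := by
        ext r
        simp [hM, ha]
      have h3 : M.updateCol a (fun r => M r a) = M := by
        ext r l
        rcases eq_or_ne l a with rfl | hl
        · simp [Matrix.updateCol_self]
        · simp [Matrix.updateCol_ne hl]
      have h4 : (M.updateCol a p).det = (A.updateCol a p).det := by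
        rw [← Matrix.det_transpose, ← Matrix.det_transpose (A.updateCol a p)]
        refine Matrix.det_eq_of_forall_row_eq_smul_add_const
          (fun l => if l ∈ S then q l else 0) a (by simp [ha]) ?_
        intro l r
        simp only [Matrix.transpose_apply]
        rw [Matrix.updateCol_self]
        rcases eq_or_ne l a with rfl | hl
        · simp [Matrix.updateCol_self, ha]
        · simp [Matrix.updateCol_ne hl, hM]
      rw [h1, h2, Matrix.det_updateCol_add, Matrix.det_updateCol_smul, h3, h4, ih,
        Finset.sum_insert ha]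
      ring
  have := key Finset.univ
  simpa using this

end Jac

open Jac

theorem log_ineq {k : Type u} [Field k] {K : Type v} [Field K] [Algebra k K]
    (v : DVal k K) {n : ℕ} (D : Fin n → Derivation k K K) (j : ℤ)
    (hj : v.FormOrd D j) (b : Fin n → K) (hb : ∀ i, b i ≠ 0) (hJ : jac D b ≠ 0) :
    (∑ i, v.ord (b i)) - 1 - j ≤ v.ord (jac D b) := by
  obtain ⟨π, hπ, hπ1⟩ := v.exists_ord_eq_one
  set c : Fin n → ℤ := fun i => v.ord (b i) with hc
  set t : Fin n → K := fun i => b i * π ^ (-c i) with ht
  have ht0 : ∀ i, t i ≠ 0 := fun i => mul_ne_zero (hb i) (zpow_ne_zero _ hπ)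
  have hto : ∀ i, v.ord (t i) = 0 := by
    intro i
    rw [ht]
    simp only
    rw [v.ord_mul _ _ (hb i) (zpow_ne_zero _ hπ), ord_zpow v π hπ, hπ1]
    simp [hc]
  have hbt : ∀ i, b i = π ^ c i * t i := by
    intro i
    rw [ht]
    simp only
    rw [zpow_neg]
    field_simp
  have hD : ∀ r l, D r (b l) = π ^ c l * (D r (t l) + ((c l : K) * t l * π⁻¹) * D r π) := by
    intro r l
    rw [hbt l, Derivation.leibniz, Derivation.leibniz_zpow]
    simp only [smul_eq_mul, zsmul_eq_mul]
    rw [zpow_sub_one₀ hπ]
    ring
  have hJ1 : jac D b = (∏ l, π ^ c l) *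
      (Matrix.of fun r l => D r (t l) + ((c l : K) * t l * π⁻¹) * D r π).det := by
    unfold jac
    rw [← Matrix.det_mul_row]
    congr 1
    ext r l
    simp only [Matrix.of_apply]
    exact hD r l
  have hJ2 : (Matrix.of fun r l => D r (t l) + ((c l : K) * t l * π⁻¹) * D r π).det =
      (Matrix.of fun r l => D r (t l)).det + ∑ l, ((c l : K) * t l * π⁻¹) *
        ((Matrix.of fun r l => D r (t l)).updateCol l (fun r => D r π)).det :=
    det_rank_one (Matrix.of fun r l => D r (t l)) (fun r => D r π)
      (fun l => (c l : K) * t l * π⁻¹)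
  have hint : ∀ l, ((c l : K)) ≠ 0 → v.ord ((c l : K)) = 0 := by
    intro l hl
    have h1 : ((c l : K)) = algebraMap k K (c l : k) := by simp
    rw [h1] at hl ⊢
    exact v.ord_algebraMap _ fun h => hl (by rw [h, map_zero])
  have hLB : LB v (-j - 1)
      (Matrix.of fun r l => D r (t l) + ((c l : K) * t l * π⁻¹) * D r π).det := by
    rw [hJ2]
    refine LB.add ?_ (LB.sum _ _ fun l _ => ?_)
    · have h1 : LB v (-j) (Matrix.of fun r l => D r (t l)).det := fun h0 =>
        hj.1 t (fun i _ => le_of_eq (hto i).symm) h0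
      exact h1.mono (by omega)
    · have h1 : LB v (-1) ((c l : K) * t l * π⁻¹) := by
        intro h0
        have h2 : ((c l : K)) ≠ 0 := left_ne_zero_of_mul (left_ne_zero_of_mul h0)
        rw [v.ord_mul _ _ (mul_ne_zero h2 (ht0 l)) (inv_ne_zero hπ), v.ord_mul _ _ h2 (ht0 l),
          ord_inv v π hπ, hπ1, hint l h2, hto l]
        norm_num
      have h2 : LB v (-j) ((Matrix.of fun r l => D r (t l)).updateCol l (fun r => D r π)).det := by
        have h3 : ((Matrix.of fun r l => D r (t l)).updateCol l (fun r => D r π)) =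
            Matrix.of fun r i => D r (Function.update t l π i) := by
          ext r i
          rcases eq_or_ne i l with rfl | hi
          · simp [Matrix.updateCol_self]
          · simp [Matrix.updateCol_ne hi, Function.update_of_ne hi]
        rw [h3]
        intro h0
        refine hj.1 (Function.update t l π) (fun i _ => ?_) h0
        rcases eq_or_ne i l with rfl | hi
        · rw [Function.update_self, hπ1]; norm_num
        · rw [Function.update_of_ne hi, hto i]
      have h3 := h1.mul h2
      exact h3.mono (by omega)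
  rw [hJ1] at hJ ⊢
  have h1 : (∏ l, π ^ c l) ≠ 0 := Finset.prod_ne_zero_iff.2 fun l _ => zpow_ne_zero _ hπ
  have h2 := right_ne_zero_of_mul hJ
  rw [v.ord_mul _ _ h1 h2, ord_prod v _ _ fun l _ => zpow_ne_zero _ hπ]
  have h3 : ∑ l, v.ord (π ^ c l) = ∑ l, v.ord (b l) :=
    Finset.sum_congr rfl fun l _ => by rw [ord_zpow v π hπ, hπ1, mul_one]
  rw [h3]
  have h4 := hLB h2
  have h5 : ∑ l, v.ord (b l) = Finset.univ.sum c := rfl
  omega

end

end Pool.Agent.MLD
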