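import Pool.Agent.Lib.MP_f23696_ag.Ctx

/-!
Module CLS: discrete valuations of `K/k` restricted to `k(z)`, `k` algebraically closed.
-/

namespace Pool.Agent.MLD

open scoped Classical
noncomputable section

universe u v w

namespace CLS

open Polynomial

variable {k : Type u} [Field k] {K : Type v} [Field K] [Algebra k K] (v : DVal k K)
    (ι : RatFunc k →ₐ[k] K)

/-- the restricted valuation at a polynomial -/
def W (p : k[X]) : ℤ := v.ord (ι (algebraMap k[X] (RatFunc k) p))

theorem ne {p : k[X]} (hp : p ≠ 0) : ι (algebraMap k[X] (RatFunc k) p) ≠ 0 := by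
  intro h
  have h1 : algebraMap k[X] (RatFunc k) p = 0 := by
    have := ι.toRingHom.injective (a₁ := algebraMap k[X] (RatFunc k) p) (a₂ := 0) (by simpa using h)
    exact this
  exact RatFunc.algebraMap_ne_zero hp h1

theorem W_mul {p q : k[X]} (hp : p ≠ 0) (hq : q ≠ 0) : W v ι (p * q) = W v ι p + W v ι q := by
  unfold W
  rw [map_mul, map_mul, v.ord_mul _ _ (ne ι hp) (ne ι hq)]

theorem W_add {p q : k[X]} (hp : p ≠ 0) (hq : q ≠ 0) (hs : p + q ≠ 0) :
    min (W v ι p) (W v ι q) ≤ W v ι (p + q) := by
  unfold W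
  have h := v.ord_add _ _ (ne ι hp) (ne ι hq) (by rw [← map_add, ← map_add]; exact ne ι hs)
  rwa [← map_add, ← map_add] at h

theorem W_C {c : k} (hc : c ≠ 0) : W v ι (C c) = 0 := by
  unfold W
  rw [RatFunc.algebraMap_C, ← RatFunc.algebraMap_eq_C, AlgHom.commutes]
  exact v.ord_algebraMap c hc

theorem W_prod (s : Multiset k) :
    W v ι (s.map (X - C ·)).prod = (s.map fun c => W v ι (X - C c)).sum := by
  induction s using Multiset.induction_on with
  | empty =>
    simp only [Multiset.map_zero, Multiset.prod_zero, Multiset.sum_zero]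
    rw [← C_1]
    exact W_C v ι one_ne_zero
  | cons a s ih =>
    rw [Multiset.map_cons, Multiset.prod_cons, Multiset.map_cons, Multiset.sum_cons, W_mul, ih]
    · exact X_sub_C_ne_zero a
    · intro h
      rw [Multiset.prod_eq_zero_iff, Multiset.mem_map] at h
      obtain ⟨c, _, hc⟩ := h
      exact X_sub_C_ne_zero c hc

theorem W_poly [IsAlgClosed k] {p : k[X]} (hp : p ≠ 0) :
    W v ι p = (p.roots.map fun c => W v ι (X - C c)).sum := by
  have h := (IsAlgClosed.splits p).eq_prod_roots
  have hl : p.leadingCoeff ≠ 0 := leadingCoeff_ne_zero.2 hp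
  conv_lhs => rw [h]
  rw [W_mul v ι (C_ne_zero.2 hl), W_C v ι hl, zero_add, W_prod]
  intro h0
  rw [h0, mul_zero] at h
  exact hp h

theorem W_rat (g : RatFunc k) (hg : g ≠ 0) :
    v.ord (ι g) = W v ι g.num - W v ι g.denom := by
  have h1 : algebraMap k[X] (RatFunc k) g.num = g * algebraMap k[X] (RatFunc k) g.denom := by
    have h2 := RatFunc.num_div_denom g
    rw [div_eq_iff] at h2
    · exact h2
    · exact (RatFunc.algebraMap_ne_zero g.denom_ne_zero)
  have hg' : ι g ≠ 0 := by
    intro h
    exact hg (ι.toRingHom.injective (a₁ := g) (a₂ := 0) (by simpa using h))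
  unfold W
  rw [h1, map_mul, v.ord_mul _ _ hg' (ne ι g.denom_ne_zero)]
  ring

/-- positive at `X - c` -/
theorem pos_case {c : k} (hc : 0 < W v ι (X - C c)) (c' : k) (h : c' ≠ c) :
    W v ι (X - C c') = 0 := by
  have e1 : (X - C c' : k[X]) = (X - C c) + C (c - c') := by
    rw [C_sub]; ring
  have e2 : (C (c - c') : k[X]) = (X - C c') + (C (-1) * (X - C c)) := by
    rw [C_sub, C_neg, C_1]; ring
  have hcc : c - c' ≠ 0 := sub_ne_zero.2 (Ne.symm h)
  have h1 := W_add v ι (X_sub_C_ne_zero c) (C_ne_zero.2 hcc) (by rw [← e1]; exact X_sub_C_ne_zero c')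
  rw [← e1, W_C v ι hcc] at h1
  have hm : (C (-1) * (X - C c) : k[X]) ≠ 0 :=
    mul_ne_zero (C_ne_zero.2 (by simp)) (X_sub_C_ne_zero c)
  have h2 := W_add v ι (X_sub_C_ne_zero c') hm (by rw [← e2]; exact C_ne_zero.2 hcc)
  rw [← e2, W_C v ι hcc, W_mul v ι (C_ne_zero.2 (by simp)) (X_sub_C_ne_zero c),
    W_C v ι (by simp), zero_add] at h2
  rw [min_eq_right hc.le] at h1
  rcases le_or_gt (W v ι (X - C c')) 0 with h3 | h3
  · omega
  · have := lt_min h3 hc
    omega

theorem neg_case {c : k} (hc : W v ι (X - C c) < 0) (c' : k) :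
    W v ι (X - C c') = W v ι (X - C c) := by
  have key : ∀ a b : k, W v ι (X - C a) < 0 → W v ι (X - C a) ≤ W v ι (X - C b) := by
    intro a b ha
    by_cases hab : a = b
    · rw [hab]
    · have e1 : (X - C b : k[X]) = (X - C a) + C (a - b) := by
        rw [C_sub]; ring
      have hcc : a - b ≠ 0 := sub_ne_zero.2 hab
      have h1 := W_add v ι (X_sub_C_ne_zero a) (C_ne_zero.2 hcc)
        (by rw [← e1]; exact X_sub_C_ne_zero b)
      rw [← e1, W_C v ι hcc, min_eq_left ha.le] at h1
      exact h1
  have h1 := key c c' hc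
  rcases lt_or_ge (W v ι (X - C c')) 0 with h2 | h2
  · exact le_antisymm (key c' c h2) h1
  · exfalso
    by_cases hcc' : c' = c
    · rw [hcc'] at h2; omega
    · rcases eq_or_lt_of_le h2 with h3 | h3
      · have e1 : (X - C c : k[X]) = (X - C c') + C (c' - c) := by
          rw [C_sub]; ring
        have hcc : c' - c ≠ 0 := sub_ne_zero.2 hcc'
        have h4 := W_add v ι (X_sub_C_ne_zero c') (C_ne_zero.2 hcc)
          (by rw [← e1]; exact X_sub_C_ne_zero c)
        rw [← e1, W_C v ι hcc, ← h3, min_self] at h4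
        omega
      · have := pos_case v ι h3 c (Ne.symm hcc')
        omega

end CLS

theorem cls {k : Type u} [Field k] [IsAlgClosed k] {K : Type v} [Field K] [Algebra k K]
    (v : DVal k K) (ι : RatFunc k →ₐ[k] K) :
    ∃ (P : Option k) (n : ℕ), ∀ g, g ≠ 0 → v.ord (ι g) = n * ordAt P g := by
  by_cases h1 : ∃ c, 0 < CLS.W v ι (Polynomial.X - Polynomial.C c)
  · obtain ⟨c, hc⟩ := h1
    refine ⟨some c, (CLS.W v ι (Polynomial.X - Polynomial.C c)).toNat, fun g hg => ?_⟩
    have hn : ((CLS.W v ι (Polynomial.X - Polynomial.C c)).toNat : ℤ) =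
        CLS.W v ι (Polynomial.X - Polynomial.C c) := Int.toNat_of_nonneg hc.le
    have key : ∀ p : Polynomial k, p ≠ 0 → CLS.W v ι p =
        CLS.W v ι (Polynomial.X - Polynomial.C c) * (p.rootMultiplicity c : ℤ) := by
      intro p hp
      rw [CLS.W_poly v ι hp, ← Polynomial.count_roots]
      generalize p.roots = s
      induction s using Multiset.induction_on with
      | empty => simp
      | cons a s ih =>
        rw [Multiset.map_cons, Multiset.sum_cons, ih, Multiset.count_cons]
        by_cases ha : a = c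
        · subst ha
          simp
          ring
        · rw [CLS.pos_case v ι hc a ha, if_neg (Ne.symm ha)]
          simp
    rw [CLS.W_rat v ι g hg, key _ (RatFunc.num_ne_zero hg), key _ g.denom_ne_zero, hn]
    show _ = _ * ((g.num.rootMultiplicity c : ℤ) - (g.denom.rootMultiplicity c : ℤ))
    ring
  · by_cases h2 : ∃ c, CLS.W v ι (Polynomial.X - Polynomial.C c) < 0
    · obtain ⟨c, hc⟩ := h2
      refine ⟨none, (-CLS.W v ι (Polynomial.X - Polynomial.C c)).toNat, fun g hg => ?_⟩
      have hn : ((-CLS.W v ι (Polynomial.X - Polynomial.C c)).toNat : ℤ) =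
          -CLS.W v ι (Polynomial.X - Polynomial.C c) := Int.toNat_of_nonneg (by omega)
      have key : ∀ p : Polynomial k, p ≠ 0 → CLS.W v ι p =
          CLS.W v ι (Polynomial.X - Polynomial.C c) * (p.natDegree : ℤ) := by
        intro p hp
        rw [CLS.W_poly v ι hp, (IsAlgClosed.splits p).natDegree_eq_card_roots]
        generalize p.roots = s
        induction s using Multiset.induction_on with
        | empty => simp
        | cons a s ih =>
          rw [Multiset.map_cons, Multiset.sum_cons, ih, Multiset.card_cons,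
            CLS.neg_case v ι hc a]
          push_cast
          ring
      rw [CLS.W_rat v ι g hg, key _ (RatFunc.num_ne_zero hg), key _ g.denom_ne_zero, hn]
      show _ = _ * (-g.intDegree)
      unfold RatFunc.intDegree
      ring
    · refine ⟨none, 0, fun g hg => ?_⟩
      have key : ∀ p : Polynomial k, p ≠ 0 → CLS.W v ι p = 0 := by
        intro p hp
        rw [CLS.W_poly v ι hp]
        refine Multiset.sum_eq_zero fun x hx => ?_
        obtain ⟨c, _, rfl⟩ := Multiset.mem_map.1 hx
        exact le_antisymm (not_lt.1 fun h => h1 ⟨c, h⟩) (not_lt.1 fun h => h2 ⟨c, h⟩)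
      rw [CLS.W_rat v ι g hg, key _ (RatFunc.num_ne_zero hg), key _ g.denom_ne_zero]
      simp

end

end Pool.Agent.MLD
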