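import Pool.Agent.Lib.MP_f23696_ag.Ord
import Pool.Agent.Lib.MP_f23696_ag.Cls
import Pool.Agent.Lib.MP_f23696_ag.Gr
import Pool.Agent.Lib.MP_f23696_ag.Val
import Pool.Agent.Lib.MP_f23696_ag.JacLog

/-!
# The lower bound (module JAC of project LSC)

The log discrepancy of a valuation with centre `x` is at least the one of the homogeneous
valuation with the same values on the semi-invariants plus the rank of the stabiliser degrees.
-/

set_option autoImplicit false

namespace Pool.Agent.MLD

open scoped Classical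
noncomputable section

universe u v w

namespace Jac

variable {k : Type u} [Field k] {m : ℕ} {K : Type v} [Field K] [Algebra k K]

theorem der_poly (C : Ctx k K m) (r : Fin m) (p : Polynomial k) :
    C.der r.succ (C.ι (algebraMap (Polynomial k) (RatFunc k) p)) = 0 := by
  have h1 : C.ι (algebraMap (Polynomial k) (RatFunc k) p) =
      Polynomial.aeval (C.ι RatFunc.X) p := by
    have h2 : algebraMap (Polynomial k) (RatFunc k) p =
        Polynomial.aeval (RatFunc.X : RatFunc k) p := by
      rw [← RatFunc.algebraMap_X, Polynomial.aeval_algebraMap_apply, Polynomial.aeval_X_left,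
        AlgHom.id_apply]
    rw [h2, ← Polynomial.aeval_algHom_apply]
  rw [h1, Derivation.map_aeval, C.derS_X, smul_zero]

theorem der_iota (C : Ctx k K m) (r : Fin m) (g : RatFunc k) : C.der r.succ (C.ι g) = 0 := by
  rw [← RatFunc.num_div_denom g, map_div₀, Derivation.leibniz_div, der_poly, der_poly]
  simp

theorem der_prod_x (C : Ctx k K m) (r : Fin m) (s : Finset (Fin m)) (u : Fin m → ℤ) :
    C.der r.succ (∏ i ∈ s, C.x i ^ u i) =
      (if r ∈ s then (u r : K) else 0) * (∏ i ∈ s, C.x i ^ u i) * (C.x r)⁻¹ := by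
  induction s using Finset.induction_on with
  | empty => simp
  | insert a s ha ih =>
    rw [Finset.prod_insert ha, Derivation.leibniz, ih, Derivation.leibniz_zpow, C.derS_x]
    simp only [smul_eq_mul, zsmul_eq_mul]
    rcases eq_or_ne a r with rfl | har
    · rw [if_neg ha, if_pos (Finset.mem_insert_self _ _), if_pos rfl, zpow_sub_one₀ (C.x_ne a)]
      ring
    · rw [if_neg har]
      by_cases hr : r ∈ s
      · rw [if_pos hr, if_pos (Finset.mem_insert_of_mem hr)]
        ring
      · rw [if_neg hr, if_neg (by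
          rw [Finset.mem_insert, not_or]
          exact ⟨fun h => har h.symm, hr⟩)]
        ring

theorem der_mon (C : Ctx k K m) (r : Fin m) (g : RatFunc k) (u : Fin m → ℤ) :
    C.der r.succ (C.mon g u) = (u r : K) * C.mon g u * (C.x r)⁻¹ := by
  unfold Ctx.mon
  rw [Derivation.leibniz, der_iota, der_prod_x, if_pos (Finset.mem_univ r)]
  simp only [smul_eq_mul, mul_zero, add_zero]
  ring

theorem mon_single (C : Ctx k K m) (i : Fin m) : C.mon 1 (Pi.single i (1 : ℤ)) = C.x i := by
  unfold Ctx.mon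
  rw [map_one, one_mul, Finset.prod_eq_single i]
  · simp
  · intro b _ hb
    rw [Pi.single_eq_of_ne hb, zpow_zero]
  · intro h
    exact absurd (Finset.mem_univ i) h

/-- the determinant of the Jacobian matrix of a homogeneous frame -/
theorem jac_frame (C : Ctx k K m) (z : K) (hz : ∀ r : Fin m, C.der r.succ z = 0)
    (T M : Fin m → K) (U : Fin m → Fin m → ℤ)
    (hT : ∀ l r, C.der r.succ (T l) = (U l r : K) * M l * (C.x r)⁻¹) :
    jac C.der (Fin.cons z T : Fin (m + 1) → K) =
      C.der 0 z * ((∏ r, (C.x r)⁻¹) * ((∏ l, M l) * (Matrix.of fun r l => ((U l r : ℤ) : K)).det)) := by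
  unfold jac
  rw [Matrix.det_succ_column_zero, Fin.sum_univ_succ]
  simp only [Matrix.of_apply, Fin.cons_zero, Fin.val_zero, pow_zero, one_mul]
  rw [Finset.sum_eq_zero fun r _ => by rw [hz r]; ring, add_zero]
  congr 1
  have h1 : ((Matrix.of fun i j => C.der i ((Fin.cons z T : Fin (m + 1) → K) j)).submatrix
      (Fin.succAbove 0) Fin.succ) = Matrix.of fun r l =>
        (C.x r)⁻¹ * (M l * ((U l r : ℤ) : K)) := by
    ext r l
    simp only [Matrix.submatrix_apply, Matrix.of_apply, Fin.succAbove_zero, Fin.cons_succ]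
    rw [hT l r]
    ring
  rw [h1, Matrix.det_mul_column]
  congr 1
  rw [← Matrix.det_mul_row]
  rfl

end Jac

open Jac

section

variable {k : Type u} [Field k] {K : Type v} [Field K] [Algebra k K]
variable [IsAlgClosed k] [CharZero k] {m : ℕ} {C : Ctx k K m}

/-- the coordinate on `ℙ¹` at the place `P` -/
theorem Jac.exists_z (C : Ctx k K m) (v : DVal k K) (P : Option k) (n : ℕ)
    (hP : ∀ g, g ≠ 0 → v.ord (C.ι g) = n * ordAt P g) :
    ∃ z : K, z ≠ 0 ∧ (∀ r : Fin m, C.der r.succ z = 0) ∧ C.der 0 z ≠ 0 ∧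
      v.ord z - v.ord (C.der 0 z) = n * kap P := by
  cases P with
  | some c =>
    have h1 : (RatFunc.X - RatFunc.C c : RatFunc k) ≠ 0 := by
      intro h
      have h2 := ordAt_none_X_sub c
      rw [h, ordAt_zero] at h2
      omega
    have h3 : C.der 0 (C.ι (RatFunc.X - RatFunc.C c)) = 1 := by
      rw [map_sub, map_sub, C.der0_X]
      have h4 : C.ι (RatFunc.C c) = algebraMap k K c := by
        have h5 : (RatFunc.C c : RatFunc k) = algebraMap k (RatFunc k) c := rfl
        rw [h5, AlgHom.commutes]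
      rw [h4, Derivation.map_algebraMap, sub_zero]
    refine ⟨C.ι (RatFunc.X - RatFunc.C c), fun h => h1 ((map_eq_zero C.ι).1 h),
      fun r => der_iota C r _, by rw [h3]; exact one_ne_zero, ?_⟩
    rw [h3, ord_one, hP _ h1, ordAt_X_sub]
    simp [kap]
  | none =>
    have hX : (RatFunc.X : RatFunc k) ≠ 0 := RatFunc.X_ne_zero
    have hX' : C.ι RatFunc.X ≠ 0 := fun h => hX ((map_eq_zero C.ι).1 h)
    have ho : ordAt (none : Option k) (RatFunc.X : RatFunc k) = -1 := by
      have h2 := ordAt_none_X_sub (0 : k)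
      rwa [map_zero, sub_zero] at h2
    have h3 : C.der 0 (C.ι RatFunc.X)⁻¹ = -((C.ι RatFunc.X) ^ 2)⁻¹ := by
      rw [Derivation.leibniz_inv, C.der0_X, smul_eq_mul, mul_one, inv_pow]
    have hne : ((C.ι RatFunc.X) ^ 2)⁻¹ ≠ 0 := inv_ne_zero (pow_ne_zero _ hX')
    have hneg : v.ord (-((C.ι RatFunc.X) ^ 2)⁻¹) = v.ord (((C.ι RatFunc.X) ^ 2)⁻¹) := by
      have h4 : v.ord (-1 : K) = 0 := by
        have h5 : (-1 : K) = algebraMap k K (-1) := by simp
        rw [h5]
        exact v.ord_algebraMap _ (neg_ne_zero.2 one_ne_zero)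
      have h5 := v.ord_mul (-1) (((C.ι RatFunc.X) ^ 2)⁻¹) (neg_ne_zero.2 one_ne_zero) hne
      rw [neg_one_mul, h4, zero_add] at h5
      exact h5
    refine ⟨(C.ι RatFunc.X)⁻¹, inv_ne_zero hX', fun r => ?_, ?_, ?_⟩
    · rw [← map_inv₀, der_iota]
    · rw [h3]
      exact neg_ne_zero.2 hne
    · rw [h3, hneg, ord_inv v _ (pow_ne_zero _ hX'), ord_pow v _ hX', ord_inv v _ hX', hP _ hX, ho]
      simp only [kap]
      push_cast
      ring

theorem ge (X : TV C) (x : MaximalSpectrum X.A) (v : DVal k K)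
    (hv : v.HasCenter X.A x.asIdeal) (j : ℤ) (hj : v.FormOrd C.der j) :
    ∃ V : HV k m, (∀ g u, g ≠ 0 → V.val g u = v.ord (C.mon g u)) ∧
      V.disc + rk (X.hS x.asIdeal) ≤ j + 1 := by
  obtain ⟨P, n, hP⟩ := cls v C.ι
  refine ⟨⟨P, n, fun i => v.ord (C.x i)⟩, ?_, ?_⟩
  · intro g u hg
    have hg' : C.ι g ≠ 0 := fun h => hg ((map_eq_zero C.ι).1 h)
    have h1 : ∏ i, C.x i ^ u i ≠ 0 :=
      Finset.prod_ne_zero_iff.2 fun i _ => zpow_ne_zero _ (C.x_ne i)
    unfold Ctx.mon HV.val
    rw [v.ord_mul _ _ hg' h1, hP g hg, ord_prod v _ _ fun i _ => zpow_ne_zero _ (C.x_ne i)]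
    congr 1
    refine Finset.sum_congr rfl fun i _ => ?_
    rw [ord_zpow v _ (C.x_ne i)]
    ring
  · obtain ⟨z, hz0, hz1, hz2, hz3⟩ := exists_z C v P n hP
    set S : Set (Fin m → ℚ) := {x' : Fin m → ℚ | ∃ g u, X.hS x.asIdeal g u ∧
      x' = fun i => (u i : ℚ)} with hS
    obtain ⟨s0, hs0S, hs0c, -, hs0⟩ := Submodule.exists_finset_span_eq_linearIndepOn ℚ S
    have hrk : rk (X.hS x.asIdeal) = s0.card := hs0c.symm
    set E : Set (Fin m → ℚ) := Set.range fun i : Fin m => (Pi.single i (1 : ℚ) : Fin m → ℚ) with hE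
    obtain ⟨b, hbt, hsb, htb, hb⟩ := exists_linearIndepOn_id_extension hs0
      (Set.subset_union_left : (s0 : Set (Fin m → ℚ)) ⊆ (s0 : Set (Fin m → ℚ)) ∪ E)
    have hspan : ⊤ ≤ Submodule.span ℚ b := by
      rw [← (Pi.basisFun ℚ (Fin m)).span_eq, Submodule.span_le]
      rintro _ ⟨i, rfl⟩
      rw [Pi.basisFun_apply]
      exact htb (Or.inr ⟨i, rfl⟩)
    have hb' : LinearIndependent ℚ ((↑) : b → (Fin m → ℚ)) := hb
    have hfinb : b.Finite := hb'.setFinite
    have : Fintype b := hfinb.fintype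
    have hcard : Fintype.card b = m := by
      have B : Module.Basis b ℚ (Fin m → ℚ) := Module.Basis.mk hb' (by simpa using hspan)
      have h1 := Module.finrank_eq_card_basis B
      rw [Module.finrank_fin_fun] at h1
      exact h1.symm
    let e : Fin m ≃ b := (Fintype.equivFinOfCardEq hcard).symm
    -- the elements of the frame
    have hel : ∀ β : b, ∃ (U : Fin m → ℤ) (M T : K), (fun i => (U i : ℚ)) = (β : Fin m → ℚ) ∧
        M ≠ 0 ∧ T ≠ 0 ∧ (∀ r, C.der r.succ T = (U r : K) * M * (C.x r)⁻¹) ∧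
        v.ord M + (if (β : Fin m → ℚ) ∈ s0 then 1 else 0) ≤ v.ord T ∧ True := by
      intro β
      by_cases hβ : (β : Fin m → ℚ) ∈ s0
      · obtain ⟨g, t, ⟨hg, hmem, hnp⟩, hβt⟩ := hs0S hβ
        obtain ⟨c, hc, hcm⟩ := exists_const_ne X x _ hnp
        have hck : algebraMap k K c ≠ 0 := fun h => hc ((map_eq_zero (algebraMap k K)).1 h)
        have hm0 : C.mon g t ≠ 0 := mon_ne_zero C hg t
        have ht0 : t ≠ 0 := by
          rintro rfl
          refine hb'.ne_zero β ?_
          rw [hβt]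
          ext i
          simp
        have hne : C.mon g t - algebraMap k K c ≠ 0 := by
          intro h
          rw [sub_eq_zero, ← GR.mon_C C c] at h
          exact ht0 (mon_inj C hg h).2
        have hsm : 0 < v.ord (C.mon g t - algebraMap k K c) := (hv.2 _).1 hcm hne
        have ho1 : 0 ≤ v.ord (C.mon g t) := hv.1 ⟨C.mon g t, hmem⟩ hm0
        have ho2 : ¬ 0 < v.ord (C.mon g t) := fun h => hnp ((hv.2 _).2 fun _ => h)
        refine ⟨t, C.mon g t * (algebraMap k K c)⁻¹,
          (C.mon g t - algebraMap k K c) * (algebraMap k K c)⁻¹, hβt.symm,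
          mul_ne_zero hm0 (inv_ne_zero hck), mul_ne_zero hne (inv_ne_zero hck), ?_, ?_, trivial⟩
        · intro r
          rw [← map_inv₀ (algebraMap k K), mul_comm, ← Algebra.smul_def, Derivation.map_smul,
            map_sub, Derivation.map_algebraMap, sub_zero, der_mon, Algebra.smul_def]
          ring
        · rw [if_pos hβ, v.ord_mul _ _ hm0 (inv_ne_zero hck), v.ord_mul _ _ hne (inv_ne_zero hck)]
          omega
      · have h1 := hbt β.2
        rcases h1 with h1 | ⟨i, hi⟩
        · exact absurd h1 hβ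
        · refine ⟨Pi.single i 1, C.x i, C.x i, ?_, C.x_ne i, C.x_ne i, ?_, ?_, trivial⟩
          · rw [← hi]
            ext r
            rcases eq_or_ne r i with rfl | hr
            · simp
            · simp [Pi.single_eq_of_ne hr]
          · intro r
            have h2 := der_mon C r 1 (Pi.single i (1 : ℤ))
            rwa [mon_single] at h2
          · rw [if_neg hβ]
            omega
    choose U M T hU hM0 hT0 hTd hTo _ using hel
    have hdet : (Matrix.of fun r l => ((U (e l) r : ℤ) : K)).det ≠ 0 := by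
      have h1 : IsUnit (Matrix.of fun r l => ((U (e l) r : ℤ) : ℚ)) := by
        rw [← Matrix.linearIndependent_cols_iff_isUnit]
        have h2 : (Matrix.of fun r l => ((U (e l) r : ℤ) : ℚ)).col = fun l => ((e l : b) : Fin m → ℚ) := by
          ext l r
          rw [← hU (e l)]
          rfl
        rw [h2]
        exact hb'.comp e e.injective
      have h2 : (Matrix.of fun r l => (U (e l) r : ℤ)).det ≠ 0 := by
        intro h
        rw [Matrix.isUnit_iff_isUnit_det] at h1
        refine h1.ne_zero ?_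
        have h3 := Int.cast_det (R := ℚ) (Matrix.of fun r l => (U (e l) r : ℤ))
        rw [h, Int.cast_zero] at h3
        exact h3.symm
      have : CharZero K := charZero_of_injective_algebraMap (algebraMap k K).injective
      have h3 := Int.cast_det (R := K) (Matrix.of fun r l => (U (e l) r : ℤ))
      have h4 : (Matrix.of fun r l => ((U (e l) r : ℤ) : K)) =
          (Matrix.of fun r l => (U (e l) r : ℤ)).map (fun a : ℤ => (a : K)) := rfl
      rw [h4]
      rw [← h3]
      exact Int.cast_ne_zero.2 h2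
    have hdeto : v.ord (Matrix.of fun r l => ((U (e l) r : ℤ) : K)).det = 0 := by
      have h3 := Int.cast_det (R := K) (Matrix.of fun r l => (U (e l) r : ℤ))
      have h4 : (Matrix.of fun r l => ((U (e l) r : ℤ) : K)) =
          (Matrix.of fun r l => (U (e l) r : ℤ)).map (fun a : ℤ => (a : K)) := rfl
      rw [h4] at hdet ⊢
      rw [← h3] at hdet ⊢
      have h5 : (((Matrix.of fun r l => (U (e l) r : ℤ)).det : ℤ) : K) =
          algebraMap k K ((Matrix.of fun r l => (U (e l) r : ℤ)).det : k) := by simp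
      rw [h5] at hdet ⊢
      exact v.ord_algebraMap _ fun h => hdet (by rw [h, map_zero])
    have hfr := jac_frame C z hz1 (fun l => T (e l)) (fun l => M (e l)) (fun l => U (e l))
      (fun l r => hTd (e l) r)
    have hx0 : (∏ r, (C.x r)⁻¹) ≠ 0 := Finset.prod_ne_zero_iff.2 fun r _ => inv_ne_zero (C.x_ne r)
    have hMp : (∏ l, M (e l)) ≠ 0 := Finset.prod_ne_zero_iff.2 fun l _ => hM0 (e l)
    have hJne : jac C.der (Fin.cons z (fun l => T (e l)) : Fin (m + 1) → K) ≠ 0 := by
      rw [hfr]
      exact mul_ne_zero hz2 (mul_ne_zero hx0 (mul_ne_zero hMp hdet))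
    have hJo : v.ord (jac C.der (Fin.cons z (fun l => T (e l)) : Fin (m + 1) → K)) =
        v.ord (C.der 0 z) - (∑ r, v.ord (C.x r)) + ∑ l, v.ord (M (e l)) := by
      rw [hfr, v.ord_mul _ _ hz2 (mul_ne_zero hx0 (mul_ne_zero hMp hdet)),
        v.ord_mul _ _ hx0 (mul_ne_zero hMp hdet), v.ord_mul _ _ hMp hdet, hdeto,
        ord_prod v _ _ fun r _ => inv_ne_zero (C.x_ne r), ord_prod v _ _ fun l _ => hM0 (e l)]
      have h1 : ∑ r, v.ord (C.x r)⁻¹ = -∑ r, v.ord (C.x r) := by
        rw [← Finset.sum_neg_distrib]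
        exact Finset.sum_congr rfl fun r _ => ord_inv v _ (C.x_ne r)
      rw [h1]
      ring
    have hlog := log_ineq v C.der j hj (Fin.cons z (fun l => T (e l)) : Fin (m + 1) → K)
      (fun i => by
        refine Fin.cases ?_ (fun l => ?_) i
        · exact hz0
        · exact hT0 (e l)) hJne
    rw [hJo, Fin.sum_univ_succ] at hlog
    simp only [Fin.cons_zero, Fin.cons_succ] at hlog
    have hsum : ∑ l, v.ord (M (e l)) + (s0.card : ℤ) ≤ ∑ l, v.ord (T (e l)) := by
      have h1 : ∑ l, (v.ord (M (e l)) + (if ((e l : b) : Fin m → ℚ) ∈ s0 then (1 : ℤ) else 0)) ≤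
          ∑ l, v.ord (T (e l)) := Finset.sum_le_sum fun l _ => hTo (e l)
      rw [Finset.sum_add_distrib] at h1
      have h2 : ∑ l, (if ((e l : b) : Fin m → ℚ) ∈ s0 then (1 : ℤ) else 0) = s0.card := by
        rw [Equiv.sum_comp e (fun β : b => if (β : Fin m → ℚ) ∈ s0 then (1 : ℤ) else 0)]
        rw [Finset.sum_boole]
        congr 1
        refine Finset.card_bij (fun β _ => (β : Fin m → ℚ)) ?_ ?_ ?_
        · intro β hβ
          exact (Finset.mem_filter.1 hβ).2
        · intro β _ β' _ h
          exact Subtype.ext h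
        · intro β hβ
          exact ⟨⟨β, hsb hβ⟩, Finset.mem_filter.2 ⟨Finset.mem_univ _, hβ⟩, rfl⟩
      rw [h2] at h1
      exact h1
    rw [hrk]
    unfold HV.disc
    simp only
    rw [← hz3]
    omega

end

end

end Pool.Agent.MLD
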