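import Pool.Agent.Lib.MP_f23696_ag.Ctx

/-!
Orders of rational functions at the points of the projective line (project LSC, module ORD).
-/

namespace Pool.Agent.MLD

open scoped Classical
noncomputable section

universe u v w

namespace Ord

open Polynomial

variable {k : Type u} [Field k]

/-- a polynomial as a rational function -/
abbrev im (p : k[X]) : RatFunc k := algebraMap k[X] (RatFunc k) p

theorem some_eq (c : k) (g : RatFunc k) : ordAt (some c) g =
    (g.num.rootMultiplicity c : ℤ) - (g.denom.rootMultiplicity c : ℤ) := rfl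

theorem none_eq (g : RatFunc k) : ordAt (none : Option k) g = -g.intDegree := rfl

theorem im_ne {p : k[X]} (hp : p ≠ 0) : im p ≠ 0 := by
  intro h
  exact hp ((map_eq_zero_iff _ (RatFunc.algebraMap_injective k)).1 h)

theorem rep (g : RatFunc k) : im g.num / im g.denom = g := RatFunc.num_div_denom g

theorem some_div (c : k) {p q : k[X]} (hp : p ≠ 0) (hq : q ≠ 0) :
    ordAt (some c) (im p / im q) = (p.rootMultiplicity c : ℤ) - (q.rootMultiplicity c : ℤ) := by
  rw [some_eq]
  have hg : im p / im q ≠ 0 := div_ne_zero (im_ne hp) (im_ne hq)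
  have e := (RatFunc.num_mul_eq_mul_denom_iff (x := im p / im q) (p := p) hq).2 rfl
  have h1 : (im p / im q).num ≠ 0 := RatFunc.num_ne_zero hg
  have h2 : (im p / im q).denom ≠ 0 := RatFunc.denom_ne_zero _
  have e2 := congrArg (rootMultiplicity c) e
  rw [rootMultiplicity_mul (mul_ne_zero h1 hq), rootMultiplicity_mul (mul_ne_zero hp h2)] at e2
  omega

theorem none_div {p q : k[X]} (hp : p ≠ 0) (hq : q ≠ 0) :
    ordAt (none : Option k) (im p / im q) = (q.natDegree : ℤ) - (p.natDegree : ℤ) := by
  rw [none_eq, RatFunc.intDegree_div (im_ne hp) (im_ne hq), RatFunc.intDegree_polynomial,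
    RatFunc.intDegree_polynomial]
  ring

theorem sub_C_eq (a : k) {p q : k[X]} (hq : q ≠ 0) :
    im p / im q - RatFunc.C a = im (p - C a * q) / im q := by
  have h := im_ne hq
  have e : RatFunc.C a = im (C a : k[X]) := by
    rw [im, RatFunc.algebraMap_C]
  rw [e]
  have : im (p - C a * q) = im p - im (C a) * im q := by
    simp only [im, map_sub, map_mul]
  rw [this]
  field_simp

theorem sum_mult [IsAlgClosed k] {p : k[X]} (S : Finset k) (hS : p.roots.toFinset ⊆ S) :
    ∑ c ∈ S, (p.rootMultiplicity c : ℤ) = p.natDegree := by
  have h1 : Multiset.card p.roots = p.natDegree :=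
    (Polynomial.splits_iff_card_roots).1 (IsAlgClosed.splits p)
  have h2 : ∑ c ∈ p.roots.toFinset, p.roots.count c = Multiset.card p.roots :=
    Multiset.toFinset_sum_count_eq _
  have h3 : ∑ c ∈ S, p.rootMultiplicity c = p.natDegree := by
    rw [← h1, ← h2]
    symm
    rw [Finset.sum_subset hS]
    · exact Finset.sum_congr rfl fun c _ => Polynomial.count_roots p
    · intro c _ hc
      rw [Multiset.mem_toFinset] at hc
      exact Multiset.count_eq_zero_of_notMem hc
  rw [← h3]
  push_cast
  rfl

end Ord

section ORD
variable {k : Type u} [Field k]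

open Pool.Agent.MLD.Ord

theorem ordAt_zero (P : Option k) : ordAt P (0 : RatFunc k) = 0 := by
  cases P with
  | none => rw [none_eq, RatFunc.intDegree_zero, neg_zero]
  | some c =>
    rw [some_eq, RatFunc.num_zero, RatFunc.denom_zero, Polynomial.rootMultiplicity_zero,
      ← Polynomial.C_1, Polynomial.rootMultiplicity_C]
    simp

theorem ordAt_C (P : Option k) (c : k) : ordAt P (RatFunc.C c) = 0 := by
  cases P with
  | none => rw [none_eq, RatFunc.intDegree_C, neg_zero]
  | some d =>
    rw [some_eq, RatFunc.num_C, RatFunc.denom_C, ← Polynomial.C_1, Polynomial.rootMultiplicity_C,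
      Polynomial.rootMultiplicity_C]
    simp

theorem ordAt_mul (P : Option k) {g h : RatFunc k} (hg : g ≠ 0) (hh : h ≠ 0) :
    ordAt P (g * h) = ordAt P g + ordAt P h := by
  cases P with
  | none =>
    rw [none_eq, none_eq, none_eq, RatFunc.intDegree_mul hg hh]
    ring
  | some c =>
    have h1 := RatFunc.num_ne_zero hg
    have h2 := RatFunc.num_ne_zero hh
    have h3 := RatFunc.denom_ne_zero g
    have h4 := RatFunc.denom_ne_zero h
    have e : g * h = im (g.num * h.num) / im (g.denom * h.denom) := by
      conv_lhs => rw [← rep g, ← rep h]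
      simp only [im, map_mul]
      rw [div_mul_div_comm]
    rw [e, some_div c (mul_ne_zero h1 h2) (mul_ne_zero h3 h4),
      Polynomial.rootMultiplicity_mul (mul_ne_zero h1 h2),
      Polynomial.rootMultiplicity_mul (mul_ne_zero h3 h4), some_eq, some_eq]
    push_cast
    ring

theorem ordAt_add (P : Option k) {g h : RatFunc k} (hg : g ≠ 0) (hh : h ≠ 0) (hs : g + h ≠ 0) :
    min (ordAt P g) (ordAt P h) ≤ ordAt P (g + h) := by
  cases P with
  | none =>
    have := RatFunc.intDegree_add_le hh hs
    rw [none_eq, none_eq, none_eq]
    omega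
  | some c =>
    have h1 := RatFunc.num_ne_zero hg
    have h2 := RatFunc.num_ne_zero hh
    have h3 := RatFunc.denom_ne_zero g
    have h4 := RatFunc.denom_ne_zero h
    have e : g + h = im (g.num * h.denom + g.denom * h.num) / im (g.denom * h.denom) := by
      conv_lhs => rw [← rep g, ← rep h]
      simp only [im, map_mul, map_add]
      rw [div_add_div _ _ (im_ne h3) (im_ne h4)]
    have h5 : g.num * h.denom + g.denom * h.num ≠ 0 := by
      intro h0
      rw [h0] at e
      apply hs
      rw [e]
      simp
    rw [e, some_div c h5 (mul_ne_zero h3 h4),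
      Polynomial.rootMultiplicity_mul (mul_ne_zero h3 h4), some_eq, some_eq]
    have h6 := Polynomial.rootMultiplicity_add c h5
    rw [Polynomial.rootMultiplicity_mul (mul_ne_zero h1 h4),
      Polynomial.rootMultiplicity_mul (mul_ne_zero h3 h2)] at h6
    push_cast
    omega

theorem ordAt_inv (P : Option k) (g : RatFunc k) : ordAt P g⁻¹ = -ordAt P g := by
  by_cases hg : g = 0
  · subst hg
    rw [inv_zero, ordAt_zero, neg_zero]
  · have h := ordAt_mul P hg (inv_ne_zero hg)
    rw [mul_inv_cancel₀ hg] at h
    have h1 : ordAt P (1 : RatFunc k) = 0 := by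
      have := ordAt_C P (1 : k)
      rwa [map_one] at this
    omega

theorem ordAt_finite {g : RatFunc k} (hg : g ≠ 0) :
    ∃ B : Finset (Option k), ∀ P, ordAt P g ≠ 0 → P ∈ B := by
  refine ⟨Finset.insertNone (g.num.roots.toFinset ∪ g.denom.roots.toFinset), ?_⟩
  intro P hP
  cases P with
  | none => simp
  | some c =>
    rw [Finset.some_mem_insertNone, Finset.mem_union, Multiset.mem_toFinset, Multiset.mem_toFinset]
    by_contra hc
    rw [not_or] at hc
    apply hP
    have e1 : g.num.rootMultiplicity c = 0 := by
      rw [← Polynomial.count_roots]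
      exact Multiset.count_eq_zero_of_notMem hc.1
    have e2 : g.denom.rootMultiplicity c = 0 := by
      rw [← Polynomial.count_roots]
      exact Multiset.count_eq_zero_of_notMem hc.2
    rw [some_eq, e1, e2]
    simp

theorem ordAt_sum [IsAlgClosed k] {g : RatFunc k} (hg : g ≠ 0) (B : Finset (Option k))
    (hB : ∀ P, ordAt P g ≠ 0 → P ∈ B) : ∑ P ∈ B, ordAt P g = 0 := by
  set S : Finset k := g.num.roots.toFinset ∪ g.denom.roots.toFinset with hS
  have h0 : ∀ P, P ∉ Finset.insertNone S → ordAt P g = 0 := by
    intro P hP
    cases P with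
    | none => simp at hP
    | some c =>
      rw [Finset.some_mem_insertNone, hS, Finset.mem_union, Multiset.mem_toFinset,
        Multiset.mem_toFinset, not_or] at hP
      have e1 : g.num.rootMultiplicity c = 0 := by
        rw [← Polynomial.count_roots]
        exact Multiset.count_eq_zero_of_notMem hP.1
      have e2 : g.denom.rootMultiplicity c = 0 := by
        rw [← Polynomial.count_roots]
        exact Multiset.count_eq_zero_of_notMem hP.2
      rw [some_eq, e1, e2]
      simp
  have h1 : ∑ P ∈ B, ordAt P g = ∑ P ∈ B ∪ Finset.insertNone S, ordAt P g := by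
    apply Finset.sum_subset Finset.subset_union_left
    intro P _ hP
    by_contra h
    exact hP (hB P h)
  have h2 : ∑ P ∈ Finset.insertNone S, ordAt P g = ∑ P ∈ B ∪ Finset.insertNone S, ordAt P g := by
    apply Finset.sum_subset Finset.subset_union_right
    intro P _ hP
    exact h0 P hP
  rw [h1, ← h2, Finset.sum_insertNone]
  simp only [some_eq, none_eq]
  rw [Finset.sum_sub_distrib, sum_mult S Finset.subset_union_left,
    sum_mult S Finset.subset_union_right, RatFunc.intDegree]
  ring

theorem ordAt_value (P : Option k) {g : RatFunc k} (hg : g ≠ 0) (h : 0 ≤ ordAt P g) :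
    ∃ c : k, g = RatFunc.C c ∨ 0 < ordAt P (g - RatFunc.C c) := by
  have h1 := RatFunc.num_ne_zero hg
  have h3 := RatFunc.denom_ne_zero g
  have key : ∀ a : k, g - RatFunc.C a = im (g.num - Polynomial.C a * g.denom) / im g.denom := by
    intro a
    conv_lhs => rw [← rep g]
    exact sub_C_eq a h3
  have key2 : ∀ a : k, g.num - Polynomial.C a * g.denom = 0 → g = RatFunc.C a := by
    intro a h0
    have := key a
    rw [h0] at this
    rw [← sub_eq_zero, this]
    simp
  cases P with
  | none =>
    rcases h.eq_or_lt with h0 | h0
    · refine ⟨g.num.leadingCoeff / g.denom.leadingCoeff, ?_⟩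
      set a := g.num.leadingCoeff / g.denom.leadingCoeff with ha
      by_cases h5 : g.num - Polynomial.C a * g.denom = 0
      · exact Or.inl (key2 a h5)
      · right
        rw [key a, none_div h5 h3]
        have hl : g.denom.leadingCoeff ≠ 0 := Polynomial.leadingCoeff_ne_zero.2 h3
        have ha0 : a ≠ 0 := div_ne_zero (Polynomial.leadingCoeff_ne_zero.2 h1) hl
        have hca : Polynomial.C a * g.denom ≠ 0 :=
          mul_ne_zero (Polynomial.C_ne_zero.2 ha0) h3
        rw [none_eq, RatFunc.intDegree] at h0
        have hd : g.num.natDegree = g.denom.natDegree := by omega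
        have hd2 : (Polynomial.C a * g.denom).natDegree = g.denom.natDegree :=
          Polynomial.natDegree_C_mul ha0
        have hdeg : g.num.degree = (Polynomial.C a * g.denom).degree := by
          rw [Polynomial.degree_eq_natDegree h1, Polynomial.degree_eq_natDegree hca, hd, hd2]
        have hlc : g.num.leadingCoeff = (Polynomial.C a * g.denom).leadingCoeff := by
          rw [Polynomial.leadingCoeff_mul, Polynomial.leadingCoeff_C, ha, div_mul_cancel₀ _ hl]
        have h6 := Polynomial.degree_sub_lt_left hdeg h1 hlc
        have h7 := Polynomial.natDegree_lt_natDegree h5 h6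
        omega
    · refine ⟨0, Or.inr ?_⟩
      rw [map_zero, sub_zero]
      exact h0
  | some c =>
    have hcop := RatFunc.isCoprime_num_denom g
    have hden : ¬ g.denom.IsRoot c := by
      intro hr
      have hr2 : 0 < g.denom.rootMultiplicity c := (Polynomial.rootMultiplicity_pos h3).2 hr
      rw [some_eq] at h
      have hn : 0 < g.num.rootMultiplicity c := by omega
      have hn2 : g.num.IsRoot c := (Polynomial.rootMultiplicity_pos h1).1 hn
      obtain ⟨a, b, hab⟩ := hcop
      have := congrArg (Polynomial.eval c) hab
      rw [Polynomial.eval_add, Polynomial.eval_mul, Polynomial.eval_mul, hn2.eq_zero, hr.eq_zero,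
        Polynomial.eval_one] at this
      simp at this
    have hv : g.denom.eval c ≠ 0 := hden
    refine ⟨g.num.eval c / g.denom.eval c, ?_⟩
    set a := g.num.eval c / g.denom.eval c with ha
    by_cases h5 : g.num - Polynomial.C a * g.denom = 0
    · exact Or.inl (key2 a h5)
    · right
      rw [key a, some_div c h5 h3, Polynomial.rootMultiplicity_eq_zero hden]
      have hr : (g.num - Polynomial.C a * g.denom).IsRoot c := by
        rw [Polynomial.IsRoot, Polynomial.eval_sub, Polynomial.eval_mul, Polynomial.eval_C, ha,
          div_mul_cancel₀ _ hv, sub_self]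
      have := (Polynomial.rootMultiplicity_pos h5).2 hr
      omega

theorem ordAt_X_sub (c d : k) :
    ordAt (some d) (RatFunc.X - RatFunc.C c) = if c = d then 1 else 0 := by
  have e : (RatFunc.X - RatFunc.C c : RatFunc k) =
      im (Polynomial.X - Polynomial.C c) / im (Polynomial.C 1) := by
    simp only [im, map_sub, RatFunc.algebraMap_X, RatFunc.algebraMap_C, map_one, div_one]
  rw [e, some_div d (Polynomial.X_sub_C_ne_zero c) (Polynomial.C_ne_zero.2 one_ne_zero),
    Polynomial.rootMultiplicity_C, Polynomial.rootMultiplicity_X_sub_C]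
  by_cases h : c = d
  · rw [if_pos h, if_pos h.symm]
    simp
  · rw [if_neg h, if_neg (Ne.symm h)]
    simp

theorem ordAt_none_X_sub (c : k) : ordAt none (RatFunc.X - RatFunc.C c) = -1 := by
  have e : (RatFunc.X - RatFunc.C c : RatFunc k) =
      im (Polynomial.X - Polynomial.C c) / im (Polynomial.C 1) := by
    simp only [im, map_sub, RatFunc.algebraMap_X, RatFunc.algebraMap_C, map_one, div_one]
  rw [e, none_div (Polynomial.X_sub_C_ne_zero c) (Polynomial.C_ne_zero.2 one_ne_zero),
    Polynomial.natDegree_C, Polynomial.natDegree_X_sub_C]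
  simp

theorem exists_pole (Q : Option k) : ∃ h : RatFunc k, h ≠ 0 ∧ ordAt Q h < 0 ∧
    (∀ P, P ≠ Q → 0 ≤ ordAt P h) ∧ ∀ P P', P ≠ P' → P ≠ Q → P' ≠ Q →
      ∃ a b : k, a ≠ b ∧ 0 < ordAt P (h - RatFunc.C a) ∧ 0 < ordAt P' (h - RatFunc.C b) := by
  cases Q with
  | none =>
    have e0 : (RatFunc.X - RatFunc.C 0 : RatFunc k) = RatFunc.X := by
      rw [map_zero, sub_zero]
    refine ⟨RatFunc.X, RatFunc.X_ne_zero, ?_, ?_, ?_⟩
    · have := ordAt_none_X_sub (0 : k)
      rw [e0] at this
      omega
    · intro P hP
      cases P with
      | none => exact absurd rfl hP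
      | some d =>
        have := ordAt_X_sub (0 : k) d
        rw [e0] at this
        rw [this]
        split_ifs <;> simp
    · intro P P' hPP hP hP'
      cases P with
      | none => exact absurd rfl hP
      | some d =>
        cases P' with
        | none => exact absurd rfl hP'
        | some d' =>
          refine ⟨d, d', fun h => hPP (by rw [h]), ?_, ?_⟩
          · rw [ordAt_X_sub, if_pos rfl]
            exact one_pos
          · rw [ordAt_X_sub, if_pos rfl]
            exact one_pos
  | some c =>
    have hX : (RatFunc.X - RatFunc.C c : RatFunc k) ≠ 0 := by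
      intro h
      have := ordAt_none_X_sub c
      rw [h, ordAt_zero] at this
      omega
    have val : ∀ P : Option k, P ≠ some c →
        0 < ordAt P ((RatFunc.X - RatFunc.C c : RatFunc k)⁻¹ -
          RatFunc.C (match P with | none => 0 | some d => (d - c)⁻¹)) := by
      intro P hP
      cases P with
      | none =>
        simp only [map_zero, sub_zero]
        rw [ordAt_inv, ordAt_none_X_sub]
        norm_num
      | some d =>
        have hdc : d - c ≠ 0 := by
          intro h
          apply hP
          rw [sub_eq_zero.1 h]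
        have hda : (d - c)⁻¹ ≠ 0 := inv_ne_zero hdc
        have e1 : (RatFunc.X - RatFunc.C c : RatFunc k)⁻¹ - RatFunc.C ((d - c)⁻¹) =
            RatFunc.C (-(d - c)⁻¹) * ((RatFunc.X - RatFunc.C d) *
              (RatFunc.X - RatFunc.C c : RatFunc k)⁻¹) := by
          have h2 : (RatFunc.C (d - c)⁻¹ : RatFunc k) * (RatFunc.C d - RatFunc.C c) = 1 := by
            rw [← map_sub, ← map_mul, inv_mul_cancel₀ hdc, map_one]
          rw [map_neg]
          generalize (RatFunc.C (d - c)⁻¹ : RatFunc k) = s at h2 ⊢
          field_simp
          linear_combination -h2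
        have hXd : (RatFunc.X - RatFunc.C d : RatFunc k) ≠ 0 := by
          intro h
          have := ordAt_none_X_sub d
          rw [h, ordAt_zero] at this
          omega
        have hC : (RatFunc.C (-(d - c)⁻¹) : RatFunc k) ≠ 0 := by
          intro h
          apply neg_ne_zero.2 hda
          exact (map_eq_zero_iff _ RatFunc.C_injective).1 h
        have hcd : c ≠ d := fun h => hdc (by rw [h, sub_self])
        show 0 < ordAt (some d) ((RatFunc.X - RatFunc.C c : RatFunc k)⁻¹ - RatFunc.C ((d - c)⁻¹))
        rw [e1, ordAt_mul _ hC (mul_ne_zero hXd (inv_ne_zero hX)), ordAt_C,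
          ordAt_mul _ hXd (inv_ne_zero hX), ordAt_inv, ordAt_X_sub, ordAt_X_sub, if_pos rfl,
          if_neg hcd]
        norm_num
    refine ⟨(RatFunc.X - RatFunc.C c)⁻¹, inv_ne_zero hX, ?_, ?_, ?_⟩
    · rw [ordAt_inv, ordAt_X_sub, if_pos rfl]
      norm_num
    · intro P hP
      rw [ordAt_inv]
      cases P with
      | none =>
        rw [ordAt_none_X_sub]
        norm_num
      | some d =>
        rw [ordAt_X_sub, if_neg (fun h => hP (by rw [h]))]
        norm_num
    · intro P P' hPP hP hP'
      refine ⟨_, _, ?_, val P hP, val P' hP'⟩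
      cases P with
      | none =>
        cases P' with
        | none => exact absurd rfl hPP
        | some d =>
          have hdc : d - c ≠ 0 := fun h => hP' (by rw [sub_eq_zero.1 h])
          exact (inv_ne_zero hdc).symm
      | some d =>
        have hdc : d - c ≠ 0 := fun h => hP (by rw [sub_eq_zero.1 h])
        cases P' with
        | none => exact inv_ne_zero hdc
        | some d' =>
          intro h
          apply hPP
          have := inv_injective h
          rw [sub_left_injective this]

end ORD

end

end Pool.Agent.MLD
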