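import Pool.Agent.Lib.MP_f23696_ag.Ctx

/-!
Jacobian criterion for algebraic independence, embeddings of `K`, chain rule for Jacobians.
-/

namespace Pool.Agent.MLD

open scoped Classical
noncomputable section

universe u v w

variable {k : Type u} [Field k] [CharZero k]

namespace Jind

omit [CharZero k] in
theorem der_aeval {L : Type v} [Field L] [Algebra k L] {n : ℕ} (D : Derivation k L L)
    (a : Fin n → L) (F : MvPolynomial (Fin n) k) :
    D (MvPolynomial.aeval a F) =
      ∑ l, MvPolynomial.aeval a (MvPolynomial.pderiv l F) * D (a l) := by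
  induction F using MvPolynomial.induction_on with
  | C c => simp
  | add p q hp hq =>
    simp only [map_add, hp, hq, add_mul, Finset.sum_add_distrib]
  | mul_X p i hp =>
    simp only [map_mul, MvPolynomial.aeval_X, Derivation.leibniz, hp, smul_eq_mul,
      map_add, MvPolynomial.pderiv_X, add_mul, Finset.sum_add_distrib]
    rw [Finset.mul_sum]
    congr 1
    · rw [Finset.sum_eq_single i]
      · simp
      · intro j _ hj
        simp [Ne.symm hj]
      · simp
    · exact Finset.sum_congr rfl fun l _ => by ring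

omit [CharZero k] in
theorem totalDegree_pderiv {n : ℕ} (F : MvPolynomial (Fin n) k) (l : Fin n) (N : ℕ)
    (h : F.totalDegree ≤ N + 1) : (MvPolynomial.pderiv l F).totalDegree ≤ N := by
  refine Finset.sup_le fun s hs => ?_
  have h1 : MvPolynomial.coeff (s + Finsupp.single l 1) F ≠ 0 := by
    intro h0
    rw [MvPolynomial.mem_support_iff, MvPolynomial.coeff_pderiv, h0, zero_mul] at hs
    exact hs rfl
  have h2 := MvPolynomial.le_totalDegree (MvPolynomial.mem_support_iff.2 h1)
  rw [Finsupp.sum_add_index' (fun _ => rfl) (fun _ _ _ => rfl), Finsupp.sum_single_index rfl] at h2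
  omega

theorem eq_C_of_pderiv {n : ℕ} (F : MvPolynomial (Fin n) k)
    (h : ∀ l, MvPolynomial.pderiv l F = 0) : F = MvPolynomial.C (F.coeff 0) := by
  ext s
  rw [MvPolynomial.coeff_C]
  split_ifs with hs
  · rw [← hs]
  · obtain ⟨l, hl⟩ : ∃ l, s l ≠ 0 := by
      by_contra hcon
      push Not at hcon
      exact hs (Finsupp.ext fun l => (hcon l).symm)
    have h1 := congrArg (MvPolynomial.coeff (s - Finsupp.single l 1)) (h l)
    rw [MvPolynomial.coeff_pderiv, MvPolynomial.coeff_zero] at h1
    have h2 : s - Finsupp.single l 1 + Finsupp.single l 1 = s :=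
      tsub_add_cancel_of_le (by
        intro j
        rcases eq_or_ne j l with rfl | hj
        · simpa using Nat.one_le_iff_ne_zero.2 hl
        · simp [Ne.symm hj])
    rw [h2] at h1
    rcases mul_eq_zero.1 h1 with h3 | h3
    · exact h3
    · exact absurd h3 (Nat.cast_add_one_ne_zero _)

end Jind

theorem jac_indep {L : Type v} [Field L] [Algebra k L] {n : ℕ} (D : Fin n → Derivation k L L)
    (a : Fin n → L) (h : Matrix.det (Matrix.of fun i j => D i (a j)) ≠ 0) :
    AlgebraicIndependent k a := by
  have key : ∀ N : ℕ, ∀ F : MvPolynomial (Fin n) k, F.totalDegree ≤ N →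
      MvPolynomial.aeval a F = 0 → F = 0 := by
    intro N
    induction N with
    | zero =>
      intro F hF h0
      have h1 := MvPolynomial.totalDegree_eq_zero_iff_eq_C.1 (Nat.le_zero.1 hF)
      rw [h1, MvPolynomial.aeval_C, map_eq_zero] at h0
      rw [h1, h0, map_zero]
    | succ N ih =>
      intro F hF h0
      have h1 : ∀ l, MvPolynomial.aeval a (MvPolynomial.pderiv l F) = 0 := by
        have h2 : (Matrix.of fun i j => D i (a j)).mulVec
            (fun l => MvPolynomial.aeval a (MvPolynomial.pderiv l F)) = 0 := by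
          funext i
          have h3 := Jind.der_aeval (D i) a F
          rw [h0, map_zero] at h3
          simp only [Matrix.mulVec, dotProduct, Matrix.of_apply, Pi.zero_apply]
          rw [h3]
          exact Finset.sum_congr rfl fun l _ => mul_comm _ _
        have h4 := Matrix.eq_zero_of_mulVec_eq_zero h h2
        exact fun l => congrFun h4 l
      have h2 : ∀ l, MvPolynomial.pderiv l F = 0 := fun l =>
        ih _ (Jind.totalDegree_pderiv F l N hF) (h1 l)
      have h3 := Jind.eq_C_of_pderiv F h2
      rw [h3, MvPolynomial.aeval_C, map_eq_zero] at h0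
      rw [h3, h0, map_zero]
  rw [algebraicIndependent_iff]
  exact fun F hF => key _ F le_rfl hF

variable {m : ℕ} {K : Type v} [Field K] [Algebra k K] (C : Ctx k K m)

namespace Jind

/-- the generators of the field `K`. -/
def yy (C : Ctx k K m) : Fin (m + 1) → K := Fin.cons (C.ι RatFunc.X) C.x

omit [CharZero k] in
theorem aeval_yy (F : MvPolynomial (Fin (m + 1)) k) :
    MvPolynomial.aeval (yy C) F = ∑ d ∈ F.support,
      C.ι (RatFunc.C (F.coeff d) * RatFunc.X ^ d 0) * ∏ i, C.x i ^ ((d i.succ : ℕ) : ℤ) := by
  rw [MvPolynomial.aeval_def, MvPolynomial.eval₂_eq']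
  refine Finset.sum_congr rfl fun d _ => ?_
  rw [Fin.prod_univ_succ]
  simp only [yy, Fin.cons_zero, Fin.cons_succ, map_mul, map_pow, zpow_natCast]
  have : C.ι (RatFunc.C (F.coeff d)) = algebraMap k K (F.coeff d) := by
    rw [← RatFunc.algebraMap_eq_C, AlgHom.commutes]
  rw [this, mul_assoc]

omit [CharZero k] in
theorem yy_indep : AlgebraicIndependent k (yy C) := by
  rw [algebraicIndependent_iff]
  intro F hF
  rw [aeval_yy] at hF
  by_contra hne
  obtain ⟨d0, hd0⟩ := MvPolynomial.support_nonempty.2 hne
  -- group the monomials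
  let uu : (Fin (m + 1) →₀ ℕ) → (Fin m → ℤ) := fun d i => ((d i.succ : ℕ) : ℤ)
  have h1 : ∑ u ∈ F.support.image uu,
      C.ι (∑ d ∈ F.support with uu d = u, RatFunc.C (F.coeff d) * RatFunc.X ^ d 0) *
        ∏ i, C.x i ^ u i = 0 := by
    rw [← hF, ← Finset.sum_fiberwise_of_maps_to
      (fun d hd => Finset.mem_image_of_mem uu hd)]
    refine Finset.sum_congr rfl fun u _ => ?_
    rw [map_sum, Finset.sum_mul]
    refine Finset.sum_congr rfl fun d hd => ?_
    rw [← (Finset.mem_filter.1 hd).2]
  have h2 := C.li _ _ h1 (uu d0) (Finset.mem_image_of_mem uu hd0)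
  have h3 : (∑ d ∈ F.support with uu d = uu d0,
      Polynomial.C (F.coeff d) * Polynomial.X ^ d 0) = 0 := by
    apply RatFunc.algebraMap_injective k
    rw [map_sum, map_zero, ← h2]
    refine Finset.sum_congr rfl fun d _ => ?_
    rw [map_mul, map_pow, RatFunc.algebraMap_C, RatFunc.algebraMap_X]
  have h4 := congrArg (fun p => Polynomial.coeff p (d0 0)) h3
  simp only [Polynomial.finsetSum_coeff, Polynomial.coeff_C_mul, Polynomial.coeff_X_pow,
    Polynomial.coeff_zero, mul_ite, mul_one, mul_zero] at h4
  have hm : d0 ∈ F.support.filter (fun d => uu d = uu d0) := Finset.mem_filter.2 ⟨hd0, rfl⟩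
  rw [Finset.sum_eq_single_of_mem d0 hm] at h4
  · simp only [if_true] at h4
    exact MvPolynomial.mem_support_iff.1 hd0 h4
  · intro d hd hdne
    split_ifs with h
    · exfalso
      apply hdne
      ext i
      refine Fin.cases h.symm (fun j => ?_) i
      have h5 : ((d j.succ : ℕ) : ℤ) = ((d0 j.succ : ℕ) : ℤ) :=
        congrFun (Finset.mem_filter.1 hd).2 j
      exact_mod_cast h5
    · rfl

omit [CharZero k] in
theorem adjoin_yy : IntermediateField.adjoin k (Set.range (yy C)) = ⊤ := by
  rw [← C.gen]
  congr 1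
  rw [yy, Fin.range_cons]

end Jind

omit [CharZero k] in
/-- embedding of `K` given by algebraically independent images of `z, x_1, …, x_m` -/
theorem embed {L : Type w} [Field L] [Algebra k L] (ζ : L) (ξ : Fin m → L)
    (h : AlgebraicIndependent k (Fin.cons ζ ξ : Fin (m + 1) → L)) :
    ∃ Φ : K →ₐ[k] L, Φ (C.ι RatFunc.X) = ζ ∧ ∀ i, Φ (C.x i) = ξ i := by
  have hy := Jind.yy_indep C
  let e : K ≃ₐ[k] FractionRing (MvPolynomial (Fin (m + 1)) k) :=
    (IntermediateField.topEquiv.symm.trans
      (IntermediateField.equivOfEq (Jind.adjoin_yy C).symm)).trans hy.aevalEquivField.symm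
  have he : ∀ i, e (Jind.yy C i) = algebraMap (MvPolynomial (Fin (m + 1)) k) _
      (MvPolynomial.X i) := by
    intro i
    have h1 : e.symm (algebraMap (MvPolynomial (Fin (m + 1)) k) _ (MvPolynomial.X i)) =
        Jind.yy C i := by
      change ((hy.aevalEquivField (algebraMap _ _ (MvPolynomial.X i)) :
        IntermediateField.adjoin k (Set.range (Jind.yy C))) : K) = _
      rw [hy.aevalEquivField_algebraMap_apply_coe, MvPolynomial.aeval_X]
    rw [← h1, AlgEquiv.apply_symm_apply]
  let f : FractionRing (MvPolynomial (Fin (m + 1)) k) →ₐ[k] L :=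
    IsFractionRing.liftAlgHom (K := FractionRing (MvPolynomial (Fin (m + 1)) k))
      (algebraicIndependent_iff_injective_aeval.2 h)
  have hf : ∀ i, f (algebraMap (MvPolynomial (Fin (m + 1)) k) _ (MvPolynomial.X i)) =
      (Fin.cons ζ ξ : Fin (m + 1) → L) i := by
    intro i
    have := IsFractionRing.lift_algebraMap (K := FractionRing (MvPolynomial (Fin (m + 1)) k))
      (algebraicIndependent_iff_injective_aeval.2 h) (MvPolynomial.X i)
    rw [show f (algebraMap (MvPolynomial (Fin (m + 1)) k) _ (MvPolynomial.X i)) =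
      IsFractionRing.lift (algebraicIndependent_iff_injective_aeval.2 h)
        (algebraMap (MvPolynomial (Fin (m + 1)) k) _ (MvPolynomial.X i)) from rfl, this]
    exact MvPolynomial.aeval_X _ _
  refine ⟨f.comp e.toAlgHom, ?_, fun i => ?_⟩
  · have := hf 0
    rw [← he 0] at this
    exact this
  · have := hf i.succ
    rw [← he i.succ] at this
    exact this

omit [CharZero k] in
theorem Jind.chain {L : Type w} [Field L] [Algebra k L] (Φ : K →ₐ[k] L) (D : Derivation k L L)
    (b : K) : D (Φ b) = ∑ l, D (Φ (Jind.yy C l)) * Φ (C.der l b) := by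
  have hb : b ∈ IntermediateField.adjoin k (insert (C.ι RatFunc.X) (Set.range C.x)) := by
    rw [C.gen]; trivial
  induction hb using IntermediateField.adjoin_induction with
  | mem x hx =>
    rcases hx with rfl | ⟨i, rfl⟩
    · rw [Fin.sum_univ_succ]
      simp only [C.der0_X, C.derS_X, map_zero, mul_zero, Finset.sum_const_zero, map_one, mul_one,
        add_zero, Jind.yy, Fin.cons_zero]
    · rw [Fin.sum_univ_succ]
      simp only [C.der0_x, C.derS_x, map_zero, mul_zero, zero_add, Jind.yy, Fin.cons_succ]
      rw [Finset.sum_eq_single i]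
      · simp
      · intro j _ hj
        simp [Ne.symm hj]
      · simp
  | algebraMap c => simp
  | add x y _ _ hx hy => simp only [map_add, hx, hy, mul_add, Finset.sum_add_distrib]
  | inv x _ hx =>
    rw [map_inv₀, Derivation.leibniz_inv, hx, smul_eq_mul, Finset.mul_sum]
    refine Finset.sum_congr rfl fun l _ => ?_
    rw [Derivation.leibniz_inv, smul_eq_mul, map_mul, map_neg, map_pow, map_inv₀]
    ring
  | mul x y _ _ hx hy =>
    rw [map_mul, Derivation.leibniz, hx, hy, smul_eq_mul, smul_eq_mul, Finset.mul_sum,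
      Finset.mul_sum, ← Finset.sum_add_distrib]
    refine Finset.sum_congr rfl fun l _ => ?_
    rw [Derivation.leibniz, smul_eq_mul, smul_eq_mul, map_add, map_mul, map_mul]
    ring

omit [CharZero k] in
/-- chain rule for Jacobian determinants -/
theorem jac_chain {L : Type w} [Field L] [Algebra k L] (Φ : K →ₐ[k] L)
    (D : Fin (m + 1) → Derivation k L L) (a : Fin (m + 1) → K) :
    Matrix.det (Matrix.of fun i j => D i (Φ (a j))) =
      Matrix.det (Matrix.of fun i j => D i
        (Φ ((Fin.cons (C.ι RatFunc.X) C.x : Fin (m + 1) → K) j))) * Φ (jac C.der a) := by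
  have h1 : (Matrix.of fun i j => D i (Φ (a j))) =
      (Matrix.of fun i j => D i (Φ ((Fin.cons (C.ι RatFunc.X) C.x : Fin (m + 1) → K) j))) *
        (Matrix.of fun i j => C.der i (a j)).map Φ := by
    ext i j
    rw [Matrix.mul_apply]
    exact Jind.chain C Φ (D i) (a j)
  rw [h1, Matrix.det_mul, jac]
  congr 1
  exact (Φ.toRingHom.map_det _).symm

end

end Pool.Agent.MLD
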