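import Pool.Agent.Lib.MP_f23696_ag.Hahn
import Pool.Agent.Lib.MP_f23696_ag.Jind

/-!
# Module PHI2: embeddings of `K` into `F((T))((s))` and the bound of the Jacobians
-/

namespace Pool.Agent.MLD

open scoped Classical
noncomputable section

universe u v w

namespace Phi2

/-! ### Abstract orders -/

/-- an order function on a field, with the filtration `P N = {order ≥ N}` -/
structure VD (L : Type v) [Field L] where
  ord : L → ℤ
  P : ℤ → L → Prop
  zero : ∀ N, P N 0
  one : P 0 1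
  neg : ∀ N f, P N f → P N (-f)
  add : ∀ N f g, P N f → P N g → P N (f + g)
  mul : ∀ N M f g, P N f → P M g → P (N + M) (f * g)
  of_ord : ∀ N f, N ≤ ord f → P N f
  to_ord : ∀ N f, f ≠ 0 → P N f → N ≤ ord f
  ord_one : ord 1 = 0
  ord_mul : ∀ f g, f ≠ 0 → g ≠ 0 → ord (f * g) = ord f + ord g

section Ord
variable {L : Type v} [Field L] (V : VD L)

theorem VD.sum {ι : Type*} (s : Finset ι) {N : ℤ} {f : ι → L}
    (hf : ∀ i ∈ s, V.P N (f i)) : V.P N (∑ i ∈ s, f i) := by
  induction s using Finset.induction_on with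
  | empty => simpa using V.zero N
  | insert a s ha ih =>
    rw [Finset.sum_insert ha]
    exact V.add _ _ _ (hf a (Finset.mem_insert_self _ _))
      (ih fun i hi => hf i (Finset.mem_insert_of_mem hi))

theorem VD.prod {ι : Type*} (s : Finset ι) {f : ι → L}
    (hf : ∀ i ∈ s, V.P 0 (f i)) : V.P 0 (∏ i ∈ s, f i) := by
  induction s using Finset.induction_on with
  | empty => simpa using V.one
  | insert a s ha ih =>
    rw [Finset.prod_insert ha]
    have := V.mul _ _ _ _ (hf a (Finset.mem_insert_self _ _))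
      (ih fun i hi => hf i (Finset.mem_insert_of_mem hi))
    simpa using this

theorem VD.det {n : ℕ} (M : Matrix (Fin n) (Fin n) L) (r : Fin n)
    (h0 : ∀ i j, V.P 0 (M i j)) (h1 : ∀ j, V.P 1 (M r j)) : V.P 1 M.det := by
  rw [Matrix.det_apply]
  refine V.sum _ fun σ _ => ?_
  have h : V.P 1 (∏ i, M (σ i) i) := by
    rw [← Finset.mul_prod_erase Finset.univ (fun i => M (σ i) i) (Finset.mem_univ (σ.symm r))]
    have h2 : V.P 1 (M (σ (σ.symm r)) (σ.symm r)) := by
      rw [Equiv.apply_symm_apply]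
      exact h1 _
    have h3 := V.mul _ _ _ _ h2 (V.prod (Finset.univ.erase (σ.symm r))
      (f := fun i => M (σ i) i) fun i _ => h0 _ _)
    simpa using h3
  rcases Int.units_eq_one_or (Equiv.Perm.sign σ) with h4 | h4
  · rw [h4, one_smul]
    exact h
  · rw [h4, Units.neg_smul, one_smul]
    exact V.neg _ _ h

theorem VD.ord_zpow {f : L} (hf : f ≠ 0) (n : ℤ) : V.ord (f ^ n) = n * V.ord f := by
  induction n using Int.induction_on with
  | zero => simp [V.ord_one]
  | succ n ih =>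
    rw [zpow_add_one₀ hf, V.ord_mul _ _ (zpow_ne_zero _ hf) hf, ih]
    ring
  | pred n ih =>
    have h : f ^ (-(n : ℤ)) = f ^ (-(n : ℤ) - 1) * f := by
      rw [← zpow_add_one₀ hf]
      congr 1
      ring
    rw [h, V.ord_mul _ _ (zpow_ne_zero _ hf) hf] at ih
    linarith

theorem VD.ord_inv {f : L} (hf : f ≠ 0) : V.ord f⁻¹ = -V.ord f := by
  have h := V.ord_zpow hf (-1)
  rw [zpow_neg_one] at h
  rw [h]
  ring

theorem VD.ord_prod {ι : Type*} (s : Finset ι) {f : ι → L}
    (hf : ∀ i ∈ s, f i ≠ 0) : V.ord (∏ i ∈ s, f i) = ∑ i ∈ s, V.ord (f i) := by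
  induction s using Finset.induction_on with
  | empty => simp [V.ord_one]
  | insert a s ha ih =>
    rw [Finset.prod_insert ha, Finset.sum_insert ha, V.ord_mul _ _
      (hf a (Finset.mem_insert_self _ _))
      (Finset.prod_ne_zero_iff.2 fun i hi => hf i (Finset.mem_insert_of_mem hi)),
      ih fun i hi => hf i (Finset.mem_insert_of_mem hi)]

end Ord

/-! ### Logarithmic derivatives -/
section Log
variable {k : Type u} [Field k] {L : Type v} [Field L] [Algebra k L] (D : Derivation k L L)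

theorem ld_mul {a b : L} (ha : a ≠ 0) (hb : b ≠ 0) : D (a * b) / (a * b) = D a / a + D b / b := by
  rw [Derivation.leibniz, smul_eq_mul, smul_eq_mul]
  field_simp
  ring

theorem ld_zpow {a : L} (ha : a ≠ 0) (n : ℤ) : D (a ^ n) / a ^ n = n * (D a / a) := by
  induction n using Int.induction_on with
  | zero => simp
  | succ n ih =>
    rw [zpow_add_one₀ ha, ld_mul D (zpow_ne_zero _ ha) ha, ih]
    push_cast
    ring
  | pred n ih =>
    have h : a ^ (-(n : ℤ)) = a ^ (-(n : ℤ) - 1) * a := by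
      rw [← zpow_add_one₀ ha]
      congr 1
      ring
    rw [h, ld_mul D (zpow_ne_zero _ ha) ha] at ih
    push_cast at ih ⊢
    linear_combination ih

theorem ld_prod {ι : Type*} (s : Finset ι) {f : ι → L} (hf : ∀ i ∈ s, f i ≠ 0) :
    D (∏ i ∈ s, f i) / ∏ i ∈ s, f i = ∑ i ∈ s, D (f i) / f i := by
  induction s using Finset.induction_on with
  | empty => simp
  | insert a s ha ih =>
    rw [Finset.prod_insert ha, Finset.sum_insert ha, ld_mul D
      (hf a (Finset.mem_insert_self _ _))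
      (Finset.prod_ne_zero_iff.2 fun i hi => hf i (Finset.mem_insert_of_mem hi)),
      ih fun i hi => hf i (Finset.mem_insert_of_mem hi)]

end Log

/-! ### The block determinant -/
section Det

theorem det_block {L : Type v} [Field L] {m : ℕ} (M : Matrix (Fin (m + 1)) (Fin (m + 1)) L)
    (h : ∀ i : Fin m, M i.succ 0 = 0) :
    M.det = M 0 0 * (Matrix.of fun i j : Fin m => M i.succ j.succ).det := by
  rw [Matrix.det_succ_column_zero, Fin.sum_univ_succ]
  have h2 : ∑ i : Fin m, (-1) ^ ((i.succ : Fin (m + 1)) : ℕ) * M i.succ 0 *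
      (M.submatrix i.succ.succAbove Fin.succ).det = 0 :=
    Finset.sum_eq_zero fun i _ => by rw [h i]; ring
  rw [h2, add_zero]
  simp only [Fin.val_zero, pow_zero, one_mul]
  congr 1

theorem det_form {L : Type v} [Field L] {m : ℕ} (ξ κ : Fin m → L)
    (β : Matrix (Fin m) (Fin m) ℤ) :
    (Matrix.of fun i j : Fin m => ξ j * ((β i j : ℤ) * κ i)).det =
      (∏ j, ξ j) * ((∏ i, κ i) * ((β.det : ℤ) : L)) := by
  have h1 := Matrix.det_mul_row ξ (Matrix.of fun i j : Fin m => ((β i j : ℤ) : L) * κ i)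
  have h2 := Matrix.det_mul_column κ (Matrix.of fun i j : Fin m => ((β i j : ℤ) : L))
  have h3 : (Matrix.of fun i j : Fin m => ((β i j : ℤ) : L) * κ i) =
      Matrix.of fun i j => κ i * (Matrix.of fun i j : Fin m => ((β i j : ℤ) : L)) i j := by
    ext i j
    simp [mul_comm]
  have h4 : (Matrix.of fun i j : Fin m => ((β i j : ℤ) : L)).det = ((β.det : ℤ) : L) := by
    rw [Int.cast_det]
    rfl
  rw [← h4, ← h2, ← h3, ← h1]
  rfl

end Det

/-! ### The elements, abstractly -/
section Abs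
variable {L : Type v} [Field L] {m : ℕ}

/-- the factor of index `i` -/
def att (s : L) (T : Fin m → L) (I : Finset (Fin m)) (i : Fin m) : L :=
  if i ∈ I then 1 + s * T i else T i

/-- its logarithmic derivative -/
def akk (s : L) (T : Fin m → L) (I : Finset (Fin m)) (i : Fin m) : L :=
  if i ∈ I then s * T i / (1 + s * T i) else 1

/-- the image of `x_j` -/
def axi (s : L) (T a : Fin m → L) (w : Fin m → ℤ) (β : Matrix (Fin m) (Fin m) ℤ)
    (I : Finset (Fin m)) (j : Fin m) : L :=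
  a j * s ^ w j * ∏ i, att s T I i ^ (β i j : ℤ)

/-- the data: nonvanishing and orders -/
structure Dat (V : VD L) (s : L) (T a : Fin m → L) : Prop where
  sne : s ≠ 0
  Tne : ∀ i, T i ≠ 0
  tne : ∀ i, 1 + s * T i ≠ 0
  ane : ∀ i, a i ≠ 0
  sord : V.ord s = 1
  Tord : ∀ i, V.ord (T i) = 0
  tord : ∀ i, V.ord (1 + s * T i) = 0
  aord : ∀ i, V.ord (a i) = 0
  ine : ∀ n : ℤ, n ≠ 0 → (n : L) ≠ 0
  iord : ∀ n : ℤ, n ≠ 0 → V.ord (n : L) = 0

variable {V : VD L} {s : L} {T a : Fin m → L} (H : Dat V s T a)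
include H

theorem att_ne (I : Finset (Fin m)) (i : Fin m) : att s T I i ≠ 0 := by
  unfold att
  split_ifs
  · exact H.tne i
  · exact H.Tne i

theorem att_ord (I : Finset (Fin m)) (i : Fin m) : V.ord (att s T I i) = 0 := by
  unfold att
  split_ifs
  · exact H.tord i
  · exact H.Tord i

theorem akk_ne (I : Finset (Fin m)) (i : Fin m) : akk s T I i ≠ 0 := by
  unfold akk
  split_ifs
  · exact div_ne_zero (mul_ne_zero H.sne (H.Tne i)) (H.tne i)
  · exact one_ne_zero

theorem akk_ord (I : Finset (Fin m)) (i : Fin m) :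
    V.ord (akk s T I i) = if i ∈ I then 1 else 0 := by
  unfold akk
  split_ifs
  · rw [div_eq_mul_inv, V.ord_mul _ _ (mul_ne_zero H.sne (H.Tne i)) (inv_ne_zero (H.tne i)),
      V.ord_inv (H.tne i), H.tord, V.ord_mul _ _ H.sne (H.Tne i), H.sord, H.Tord]
    norm_num
  · exact V.ord_one

theorem axi_ne (w : Fin m → ℤ) (β : Matrix (Fin m) (Fin m) ℤ)
    (I : Finset (Fin m)) (j : Fin m) : axi s T a w β I j ≠ 0 :=
  mul_ne_zero (mul_ne_zero (H.ane j) (zpow_ne_zero _ H.sne))
    (Finset.prod_ne_zero_iff.2 fun i _ => zpow_ne_zero _ (att_ne H I i))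

theorem axi_ord (w : Fin m → ℤ) (β : Matrix (Fin m) (Fin m) ℤ) (I : Finset (Fin m))
    (j : Fin m) : V.ord (axi s T a w β I j) = w j := by
  unfold axi
  rw [V.ord_mul _ _ (mul_ne_zero (H.ane j) (zpow_ne_zero _ H.sne))
    (Finset.prod_ne_zero_iff.2 fun i _ => zpow_ne_zero _ (att_ne H I i)),
    V.ord_mul _ _ (H.ane j) (zpow_ne_zero _ H.sne), H.aord, V.ord_zpow H.sne,
    H.sord, V.ord_prod _ fun i _ => zpow_ne_zero _ (att_ne H I i)]
  have : ∀ i ∈ Finset.univ, V.ord (att s T I i ^ (β i j : ℤ)) = 0 := by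
    intro i _
    rw [V.ord_zpow (att_ne H I i), att_ord H, mul_zero]
  rw [Finset.sum_congr rfl this]
  simp

variable {k : Type u} [Field k] [Algebra k L]

theorem ld_axi (D : Derivation k L L)
    (w : Fin m → ℤ) (β : Matrix (Fin m) (Fin m) ℤ) (I : Finset (Fin m)) (j : Fin m) :
    D (axi s T a w β I j) / axi s T a w β I j = D (a j) / a j +
      w j * (D s / s) + ∑ i, ((β i j : ℤ) : L) * (D (att s T I i) / att s T I i) := by
  unfold axi
  rw [ld_mul D (mul_ne_zero (H.ane j) (zpow_ne_zero _ H.sne))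
    (Finset.prod_ne_zero_iff.2 fun i _ => zpow_ne_zero _ (att_ne H I i)),
    ld_mul D (H.ane j) (zpow_ne_zero _ H.sne), ld_zpow D H.sne,
    ld_prod D _ fun i _ => zpow_ne_zero _ (att_ne H I i)]
  congr 1
  exact Finset.sum_congr rfl fun i _ => ld_zpow D (att_ne H I i) _

/-- action of an inner Euler derivation -/
theorem e_att {r : Fin m} {D : Derivation k L L} (h2 : D s = 0)
    (h3 : ∀ j, D (T j) = if r = j then T j else 0) (I : Finset (Fin m)) (i : Fin m) :
    D (att s T I i) / att s T I i = if r = i then akk s T I i else 0 := by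
  have hT := H.Tne i
  unfold att akk
  by_cases hi : i ∈ I
  · rw [if_pos hi, if_pos hi, map_add, Derivation.leibniz, h2, h3 i,
      Derivation.map_one_eq_zero D]
    by_cases hr : r = i
    · rw [if_pos hr, if_pos hr]
      simp
    · rw [if_neg hr, if_neg hr]
      simp
  · rw [if_neg hi, if_neg hi, h3 i]
    by_cases hr : r = i
    · rw [if_pos hr, if_pos hr]
      exact div_self hT
    · rw [if_neg hr, if_neg hr, zero_div]

theorem e_axi {r : Fin m} {D : Derivation k L L} (h1 : ∀ j, D (a j) = 0)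
    (h2 : D s = 0) (h3 : ∀ j, D (T j) = if r = j then T j else 0)
    (w : Fin m → ℤ) (β : Matrix (Fin m) (Fin m) ℤ) (I : Finset (Fin m)) (j : Fin m) :
    D (axi s T a w β I j) = axi s T a w β I j * ((β r j : ℤ) * akk s T I r) := by
  have h := ld_axi H D w β I j
  rw [h1, h2, zero_div, zero_div, mul_zero, zero_add, zero_add] at h
  have h4 : ∑ i, ((β i j : ℤ) : L) * (D (att s T I i) / att s T I i) =
      ((β r j : ℤ) : L) * akk s T I r := by
    rw [Finset.sum_eq_single r]
    · rw [e_att H h2 h3, if_pos rfl]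
    · intro i _ hi
      rw [e_att H h2 h3, if_neg (Ne.symm hi), mul_zero]
    · intro h
      exact absurd (Finset.mem_univ r) h
  rw [h4, div_eq_iff (axi_ne H w β I j)] at h
  rw [h, mul_comm]

/-- action of the outer Euler derivation -/
theorem ds_axi {D : Derivation k L L} (h1 : ∀ j, D (a j) = 0)
    (h2 : D s = s) (h3 : ∀ j, D (T j) = 0)
    (w : Fin m → ℤ) (β : Matrix (Fin m) (Fin m) ℤ) (I : Finset (Fin m)) (j : Fin m) :
    D (axi s T a w β I j) = axi s T a w β I j *
      ((w j : ℤ) + ∑ i ∈ I, ((β i j : ℤ) : L) * akk s T I i) := by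
  have h := ld_axi H D w β I j
  rw [h1, h2, zero_div, div_self H.sne, mul_one, zero_add] at h
  have h4 : ∑ i, ((β i j : ℤ) : L) * (D (att s T I i) / att s T I i) =
      ∑ i ∈ I, ((β i j : ℤ) : L) * akk s T I i := by
    symm
    apply Finset.sum_subset_zero_on_sdiff (Finset.subset_univ I)
    · intro i hi
      have hi' : i ∉ I := (Finset.mem_sdiff.1 hi).2
      unfold att
      rw [if_neg hi', h3, zero_div, mul_zero]
    · intro i hi
      unfold att akk
      rw [if_pos hi, if_pos hi, map_add, Derivation.leibniz, h2, h3 i,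
        Derivation.map_one_eq_zero D]
      congr 2
      simp [mul_comm]
  rw [h4, div_eq_iff (axi_ne H w β I j)] at h
  rw [h, mul_comm]

/-- the Jacobian determinant of the images -/
theorem J0 (D0 : Derivation k L L) (e : Fin m → Derivation k L L) (ζ : L)
    (hζ : ∀ i, e i ζ = 0) (h1 : ∀ i j, e i (a j) = 0) (h2 : ∀ i, e i s = 0)
    (h3 : ∀ i j, e i (T j) = if i = j then T j else 0) (w : Fin m → ℤ)
    (β : Matrix (Fin m) (Fin m) ℤ) (I : Finset (Fin m)) :
    (Matrix.of fun i j => (Fin.cons D0 e : Fin (m + 1) → Derivation k L L) i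
      ((Fin.cons ζ (axi s T a w β I) : Fin (m + 1) → L) j)).det =
      D0 ζ * ((∏ j, axi s T a w β I j) * ((∏ i, akk s T I i) * ((β.det : ℤ) : L))) := by
  rw [det_block]
  · congr 1
    rw [← det_form]
    congr 1
    ext i j
    simp only [Matrix.of_apply, Fin.cons_succ]
    exact e_axi H (h1 i) (h2 i) (h3 i) w β I j
  · intro i
    simp only [Matrix.of_apply, Fin.cons_succ, Fin.cons_zero]
    exact hζ i

theorem J0_ne {x : L} (hx : x ≠ 0) (w : Fin m → ℤ)
    (β : Matrix (Fin m) (Fin m) ℤ) (hβ : β.det ≠ 0) (I : Finset (Fin m)) :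
    x * ((∏ j, axi s T a w β I j) * ((∏ i, akk s T I i) * ((β.det : ℤ) : L))) ≠ 0 :=
  mul_ne_zero hx (mul_ne_zero (Finset.prod_ne_zero_iff.2 fun j _ => axi_ne H w β I j)
    (mul_ne_zero (Finset.prod_ne_zero_iff.2 fun i _ => akk_ne H I i) (H.ine _ hβ)))

theorem J0_ord {x : L} (hx : x ≠ 0) (w : Fin m → ℤ)
    (β : Matrix (Fin m) (Fin m) ℤ) (hβ : β.det ≠ 0) (I : Finset (Fin m)) :
    V.ord (x * ((∏ j, axi s T a w β I j) * ((∏ i, akk s T I i) * ((β.det : ℤ) : L)))) =
      V.ord x + (∑ j, w j + I.card) := by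
  have h1 : (∏ j, axi s T a w β I j) ≠ 0 :=
    Finset.prod_ne_zero_iff.2 fun j _ => axi_ne H w β I j
  have h2 : (∏ i, akk s T I i) ≠ 0 := Finset.prod_ne_zero_iff.2 fun i _ => akk_ne H I i
  have h3 : ((β.det : ℤ) : L) ≠ 0 := H.ine _ hβ
  rw [V.ord_mul _ _ hx (mul_ne_zero h1 (mul_ne_zero h2 h3)),
    V.ord_mul _ _ h1 (mul_ne_zero h2 h3), V.ord_mul _ _ h2 h3, H.iord _ hβ,
    V.ord_prod _ fun j _ => axi_ne H w β I j, V.ord_prod _ fun i _ => akk_ne H I i,
    Finset.sum_congr rfl fun j _ => axi_ord H w β I j,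
    Finset.sum_congr rfl fun i _ => akk_ord H I i]
  have h4 : ∑ i : Fin m, (if i ∈ I then (1 : ℤ) else 0) = I.card := by
    simp
  rw [h4]
  ring

/-- the bound, given that the determinant of the derivatives has order at least one -/
theorem abs_bound [CharZero k] {K : Type w} [Field K] [Algebra k K] (C : Ctx k K m)
    (D0 : Derivation k L L) (e : Fin m → Derivation k L L) (ζ : L)
    (hζ : ∀ i, e i ζ = 0) (h1 : ∀ i j, e i (a j) = 0) (h2 : ∀ i, e i s = 0)
    (h3 : ∀ i j, e i (T j) = if i = j then T j else 0) (w : Fin m → ℤ)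
    (β : Matrix (Fin m) (Fin m) ℤ) (hβ : β.det ≠ 0) (I : Finset (Fin m)) (hx0 : D0 ζ ≠ 0)
    (Φ : K →ₐ[k] L) (hz : Φ (C.ι RatFunc.X) = ζ) (hx : ∀ j, Φ (C.x j) = axi s T a w β I j)
    (b : Fin (m + 1) → K) (hJ : jac C.der b ≠ 0)
    (hdet : V.P 1 (Matrix.of fun i j =>
      (Fin.cons D0 e : Fin (m + 1) → Derivation k L L) i (Φ (b j))).det) :
    1 - (V.ord (D0 ζ) + (∑ j, w j + I.card)) ≤ V.ord (Φ (jac C.der b)) := by
  have hQ : Φ (jac C.der b) ≠ 0 := (map_ne_zero Φ).2 hJ
  have hch := jac_chain C Φ (Fin.cons D0 e : Fin (m + 1) → Derivation k L L) b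
  have hy : ∀ j, Φ ((Fin.cons (C.ι RatFunc.X) C.x : Fin (m + 1) → K) j) =
      (Fin.cons ζ (axi s T a w β I) : Fin (m + 1) → L) j := by
    intro j
    refine Fin.cases ?_ (fun j => ?_) j
    · simpa using hz
    · simpa using hx j
  simp only [hy] at hch
  rw [J0 H D0 e ζ hζ h1 h2 h3 w β I] at hch
  rw [hch] at hdet
  have hJn := J0_ne H hx0 w β hβ I
  have h := V.to_ord 1 _ (mul_ne_zero hJn hQ) hdet
  rw [V.ord_mul _ _ hJn hQ, J0_ord H hx0 w β hβ I] at h
  linarith

end Abs

/-! ### Determinants of order at least one -/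
section Abs2
variable {k : Type u} [Field k] {L : Type v} [Field L] [Algebra k L] {m : ℕ}

theorem VD.mono (V : VD L) {N M : ℤ} (h : M ≤ N) {f : L} (hf : V.P N f) : V.P M f := by
  by_cases h0 : f = 0
  · rw [h0]
    exact V.zero M
  · exact V.of_ord _ _ (le_trans h (V.to_ord _ _ h0 hf))

theorem der_sum {ι : Type*} (s : Finset ι) (D : ι → Derivation k L L) (x : L) :
    (∑ i ∈ s, D i) x = ∑ i ∈ s, D i x := by
  induction s using Finset.induction_on with
  | empty => simp
  | insert a s ha ih => rw [Finset.sum_insert ha, Finset.sum_insert ha, Derivation.add_apply, ih]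

theorem der_zero {K : Type w} [Field K] [Algebra k K] (C : Ctx k K m) (Φ : K →ₐ[k] L)
    (E : Derivation k L L) (h0 : E (Φ (C.ι RatFunc.X)) = 0) (hx : ∀ i, E (Φ (C.x i)) = 0)
    (x : K) : E (Φ x) = 0 := by
  have hmem : x ∈ IntermediateField.adjoin k (insert (C.ι RatFunc.X) (Set.range C.x)) := by
    rw [C.gen]
    exact IntermediateField.mem_top
  induction hmem using IntermediateField.adjoin_induction with
  | mem x hx' =>
    rcases hx' with h | ⟨i, h⟩
    · rw [h]
      exact h0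
    · rw [← h]
      exact hx i
  | algebraMap c =>
    rw [AlgHom.commutes]
    exact Derivation.map_algebraMap E c
  | add a b _ _ ha hb => rw [map_add, map_add, ha, hb, add_zero]
  | inv a _ ha =>
    rw [map_inv₀]
    by_cases h : Φ a = 0
    · rw [h, inv_zero, map_zero]
    · have h1 : E (Φ a * (Φ a)⁻¹) = 0 := by
        rw [mul_inv_cancel₀ h]
        exact Derivation.map_one_eq_zero E
      rw [Derivation.leibniz, ha, smul_zero, add_zero, smul_eq_mul] at h1
      exact (mul_eq_zero.1 h1).resolve_left h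
  | mul a b _ _ ha hb => rw [map_mul, Derivation.leibniz, ha, hb, smul_zero, smul_zero, add_zero]

theorem det_vert (V : VD L) (D0 : Derivation k L L) (e : Fin m → Derivation k L L)
    (hD0 : ∀ f, V.P 0 f → V.P 1 (D0 f)) (he : ∀ i f, V.P 0 f → V.P 0 (e i f))
    (b : Fin (m + 1) → L) (hb : ∀ j, V.P 0 (b j)) :
    V.P 1 (Matrix.of fun i j =>
      (Fin.cons D0 e : Fin (m + 1) → Derivation k L L) i (b j)).det := by
  apply V.det _ 0
  · intro i j
    refine Fin.cases ?_ (fun i => ?_) i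
    · simp only [Matrix.of_apply, Fin.cons_zero]
      exact V.mono (by norm_num) (hD0 _ (hb j))
    · simp only [Matrix.of_apply, Fin.cons_succ]
      exact he i _ (hb j)
  · intro j
    simp only [Matrix.of_apply, Fin.cons_zero]
    exact hD0 _ (hb j)

theorem det_horiz (V : VD L) (D0 ds : Derivation k L L) (e : Fin m → Derivation k L L)
    (hD0 : ∀ f, V.P 0 f → V.P 0 (D0 f)) (hds : ∀ f, V.P 0 f → V.P 1 (ds f))
    (he : ∀ i f, V.P 0 f → V.P 0 (e i f)) (lam : Fin m → L) (i₀ : Fin m) (hl : lam i₀ ≠ 0)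
    (hlP : V.P 0 (lam i₀)⁻¹)
    (b : Fin (m + 1) → L) (hb : ∀ j, V.P 0 (b j))
    (hrel : ∀ j, ds (b j) = ∑ i, lam i * e i (b j)) :
    V.P 1 (Matrix.of fun i j =>
      (Fin.cons D0 e : Fin (m + 1) → Derivation k L L) i (b j)).det := by
  set M : Matrix (Fin (m + 1)) (Fin (m + 1)) L := Matrix.of fun i j =>
      (Fin.cons D0 e : Fin (m + 1) → Derivation k L L) i (b j) with hM
  have h := Matrix.det_updateRow_sum M i₀.succ (Fin.cons 0 lam : Fin (m + 1) → L)
  have hrow : (∑ r, ((Fin.cons 0 lam : Fin (m + 1) → L) r) • M r) = fun j => ds (b j) := by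
    funext j
    rw [Finset.sum_apply, Fin.sum_univ_succ, hrel j]
    simp [hM]
  rw [hrow] at h
  have h1 : V.P 1 (M.updateRow i₀.succ fun j => ds (b j)).det := by
    apply V.det _ i₀.succ
    · intro i j
      by_cases hi : i = i₀.succ
      · rw [hi, Matrix.updateRow_self]
        exact V.mono (by norm_num) (hds _ (hb j))
      · rw [Matrix.updateRow_ne hi]
        refine Fin.cases ?_ (fun i => ?_) i
        · simp only [hM, Matrix.of_apply, Fin.cons_zero]
          exact hD0 _ (hb j)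
        · simp only [hM, Matrix.of_apply, Fin.cons_succ]
          exact he i _ (hb j)
    · intro j
      rw [Matrix.updateRow_self]
      exact hds _ (hb j)
  rw [h, Fin.cons_succ, smul_eq_mul] at h1
  have h2 := V.mul _ _ _ _ hlP h1
  rw [zero_add, inv_mul_cancel_left₀ hl] at h2
  exact h2

theorem rat_ord {V : VD L} {s : L} {T a : Fin m → L} (H : Dat V s T a) {q : ℚ} (hq : q ≠ 0) :
    (q : L) ≠ 0 ∧ V.ord (q : L) = 0 := by
  have hn : q.num ≠ 0 := Rat.num_ne_zero.2 hq
  have hd : (q.den : ℤ) ≠ 0 := by exact_mod_cast q.den_nz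
  have h1 := H.ine _ hn
  have h2 := H.ine _ hd
  have h3 := H.iord _ hn
  have h4 := H.iord _ hd
  rw [Int.cast_natCast] at h2 h4
  rw [Rat.cast_def]
  refine ⟨div_ne_zero h1 h2, ?_⟩
  rw [div_eq_mul_inv, V.ord_mul _ _ h1 (inv_ne_zero h2), V.ord_inv h2, h3, h4]
  norm_num

/-- the relation between the outer and the inner Euler derivations on `K` -/
theorem rel_horiz [CharZero L] {V : VD L} {s : L} {T a : Fin m → L} (H : Dat V s T a)
    {K : Type w} [Field K] [Algebra k K] (C : Ctx k K m)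
    (ds : Derivation k L L) (e : Fin m → Derivation k L L) (ζ : L)
    (hζ : ∀ i, e i ζ = 0) (h1 : ∀ i j, e i (a j) = 0) (h2 : ∀ i, e i s = 0)
    (h3 : ∀ i j, e i (T j) = if i = j then T j else 0)
    (sζ : ds ζ = 0) (s1 : ∀ j, ds (a j) = 0) (s2 : ds s = s) (s3 : ∀ j, ds (T j) = 0)
    (w : Fin m → ℤ) (β : Matrix (Fin m) (Fin m) ℤ) (I : Finset (Fin m))
    (l : Fin m → ℚ) (hw : ∀ j, (w j : ℚ) = ∑ i ∈ Iᶜ, l i * β i j)
    (Φ : K →ₐ[k] L) (hz : Φ (C.ι RatFunc.X) = ζ) (hx : ∀ j, Φ (C.x j) = axi s T a w β I j)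
    (x : K) : ds (Φ x) = ∑ i, (if i ∈ I then (1 : L) else (l i : L)) * e i (Φ x) := by
  have h := der_zero C Φ (ds - ∑ i, (if i ∈ I then (1 : L) else (l i : L)) • e i) ?_ ?_ x
  · have h4 : (∑ i, (if i ∈ I then (1 : L) else (l i : L)) • e i) (Φ x) =
        ∑ i, (if i ∈ I then (1 : L) else (l i : L)) * e i (Φ x) := by
      rw [der_sum]
      rfl
    rw [Derivation.sub_apply, h4, sub_eq_zero] at h
    exact h
  · rw [hz, Derivation.sub_apply, sζ, der_sum, zero_sub,
      neg_eq_zero]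
    refine Finset.sum_eq_zero fun i _ => ?_
    rw [Derivation.smul_apply, hζ i, smul_zero]
  · intro j
    rw [hx, Derivation.sub_apply, ds_axi H s1 s2 s3, der_sum,
      sub_eq_zero]
    have h5 : ∀ i ∈ Finset.univ,
        ((if i ∈ I then (1 : L) else (l i : L)) • e i) (axi s T a w β I j) =
        axi s T a w β I j * ((if i ∈ I then (1 : L) else (l i : L)) *
          (((β i j : ℤ) : L) * akk s T I i)) := by
      intro i _
      rw [Derivation.smul_apply, e_axi H (h1 i) (h2 i) (h3 i), smul_eq_mul]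
      ring
    rw [Finset.sum_congr rfl h5, ← Finset.mul_sum]
    congr 1
    have h6 : ((w j : ℤ) : L) = ∑ i ∈ Iᶜ, (l i : L) * ((β i j : ℤ) : L) := by
      have := congrArg (fun q : ℚ => (q : L)) (hw j)
      simpa using this
    rw [h6, ← Finset.sum_add_sum_compl I]
    rw [add_comm]
    congr 1
    · refine Finset.sum_congr rfl fun i hi => ?_
      rw [if_pos hi, one_mul]
    · refine Finset.sum_congr rfl fun i hi => ?_
      have hi' : i ∉ I := by simpa using hi
      rw [if_neg hi']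
      unfold akk
      rw [if_neg hi', mul_one]

end Abs2

/-! ### The concrete field -/
section Con

/-- derivations of a field (with the module structure given by the algebra structure) -/
abbrev DDer (k : Type u) [Field k] (L : Type v) [Field L] [Algebra k L] := Derivation k L L

theorem mkDer {k : Type u} [Field k] {L : Type v} [Field L] [Algebra k L] (f : L → L)
    (hadd : ∀ a b, f (a + b) = f a + f b) (hmul : ∀ a b, f (a * b) = a * f b + b * f a)
    (hc : ∀ c : k, f (algebraMap k L c) = 0) : ∃ D : DDer k L, ∀ x, D x = f x := by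
  have hs : ∀ (c : k) (x : L), f (c • x) = c • f x := by
    intro c x
    rw [Algebra.smul_def, hmul, hc, mul_zero, add_zero, ← Algebra.smul_def]
  exact ⟨Derivation.mk' ⟨⟨f, hadd⟩, hs⟩ hmul, fun x => rfl⟩

theorem heul_fun {k : Type u} [Field k] {Γ : Type w} [AddCommMonoid Γ] [PartialOrder Γ]
    [IsOrderedCancelAddMonoid Γ] {R : Type v} [CommRing R] [Algebra k R] (l : Γ →+ ℤ) :
    ∃ E : HahnSeries Γ R → HahnSeries Γ R, (∀ a b, E (a + b) = E a + E b) ∧
      (∀ a b, E (a * b) = a * E b + b * E a) ∧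
      ∀ f γ, (E f).coeff γ = (l γ : R) * f.coeff γ := by
  obtain ⟨D, hD⟩ := heul_exists (k := k) (Γ := Γ) (R := R) l
  exact ⟨fun f => D f, fun a b => map_add D a b, fun a b => D.leibniz a b, hD⟩

theorem hcoef_fun {k : Type u} [Field k] {Γ : Type w} [AddCommMonoid Γ] [PartialOrder Γ]
    [IsOrderedCancelAddMonoid Γ] {R : Type v} [CommRing R] [Algebra k R]
    (Δ : Derivation k R R) :
    ∃ E : HahnSeries Γ R → HahnSeries Γ R, (∀ a b, E (a + b) = E a + E b) ∧
      (∀ a b, E (a * b) = a * E b + b * E a) ∧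
      ∀ f γ, (E f).coeff γ = Δ (f.coeff γ) := by
  obtain ⟨D, hD⟩ := hcoef_exists (k := k) (Γ := Γ) (R := R) Δ
  exact ⟨fun f => D f, fun a b => map_add D a b, fun a b => D.leibniz a b, hD⟩

/-- the order data of a field of Laurent series -/
def vd (E : Type v) [Field E] : VD (LaurentSeries E) where
  ord f := HahnSeries.order f
  P N f := ∀ γ < N, HahnSeries.coeff f γ = 0
  zero N γ _ := rfl
  one := by
    intro γ hγ
    exact (HahnSeries.coeff_one).trans (if_neg hγ.ne)
  neg N f hf γ hγ := by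
    have h : (-f).coeff γ = -(f.coeff γ) := rfl
    rw [h, hf γ hγ, neg_zero]
  add N f g hf hg γ hγ := by
    have h : (f + g).coeff γ = f.coeff γ + g.coeff γ := rfl
    rw [h, hf γ hγ, hg γ hγ, add_zero]
  mul N M f g hf hg γ hγ := by
    refine (HahnSeries.coeff_mul (x := f) (y := g) (a := γ)).trans ?_
    refine Finset.sum_eq_zero fun ij hij => ?_
    rw [Finset.mem_antidiagonal] at hij
    rcases lt_or_ge ij.1 N with h | h
    · rw [hf _ h, zero_mul]
    · have : ij.2 < M := by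
        have := hij.2.2
        omega
      rw [hg _ this, mul_zero]
  of_ord N f h γ hγ := HahnSeries.coeff_eq_zero_of_lt_order (lt_of_lt_of_le hγ h)
  to_ord N f hf h := (HahnSeries.le_order_iff_forall hf).2 h
  ord_one := HahnSeries.order_one
  ord_mul f g hf hg := HahnSeries.order_mul hf hg

variable {F : Type v} [Field F] {m : ℕ} {k : Type u} [Field k] [Algebra k F]

theorem alg_eq (c : k) : algebraMap k (LL F m) c = HahnSeries.C (algebraMap k (EE F m) c) := by
  have h : algebraMap k (LL F m) c =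
      HahnSeries.ofPowerSeries ℤ (EE F m) (algebraMap k (PowerSeries (EE F m)) c) := rfl
  rw [h]
  have h2 : algebraMap k (PowerSeries (EE F m)) c =
      PowerSeries.C (algebraMap k (EE F m) c) := PowerSeries.algebraMap_apply
  rw [h2, HahnSeries.ofPowerSeries_C]

theorem exists_ds : ∃ D : DDer k (LL F m),
    (∀ f, (vd (EE F m)).P 0 f → (vd (EE F m)).P 1 (D f)) ∧ (∀ a : F, D (cc F m a) = 0) ∧
      D (ss F m) = ss F m ∧ ∀ j, D (TL F m j) = 0 := by
  obtain ⟨D, hadd, hmul, hD⟩ := heul_fun (k := k) (Γ := ℤ) (R := EE F m) (AddMonoidHom.id ℤ)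
  have hC : ∀ a : EE F m, D (HahnSeries.C a) = 0 := by
    intro a
    ext γ
    rw [hD, HahnSeries.C_apply]
    by_cases h : γ = 0
    · subst h
      simp
    · rw [HahnSeries.coeff_single_of_ne h]
      simp
  obtain ⟨D', hD'⟩ := mkDer (k := k) (L := LL F m) D hadd hmul (fun c => by
      rw [alg_eq]
      exact hC _)
  refine ⟨D', ?_, fun a => by rw [hD']; exact hC _, ?_, fun j => by rw [hD']; exact hC _⟩
  · intro f hf γ hγ
    rw [hD']
    refine (hD f γ).trans ?_
    rcases lt_or_ge γ 0 with h | h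
    · have h1 : HahnSeries.coeff f γ = 0 := hf γ h
      rw [h1, mul_zero]
    · have : γ = 0 := by omega
      subst this
      simp
  · rw [hD']
    change D (ss F m) = ss F m
    ext γ
    rw [hD]
    by_cases h : γ = 1
    · subst h
      simp [ss]
    · unfold ss
      rw [HahnSeries.coeff_single_of_ne h, mul_zero]

/-- a coefficientwise derivation of the big field -/
theorem exists_coef (Δ : DDer k (EE F m)) :
    ∃ D : DDer k (LL F m), (∀ f, (vd (EE F m)).P 0 f → (vd (EE F m)).P 0 (D f)) ∧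
      (∀ a, D (HahnSeries.C a) = HahnSeries.C (Δ a)) ∧ D (ss F m) = 0 := by
  obtain ⟨D, hadd, hmul, hD⟩ := hcoef_fun (k := k) (Γ := ℤ) Δ
  have hC : ∀ a, D (HahnSeries.C a) = HahnSeries.C (Δ a) := by
    intro a
    ext γ
    rw [hD, HahnSeries.C_apply, HahnSeries.C_apply]
    by_cases h : γ = 0
    · subst h
      simp
    · rw [HahnSeries.coeff_single_of_ne h, HahnSeries.coeff_single_of_ne h, map_zero]
  obtain ⟨D', hD'⟩ := mkDer (k := k) (L := LL F m) D hadd hmul (fun c => by
      rw [alg_eq]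
      refine (hC _).trans ?_
      rw [Derivation.map_algebraMap, map_zero])
  refine ⟨D', ?_, fun a => by rw [hD']; exact hC _, ?_⟩
  · intro f hf γ hγ
    rw [hD']
    refine (hD f γ).trans ?_
    have h1 : HahnSeries.coeff f γ = 0 := hf γ hγ
    rw [h1, map_zero]
  · rw [hD']
    change D (ss F m) = 0
    ext γ
    rw [hD]
    unfold ss
    by_cases h : γ = 1
    · subst h
      simp
    · rw [HahnSeries.coeff_single_of_ne h, map_zero]
      rfl

/-- the coordinate on the exponents -/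
def crd (m : ℕ) (i : Fin m) : Lex (Fin m → ℤ) →+ ℤ where
  toFun u := ofLex u i
  map_zero' := rfl
  map_add' _ _ := rfl

theorem exists_e (i : Fin m) : ∃ D : DDer k (LL F m),
    (∀ f, (vd (EE F m)).P 0 f → (vd (EE F m)).P 0 (D f)) ∧ (∀ a : F, D (cc F m a) = 0) ∧
      D (ss F m) = 0 ∧ ∀ j, D (TL F m j) = if i = j then TL F m j else 0 := by
  obtain ⟨Δ, hΔ⟩ := heul_exists (k := k) (Γ := Lex (Fin m → ℤ)) (R := F) (crd m i)
  obtain ⟨D, h1, h2, h3⟩ := exists_coef (k := k) (F := F) (m := m) Δ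
  refine ⟨D, h1, ?_, h3, ?_⟩
  · intro a
    have : Δ (HahnSeries.C a) = 0 := by
      ext γ
      rw [hΔ, HahnSeries.C_apply]
      by_cases h : γ = 0
      · subst h
        simp
      · rw [HahnSeries.coeff_single_of_ne h]
        simp
    unfold cc
    rw [RingHom.comp_apply, h2, this, map_zero]
  · intro j
    have : Δ (TT F m j) = if i = j then TT F m j else 0 := by
      ext γ
      rw [hΔ]
      by_cases h : γ = toLex (Pi.single j (1 : ℤ))
      · subst h
        unfold TT
        by_cases hij : i = j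
        · subst hij
          simp [crd]
        · simp [crd, hij]
      · have h0 : (TT F m j).coeff γ = 0 := by
          unfold TT
          rw [HahnSeries.coeff_single_of_ne h]
        rw [h0, mul_zero]
        split_ifs
        · rw [h0]
        · rfl
    unfold TL
    rw [h2, this]
    split_ifs
    · rfl
    · rw [map_zero]

theorem exists_d0 (δ : Derivation k F F) : ∃ D : DDer k (LL F m),
    (∀ f, (vd (EE F m)).P 0 f → (vd (EE F m)).P 0 (D f)) ∧
      (∀ a : F, D (cc F m a) = cc F m (δ a)) ∧ D (ss F m) = 0 ∧ ∀ j, D (TL F m j) = 0 := by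
  obtain ⟨Δ, hΔ⟩ := hcoef_exists (k := k) (Γ := Lex (Fin m → ℤ)) δ
  obtain ⟨D, h1, h2, h3⟩ := exists_coef (k := k) (F := F) (m := m) Δ
  refine ⟨D, h1, ?_, h3, ?_⟩
  · intro a
    have : Δ (HahnSeries.C a) = HahnSeries.C (δ a) := by
      ext γ
      rw [hΔ, HahnSeries.C_apply, HahnSeries.C_apply]
      by_cases h : γ = 0
      · subst h
        simp
      · rw [HahnSeries.coeff_single_of_ne h, HahnSeries.coeff_single_of_ne h, map_zero]
    unfold cc
    rw [RingHom.comp_apply, RingHom.comp_apply, h2, this]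
  · intro j
    have : Δ (TT F m j) = 0 := by
      ext γ
      rw [hΔ]
      unfold TT
      by_cases h : γ = toLex (Pi.single j (1 : ℤ))
      · subst h
        simp
      · rw [HahnSeries.coeff_single_of_ne h, map_zero]
        rfl
    unfold TL
    rw [h2, this, map_zero]

theorem dat [CharZero F] (c : Fin m → F) (hc : ∀ i, c i ≠ 0) :
    Dat (vd (EE F m)) (ss F m) (TL F m) (fun j => cc F m (c j)) := by
  have hs : ss F m ≠ 0 := HahnSeries.single_ne_zero one_ne_zero
  have hso : HahnSeries.order (ss F m) = 1 := HahnSeries.order_single one_ne_zero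
  have hT : ∀ i, TL F m i ≠ 0 := by
    intro i
    have : TT F m i ≠ 0 := HahnSeries.single_ne_zero one_ne_zero
    exact (map_ne_zero _).2 this
  have hTo : ∀ i, HahnSeries.order (TL F m i) = 0 := fun i => HahnSeries.order_C
  have hP : ∀ i, (vd (EE F m)).P 1 (ss F m * TL F m i) := by
    intro i
    apply (vd (EE F m)).of_ord
    rw [(vd (EE F m)).ord_mul _ _ hs (hT i)]
    change 1 ≤ HahnSeries.order (ss F m) + HahnSeries.order (TL F m i)
    rw [hso, hTo]
    norm_num
  have h0 : ∀ i, HahnSeries.coeff (1 + ss F m * TL F m i) 0 ≠ 0 := by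
    intro i
    have h1 : HahnSeries.coeff (1 + ss F m * TL F m i) 0 =
        HahnSeries.coeff (1 : LL F m) 0 + HahnSeries.coeff (ss F m * TL F m i) 0 := rfl
    have h2 : HahnSeries.coeff (ss F m * TL F m i) 0 = 0 := hP i 0 (by norm_num)
    rw [h1, h2, add_zero, HahnSeries.coeff_one, if_pos rfl]
    exact one_ne_zero
  have h1 : ∀ i, (1 + ss F m * TL F m i) ≠ 0 := by
    intro i h
    apply h0 i
    rw [h]
    rfl
  have hi : ∀ n : ℤ, n ≠ 0 → ((n : ℤ) : LL F m) ≠ 0 ∧ HahnSeries.order ((n : ℤ) : LL F m) = 0 := by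
    intro n hn
    have h2 : ((n : ℤ) : F) ≠ 0 := by exact_mod_cast hn
    have h : ((n : ℤ) : LL F m) = cc F m (n : F) := by rw [map_intCast]
    rw [h]
    exact ⟨(map_ne_zero _).2 h2, HahnSeries.order_C⟩
  refine ⟨hs, hT, h1, fun i => (map_ne_zero _).2 (hc i), hso, hTo, fun i => ?_,
    fun i => HahnSeries.order_C, fun n hn => (hi n hn).1, fun n hn => (hi n hn).2⟩
  refine le_antisymm (HahnSeries.order_le_of_coeff_ne_zero (h0 i))
    ((vd (EE F m)).to_ord _ _ (h1 i) ?_)
  exact (vd (EE F m)).add _ _ _ (vd (EE F m)).one ((vd (EE F m)).mono (by norm_num) (hP i))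

theorem xi_eq (c : Fin m → F) (w : Fin m → ℤ) (β : Matrix (Fin m) (Fin m) ℤ)
    (I : Finset (Fin m)) (j : Fin m) :
    xi c w β I j = axi (ss F m) (TL F m) (fun j => cc F m (c j)) w β I j := rfl

theorem der_zpow {L : Type v} [Field L] [Algebra k L] (D : Derivation k L L) {s q : L}
    (hs : s ≠ 0) (hq : D s = q * s) (z : ℤ) : D (s ^ z) = z * q * s ^ z := by
  have h := ld_zpow D hs z
  rw [hq, mul_div_assoc, div_self hs, mul_one, div_eq_iff (zpow_ne_zero _ hs)] at h
  exact h

theorem zeta_some {L : Type v} [Field L] [Algebra k L] (D : Derivation k L L) {s q a : L}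
    (hs : s ≠ 0) (hq : D s = q * s) (ha : D a = 0) (n : ℕ) (z : ℤ) (hz : z = n) :
    D (a + s ^ n) = (z : L) * q * s ^ z := by
  rw [map_add, ha, zero_add, ← zpow_natCast, ← hz, der_zpow D hs hq]

theorem zeta_none {L : Type v} [Field L] [Algebra k L] (D : Derivation k L L) {s q : L}
    (hs : s ≠ 0) (hq : D s = q * s) (n : ℕ) (z : ℤ) (hz : z = -(n : ℤ)) :
    D ((s ^ n)⁻¹) = (z : L) * q * s ^ z := by
  rw [← zpow_natCast, ← zpow_neg, ← hz, der_zpow D hs hq]

theorem zeta_der (D : DDer k (LL F m)) {q : LL F m} (hq : D (ss F m) = q * ss F m)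
    (h1 : ∀ a : F, D (cc F m a) = 0) (P : Option k) (n : ℕ) :
    D (zetaV P n) = ((n * kap P : ℤ) : LL F m) * q * ss F m ^ (n * kap P : ℤ) := by
  have hs : ss F m ≠ 0 := HahnSeries.single_ne_zero one_ne_zero
  cases P with
  | some c =>
    have h := zeta_some (k := k) (L := LL F m) D (s := ss F m) (q := q)
      (a := cc F m (algebraMap k F c)) hs hq (h1 _) n (n * kap (some c)) (by simp [kap])
    exact h
  | none =>
    have h := zeta_none (k := k) (L := LL F m) D (s := ss F m) (q := q) hs hq n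
      (n * kap (none : Option k)) (by simp [kap])
    exact h

/-- all the derivations of the vertical case -/
theorem ders_vert (k : Type u) [Field k] (F : Type v) [Field F] [Algebra k F] (m : ℕ) :
    ∃ (D0 : DDer k (LL F m)) (e : Fin m → DDer k (LL F m)),
      (∀ f, (vd (EE F m)).P 0 f → (vd (EE F m)).P 1 (D0 f)) ∧
      (∀ i f, (vd (EE F m)).P 0 f → (vd (EE F m)).P 0 (e i f)) ∧
      (∀ a : F, D0 (cc F m a) = 0) ∧ D0 (ss F m) = ss F m ∧ (∀ j, D0 (TL F m j) = 0) ∧
      (∀ i, ∀ a : F, e i (cc F m a) = 0) ∧ (∀ i, e i (ss F m) = 0) ∧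
      ∀ i j, e i (TL F m j) = if i = j then TL F m j else 0 := by
  obtain ⟨D0, a1, a2, a3, a4⟩ := exists_ds (k := k) (F := F) (m := m)
  choose e b1 b2 b3 b4 using fun i => exists_e (k := k) (F := F) (m := m) i
  exact ⟨D0, e, a1, b1, a2, a3, a4, b2, b3, b4⟩

theorem vert_aux [CharZero k] (P : Option k) (n : ℕ) (hn : 1 ≤ n)
    (D0 : DDer k (LL F m)) (h1 : ∀ a : F, D0 (cc F m a) = 0) (h2 : D0 (ss F m) = ss F m)
    [CharZero F] :
    D0 (zetaV P n) ≠ 0 ∧ (vd (EE F m)).ord (D0 (zetaV P n)) = n * kap P := by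
  have hd := dat (F := F) (m := m) (fun _ => 1) (fun _ => one_ne_zero)
  have hk : (n * kap P : ℤ) ≠ 0 := by
    have : kap P ≠ 0 := by
      cases P <;> simp [kap]
    have hn' : (n : ℤ) ≠ 0 := by exact_mod_cast (by omega : n ≠ 0)
    exact mul_ne_zero hn' this
  have h := zeta_der D0 (q := 1) (by rw [one_mul]; exact h2) h1 P n
  rw [mul_one] at h
  rw [h]
  have h3 := hd.ine _ hk
  have h4 : ss F m ^ (n * kap P : ℤ) ≠ 0 := zpow_ne_zero _ hd.sne
  refine ⟨mul_ne_zero h3 h4, ?_⟩
  rw [(vd (EE F m)).ord_mul _ _ h3 h4, hd.iord _ hk, (vd (EE F m)).ord_zpow hd.sne, hd.sord]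
  ring

end Con

end Phi2

open Phi2

section PHI

variable {F : Type v} [Field F] {m : ℕ} {k : Type u} [Field k] [CharZero k] [Algebra k F]
  {K : Type w} [Field K] [Algebra k K] (C : Ctx k K m)

theorem phi_vert (P : Option k) (n : ℕ) (hn : 1 ≤ n) (c : Fin m → F) (hc : ∀ i, c i ≠ 0)
    (w : Fin m → ℤ) (β : Matrix (Fin m) (Fin m) ℤ) (hβ : β.det ≠ 0) (I : Finset (Fin m)) :
    ∃ Φ : K →ₐ[k] LL F m, Φ (C.ι RatFunc.X) = zetaV P n ∧ ∀ j, Φ (C.x j) = xi c w β I j := by
  have : CharZero F := charZero_of_injective_algebraMap (algebraMap k F).injective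
  have hd := dat (F := F) (m := m) c hc
  obtain ⟨D0, e, a1, b1, a2, a3, a4, b2, b3, b4⟩ := ders_vert k F m
  have hv := vert_aux (F := F) (m := m) P n hn D0 a2 a3
  have he : ∀ i, e i (zetaV P n) = 0 := by
    intro i
    have h := zeta_der (e i) (q := 0) (by rw [zero_mul]; exact b3 i) (b2 i) P n
    rw [h, mul_zero, zero_mul]
  have hJ := J0 hd D0 e (zetaV P n) he (fun i j => b2 i _) b3 b4 w β I
  have hJn := J0_ne hd hv.1 w β hβ I
  rw [← hJ] at hJn
  exact embed C (zetaV P n) (xi c w β I) (jac_indep _ _ hJn)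

theorem phi_horiz (zF : F) (δ : Derivation k F F) (hδ : δ zF = 1) (c : Fin m → F)
    (hc : ∀ i, c i ≠ 0)
    (w : Fin m → ℤ) (β : Matrix (Fin m) (Fin m) ℤ) (hβ : β.det ≠ 0) (I : Finset (Fin m)) :
    ∃ Φ : K →ₐ[k] LL F m, Φ (C.ι RatFunc.X) = cc F m zF ∧ ∀ j, Φ (C.x j) = xi c w β I j := by
  have : CharZero F := charZero_of_injective_algebraMap (algebraMap k F).injective
  have hd := dat (F := F) (m := m) c hc
  obtain ⟨_, e, _, b1, _, _, _, b2, b3, b4⟩ := ders_vert k F m
  obtain ⟨D0, a1, a2, a3, a4⟩ := exists_d0 (k := k) (F := F) (m := m) δ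
  have h0 : D0 (cc F m zF) = 1 := by
    rw [a2, hδ, map_one]
  have hx0 : D0 (cc F m zF) ≠ 0 := by
    rw [h0]
    exact one_ne_zero
  have hJ := J0 hd D0 e (cc F m zF) (fun i => b2 i _) (fun i j => b2 i _) b3 b4 w β I
  have hJn := J0_ne hd hx0 w β hβ I
  rw [← hJ] at hJn
  exact embed C (cc F m zF) (xi c w β I) (jac_indep _ _ hJn)

theorem bound_vert (P : Option k) (n : ℕ) (hn : 1 ≤ n) (c : Fin m → F) (hc : ∀ i, c i ≠ 0)
    (w : Fin m → ℤ) (β : Matrix (Fin m) (Fin m) ℤ) (hβ : β.det ≠ 0) (I : Finset (Fin m))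
    (Φ : K →ₐ[k] LL F m) (hz : Φ (C.ι RatFunc.X) = zetaV P n)
    (hx : ∀ j, Φ (C.x j) = xi c w β I j) (a : Fin (m + 1) → K)
    (ha : ∀ j, 0 ≤ (Φ (a j)).order) (hJ : jac C.der a ≠ 0) :
    1 - (n * kap P + ∑ i, w i + I.card) ≤ (Φ (jac C.der a)).order := by
  have : CharZero F := charZero_of_injective_algebraMap (algebraMap k F).injective
  have hd := dat (F := F) (m := m) c hc
  obtain ⟨D0, e, a1, b1, a2, a3, a4, b2, b3, b4⟩ := ders_vert k F m
  have hv := vert_aux (F := F) (m := m) P n hn D0 a2 a3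
  have he : ∀ i, e i (zetaV P n) = 0 := by
    intro i
    have h := zeta_der (e i) (q := 0) (by rw [zero_mul]; exact b3 i) (b2 i) P n
    rw [h, mul_zero, zero_mul]
  have hdet := det_vert (vd (EE F m)) D0 e a1 b1 (fun j => Φ (a j))
    (fun j => (vd (EE F m)).of_ord 0 _ (ha j))
  have h := abs_bound hd C D0 e (zetaV P n) he (fun i j => b2 i _) b3 b4 w β hβ I hv.1 Φ hz hx
    a hJ hdet
  rw [hv.2, ← add_assoc] at h
  exact h

theorem bound_horiz (zF : F) (δ : Derivation k F F) (hδ : δ zF = 1) (c : Fin m → F)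
    (hc : ∀ i, c i ≠ 0)
    (w : Fin m → ℤ) (β : Matrix (Fin m) (Fin m) ℤ) (hβ : β.det ≠ 0) (I : Finset (Fin m))
    (l : Fin m → ℚ) (hl : ∃ i ∉ I, l i ≠ 0) (hw : ∀ j, (w j : ℚ) = ∑ i ∈ Iᶜ, l i * β i j)
    (Φ : K →ₐ[k] LL F m) (hz : Φ (C.ι RatFunc.X) = cc F m zF)
    (hx : ∀ j, Φ (C.x j) = xi c w β I j) (a : Fin (m + 1) → K)
    (ha : ∀ j, 0 ≤ (Φ (a j)).order) (hJ : jac C.der a ≠ 0) :
    1 - (∑ i, w i + I.card) ≤ (Φ (jac C.der a)).order := by
  have : CharZero F := charZero_of_injective_algebraMap (algebraMap k F).injective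
  have : CharZero (LL F m) :=
    charZero_of_injective_algebraMap (algebraMap k (LL F m)).injective
  have hd := dat (F := F) (m := m) c hc
  obtain ⟨ds, e, s1, b1, s2, s3, s4, b2, b3, b4⟩ := ders_vert k F m
  obtain ⟨D0, a1, a2, a3, a4⟩ := exists_d0 (k := k) (F := F) (m := m) δ
  have h0 : D0 (cc F m zF) = 1 := by
    rw [a2, hδ, map_one]
  have hx0 : D0 (cc F m zF) ≠ 0 := by
    rw [h0]
    exact one_ne_zero
  obtain ⟨i₀, hi₀, hli⟩ := hl
  have hq := rat_ord hd (q := l i₀) hli
  have hlam : (if i₀ ∈ I then (1 : LL F m) else ((l i₀ : ℚ) : LL F m)) =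
      ((l i₀ : ℚ) : LL F m) := if_neg hi₀
  have hdet := det_horiz (vd (EE F m)) D0 ds e a1 s1 b1
    (fun i => if i ∈ I then (1 : LL F m) else ((l i : ℚ) : LL F m)) i₀
    (by
      change (if i₀ ∈ I then (1 : LL F m) else ((l i₀ : ℚ) : LL F m)) ≠ 0
      rw [hlam]
      exact hq.1)
    (by
      rw [hlam]
      apply (vd (EE F m)).of_ord
      rw [(vd (EE F m)).ord_inv hq.1, hq.2]
      norm_num)
    (fun j => Φ (a j)) (fun j => (vd (EE F m)).of_ord 0 _ (ha j))
    (fun j => rel_horiz hd C ds e (cc F m zF) (fun i => b2 i _) (fun i j => b2 i _) b3 b4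
      (s2 _) (fun j => s2 _) s3 s4 w β I l hw Φ hz hx (a j))
  have h := abs_bound hd C D0 e (cc F m zF) (fun i => b2 i _) (fun i j => b2 i _) b3 b4 w β hβ I
    hx0 Φ hz hx a hJ hdet
  rw [h0, (vd (EE F m)).ord_one, zero_add] at h
  exact h

end PHI

end

end Pool.Agent.MLD
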