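import Pool.Agent.Lib.MP_f23696_ag.Phi1
import Pool.Agent.Lib.MP_f23696_ag.Phi2
import Pool.Agent.Lib.MP_f23696_ag.Ord
import Pool.Agent.Lib.MP_f23696_ag.Gr
import Pool.Agent.Lib.MP_f23696_ag.Jac

/-!
Module MONO of project LSC (MP_f23696_ag): monomial valuations (helper43).
-/

namespace Pool.Agent.MLD

open scoped Classical
noncomputable section

universe u v w

section MONO
variable {k : Type u} [Field k] {m : ℕ}

namespace Mono

/-- a local parameter at the place `P` -/
def zP (P : Option k) : RatFunc k :=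
  match P with
  | some c => RatFunc.X - RatFunc.C c
  | none => (RatFunc.X)⁻¹

theorem zP_ne (P : Option k) : zP P ≠ 0 := by
  cases P with
  | none => exact inv_ne_zero RatFunc.X_ne_zero
  | some c =>
    intro h
    have h1 := ordAt_X_sub c c
    have h2 : RatFunc.X - RatFunc.C c = (0 : RatFunc k) := h
    rw [h2, ordAt_zero] at h1
    simp at h1

theorem ord_zP (P : Option k) : ordAt P (zP P) = 1 := by
  cases P with
  | none =>
    show ordAt none ((RatFunc.X : RatFunc k)⁻¹) = 1
    rw [ordAt_inv]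
    have h := ordAt_none_X_sub (0 : k)
    rw [map_zero, sub_zero] at h
    rw [h]; norm_num
  | some c =>
    have h1 := ordAt_X_sub c c
    rw [if_pos rfl] at h1
    exact h1

theorem ord_pow (P : Option k) {g : RatFunc k} (hg : g ≠ 0) (a : ℕ) :
    ordAt P (g ^ a) = a * ordAt P g := by
  induction a with
  | zero =>
    rw [pow_zero, ← map_one (RatFunc.C), ordAt_C]; simp
  | succ a ih =>
    rw [pow_succ, ordAt_mul P (pow_ne_zero a hg) hg, ih]; push_cast; ring

theorem ord_zpow (P : Option k) {g : RatFunc k} (hg : g ≠ 0) (a : ℤ) :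
    ordAt P (g ^ a) = a * ordAt P g := by
  obtain ⟨b, rfl | rfl⟩ := a.eq_nat_or_neg
  · rw [zpow_natCast, ord_pow P hg]
  · rw [zpow_neg, zpow_natCast, ordAt_inv, ord_pow P hg]; ring

/-- Bezout for finitely many integers -/
theorem bez {n : ℕ} (f : Fin n → ℤ) (hf : ∃ i, f i ≠ 0) :
    ∃ (N : ℕ) (f₀ c : Fin n → ℤ), 1 ≤ N ∧ (∀ i, f i = N * f₀ i) ∧ ∑ i, c i * f₀ i = 1 := by
  obtain ⟨N, hN⟩ := (IsPrincipalIdealRing.principal (Ideal.span (Set.range f))).principal
  have h1 : ∀ i, N ∣ f i := by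
    intro i
    have : f i ∈ Ideal.span (Set.range f) := Ideal.subset_span ⟨i, rfl⟩
    rw [hN] at this
    exact Ideal.mem_span_singleton.1 this
  have h2 : N ∈ Ideal.span (Set.range f) := by
    rw [hN]; exact Ideal.mem_span_singleton_self N
  obtain ⟨c, hc⟩ := (Ideal.mem_span_range_iff_exists_fun).1 h2
  have hN0 : N ≠ 0 := by
    obtain ⟨i, hi⟩ := hf
    intro h
    apply hi
    have := h1 i
    rw [h] at this
    exact zero_dvd_iff.1 this
  have h3 : ∀ i, ∃ x, f i = (N.natAbs : ℤ) * x := by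
    intro i
    have : (N.natAbs : ℤ) ∣ f i := Int.natAbs_dvd.2 (h1 i)
    exact this
  choose f₀ hf₀ using h3
  have hpos : (1 : ℤ) ≤ N.natAbs := by
    have : 0 < N.natAbs := Int.natAbs_pos.2 hN0
    exact_mod_cast this
  refine ⟨N.natAbs, f₀, fun i => N.sign * c i, by exact_mod_cast hpos, hf₀, ?_⟩
  have h4 : (N.natAbs : ℤ) * ∑ i, (N.sign * c i) * f₀ i = (N.natAbs : ℤ) * 1 := by
    rw [Finset.mul_sum, mul_one]
    calc ∑ i, (N.natAbs : ℤ) * ((N.sign * c i) * f₀ i) = N.sign * ∑ i, c i * f i := by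
          rw [Finset.mul_sum]
          refine Finset.sum_congr rfl fun i _ => ?_
          rw [hf₀ i]; ring
      _ = N.sign * N := by
          rw [hc]
      _ = N.natAbs := by
          rw [Int.sign_mul_self_eq_natAbs]
  exact mul_left_cancel₀ (by omega) h4

end Mono

open Mono in
/-- every nonzero homogeneous valuation is a multiple of a primitive one -/
theorem prim (V : HV k m) (hV : ∃ g u, g ≠ 0 ∧ V.val g u ≠ 0) :
    ∃ (N : ℕ) (V₀ : HV k m), 1 ≤ N ∧ (∃ g u, g ≠ 0 ∧ V₀.val g u = 1) ∧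
      (∀ g u, V.val g u = N * V₀.val g u) ∧ V.disc = N * V₀.disc ∧ V₀.P = V.P ∧
      (V₀.n = 0 ↔ V.n = 0) := by
  have h0 : ∃ i, (Fin.cons (V.n : ℤ) V.w : Fin (m + 1) → ℤ) i ≠ 0 := by
    by_contra hc
    push Not at hc
    obtain ⟨g, u, _, h⟩ := hV
    apply h
    have hn : (V.n : ℤ) = 0 := hc 0
    have hw : ∀ i, V.w i = 0 := fun i => by
      have := hc i.succ
      simpa using this
    simp [HV.val, hn, hw]
  obtain ⟨N, f₀, c, hN, hf, hc⟩ := bez _ h0
  have hn : (V.n : ℤ) = N * f₀ 0 := by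
    have := hf 0
    simpa using this
  have hw : ∀ i : Fin m, V.w i = N * f₀ i.succ := fun i => by
    have := hf i.succ
    simpa using this
  have hf0 : 0 ≤ f₀ 0 := by
    by_contra hneg
    push Not at hneg
    have h1 : (0 : ℤ) ≤ V.n := Int.natCast_nonneg _
    have h2 : (1 : ℤ) ≤ N := by exact_mod_cast hN
    nlinarith
  obtain ⟨n₀, hn₀⟩ := Int.eq_ofNat_of_zero_le hf0
  have hn' : V.n = N * n₀ := by
    have : (V.n : ℤ) = ((N * n₀ : ℕ) : ℤ) := by
      rw [hn, hn₀]; push_cast; ring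
    exact_mod_cast this
  refine ⟨N, ⟨V.P, n₀, fun i => f₀ i.succ⟩, hN, ⟨zP V.P ^ (c 0), fun i => c i.succ,
    zpow_ne_zero _ (zP_ne _), ?_⟩, ?_, ?_, rfl, ?_⟩
  · rw [Fin.sum_univ_succ] at hc
    simp only [HV.val]
    rw [ord_zpow V.P (zP_ne V.P), ord_zP, mul_one, ← hc, hn₀]
    congr 1
    · exact mul_comm _ _
    · exact Finset.sum_congr rfl fun i _ => mul_comm _ _
  · intro g u
    simp only [HV.val]
    rw [hn, hn₀, mul_add, Finset.mul_sum]
    congr 1
    · ring
    · refine Finset.sum_congr rfl fun i _ => ?_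
      rw [hw i]; ring
  · simp only [HV.disc]
    rw [hn, hn₀, mul_add, Finset.mul_sum]
    congr 1
    · ring
    · exact Finset.sum_congr rfl fun i _ => hw i
  · constructor
    · intro h
      have h : n₀ = 0 := h
      rw [hn', h, mul_zero]
    · intro h
      rw [hn'] at h
      rcases Nat.mul_eq_zero.1 h with h | h
      · omega
      · exact h

end MONO

namespace Mono
section Lead
variable {E : Type v} [Field E]

/-- `f` has order `n` and leading coefficient `a`. -/
def Ld (f : LaurentSeries E) (n : ℤ) (a : E) : Prop := f ≠ 0 ∧ f.order = n ∧ f.leadingCoeff = a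

theorem Ld.ne {f : LaurentSeries E} {n : ℤ} {a : E} (h : Ld f n a) : a ≠ 0 := by
  rw [← h.2.2]; exact HahnSeries.leadingCoeff_ne_zero.2 h.1

theorem Ld.mul {f g : LaurentSeries E} {n n' : ℤ} {a a' : E} (h : Ld f n a) (h' : Ld g n' a') :
    Ld (f * g) (n + n') (a * a') :=
  ⟨mul_ne_zero h.1 h'.1, by rw [HahnSeries.order_mul h.1 h'.1, h.2.1, h'.2.1], by
    rw [HahnSeries.leadingCoeff_mul, h.2.2, h'.2.2]⟩

theorem Ld.one : Ld (1 : LaurentSeries E) 0 1 :=
  ⟨one_ne_zero, HahnSeries.order_one, HahnSeries.leadingCoeff_one⟩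

theorem Ld.inv {f : LaurentSeries E} {n : ℤ} {a : E} (h : Ld f n a) : Ld f⁻¹ (-n) a⁻¹ := by
  have h0 : f⁻¹ ≠ 0 := inv_ne_zero h.1
  have h1 : f * f⁻¹ = 1 := mul_inv_cancel₀ h.1
  refine ⟨h0, ?_, ?_⟩
  · have h2 := HahnSeries.order_mul h.1 h0
    rw [h1, HahnSeries.order_one, h.2.1] at h2
    omega
  · have h2 := HahnSeries.leadingCoeff_mul f f⁻¹
    rw [h1, HahnSeries.leadingCoeff_one, h.2.2] at h2
    exact (inv_eq_of_mul_eq_one_right h2.symm).symm

theorem Ld.pow {f : LaurentSeries E} {n : ℤ} {a : E} (h : Ld f n a) (r : ℕ) :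
    Ld (f ^ r) (r * n) (a ^ r) := by
  induction r with
  | zero => simpa using Ld.one
  | succ r ih =>
    have := ih.mul h
    rw [pow_succ, pow_succ]
    have e : ((r + 1 : ℕ) : ℤ) * n = r * n + n := by push_cast; ring
    rw [e]; exact this

theorem Ld.zpow {f : LaurentSeries E} {n : ℤ} {a : E} (h : Ld f n a) (r : ℤ) :
    Ld (f ^ r) (r * n) (a ^ r) := by
  obtain ⟨b, rfl | rfl⟩ := r.eq_nat_or_neg
  · rw [zpow_natCast, zpow_natCast]; exact h.pow b
  · rw [zpow_neg, zpow_neg, zpow_natCast, zpow_natCast]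
    have := (h.pow b).inv
    have e : (-(b : ℤ)) * n = -((b : ℤ) * n) := by ring
    rw [e]; exact this

theorem Ld.prod {ι : Type w} (s : Finset ι) (f : ι → LaurentSeries E) (n : ι → ℤ) (a : ι → E)
    (h : ∀ i ∈ s, Ld (f i) (n i) (a i)) : Ld (∏ i ∈ s, f i) (∑ i ∈ s, n i) (∏ i ∈ s, a i) := by
  induction s using Finset.induction_on with
  | empty => simpa using Ld.one
  | insert i s hi ih =>
    rw [Finset.prod_insert hi, Finset.prod_insert hi, Finset.sum_insert hi]
    exact (h i (Finset.mem_insert_self i s)).mul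
      (ih fun j hj => h j (Finset.mem_insert_of_mem hj))

theorem ld_single (n : ℤ) {a : E} (ha : a ≠ 0) :
    Ld (HahnSeries.single n a : LaurentSeries E) n a :=
  ⟨HahnSeries.single_ne_zero ha, HahnSeries.order_single ha, HahnSeries.leadingCoeff_of_single⟩

theorem Ld.coeff_lt {f : LaurentSeries E} {n : ℤ} {a : E} (h : Ld f n a) {i : ℤ} (hi : i < n) :
    f.coeff i = 0 := HahnSeries.coeff_eq_zero_of_lt_order (by rw [h.2.1]; exact hi)

theorem Ld.coeff_eq {f : LaurentSeries E} {n : ℤ} {a : E} (h : Ld f n a) : f.coeff n = a := by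
  rw [← h.2.1, ← HahnSeries.leadingCoeff_eq, h.2.2]

theorem ld_of_coeff {f : LaurentSeries E} {n : ℤ} {a : E} (h : ∀ i < n, f.coeff i = 0)
    (h' : f.coeff n = a) (ha : a ≠ 0) : Ld f n a := by
  have h0 : f ≠ 0 := fun h0 => ha (by rw [← h', h0]; rfl)
  have h1 : f.order = n := by
    apply le_antisymm
    · exact HahnSeries.order_le_of_coeff_ne_zero (by rw [h']; exact ha)
    · by_contra hc
      push Not at hc
      have := h _ hc
      exact HahnSeries.leadingCoeff_ne_zero.2 h0 (by rw [HahnSeries.leadingCoeff_eq, this])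
  exact ⟨h0, h1, by rw [HahnSeries.leadingCoeff_eq, h1, h']⟩

theorem coeff_fsum {ι : Type w} (s : Finset ι) (f : ι → LaurentSeries E) (i : ℤ) :
    (∑ j ∈ s, f j).coeff i = ∑ j ∈ s, (f j).coeff i := by
  induction s using Finset.induction_on with
  | empty => simp
  | insert j s hj ih => rw [Finset.sum_insert hj, Finset.sum_insert hj, HahnSeries.coeff_add, ih]

theorem ld_sum {ι : Type w} (s : Finset ι) (f : ι → LaurentSeries E) (n : ι → ℤ) (a : ι → E)
    (h : ∀ i ∈ s, Ld (f i) (n i) (a i)) (μ : ℤ) (hμ : ∀ i ∈ s, μ ≤ n i) (A : E)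
    (hA : ∑ i ∈ s.filter (fun i => n i = μ), a i = A) (hA0 : A ≠ 0) :
    Ld (∑ i ∈ s, f i) μ A := by
  apply ld_of_coeff _ _ hA0
  · intro i hi
    rw [coeff_fsum]
    exact Finset.sum_eq_zero fun j hj => (h j hj).coeff_lt (lt_of_lt_of_le hi (hμ j hj))
  · rw [coeff_fsum, ← hA, Finset.sum_filter]
    refine Finset.sum_congr rfl fun j hj => ?_
    split_ifs with hc
    · rw [← hc]; exact (h j hj).coeff_eq
    · exact (h j hj).coeff_lt (lt_of_le_of_ne (hμ j hj) (Ne.symm hc))

theorem algMap_L {k : Type u} [Field k] [Algebra k E] (c : k) :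
    algebraMap k (LaurentSeries E) c = HahnSeries.C (algebraMap k E c) := by
  rw [HahnSeries.algebraMap_apply', PowerSeries.algebraMap_apply, HahnSeries.ofPowerSeries_C]

/-- evaluation of a polynomial at a power of the variable -/
theorem ld_aeval {k : Type u} [Field k] [Algebra k E] (q : Polynomial k) (n : ℤ)
    (μ : ℕ) (hμ : q.coeff μ ≠ 0) (hn : n ≠ 0) (h : ∀ j, q.coeff j ≠ 0 → n * μ ≤ n * j) :
    Ld (Polynomial.aeval (HahnSeries.single n 1 : LaurentSeries E) q) (n * μ)
      (algebraMap k E (q.coeff μ)) := by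
  rw [Polynomial.aeval_def, Polynomial.eval₂_eq_sum_range]
  have h1 : ∑ i ∈ Finset.range (q.natDegree + 1),
      (algebraMap k (LaurentSeries E)) (q.coeff i) * (HahnSeries.single n 1 : LaurentSeries E) ^ i =
      ∑ i ∈ q.support, (HahnSeries.single (n * i) (algebraMap k E (q.coeff i)) :
        LaurentSeries E) := by
    symm
    have hsub : q.support ⊆ Finset.range (q.natDegree + 1) := by
      intro i hi
      rw [Finset.mem_range, Nat.lt_succ_iff]
      exact Polynomial.le_natDegree_of_mem_supp i hi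
    rw [← Finset.sum_subset hsub]
    · refine Finset.sum_congr rfl fun i _ => ?_
      rw [HahnSeries.single_pow, one_pow, algMap_L,
        HahnSeries.C_apply, HahnSeries.single_mul_single, mul_one, zero_add]
      congr 1
      rw [nsmul_eq_mul, mul_comm]
    · intro i _ hi
      rw [Polynomial.notMem_support_iff.1 hi, map_zero, zero_mul]
  rw [h1]
  refine ld_sum q.support _ (fun i => n * (i : ℤ)) (fun i => algebraMap k E (q.coeff i)) ?_ _ ?_ _ ?_ ?_
  · intro i hi
    apply ld_single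
    rw [Ne, map_eq_zero_iff _ (algebraMap k E).injective]
    exact Polynomial.mem_support_iff.1 hi
  · intro i hi
    exact h i (Polynomial.mem_support_iff.1 hi)
  · have : (q.support.filter (fun i : ℕ => n * (i : ℤ) = n * μ)) = ({μ} : Finset ℕ) := by
      ext i
      simp only [Finset.mem_filter, Finset.mem_singleton, Polynomial.mem_support_iff]
      constructor
      · rintro ⟨_, h2⟩
        exact_mod_cast mul_left_cancel₀ hn h2
      · rintro rfl
        exact ⟨hμ, rfl⟩
    rw [this, Finset.sum_singleton]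
  · rw [Ne, map_eq_zero_iff _ (algebraMap k E).injective]
    exact hμ

end Lead

section Emb
variable {F : Type v} [Field F] {m : ℕ} {k : Type u} [Field k] [Algebra k F]

theorem cc_algebraMap (c : k) : cc F m (algebraMap k F c) = algebraMap k (LL F m) c := by
  rw [algMap_L, HahnSeries.algebraMap_apply]; rfl

theorem ss_zpow (n : ℤ) : ss F m ^ n = HahnSeries.single n 1 := by
  have h : ∀ b : ℕ, ss F m ^ b = HahnSeries.single (b : ℤ) 1 := by
    intro b
    rw [ss, HahnSeries.single_pow, one_pow]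
    congr 1
    rw [nsmul_eq_mul, mul_one]
  obtain ⟨b, rfl | rfl⟩ := n.eq_nat_or_neg
  · rw [zpow_natCast (ss F m) b, h]
  · rw [zpow_neg (ss F m) b, zpow_natCast (ss F m) b, h, HahnSeries.inv_single, inv_one]

theorem alg_poly {L : Type w} [Semiring L] [Algebra k L] (Φ : RatFunc k →ₐ[k] L)
    (p : Polynomial k) :
    Φ (algebraMap (Polynomial k) (RatFunc k) p) = Polynomial.aeval (Φ RatFunc.X) p := by
  have h : algebraMap (Polynomial k) (RatFunc k) p = Polynomial.aeval (RatFunc.X : RatFunc k) p := by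
    rw [← RatFunc.algebraMap_X, Polynomial.aeval_algebraMap_apply, Polynomial.aeval_X_left_apply]
  rw [h, Polynomial.aeval_algHom_apply]

theorem vert_poly (P : Option k) (n : ℕ) (hn : 1 ≤ n) (Φ : RatFunc k →ₐ[k] LL F m)
    (hz : Φ RatFunc.X = zetaV P n) (p : Polynomial k) (hp : p ≠ 0) :
    ∃ c : F, c ≠ 0 ∧ Ld (Φ (algebraMap (Polynomial k) (RatFunc k) p))
      (n * ordAt P (algebraMap (Polynomial k) (RatFunc k) p)) (HahnSeries.C c) := by
  rw [alg_poly Φ p, hz]
  cases P with
  | some c =>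
    have e1 : (zetaV (some c) n : LL F m) = HahnSeries.single (n : ℤ) 1 + algebraMap k (LL F m) c := by
      show cc F m (algebraMap k F c) + ss F m ^ n = _
      rw [cc_algebraMap, ← zpow_natCast (ss F m) n, ss_zpow, add_comm]
    have e2 : Polynomial.aeval (zetaV (some c) n : LL F m) p =
        Polynomial.aeval (HahnSeries.single (n : ℤ) 1 : LL F m)
          (p.comp (Polynomial.X + Polynomial.C c)) := by
      rw [Polynomial.aeval_comp, map_add, Polynomial.aeval_X, Polynomial.aeval_C, e1]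
    have e3 : ordAt (some c) (algebraMap (Polynomial k) (RatFunc k) p) =
        ((p.comp (Polynomial.X + Polynomial.C c)).natTrailingDegree : ℤ) := by
      show ((RatFunc.num (algebraMap (Polynomial k) (RatFunc k) p)).rootMultiplicity c : ℤ) -
        ((RatFunc.denom (algebraMap (Polynomial k) (RatFunc k) p)).rootMultiplicity c : ℤ) = _
      rw [RatFunc.num_algebraMap, RatFunc.denom_algebraMap,
        ← Polynomial.rootMultiplicity_eq_natTrailingDegree]
      have : Polynomial.rootMultiplicity c (1 : Polynomial k) = 0 := by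
        rw [← Polynomial.C_1, Polynomial.rootMultiplicity_C]
      rw [this]; simp
    have e4 : p.comp (Polynomial.X + Polynomial.C c) ≠ 0 := by
      intro h
      apply hp
      have h5 := congrArg (fun q => Polynomial.comp q (Polynomial.X - Polynomial.C c)) h
      simp only [Polynomial.zero_comp, Polynomial.comp_assoc, Polynomial.add_comp,
        Polynomial.X_comp, Polynomial.C_comp, sub_add_cancel, Polynomial.comp_X] at h5
      exact h5
    rw [e2, e3]
    set q := p.comp (Polynomial.X + Polynomial.C c) with hq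
    have h6 : q.coeff q.natTrailingDegree ≠ 0 := Polynomial.trailingCoeff_nonzero_iff_nonzero.2 e4
    refine ⟨algebraMap k F (q.coeff q.natTrailingDegree), ?_, ?_⟩
    · rw [Ne, map_eq_zero_iff _ (algebraMap k F).injective]; exact h6
    · have := ld_aeval (E := EE F m) q (n : ℤ) q.natTrailingDegree h6 (by omega) (fun j hj => by
        have h7 : q.natTrailingDegree ≤ j := Polynomial.natTrailingDegree_le_of_ne_zero hj
        have h8 : (0 : ℤ) ≤ n := by omega
        exact mul_le_mul_of_nonneg_left (by exact_mod_cast h7) h8)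
      rw [HahnSeries.algebraMap_apply] at this
      exact this
  | none =>
    have e1 : (zetaV (none : Option k) n : LL F m) = HahnSeries.single (-(n : ℤ)) 1 := by
      show (ss F m ^ n)⁻¹ = _
      rw [← zpow_natCast (ss F m) n, ← zpow_neg (ss F m) n, ss_zpow]
    have e3 : ordAt none (algebraMap (Polynomial k) (RatFunc k) p) = -(p.natDegree : ℤ) := by
      show -(RatFunc.intDegree (algebraMap (Polynomial k) (RatFunc k) p)) = _
      rw [RatFunc.intDegree_polynomial]
    rw [e1, e3]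
    have h6 : p.coeff p.natDegree ≠ 0 := Polynomial.leadingCoeff_ne_zero.2 hp
    refine ⟨algebraMap k F (p.coeff p.natDegree), ?_, ?_⟩
    · rw [Ne, map_eq_zero_iff _ (algebraMap k F).injective]; exact h6
    · have := ld_aeval (E := EE F m) p (-(n : ℤ)) p.natDegree h6 (by omega) (fun j hj => by
        have h7 : j ≤ p.natDegree := Polynomial.le_natDegree_of_ne_zero hj
        have h8 : (0 : ℤ) ≤ n := by omega
        have h9 : (n : ℤ) * j ≤ n * p.natDegree :=
          mul_le_mul_of_nonneg_left (by exact_mod_cast h7) h8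
        linarith)
      rw [HahnSeries.algebraMap_apply] at this
      have e5 : (n : ℤ) * -(p.natDegree : ℤ) = -(n : ℤ) * p.natDegree := by ring
      rw [e5]
      exact this

theorem ordAt_numDenom (P : Option k) (g : RatFunc k) : ordAt P g =
    ordAt P (algebraMap (Polynomial k) (RatFunc k) g.num) -
      ordAt P (algebraMap (Polynomial k) (RatFunc k) g.denom) := by
  have h1 : Polynomial.natDegree (RatFunc.denom (algebraMap (Polynomial k) (RatFunc k) g.num)) = 0 := by
    rw [RatFunc.denom_algebraMap]; simp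
  cases P with
  | some c =>
    show ((RatFunc.num g).rootMultiplicity c : ℤ) - ((RatFunc.denom g).rootMultiplicity c : ℤ) =
      (((RatFunc.num (algebraMap (Polynomial k) (RatFunc k) g.num)).rootMultiplicity c : ℤ) -
        ((RatFunc.denom (algebraMap (Polynomial k) (RatFunc k) g.num)).rootMultiplicity c : ℤ)) -
      (((RatFunc.num (algebraMap (Polynomial k) (RatFunc k) g.denom)).rootMultiplicity c : ℤ) -
        ((RatFunc.denom (algebraMap (Polynomial k) (RatFunc k) g.denom)).rootMultiplicity c : ℤ))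
    rw [RatFunc.num_algebraMap, RatFunc.denom_algebraMap, RatFunc.num_algebraMap,
      RatFunc.denom_algebraMap]
    have : Polynomial.rootMultiplicity c (1 : Polynomial k) = 0 := by
      rw [← Polynomial.C_1, Polynomial.rootMultiplicity_C]
    rw [this]; simp
  | none =>
    show -(RatFunc.intDegree g) = -(RatFunc.intDegree (algebraMap (Polynomial k) (RatFunc k) g.num))
      - -(RatFunc.intDegree (algebraMap (Polynomial k) (RatFunc k) g.denom))
    rw [RatFunc.intDegree_polynomial, RatFunc.intDegree_polynomial, RatFunc.intDegree]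
    ring

theorem vert_rat (P : Option k) (n : ℕ) (hn : 1 ≤ n) (Φ : RatFunc k →ₐ[k] LL F m)
    (hz : Φ RatFunc.X = zetaV P n) (g : RatFunc k) (hg : g ≠ 0) :
    ∃ c : F, c ≠ 0 ∧ Ld (Φ g) (n * ordAt P g) (HahnSeries.C c) := by
  obtain ⟨a, ha, h1⟩ := vert_poly P n hn Φ hz g.num (RatFunc.num_ne_zero hg)
  obtain ⟨b, hb, h2⟩ := vert_poly P n hn Φ hz g.denom (RatFunc.denom_ne_zero g)
  have h3 := h1.mul h2.inv
  rw [← map_inv₀, ← map_mul, ← div_eq_mul_inv, RatFunc.num_div_denom] at h3
  refine ⟨a * b⁻¹, mul_ne_zero ha (inv_ne_zero hb), ?_⟩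
  rw [ordAt_numDenom, map_mul, map_inv₀, mul_sub, sub_eq_add_neg]
  exact h3

/-- the horizontal case: rational functions go to constants -/
theorem horiz_rat (ι : RatFunc k →ₐ[k] F) (Φ : RatFunc k →ₐ[k] LL F m)
    (hz : Φ RatFunc.X = cc F m (ι RatFunc.X)) (g : RatFunc k) :
    Φ g = cc F m (ι g) := by
  have h1 : ∀ p : Polynomial k, Φ (algebraMap (Polynomial k) (RatFunc k) p) =
      cc F m (ι (algebraMap (Polynomial k) (RatFunc k) p)) := by
    intro p
    rw [alg_poly Φ p, alg_poly ι p, hz, Polynomial.aeval_def, Polynomial.aeval_def,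
      Polynomial.hom_eval₂]
    have hh : algebraMap k (LL F m) = (cc F m).comp (algebraMap k F) :=
      RingHom.ext fun c => (cc_algebraMap c).symm
    rw [hh]
  rw [← RatFunc.num_div_denom g, map_div₀, map_div₀, map_div₀, h1, h1]

end Emb

section Mon
variable {F : Type v} [Field F] {m : ℕ}

theorem single_zpow' {Γ : Type w} [AddCommGroup Γ] [LinearOrder Γ] [IsOrderedAddMonoid Γ]
    (γ : Γ) (a : F) (r : ℤ) :
    (HahnSeries.single γ a : HahnSeries Γ F) ^ r = HahnSeries.single (r • γ) (a ^ r) := by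
  obtain ⟨b, rfl | rfl⟩ := r.eq_nat_or_neg
  · rw [zpow_natCast, HahnSeries.single_pow, zpow_natCast, natCast_zsmul]
  · rw [zpow_neg, zpow_natCast, HahnSeries.single_pow, HahnSeries.inv_single, zpow_neg,
      zpow_natCast, neg_smul, natCast_zsmul]

theorem prod_single {Γ : Type w} [AddCommGroup Γ] [LinearOrder Γ] [IsOrderedAddMonoid Γ]
    {ι : Type u} (s : Finset ι) (γ : ι → Γ) (a : ι → F) :
    ∏ i ∈ s, (HahnSeries.single (γ i) (a i) : HahnSeries Γ F) =
      HahnSeries.single (∑ i ∈ s, γ i) (∏ i ∈ s, a i) := by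
  induction s using Finset.induction_on with
  | empty => simp
  | insert i s hi ih =>
    rw [Finset.prod_insert hi, ih, Finset.prod_insert hi, Finset.sum_insert hi,
      HahnSeries.single_mul_single]

theorem coeff_fsum' {Γ : Type w} [AddCommGroup Γ] [LinearOrder Γ] [IsOrderedAddMonoid Γ]
    {ι : Type u} (s : Finset ι) (f : ι → HahnSeries Γ F) (i : Γ) :
    (∑ j ∈ s, f j).coeff i = ∑ j ∈ s, (f j).coeff i := by
  induction s using Finset.induction_on with
  | empty => simp
  | insert j s hj ih => rw [Finset.sum_insert hj, Finset.sum_insert hj, HahnSeries.coeff_add, ih]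

theorem sum_toLex (u : Fin m → ℤ) :
    ∑ j, u j • (toLex (Pi.single j (1 : ℤ)) : Lex (Fin m → ℤ)) = toLex u := by
  have h : ∑ j, u j • (Pi.single j (1 : ℤ) : Fin m → ℤ) = u := by
    ext i
    rw [Finset.sum_apply, Finset.sum_eq_single i]
    · simp
    · intro j _ hj
      simp [Ne.symm hj]
    · intro h; exact absurd (Finset.mem_univ i) h
  calc ∑ j, u j • (toLex (Pi.single j (1 : ℤ)) : Lex (Fin m → ℤ))
      = toLex (∑ j, u j • (Pi.single j (1 : ℤ) : Fin m → ℤ)) := by
        induction (Finset.univ : Finset (Fin m)) using Finset.induction_on with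
        | empty => rfl
        | insert j s hj ih => rw [Finset.sum_insert hj, Finset.sum_insert hj, ih]; rfl
    _ = toLex u := by rw [h]

theorem prod_TT (u : Fin m → ℤ) : ∏ j, TT F m j ^ u j = HahnSeries.single (toLex u) 1 := by
  have h : ∀ j, TT F m j ^ u j =
      HahnSeries.single (u j • (toLex (Pi.single j (1 : ℤ)) : Lex (Fin m → ℤ))) (1 : F) := by
    intro j
    rw [TT, single_zpow', one_zpow]
  rw [Finset.prod_congr rfl fun j _ => h j, prod_single, sum_toLex]
  simp

theorem TT_ne (j : Fin m) : TT F m j ≠ 0 := HahnSeries.single_ne_zero one_ne_zero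

theorem ld_C {a : EE F m} (ha : a ≠ 0) : Ld (HahnSeries.C a : LL F m) 0 a := ld_single 0 ha

theorem ld_ss : Ld (ss F m) 1 1 := ld_single 1 one_ne_zero

variable {k : Type u} [Field k] [Algebra k F] {K : Type w} [Field K] [Algebra k K]

/-- embedding adapted to the homogeneous valuation `V` -/
structure Adapted (C : Ctx k K m) (V : HV k m) (Φ : K →ₐ[k] LL F m) : Prop where
  rat : ∀ g : RatFunc k, g ≠ 0 →
    ∃ c : F, c ≠ 0 ∧ Ld (Φ (C.ι g)) (V.n * ordAt V.P g) (HahnSeries.C c)
  xx : ∀ j, Φ (C.x j) = ss F m ^ V.w j * TL F m j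

theorem xi_one (w : Fin m → ℤ) (j : Fin m) :
    xi (fun _ => (1 : F)) w (1 : Matrix (Fin m) (Fin m) ℤ) ∅ j = ss F m ^ w j * TL F m j := by
  unfold xi
  rw [map_one, one_mul]
  congr 1
  rw [Finset.prod_eq_single j]
  · rw [if_neg (Finset.notMem_empty j), Matrix.one_apply_eq]
    exact zpow_one (TL F m j)
  · intro i _ hi
    rw [Matrix.one_apply_ne hi]
    exact zpow_zero _
  · intro h; exact absurd (Finset.mem_univ j) h

theorem Adapted.mon {C : Ctx k K m} {V : HV k m} {Φ : K →ₐ[k] LL F m} (h : Adapted C V Φ)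
    (g : RatFunc k) (hg : g ≠ 0) (u : Fin m → ℤ) :
    ∃ c : F, c ≠ 0 ∧ Ld (Φ (C.mon g u)) (V.val g u) (HahnSeries.single (toLex u) c) := by
  obtain ⟨c, hc, h1⟩ := h.rat g hg
  refine ⟨c, hc, ?_⟩
  have h2 : ∀ j, Ld (Φ (C.x j ^ u j)) (u j * V.w j) (TT F m j ^ u j) := by
    intro j
    have e : Φ (C.x j ^ u j) = (Φ (C.x j)) ^ u j := map_zpow₀ Φ (C.x j) (u j)
    rw [e, h.xx]
    have h3 : Ld (ss F m ^ V.w j * TL F m j) (V.w j) (TT F m j) := by
      have h4 := (ld_ss (F := F) (m := m)).zpow (V.w j)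
      have h5 := h4.mul (ld_C (TT_ne (F := F) j))
      rw [one_zpow, one_mul, mul_one, add_zero] at h5
      exact h5
    exact h3.zpow (u j)
  have h3 := Ld.prod Finset.univ (fun j => Φ (C.x j ^ u j)) (fun j => u j * V.w j)
    (fun j => TT F m j ^ u j) fun j _ => h2 j
  rw [prod_TT] at h3
  have h4 := h1.mul h3
  have e1 : Φ (C.ι g) * ∏ j, Φ (C.x j ^ u j) = Φ (C.mon g u) := by
    rw [Ctx.mon, map_mul, map_prod]
  have e2 : (HahnSeries.C c : EE F m) * HahnSeries.single (toLex u) 1 =
      HahnSeries.single (toLex u) c := by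
    rw [HahnSeries.C_apply, HahnSeries.single_mul_single, zero_add, mul_one]
  have e3 : V.val g u = V.n * ordAt V.P g + ∑ j, u j * V.w j := by
    rw [HV.val]
    congr 1
    exact Finset.sum_congr rfl fun j _ => mul_comm _ _
  rw [e1, e2, ← e3] at h4
  exact h4

theorem Adapted.sum {C : Ctx k K m} {V : HV k m} {Φ : K →ₐ[k] LL F m} (h : Adapted C V Φ)
    (s : Finset (Fin m → ℤ)) (hs : s.Nonempty) (g : (Fin m → ℤ) → RatFunc k)
    (hg : ∀ u ∈ s, g u ≠ 0) :
    Φ (∑ u ∈ s, C.mon (g u) u) ≠ 0 ∧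
      (Φ (∑ u ∈ s, C.mon (g u) u)).order = s.inf' hs fun u => V.val (g u) u := by
  have h1 : ∀ u, ∃ c : F, u ∈ s → c ≠ 0 ∧
      Ld (Φ (C.mon (g u) u)) (V.val (g u) u) (HahnSeries.single (toLex u) c) := by
    intro u
    by_cases hu : u ∈ s
    · obtain ⟨c, hc, h2⟩ := h.mon (g u) (hg u hu) u
      exact ⟨c, fun _ => ⟨hc, h2⟩⟩
    · exact ⟨1, fun h3 => absurd h3 hu⟩
  choose c hc using h1
  set μ := s.inf' hs fun u => V.val (g u) u with hμ
  obtain ⟨u₀, hu₀, hu₀'⟩ := Finset.exists_mem_eq_inf' hs (fun u => V.val (g u) u)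
  have h2 : ∑ u ∈ s.filter (fun u => V.val (g u) u = μ),
      (HahnSeries.single (toLex u) (c u) : EE F m) ≠ 0 := by
    intro h3
    have h4 : (∑ u ∈ s.filter (fun u => V.val (g u) u = μ),
      (HahnSeries.single (toLex u) (c u) : EE F m)).coeff (toLex u₀) = 0 := by
      rw [h3]; rfl
    rw [coeff_fsum', Finset.sum_eq_single u₀] at h4
    · rw [HahnSeries.coeff_single_same] at h4
      exact (hc u₀ hu₀).1 h4
    · intro u _ hu
      exact HahnSeries.coeff_single_of_ne fun h5 => hu (toLex.injective h5).symm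
    · intro h5
      exact absurd (Finset.mem_filter.2 ⟨hu₀, by rw [hμ, hu₀']⟩) h5
  have h3 := ld_sum s (fun u => Φ (C.mon (g u) u)) (fun u => V.val (g u) u)
    (fun u => (HahnSeries.single (toLex u) (c u) : EE F m)) (fun u hu => (hc u hu).2) μ
    (fun u hu => Finset.inf'_le _ hu) _ rfl h2
  rw [← map_sum] at h3
  exact ⟨h3.1, h3.2.1⟩

end Mon

section Div
variable {F : Type v} [Field F] {m : ℕ} {k : Type u} [Field k] [Algebra k F]
  {K : Type w} [Field K] [Algebra k K]

theorem div_of (Φ : K →ₐ[k] LL F m) (v : DVal k K) (hv : ∀ a, a ≠ 0 → v.ord a = (Φ a).order)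
    (t : Fin m → K) (τ : Fin m → EE F m) (ht : ∀ i, Φ (t i) = HahnSeries.C (τ i))
    (hind : ∀ p : MvPolynomial (Fin m) k, p ≠ 0 → MvPolynomial.aeval τ p ≠ 0) :
    v.IsDivisorial m := by
  refine ⟨t, fun i h0 => ?_, fun p hp hs => ?_⟩
  · rw [hv _ h0, ht]
    exact (HahnSeries.order_C).ge
  · have h1 : Φ (MvPolynomial.aeval t p) = HahnSeries.C (MvPolynomial.aeval τ p) := by
      rw [MvPolynomial.aeval_def, MvPolynomial.aeval_def, MvPolynomial.eval₂_eq',
        MvPolynomial.eval₂_eq', map_sum, map_sum]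
      refine Finset.sum_congr rfl fun α _ => ?_
      rw [map_mul, map_mul, map_prod, map_prod]
      congr 1
      · rw [AlgHom.commutes, algMap_L]
      · refine Finset.prod_congr rfl fun i _ => ?_
        rw [map_pow, map_pow, ht]
    have h2 : MvPolynomial.aeval t p ≠ 0 := by
      intro h
      rw [h, map_zero] at h1
      exact hind p hp (HahnSeries.C_injective (by rw [← h1, map_zero]))
    have h3 := hs h2
    rw [hv _ h2, h1, HahnSeries.order_C] at h3
    exact lt_irrefl _ h3

/-- evaluation at monomials -/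
theorem aeval_single (γ : Fin m → Lex (Fin m → ℤ)) (a : Fin m → F) (p : MvPolynomial (Fin m) k)
    (E : Lex (Fin m → ℤ)) :
    (MvPolynomial.aeval (fun i => (HahnSeries.single (γ i) (a i) : EE F m)) p).coeff E =
      ∑ α ∈ p.support.filter (fun α => ∑ i, α i • γ i = E),
        algebraMap k F (p.coeff α) * ∏ i, a i ^ α i := by
  rw [MvPolynomial.aeval_def, MvPolynomial.eval₂_eq', coeff_fsum', Finset.sum_filter]
  refine Finset.sum_congr rfl fun α _ => ?_
  have h1 : ∀ i, (HahnSeries.single (γ i) (a i) : EE F m) ^ α i =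
      HahnSeries.single (α i • γ i) (a i ^ α i) := fun i => HahnSeries.single_pow _ _ _
  rw [Finset.prod_congr rfl fun i _ => h1 i, prod_single, HahnSeries.algebraMap_apply,
    HahnSeries.C_apply, HahnSeries.single_mul_single, zero_add]
  split_ifs with hE
  · rw [hE, HahnSeries.coeff_single_same]
  · exact HahnSeries.coeff_single_of_ne fun h => hE h.symm

/-- the vertical case -/
theorem ind_vert (n : ℕ) (hn : 1 ≤ n) (p : MvPolynomial (Fin m) k) (hp : p ≠ 0) :
    MvPolynomial.aeval (fun i => (HahnSeries.single (toLex (Pi.single i (n : ℤ)) :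
      Lex (Fin m → ℤ)) (1 : F) : EE F m)) p ≠ 0 := by
  obtain ⟨α₀, hα₀⟩ := MvPolynomial.support_nonempty.2 hp
  intro h
  have h1 := aeval_single (fun i => (toLex (Pi.single i (n : ℤ)) : Lex (Fin m → ℤ)))
    (fun _ => (1 : F)) p (∑ i, α₀ i • (toLex (Pi.single i (n : ℤ)) : Lex (Fin m → ℤ)))
  rw [h] at h1
  have key : ∀ α : Fin m →₀ ℕ, ∑ i, α i • (toLex (Pi.single i (n : ℤ)) : Lex (Fin m → ℤ)) =
      toLex fun i => (α i : ℤ) * n := by
    intro α
    rw [← sum_toLex]
    refine Finset.sum_congr rfl fun i _ => ?_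
    apply ofLex.injective
    ext j
    show α i • (Pi.single i (n : ℤ) : Fin m → ℤ) j = ((α i : ℤ) * n) • (Pi.single i (1 : ℤ) : Fin m → ℤ) j
    rcases eq_or_ne j i with rfl | hj
    · simp
    · simp [hj]
  have h2 : p.support.filter (fun α => ∑ i, α i • (toLex (Pi.single i (n : ℤ)) :
      Lex (Fin m → ℤ)) = ∑ i, α₀ i • (toLex (Pi.single i (n : ℤ)) : Lex (Fin m → ℤ))) = {α₀} := by
    ext α
    simp only [Finset.mem_filter, Finset.mem_singleton]
    constructor
    · rintro ⟨_, h3⟩
      rw [key, key] at h3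
      have h4 := toLex.injective h3
      ext i
      have h5 := congrFun h4 i
      have h6 : (n : ℤ) ≠ 0 := by omega
      exact_mod_cast mul_right_cancel₀ h6 h5
    · rintro rfl
      exact ⟨hα₀, rfl⟩
  rw [h2, Finset.sum_singleton] at h1
  have h3 : (0 : F) = algebraMap k F (p.coeff α₀) := by
    have : ∏ i, (1 : F) ^ α₀ i = 1 := by simp
    rw [this, mul_one] at h1
    exact h1
  have h4 : p.coeff α₀ = 0 := by
    apply (algebraMap k F).injective
    rw [← h3, map_zero]
  exact MvPolynomial.mem_support_iff.1 hα₀ h4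

/-- the horizontal case -/
theorem ind_horiz (ι : RatFunc k →ₐ[k] F) (w : Fin m → ℤ) (r : Fin m) (hr : w r ≠ 0)
    (p : MvPolynomial (Fin m) k) (hp : p ≠ 0) :
    MvPolynomial.aeval (fun i => (HahnSeries.single (if i = r then 0 else
      w r • (toLex (Pi.single i (1 : ℤ)) : Lex (Fin m → ℤ)) - w i • toLex (Pi.single r (1 : ℤ)))
        (if i = r then ι RatFunc.X else 1) : EE F m)) p ≠ 0 := by
  set γ : Fin m → Lex (Fin m → ℤ) := fun i => if i = r then 0 else
      w r • (toLex (Pi.single i (1 : ℤ)) : Lex (Fin m → ℤ)) - w i • toLex (Pi.single r (1 : ℤ))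
    with hγ
  set a : Fin m → F := fun i => if i = r then ι RatFunc.X else 1 with ha
  obtain ⟨α₀, hα₀⟩ := MvPolynomial.support_nonempty.2 hp
  intro h
  have h1 := aeval_single γ a p (∑ i, α₀ i • γ i)
  have h0 : (MvPolynomial.aeval (fun i => (HahnSeries.single (γ i) (a i) : EE F m)) p) = 0 := h
  rw [h0] at h1
  have key : ∀ (α : Fin m →₀ ℕ) (j : Fin m), j ≠ r →
      ofLex (∑ i, α i • γ i) j = (α j : ℤ) * w r := by
    intro α j hj
    have e : ∀ s : Finset (Fin m), ofLex (∑ i ∈ s, α i • γ i) j =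
        ∑ i ∈ s, α i • ofLex (γ i) j := by
      intro s
      induction s using Finset.induction_on with
      | empty => rfl
      | insert i s hi ih =>
        rw [Finset.sum_insert hi, Finset.sum_insert hi, ← ih]; rfl
    rw [e, Finset.sum_eq_single j]
    · have e2 : ofLex (γ j) j = w r := by
        simp only [hγ, if_neg hj]
        show w r • (Pi.single j (1 : ℤ) : Fin m → ℤ) j - w j • (Pi.single r (1 : ℤ) : Fin m → ℤ) j = w r
        simp [hj]
      rw [e2, nsmul_eq_mul]
    · intro i _ hi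
      have e2 : ofLex (γ i) j = 0 := by
        by_cases hir : i = r
        · simp only [hγ, if_pos hir]; rfl
        · simp only [hγ, if_neg hir]
          show w r • (Pi.single i (1 : ℤ) : Fin m → ℤ) j - w i • (Pi.single r (1 : ℤ) : Fin m → ℤ) j = 0
          simp [hj, Ne.symm hi]
      rw [e2, smul_zero]
    · intro h; exact absurd (Finset.mem_univ j) h
  set S := p.support.filter (fun α => ∑ i, α i • γ i = ∑ i, α₀ i • γ i) with hS
  have hS' : ∀ α ∈ S, ∀ j, j ≠ r → α j = α₀ j := by
    intro α hα j hj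
    have h2 := (Finset.mem_filter.1 hα).2
    have h3 := key α j hj
    rw [h2, key α₀ j hj] at h3
    exact_mod_cast (mul_right_cancel₀ hr h3).symm
  have hprod : ∀ α : Fin m →₀ ℕ, ∏ i, a i ^ α i = (ι RatFunc.X) ^ α r := by
    intro α
    rw [Finset.prod_eq_single r]
    · simp only [ha, if_true]
    · intro i _ hi
      simp only [ha, if_neg hi, one_pow]
    · intro h; exact absurd (Finset.mem_univ r) h
  let q : Polynomial k := ∑ α ∈ S, Polynomial.monomial (α r) (p.coeff α)
  have hq : q.coeff (α₀ r) = p.coeff α₀ := by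
    show (∑ α ∈ S, Polynomial.monomial (α r) (p.coeff α)).coeff (α₀ r) = _
    rw [Polynomial.finsetSum_coeff, Finset.sum_eq_single α₀]
    · rw [Polynomial.coeff_monomial, if_pos rfl]
    · intro α hα hne
      rw [Polynomial.coeff_monomial, if_neg]
      intro h2
      apply hne
      ext j
      by_cases hj : j = r
      · rw [hj, h2]
      · exact hS' α hα j hj
    · intro h2
      exact absurd (show α₀ ∈ S from Finset.mem_filter.2 ⟨hα₀, rfl⟩) h2
  have hq0 : q ≠ 0 := by
    intro h2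
    rw [h2, Polynomial.coeff_zero] at hq
    exact MvPolynomial.mem_support_iff.1 hα₀ hq.symm
  have h3 : ∑ α ∈ S, algebraMap k F (p.coeff α) * ∏ i, a i ^ α i =
      ι (algebraMap (Polynomial k) (RatFunc k) q) := by
    rw [alg_poly ι q]
    show _ = Polynomial.aeval (ι RatFunc.X) (∑ α ∈ S, Polynomial.monomial (α r) (p.coeff α))
    rw [map_sum]
    refine Finset.sum_congr rfl fun α _ => ?_
    rw [Polynomial.aeval_monomial, hprod]
  rw [h3] at h1
  have h4 : ι (algebraMap (Polynomial k) (RatFunc k) q) = 0 := h1.symm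
  have h5 : algebraMap (Polynomial k) (RatFunc k) q = 0 := by
    apply ι.toRingHom.injective
    rw [map_zero]; exact h4
  exact hq0 ((map_eq_zero_iff _ (RatFunc.algebraMap_injective k)).1 h5)

end Div

section FO
variable {m : ℕ} {k : Type u} [Field k] [CharZero k] {K : Type w} [Field K] [Algebra k K]

omit [CharZero k] in
theorem jac_cons (C : Ctx k K m) (z d : K) (h0 : C.der 0 z = d)
    (hS : ∀ j : Fin m, C.der j.succ z = 0) : jac C.der (Fin.cons z C.x : Fin (m + 1) → K) = d := by
  have h : (Matrix.of fun i j => C.der i ((Fin.cons z C.x : Fin (m + 1) → K) j)) =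
      Matrix.diagonal (Fin.cons d (fun _ => 1) : Fin (m + 1) → K) := by
    ext i j
    rw [Matrix.of_apply]
    refine Fin.cases ?_ (fun i => ?_) i
    · refine Fin.cases ?_ (fun j => ?_) j
      · rw [Fin.cons_zero, Matrix.diagonal_apply_eq, Fin.cons_zero, h0]
      · rw [Fin.cons_succ, C.der0_x, Matrix.diagonal_apply_ne _ (Fin.succ_ne_zero j).symm]
    · refine Fin.cases ?_ (fun j => ?_) j
      · rw [Fin.cons_zero, hS, Matrix.diagonal_apply_ne _ (Fin.succ_ne_zero i)]
      · rw [Fin.cons_succ, C.derS_x]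
        by_cases hij : j = i
        · rw [if_pos hij, hij, Matrix.diagonal_apply_eq, Fin.cons_succ]
        · rw [if_neg hij, Matrix.diagonal_apply_ne]
          intro h
          exact hij (Fin.succ_injective _ h).symm
  rw [jac, h, Matrix.det_diagonal, Fin.prod_univ_succ, Fin.cons_zero]
  simp

theorem form_ord (C : Ctx k K m) (V : HV k m) (v : DVal k K)
    (hB : ∀ a : Fin (m + 1) → K, (∀ i, v.Integral (a i)) → jac C.der a ≠ 0 →
      1 - V.disc ≤ v.ord (jac C.der a))
    (hx : ∀ j, v.ord (C.x j) = V.w j) (z d : K) (hz : z ≠ 0) (hd : d ≠ 0) (h0 : C.der 0 z = d)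
    (hS : ∀ j : Fin m, C.der j.succ z = 0) (hzd : v.ord z - v.ord d = V.n * kap V.P) :
    v.FormOrd C.der (V.disc - 1) := by
  obtain ⟨j, hj, hj1⟩ := formOrd_exists C v (1 - V.disc) hB
  have hJ := jac_cons C z d h0 hS
  have h1 := log_ineq v C.der j hj (Fin.cons z C.x) (fun i => by
    refine Fin.cases ?_ (fun i => ?_) i
    · rw [Fin.cons_zero]; exact hz
    · rw [Fin.cons_succ]; exact C.x_ne i) (by rw [hJ]; exact hd)
  rw [hJ, Fin.sum_univ_succ, Fin.cons_zero] at h1
  have h2 : ∑ i : Fin m, v.ord ((Fin.cons z C.x : Fin (m + 1) → K) i.succ) = ∑ i, V.w i :=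
    Finset.sum_congr rfl fun i _ => by rw [Fin.cons_succ, hx]
  rw [h2] at h1
  have h3 : V.disc = V.n * kap V.P + ∑ i, V.w i := rfl
  have h4 : j = V.disc - 1 := by
    apply le_antisymm
    · linarith
    · rw [h3]; linarith
  rw [← h4]; exact hj

end FO

section Glue
variable {F : Type v} [Field F] {m : ℕ} {k : Type u} [Field k] [CharZero k] [Algebra k F]
  {K : Type w} [Field K] [Algebra k K]

theorem glue (C : Ctx k K m) (V : HV k m) (hV : ∃ g u, g ≠ 0 ∧ V.val g u = 1)
    (Φ : K →ₐ[k] LL F m) (hA : Adapted C V Φ)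
    (hB : ∀ a : Fin (m + 1) → K, (∀ j, 0 ≤ (Φ (a j)).order) → jac C.der a ≠ 0 →
      1 - V.disc ≤ (Φ (jac C.der a)).order)
    (t : Fin m → K) (τ : Fin m → EE F m) (ht : ∀ i, Φ (t i) = HahnSeries.C (τ i))
    (hind : ∀ p : MvPolynomial (Fin m) k, p ≠ 0 → MvPolynomial.aeval τ p ≠ 0)
    (z d : K) (hz : z ≠ 0) (hd : d ≠ 0) (h0 : C.der 0 z = d)
    (hS : ∀ j : Fin m, C.der j.succ z = 0)
    (hzd : (Φ z).order - (Φ d).order = V.n * kap V.P) :
    ∃ v : DVal k K, v.IsDivisorial m ∧ v.FormOrd C.der (V.disc - 1) ∧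
      (∀ g u, g ≠ 0 → v.ord (C.mon g u) = V.val g u) ∧
      ∀ (s : Finset (Fin m → ℤ)) (hs : s.Nonempty) (g : (Fin m → ℤ) → RatFunc k),
        (∀ u ∈ s, g u ≠ 0) →
          v.ord (∑ u ∈ s, C.mon (g u) u) = s.inf' hs fun u => V.val (g u) u := by
  have hmon : ∀ g u, g ≠ 0 → (Φ (C.mon g u)).order = V.val g u := by
    intro g u hg
    obtain ⟨c, _, h⟩ := hA.mon g hg u
    exact h.2.1
  obtain ⟨v, hv⟩ := exists_dval Φ (by
    obtain ⟨g, u, hg, h⟩ := hV
    exact ⟨C.mon g u, mon_ne_zero C hg u, by rw [hmon g u hg, h]⟩)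
  have hint : ∀ a : K, v.Integral a → 0 ≤ (Φ a).order := by
    intro a ha
    by_cases h : a = 0
    · rw [h, map_zero, HahnSeries.order_zero]
    · rw [← hv a h]; exact ha h
  refine ⟨v, div_of Φ v hv t τ ht hind, form_ord C V v ?_ ?_ z d hz hd h0 hS ?_, ?_, ?_⟩
  · intro a ha hJ
    rw [hv _ hJ]
    exact hB a (fun j => hint _ (ha j)) hJ
  · intro j
    rw [hv _ (C.x_ne j), hA.xx]
    have h4 := (ld_ss (F := F) (m := m)).zpow (V.w j)
    have h5 := h4.mul (ld_C (TT_ne (F := F) j))
    exact (show (ss F m ^ V.w j * TL F m j).order = _ from h5.2.1).trans (by ring)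
  · rw [hv _ hz, hv _ hd, hzd]
  · intro g u hg
    rw [hv _ (mon_ne_zero C hg u), hmon g u hg]
  · intro s hs g hg
    obtain ⟨h1, h2⟩ := hA.sum s hs g hg
    have h3 : ∑ u ∈ s, C.mon (g u) u ≠ 0 := by
      intro h; rw [h, map_zero] at h1; exact h1 rfl
    rw [hv _ h3, h2]

omit [CharZero k] in
theorem ι_ne (C : Ctx k K m) {g : RatFunc k} (hg : g ≠ 0) : C.ι g ≠ 0 := fun h =>
  hg (C.ι.toRingHom.injective (by rw [map_zero]; exact h))

end Glue

theorem fld1 {L : Type v} [Field L] (s T : L) (hs : s ≠ 0) (w : ℤ) (n : ℕ) :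
    (s ^ w * T) ^ n * (s ^ n) ^ (-w) = T ^ n := by
  rw [mul_pow, zpow_neg, ← zpow_natCast (s ^ w), ← zpow_mul, ← zpow_natCast s n, ← zpow_mul,
    mul_comm (n : ℤ) w]
  field_simp

theorem fld2 {L : Type v} [Field L] (s T S : L) (hs : s ≠ 0) (a b : ℤ) :
    (s ^ a * T) ^ b * (s ^ b * S) ^ (-a) = T ^ b * S ^ (-a) := by
  rw [mul_zpow, mul_zpow, ← zpow_mul, ← zpow_mul, mul_mul_mul_comm, ← zpow_add₀ hs]
  have : a * b + b * -a = 0 := by ring
  rw [this, zpow_zero, one_mul]

end Mono

section MONO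
variable {k : Type u} [Field k] [IsAlgClosed k] [CharZero k] {m : ℕ} {K : Type v} [Field K]
  [Algebra k K]

open Mono in
theorem mono (C : Ctx k K m) (V : HV k m) (hV : ∃ g u, g ≠ 0 ∧ V.val g u = 1) :
    ∃ v : DVal k K, v.IsDivisorial m ∧ v.FormOrd C.der (V.disc - 1) ∧
      (∀ g u, g ≠ 0 → v.ord (C.mon g u) = V.val g u) ∧
      ∀ (s : Finset (Fin m → ℤ)) (hs : s.Nonempty) (g : (Fin m → ℤ) → RatFunc k),
        (∀ u ∈ s, g u ≠ 0) →
          v.ord (∑ u ∈ s, C.mon (g u) u) = s.inf' hs fun u => V.val (g u) u := by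
  have hdet : (1 : Matrix (Fin m) (Fin m) ℤ).det ≠ 0 := by rw [Matrix.det_one]; exact one_ne_zero
  have hιX : C.ι RatFunc.X ≠ 0 := ι_ne C RatFunc.X_ne_zero
  by_cases hn : V.n = 0
  · -- horizontal
    obtain ⟨Φ, hz, hx⟩ := phi_horiz C (F := K) (C.ι RatFunc.X) (C.der 0) C.der0_X (fun _ => 1)
      (fun _ => one_ne_zero) V.w 1 hdet ∅
    have hx' : ∀ j, Φ (C.x j) = ss K m ^ V.w j * TL K m j := fun j => by rw [hx, xi_one]
    have hrat : ∀ g, Φ (C.ι g) = cc K m (C.ι g) := horiz_rat C.ι (Φ.comp C.ι) hz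
    have hA : Adapted C V Φ := by
      refine ⟨fun g hg => ⟨C.ι g, ?_, ?_⟩, hx'⟩
      · exact ι_ne C hg
      · rw [hrat, hn]
        have h1 : C.ι g ≠ 0 := ι_ne C hg
        have h2 : (HahnSeries.C (C.ι g) : EE K m) ≠ 0 := HahnSeries.C_ne_zero h1
        have h3 := ld_C h2
        have e : ((0 : ℕ) : ℤ) * ordAt V.P g = 0 := by simp
        rw [e]; exact h3
    obtain ⟨r, hr⟩ : ∃ r, V.w r ≠ 0 := by
      by_contra hc
      push Not at hc
      obtain ⟨g, u, _, h⟩ := hV
      simp [HV.val, hn, hc] at h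
    have hs0 : ss K m ≠ 0 := (ld_ss (F := K) (m := m)).1
    have hz1 : (Φ (C.ι RatFunc.X)).order = 0 := by
      rw [hrat]
      exact HahnSeries.order_C
    refine glue C V hV Φ hA ?_ (fun i => if i = r then C.ι RatFunc.X else
        C.x i ^ V.w r * C.x r ^ (-V.w i)) _ ?_ (ind_horiz C.ι V.w r hr) (C.ι RatFunc.X) 1 hιX
        one_ne_zero C.der0_X C.derS_X ?_
    · intro a ha hJ
      have h := bound_horiz C (F := K) (C.ι RatFunc.X) (C.der 0) C.der0_X (fun _ => 1)
        (fun _ => one_ne_zero) V.w 1 hdet ∅ (fun i => (V.w i : ℚ))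
        ⟨r, Finset.notMem_empty r, by exact_mod_cast hr⟩ (fun j => by
          rw [Finset.compl_empty, Finset.sum_eq_single j]
          · rw [Matrix.one_apply_eq]; simp
          · intro i _ hi
            rw [Matrix.one_apply_ne hi]; simp
          · intro h; exact absurd (Finset.mem_univ j) h) Φ hz hx a ha hJ
      rw [Finset.card_empty] at h
      have h3 : V.disc = ∑ i, V.w i := by
        rw [HV.disc, hn]; simp
      rw [h3]
      simpa using h
    · intro i
      by_cases hi : i = r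
      · simp only [if_pos hi]
        rw [hrat]; rfl
      · simp only [if_neg hi]
        have e1 : Φ (C.x i ^ V.w r * C.x r ^ (-V.w i)) =
            TL K m i ^ V.w r * TL K m r ^ (-V.w i) := by
          rw [map_mul]
          have e2 : Φ (C.x i ^ V.w r) = (Φ (C.x i)) ^ V.w r := map_zpow₀ Φ _ _
          have e3 : Φ (C.x r ^ (-V.w i)) = (Φ (C.x r)) ^ (-V.w i) := map_zpow₀ Φ _ _
          rw [e2, e3, hx', hx']
          exact fld2 (ss K m) (TL K m i) (TL K m r) hs0 (V.w i) (V.w r)
        rw [e1]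
        have e4 : TL K m i ^ V.w r = HahnSeries.C (TT K m i ^ V.w r) := by
          have h6 := single_zpow' (F := EE K m) (0 : ℤ) (TT K m i) (V.w r)
          rw [smul_zero] at h6
          exact h6
        have e5 : TL K m r ^ (-V.w i) = HahnSeries.C (TT K m r ^ (-V.w i)) := by
          have h6 := single_zpow' (F := EE K m) (0 : ℤ) (TT K m r) (-V.w i)
          rw [smul_zero] at h6
          exact h6
        rw [e4, e5, ← map_mul, TT, TT, single_zpow', single_zpow', HahnSeries.single_mul_single,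
          one_zpow, one_zpow, one_mul, neg_smul, ← sub_eq_add_neg]
    · rw [hz1, hn, map_one, HahnSeries.order_one]; simp
  · -- vertical
    have hn1 : 1 ≤ V.n := by omega
    obtain ⟨Φ, hz, hx⟩ := phi_vert C (F := k) V.P V.n hn1 (fun _ => 1)
      (fun _ => one_ne_zero) V.w 1 hdet ∅
    have hx' : ∀ j, Φ (C.x j) = ss k m ^ V.w j * TL k m j := fun j => by rw [hx, xi_one]
    have hA : Adapted C V Φ := by
      refine ⟨fun g hg => ?_, hx'⟩
      exact vert_rat V.P V.n hn1 (Φ.comp C.ι) hz g hg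
    have hs0 : ss k m ≠ 0 := (ld_ss (F := k) (m := m)).1
    have hzP : Φ (C.ι (zP V.P)) = ss k m ^ V.n := by
      rcases hP : V.P with _ | c
      · show Φ (C.ι (RatFunc.X)⁻¹) = _
        rw [hP] at hz
        rw [map_inv₀, map_inv₀, hz]
        exact inv_inv (ss k m ^ V.n)
      · show Φ (C.ι (RatFunc.X - RatFunc.C c)) = _
        rw [hP] at hz
        rw [map_sub, map_sub, hz]
        have e : Φ (C.ι (RatFunc.C c)) = cc k m (algebraMap k k c) := by
          have e1 : (RatFunc.C c : RatFunc k) = algebraMap k (RatFunc k) c := rfl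
          rw [e1, C.ι.commutes, Φ.commutes, cc_algebraMap]
        rw [e]
        show cc k m (algebraMap k k c) + ss k m ^ V.n - cc k m (algebraMap k k c) = _
        rw [add_sub_cancel_left]
    have hordz : (Φ (C.ι (zP V.P))).order = V.n := by
      rw [hzP]
      have := ((ld_ss (F := k) (m := m)).pow V.n).2.1
      rw [this]; ring
    have hd : ∃ d : K, d ≠ 0 ∧ C.der 0 (C.ι (zP V.P)) = d ∧ (∀ j : Fin m, C.der j.succ (C.ι (zP V.P)) = 0) ∧
        (Φ (C.ι (zP V.P))).order - (Φ d).order = V.n * kap V.P := by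
      rcases hP : V.P with _ | c
      · refine ⟨-(C.ι RatFunc.X)⁻¹ ^ 2, ?_, ?_, ?_, ?_⟩
        · exact neg_ne_zero.2 (pow_ne_zero 2 (inv_ne_zero hιX))
        · show C.der 0 (C.ι (RatFunc.X)⁻¹) = _
          rw [map_inv₀, Derivation.leibniz_inv, C.der0_X, smul_eq_mul, mul_one]
        · intro j
          show C.der j.succ (C.ι (RatFunc.X)⁻¹) = _
          rw [map_inv₀, Derivation.leibniz_inv, C.derS_X, smul_zero]
        · rw [← hP, hordz]
          have e : Φ (-(C.ι RatFunc.X)⁻¹ ^ 2) = -((ss k m ^ V.n) ^ 2) := by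
            rw [map_neg, map_pow, ← hzP, hP]
            show _ = -(Φ (C.ι (RatFunc.X)⁻¹)) ^ 2
            rw [map_inv₀ C.ι]
          have e2 : (Φ (-(C.ι RatFunc.X)⁻¹ ^ 2)).order = 2 * V.n := by
            rw [e, HahnSeries.order_neg]
            have := (((ld_ss (F := k) (m := m)).pow V.n).pow 2).2.1
            rw [this]; push_cast; ring
          rw [e2, hP]
          show (V.n : ℤ) - 2 * V.n = V.n * (-1)
          ring
      · refine ⟨1, one_ne_zero, ?_, ?_, ?_⟩
        · show C.der 0 (C.ι (RatFunc.X - RatFunc.C c)) = _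
          have e1 : (RatFunc.C c : RatFunc k) = algebraMap k (RatFunc k) c := rfl
          rw [map_sub, map_sub, C.der0_X, e1, C.ι.commutes, Derivation.map_algebraMap, sub_zero]
        · intro j
          show C.der j.succ (C.ι (RatFunc.X - RatFunc.C c)) = _
          have e1 : (RatFunc.C c : RatFunc k) = algebraMap k (RatFunc k) c := rfl
          rw [map_sub, map_sub, C.derS_X, e1, C.ι.commutes, Derivation.map_algebraMap, sub_zero]
        · rw [← hP, hordz, map_one, HahnSeries.order_one, hP]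
          show (V.n : ℤ) - 0 = V.n * 1
          ring
    obtain ⟨d, hd0, hd1, hd2, hd3⟩ := hd
    refine glue C V hV Φ hA ?_ (fun i => C.x i ^ V.n * C.ι (zP V.P) ^ (-V.w i)) _ ?_
      (ind_vert V.n hn1) (C.ι (zP V.P)) d ?_ hd0 hd1 hd2 hd3
    · intro a ha hJ
      have h := bound_vert C (F := k) V.P V.n hn1 (fun _ => 1)
        (fun _ => one_ne_zero) V.w 1 hdet ∅ Φ hz hx a ha hJ
      rw [Finset.card_empty] at h
      have h3 : V.disc = V.n * kap V.P + ∑ i, V.w i := rfl
      rw [h3]
      simpa using h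
    · intro i
      have e1 : Φ (C.x i ^ V.n * C.ι (zP V.P) ^ (-V.w i)) = TL k m i ^ V.n := by
        rw [map_mul, map_pow]
        have e3 : Φ (C.ι (zP V.P) ^ (-V.w i)) = (Φ (C.ι (zP V.P))) ^ (-V.w i) := map_zpow₀ Φ _ _
        rw [e3, hx', hzP]
        exact fld1 (ss k m) (TL k m i) hs0 (V.w i) V.n
      rw [e1]
      have e4 : TL k m i ^ V.n = HahnSeries.C (TT k m i ^ V.n) :=
        (map_pow (HahnSeries.C : EE k m →+* LL k m) (TT k m i) V.n).symm
      have e6 : V.n • (toLex (Pi.single i (1 : ℤ)) : Lex (Fin m → ℤ)) =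
          toLex (Pi.single i (V.n : ℤ)) := by
        apply ofLex.injective
        ext j
        show V.n • (Pi.single i (1 : ℤ) : Fin m → ℤ) j = (Pi.single i (V.n : ℤ) : Fin m → ℤ) j
        rcases eq_or_ne j i with rfl | hj
        · simp
        · simp [hj]
      rw [e4, TT, HahnSeries.single_pow, one_pow, e6]
    · exact ι_ne C (zP_ne _)

end MONO
end

end Pool.Agent.MLD
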