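import Pool.Agent.Lib.MP_f23696_ag.Ctx

/-!
Module HART: algebraic Hartogs lemma for a Noetherian normal domain `A ⊆ K = Frac A`.
-/

namespace Pool.Agent.MLD

open scoped Classical
noncomputable section

universe u v w

section HART
variable {k : Type u} [Field k] {K : Type v} [Field K] [Algebra k K]

namespace Hart

/-- `f` lies in the local ring `A_p`. -/
def In (A : Subalgebra k K) (p : Ideal A) (f : K) : Prop := ∃ s : A, s ∉ p ∧ (s : K) * f ∈ A

theorem In.mul {A : Subalgebra k K} {p : Ideal A} (hp : p.IsPrime) {f g : K} (hf : In A p f)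
    (hg : In A p g) : In A p (f * g) := by
  obtain ⟨s, hs, h1⟩ := hf
  obtain ⟨t, ht, h2⟩ := hg
  refine ⟨s * t, fun h => (hp.mem_or_mem h).elim hs ht, ?_⟩
  have : ((s * t : A) : K) * (f * g) = (s * f) * (t * g) := by
    push_cast
    ring
  rw [this]
  exact A.mul_mem h1 h2

theorem In.add {A : Subalgebra k K} {p : Ideal A} (hp : p.IsPrime) {f g : K} (hf : In A p f)
    (hg : In A p g) : In A p (f + g) := by
  obtain ⟨s, hs, h1⟩ := hf
  obtain ⟨t, ht, h2⟩ := hg
  refine ⟨s * t, fun h => (hp.mem_or_mem h).elim hs ht, ?_⟩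
  have : ((s * t : A) : K) * (f + g) = t * (s * f) + s * (t * g) := by
    push_cast
    ring
  rw [this]
  exact A.add_mem (A.mul_mem t.2 h1) (A.mul_mem s.2 h2)

theorem In.coe {A : Subalgebra k K} {p : Ideal A} (hp : p.IsPrime) (a : A) : In A p (a : K) :=
  ⟨1, fun h => hp.ne_top ((Ideal.eq_top_iff_one _).2 h), by simp⟩

/-- the denominator ideal of `x` in `A_p`, contracted to `A` -/
def den (A : Subalgebra k K) (p : Ideal A) (hp : p.IsPrime) (x : K) : Ideal A where
  carrier := {s | In A p ((s : K) * x)}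
  add_mem' := by
    intro a b ha hb
    have := In.add hp ha hb
    rw [← add_mul] at this
    exact this
  zero_mem' := by
    have := In.coe (A := A) hp 0
    simpa using this
  smul_mem' := by
    intro c a ha
    have := In.mul hp (In.coe hp c) ha
    rw [← mul_assoc] at this
    exact this

theorem mem_den {A : Subalgebra k K} {p : Ideal A} {hp : p.IsPrime} {x : K} {s : A} :
    s ∈ den A p hp x ↔ In A p ((s : K) * x) := Iff.rfl

theorem den_eq_top {A : Subalgebra k K} {p : Ideal A} {hp : p.IsPrime} {x : K} :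
    den A p hp x = ⊤ ↔ In A p x := by
  rw [Ideal.eq_top_iff_one, mem_den]
  simp

theorem den_le {A : Subalgebra k K} {p : Ideal A} {hp : p.IsPrime} {x : K}
    (h : ¬ In A p x) : den A p hp x ≤ p := by
  intro s hs
  by_contra hsp
  obtain ⟨t, ht, h1⟩ := hs
  exact h ⟨t * s, fun h => (hp.mem_or_mem h).elim ht hsp, by
    push_cast
    rw [mul_assoc]
    exact h1⟩

end Hart

open Hart

theorem hartogs (A : Subalgebra k K) (hN : IsNoetherianRing A)
    (hfrac : ∀ f : K, ∃ a b : A, (b : K) ≠ 0 ∧ f = (a : K) / b)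
    (hnorm : ∀ f : K, IsIntegral A f → f ∈ A) (p : Ideal A) (hp : p.IsPrime) (f : K) (hf : f ≠ 0)
    (h : ∀ q : Ideal A, IsHeightOne q → q ≤ p → ∃ s : A, s ∉ q ∧ (s : K) * f ∈ A) :
    ∃ s : A, s ∉ p ∧ (s : K) * f ∈ A := by
  by_contra hcon
  have hcon' : ¬ In A p f := hcon
  -- a maximal denominator ideal
  let F : Set (Ideal A) := {I | ∃ r : A, I = den A p hp ((r : K) * f) ∧ ¬ In A p ((r : K) * f)}
  have hF : F.Nonempty := ⟨den A p hp f, 1, by simp, by simpa using hcon'⟩
  obtain ⟨Q, ⟨r, hQ, hr⟩, hmax⟩ : ∃ Q : Ideal A, Q ∈ F ∧ ∀ I ∈ F, ¬ Q < I :=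
    set_has_maximal_iff_noetherian.2 hN F hF
  set x : K := (r : K) * f with hx
  have hQp : Q ≤ p := hQ ▸ den_le hr
  have hQprime : Q.IsPrime := by
    refine ⟨fun h => hr (den_eq_top.1 (hQ ▸ h)), ?_⟩
    intro a b hab
    by_contra hne
    push Not at hne
    obtain ⟨ha, hb⟩ := hne
    have ha' : ¬ In A p ((a : K) * x) := fun h => ha (by rw [hQ]; exact h)
    have hmem : den A p hp (((r * a : A) : K) * f) ∈ F := by
      refine ⟨r * a, rfl, ?_⟩
      have : ((r * a : A) : K) * f = (a : K) * x := by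
        push_cast
        rw [hx]
        ring
      rw [this]
      exact ha'
    have hle : Q ≤ den A p hp (((r * a : A) : K) * f) := by
      intro s hs
      rw [hQ, mem_den] at hs
      rw [mem_den]
      have h1 := In.mul hp (In.coe hp a) hs
      have h2 : (s : K) * (((r * a : A) : K) * f) = (a : K) * ((s : K) * x) := by
        push_cast
        rw [hx]
        ring
      rw [h2]
      exact h1
    have hb' : b ∈ den A p hp (((r * a : A) : K) * f) := by
      rw [mem_den]
      have h1 : In A p (((a * b : A) : K) * x) := by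
        rw [hQ] at hab
        exact hab
      have h2 : (b : K) * (((r * a : A) : K) * f) = ((a * b : A) : K) * x := by
        push_cast
        rw [hx]
        ring
      rw [h2]
      exact h1
    have := hmax _ hmem
    exact this (lt_of_le_of_ne hle fun h => hb (h ▸ hb'))
  have hQbot : Q ≠ ⊥ := by
    obtain ⟨a, b, hb, hab⟩ := hfrac x
    have : b ∈ Q := by
      rw [hQ, mem_den, hab, mul_div_cancel₀ _ hb]
      exact In.coe hp a
    intro h0
    rw [h0, Ideal.mem_bot] at this
    exact hb (by rw [this]; rfl)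
  -- case distinction
  by_cases hc : ∀ s ∈ Q, ∃ t : A, t ∉ Q ∧ ∃ y ∈ Q, (t : K) * ((s : K) * x) = (y : K)
  · -- x is integral
    obtain ⟨S, hS⟩ := (isNoetherian_def.1 hN) Q
    have hSQ : ∀ s ∈ S, s ∈ Q := fun s hs => by
      rw [← hS]
      exact Submodule.subset_span hs
    choose! t ht y hy hty using fun s (hs : s ∈ Q) => hc s hs
    let T : A := ∏ s ∈ S, t s
    have hT : T ∉ Q := by
      intro hTQ
      obtain ⟨s, hs, h1⟩ := (Ideal.IsPrime.prod_mem_iff (hp := hQprime)).1 hTQ
      exact ht s (hSQ s hs) h1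
    have key : ∀ s ∈ Q, ∃ y ∈ Q, ((T : K) * x) * (s : K) = (y : K) := by
      intro s hs
      rw [← hS] at hs
      refine Submodule.span_induction
        (p := fun (s : A) _ => ∃ y ∈ Q, ((T : K) * x) * (s : K) = (y : K))
        ?_ ?_ ?_ ?_ hs
      · intro s hs
        have hsS : s ∈ S := hs
        refine ⟨(∏ s' ∈ S.erase s, t s') * y s, Ideal.mul_mem_left _ _ (hy s (hSQ s hsS)), ?_⟩
        have h1 : T = (∏ s' ∈ S.erase s, t s') * t s := (Finset.prod_erase_mul S t hsS).symm
        rw [h1]
        push_cast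
        rw [← hty s (hSQ s hsS)]
        ring
      · exact ⟨0, Q.zero_mem, by simp⟩
      · rintro a b _ _ ⟨y1, h1, h2⟩ ⟨y2, h3, h4⟩
        refine ⟨y1 + y2, Q.add_mem h1 h3, ?_⟩
        push_cast
        rw [mul_add, h2, h4]
      · rintro a b _ ⟨y1, h1, h2⟩
        refine ⟨a * y1, Q.mul_mem_left _ h1, ?_⟩
        rw [smul_eq_mul]
        push_cast
        rw [← h2]
        ring
    have hint : IsIntegral A ((T : K) * x) := by
      let N : Submodule A K := Submodule.map (Algebra.linearMap A K) Q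
      refine isIntegral_of_smul_mem_submodule (R := A) (A := K) (M := K) N ?_ ?_ _ ?_
      · intro hN0
        apply hQbot
        rw [eq_bot_iff]
        intro z hz
        have h1 : (Algebra.linearMap A K) z ∈ N := ⟨z, hz, rfl⟩
        rw [hN0, Submodule.mem_bot, Algebra.linearMap_apply] at h1
        rw [Ideal.mem_bot]
        exact Subtype.ext h1
      · exact Submodule.FG.map _ ((isNoetherian_def.1 hN) Q)
      · rintro _ ⟨s, hs, rfl⟩
        obtain ⟨y', h1, h2⟩ := key s hs
        refine ⟨y', h1, ?_⟩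
        rw [Algebra.linearMap_apply, Algebra.linearMap_apply, smul_eq_mul]
        exact h2.symm
    have hTx := hnorm _ hint
    exact hT (by
      rw [hQ, mem_den]
      exact In.coe hp ⟨_, hTx⟩)
  · push Not at hc
    obtain ⟨s0, hs0, hc⟩ := hc
    have h1 : In A p ((s0 : K) * x) := by
      rw [hQ] at hs0
      exact hs0
    obtain ⟨t0, ht0, h2⟩ := h1
    let a0 : A := ⟨_, h2⟩
    have ha0 : a0 ∉ Q := fun hh => hc t0 (fun h => ht0 (hQp h)) a0 hh rfl
    let π : A := t0 * s0
    have hπQ : π ∈ Q := Q.mul_mem_left _ hs0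
    have hπx : (π : K) * x = (a0 : K) := by
      change ((t0 * s0 : A) : K) * x = (t0 : K) * ((s0 : K) * x)
      push_cast
      ring
    have hmain : ∀ s ∈ Q, ∃ t : A, t ∉ Q ∧ t * s ∈ Ideal.span {π} := by
      intro s hs
      have h3 : In A p ((s : K) * x) := by
        rw [hQ] at hs
        exact hs
      obtain ⟨t, ht, h4⟩ := h3
      refine ⟨t * a0, fun h => (hQprime.mem_or_mem h).elim (fun h => ht (hQp h)) ha0, ?_⟩
      rw [Ideal.mem_span_singleton]
      refine ⟨⟨_, h4⟩, ?_⟩
      apply Subtype.ext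
      push_cast
      rw [← hπx]
      ring
    have hmin : Q ∈ (Ideal.span {π}).minimalPrimes := by
      refine ⟨⟨hQprime, ?_⟩, ?_⟩
      · rw [Ideal.span_singleton_le_iff_mem]
        exact hπQ
      · rintro q ⟨hq, hπq⟩ hqQ s hs
        obtain ⟨t, ht, h3⟩ := hmain s hs
        exact (hq.mem_or_mem (hπq h3)).resolve_left fun h => ht (hqQ h)
    have hht : Q.height ≤ 1 :=
      Ideal.height_le_one_of_isPrincipal_of_mem_minimalPrimes (Ideal.span {π}) Q hmin
    have hone : IsHeightOne Q := by
      refine ⟨hQprime, hQbot, ?_⟩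
      intro q hq hqbot hqQ
      by_contra hne
      have hlt : q < Q := lt_of_le_of_ne hqQ hne
      have hlt0 : (⊥ : Ideal A) < q := bot_lt_iff_ne_bot.2 hqbot
      have := hq
      have := hQprime
      have : (⊥ : Ideal A).IsPrime := Ideal.isPrime_bot
      have e1 := Ideal.height_add_one_le_of_lt_of_isPrime hlt0
      have e2 := Ideal.height_add_one_le_of_lt_of_isPrime hlt
      have e3 : (2 : ℕ∞) ≤ Q.height := by
        calc (2 : ℕ∞) = 0 + 1 + 1 := by norm_num
          _ ≤ (⊥ : Ideal A).height + 1 + 1 := by gcongr; exact bot_le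
          _ ≤ q.height + 1 := by gcongr
          _ ≤ Q.height := e2
      have e4 := e3.trans hht
      exact absurd e4 (by norm_num)
    obtain ⟨s, hs, h3⟩ := h Q hone hQp
    apply hs
    rw [hQ, mem_den]
    have h4 : (s : K) * x = (r : K) * ((s : K) * f) := by
      rw [hx]
      ring
    rw [h4]
    exact In.mul hp (In.coe hp r) (In.coe hp ⟨_, h3⟩)

/-- finitely many height one primes contain a nonzero element -/
theorem finite_heightOne (A : Subalgebra k K) (hN : IsNoetherianRing A) (a : A) (ha : a ≠ 0) :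
    {q : Ideal A | IsHeightOne q ∧ a ∈ q}.Finite := by
  refine (Ideal.finite_minimalPrimes_of_isNoetherianRing A (Ideal.span {a})).subset ?_
  rintro q ⟨⟨hq, hq0, hmin⟩, haq⟩
  refine ⟨⟨hq, ?_⟩, ?_⟩
  · rw [Ideal.span_singleton_le_iff_mem]
    exact haq
  · rintro q' ⟨hq', haq'⟩ hle
    have : q' ≠ ⊥ := by
      intro h0
      apply ha
      rw [← Ideal.mem_bot, ← h0]
      exact haq' (Ideal.mem_span_singleton_self a)
    rw [hmin q' hq' this hle]

end HART

end

end Pool.Agent.MLD
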