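import Pool.Agent.Lib.MP_f23696_ag.Ctx

/-!
Project LSC (MP_f23696_ag), module PHI1: valuations from embeddings into Laurent series fields,
existence of the order of the form from a lower bound of the Jacobians.
-/

namespace Pool.Agent.MLD

open scoped Classical
noncomputable section

universe u v w

namespace PHI1

variable {k : Type u} [Field k] {K : Type w} [Field K] [Algebra k K] {m : ℕ}

theorem ord_one (v : DVal k K) : v.ord 1 = 0 := by
  have := v.ord_algebraMap 1 one_ne_zero
  rwa [map_one] at this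

theorem ord_inv (v : DVal k K) (a : K) (ha : a ≠ 0) : v.ord a⁻¹ = -v.ord a := by
  have h := v.ord_mul a a⁻¹ ha (inv_ne_zero ha)
  rw [mul_inv_cancel₀ ha, ord_one] at h
  omega

theorem algebraMap_laurent {L : Type v} [Field L] [Algebra k L] (c : k) :
    (algebraMap k (LaurentSeries L)) c = HahnSeries.C (algebraMap k L c) := by
  rw [HahnSeries.algebraMap_apply', PowerSeries.algebraMap_apply, HahnSeries.ofPowerSeries_C]

/-- the transcendence basis `z, x_1, …, x_m`. -/
def yy (C : Ctx k K m) : Fin (m + 1) → K := Fin.cons (C.ι RatFunc.X) C.x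

theorem yy_ne (C : Ctx k K m) (j : Fin (m + 1)) : yy C j ≠ 0 := by
  refine Fin.cases ?_ (fun i => ?_) j
  · simp only [yy, Fin.cons_zero]
    rw [Ne, map_eq_zero]
    exact RatFunc.X_ne_zero
  · simp only [yy, Fin.cons_succ]
    exact C.x_ne i

theorem der_yy (C : Ctx k K m) (i j : Fin (m + 1)) :
    C.der i (yy C j) = if i = j then 1 else 0 := by
  refine Fin.cases ?_ (fun i' => ?_) i <;> refine Fin.cases ?_ (fun j' => ?_) j
  · simp only [yy, Fin.cons_zero, if_true]
    exact C.der0_X
  · simp only [yy, Fin.cons_succ]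
    rw [C.der0_x, if_neg (Fin.succ_ne_zero j').symm]
  · simp only [yy, Fin.cons_zero]
    rw [C.derS_X, if_neg (Fin.succ_ne_zero i')]
  · simp only [yy, Fin.cons_succ]
    rw [C.derS_x]
    by_cases h : j' = i'
    · rw [if_pos h, if_pos (by rw [h])]
    · rw [if_neg h, if_neg (fun h' => h (Fin.succ_injective _ h').symm)]

theorem exists_integral_frame (C : Ctx k K m) (v : DVal k K) :
    ∃ a : Fin (m + 1) → K, (∀ i, v.Integral (a i)) ∧ jac C.der a ≠ 0 := by
  have key : ∀ j : Fin (m + 1), ∃ b : K, v.Integral b ∧ ∃ e : K, e ≠ 0 ∧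
      ∀ i, C.der i b = if i = j then e else 0 := by
    intro j
    by_cases hj : v.Integral (yy C j)
    · exact ⟨yy C j, hj, 1, one_ne_zero, fun i => der_yy C i j⟩
    · refine ⟨(yy C j)⁻¹, ?_, -(yy C j)⁻¹ ^ 2, ?_, ?_⟩
      · intro _
        rw [ord_inv v _ (yy_ne C j)]
        by_contra h
        apply hj
        intro _
        omega
      · exact neg_ne_zero.2 (pow_ne_zero _ (inv_ne_zero (yy_ne C j)))
      · intro i
        rw [Derivation.leibniz_inv, der_yy C i j]
        by_cases h : i = j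
        · rw [if_pos h, if_pos h, smul_eq_mul, mul_one]
        · rw [if_neg h, if_neg h, smul_zero]
  choose b hb e he hd using key
  refine ⟨b, hb, ?_⟩
  have : (Matrix.of fun i j => C.der i (b j)) = Matrix.diagonal e := by
    ext i j
    rw [Matrix.of_apply, hd j i, Matrix.diagonal_apply]
    by_cases h : i = j
    · rw [if_pos h, if_pos h, h]
    · rw [if_neg h, if_neg h]
  unfold jac
  rw [this, Matrix.det_diagonal]
  exact Finset.prod_ne_zero_iff.2 fun i _ => he i

end PHI1

section PHI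

variable {F : Type v} [Field F] {m : ℕ} {k : Type u} [Field k] [CharZero k] [Algebra k F]
  {K : Type w} [Field K] [Algebra k K] (C : Ctx k K m)

/-- a discrete valuation from an embedding into a Laurent series field -/
theorem exists_dval {L : Type v} [Field L] [Algebra k L] (Φ : K →ₐ[k] LaurentSeries L)
    (h : ∃ a : K, a ≠ 0 ∧ (Φ a).order = 1) :
    ∃ v : DVal k K, ∀ a, a ≠ 0 → v.ord a = (Φ a).order := by
  have hne : ∀ a : K, a ≠ 0 → Φ a ≠ 0 := fun a ha => by
    rw [Ne, map_eq_zero]; exact ha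
  refine ⟨⟨fun a => (Φ a).order, ?_, ?_, ?_, h⟩, fun a _ => rfl⟩
  · intro a b ha hb
    rw [map_mul]
    exact HahnSeries.order_mul (hne a ha) (hne b hb)
  · intro a b _ _ hab
    rw [map_add]
    exact HahnSeries.min_order_le_order_add (by rw [← map_add]; exact hne _ hab)
  · intro c hc
    rw [AlgHom.commutes]
    rw [PHI1.algebraMap_laurent, HahnSeries.order_C]

/-- existence of the order of the form from a lower bound of the Jacobians -/
theorem formOrd_exists (v : DVal k K) (N : ℤ)
    (h : ∀ a : Fin (m + 1) → K, (∀ i, v.Integral (a i)) → jac C.der a ≠ 0 →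
      N ≤ v.ord (jac C.der a)) :
    ∃ j : ℤ, v.FormOrd C.der j ∧ j ≤ -N := by
  obtain ⟨a₀, ha₀, hj₀⟩ := PHI1.exists_integral_frame C v
  obtain ⟨lb, ⟨a, ha, hj, hlb⟩, hmin⟩ := Int.exists_least_of_bdd
    (P := fun z => ∃ a : Fin (m + 1) → K, (∀ i, v.Integral (a i)) ∧ jac C.der a ≠ 0 ∧
      v.ord (jac C.der a) = z)
    ⟨N, fun z ⟨a, ha, hj, hz⟩ => hz ▸ h a ha hj⟩ ⟨_, a₀, ha₀, hj₀, rfl⟩
  refine ⟨-lb, ⟨?_, a, ha, hj, by rw [hlb, neg_neg]⟩, ?_⟩
  · intro b hb hjb
    rw [neg_neg]
    exact hmin _ ⟨b, hb, hjb, rfl⟩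
  · have := h a ha hj
    omega

end PHI

end

end Pool.Agent.MLD
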