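import Pool.Agent.Lib.MP_f23696_ag.Ctx

/-!
Extension of characters (module CHX of the project LSC).
-/

namespace Pool.Agent.MLD

open scoped Classical
noncomputable section

universe u v

namespace CHX

variable {F : Type v} [Field F] {m : ℕ}

/-- The subgroup of differences of a submonoid. -/
def Gp (Γ : AddSubmonoid (Fin m → ℤ)) : AddSubgroup (Fin m → ℤ) where
  carrier := {x | ∃ u ∈ Γ, ∃ t ∈ Γ, x = u - t}
  zero_mem' := ⟨0, Γ.zero_mem, 0, Γ.zero_mem, by simp⟩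
  add_mem' := by
    rintro x y ⟨u, hu, t, ht, rfl⟩ ⟨u', hu', t', ht', rfl⟩
    exact ⟨u + u', Γ.add_mem hu hu', t + t', Γ.add_mem ht ht', by abel⟩
  neg_mem' := by
    rintro x ⟨u, hu, t, ht, rfl⟩
    exact ⟨t, ht, u, hu, by abel⟩

variable (Γ : AddSubmonoid (Fin m → ℤ)) (ψ : (Fin m → ℤ) → F)
  (h0 : ∀ u ∈ Γ, ψ u ≠ 0) (hm : ∀ u ∈ Γ, ∀ t ∈ Γ, ψ (u + t) = ψ u * ψ t)

include h0 hm in
theorem wd {u t u' t' : Fin m → ℤ} (hu : u ∈ Γ) (ht : t ∈ Γ) (hu' : u' ∈ Γ) (ht' : t' ∈ Γ)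
    (h : u - t = u' - t') : ψ u / ψ t = ψ u' / ψ t' := by
  have h1 : u + t' = u' + t := by
    have := congrArg (fun x => x + t + t') h
    calc u + t' = u - t + t + t' := by abel
      _ = u' - t' + t + t' := this
      _ = u' + t := by abel
  rw [div_eq_div_iff (h0 t ht) (h0 t' ht'), ← hm u hu t' ht', h1, hm u' hu' t ht]

/-- the extension to the group of differences -/
def fn (x : Gp Γ) : F := ψ x.2.choose / ψ x.2.choose_spec.2.choose

include h0 hm in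
theorem fn_eq (x : Gp Γ) {u t : Fin m → ℤ} (hu : u ∈ Γ) (ht : t ∈ Γ) (h : (x : Fin m → ℤ) = u - t) :
    fn Γ ψ x = ψ u / ψ t := by
  have h1 := x.2.choose_spec
  have h2 := h1.2.choose_spec
  unfold fn
  exact wd Γ ψ h0 hm h1.1 h2.1 hu ht (h2.2.symm.trans h)

include h0 hm in
theorem fn_ne (x : Gp Γ) : fn Γ ψ x ≠ 0 := by
  obtain ⟨u, hu, t, ht, h⟩ := x.2
  rw [fn_eq Γ ψ h0 hm x hu ht h]
  exact div_ne_zero (h0 u hu) (h0 t ht)

include h0 hm in
theorem fn_add (x y : Gp Γ) : fn Γ ψ (x + y) = fn Γ ψ x * fn Γ ψ y := by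
  obtain ⟨u, hu, t, ht, h⟩ := x.2
  obtain ⟨u', hu', t', ht', h'⟩ := y.2
  rw [fn_eq Γ ψ h0 hm x hu ht h, fn_eq Γ ψ h0 hm y hu' ht' h',
    fn_eq Γ ψ h0 hm (x + y) (Γ.add_mem hu hu') (Γ.add_mem ht ht')
      (by rw [AddSubgroup.coe_add, h, h']; abel), hm u hu u' hu', hm t ht t' ht',
    mul_div_mul_comm]

/-- the homomorphism into the additive version of the units -/
def hom : Gp Γ →+ Additive Fˣ where
  toFun x := Additive.ofMul (Units.mk0 (fn Γ ψ x) (fn_ne Γ ψ h0 hm x))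
  map_zero' := by
    have h1 := fn_add Γ ψ h0 hm 0 0
    rw [add_zero] at h1
    have h2 := fn_ne Γ ψ h0 hm 0
    have h3 : fn Γ ψ 0 = 1 := by
      have : fn Γ ψ 0 * 1 = fn Γ ψ 0 * fn Γ ψ 0 := by rw [mul_one]; exact h1
      exact (mul_left_cancel₀ h2 this).symm
    rw [← ofMul_one]
    congr 1
    ext
    simpa using h3
  map_add' x y := by
    rw [← ofMul_mul]
    congr 1
    ext
    simpa using fn_add Γ ψ h0 hm x y

end CHX

open CHX in
theorem chext {F : Type v} [Field F] [IsAlgClosed F] {m : ℕ} (Γ : AddSubmonoid (Fin m → ℤ))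
    (ψ : (Fin m → ℤ) → F) (h0 : ∀ u ∈ Γ, ψ u ≠ 0)
    (hm : ∀ u ∈ Γ, ∀ t ∈ Γ, ψ (u + t) = ψ u * ψ t) :
    ∃ c : Fin m → F, (∀ i, c i ≠ 0) ∧ ∀ u ∈ Γ, ∏ i, c i ^ u i = ψ u := by
  -- divisibility
  have hsurj : ∀ {n : ℕ}, n ≠ 0 → Function.Surjective (fun a : Additive Fˣ => n • a) := by
    intro n hn x
    obtain ⟨z, hz⟩ := IsAlgClosed.exists_pow_nat_eq (k := F) (x.toMul : F)
      (Nat.pos_of_ne_zero hn)
    have hz0 : z ≠ 0 := by
      intro h
      rw [h, zero_pow hn] at hz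
      exact x.toMul.ne_zero hz.symm
    refine ⟨Additive.ofMul (Units.mk0 z hz0), ?_⟩
    apply Additive.toMul.injective
    ext
    simpa using hz
  let _ : DivisibleBy (Additive Fˣ) ℕ := divisibleByOfSMulRightSurj _ _ hsurj
  let _ : DivisibleBy (Additive Fˣ) ℤ := AddGroup.divisibleByIntOfDivisibleByNat _
  have hb : Module.Baer ℤ (Additive Fˣ) := Module.Baer.of_divisible _
  obtain ⟨H, hH⟩ := hb.extension_property_addMonoidHom (Gp Γ).subtype
    Subtype.val_injective (hom Γ ψ h0 hm)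
  refine ⟨fun i => ((H (Pi.single i 1)).toMul : F), fun i => Units.ne_zero _, fun u hu => ?_⟩
  have h1 : H u = ∑ i, (u i) • H (Pi.single i 1) := by
    conv_lhs => rw [← Finset.univ_sum_single u]
    rw [map_sum]
    refine Finset.sum_congr rfl fun i _ => ?_
    rw [← map_zsmul, ← Pi.single_smul, smul_eq_mul, mul_one]
  have hmem : u ∈ Gp Γ := ⟨u, hu, 0, Γ.zero_mem, by simp⟩
  have h2 : H u = hom Γ ψ h0 hm ⟨u, hmem⟩ := by
    rw [← hH]; rfl
  have h3 : ((H u).toMul : F) = ψ u := by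
    rw [h2]
    show fn Γ ψ ⟨u, hmem⟩ = ψ u
    rw [fn_eq Γ ψ h0 hm ⟨u, hmem⟩ hu Γ.zero_mem (by simp)]
    have h4 : ψ 0 = 1 := by
      have h5 := hm 0 Γ.zero_mem 0 Γ.zero_mem
      rw [add_zero] at h5
      have : ψ 0 * 1 = ψ 0 * ψ 0 := by rw [mul_one]; exact h5
      exact (mul_left_cancel₀ (h0 0 Γ.zero_mem) this).symm
    rw [h4, div_one]
  rw [← h3, h1]
  simp

end

end Pool.Agent.MLD
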