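import Pool.Agent.Lib.MP_f23696_ag.Ctx

/-!
Leading terms of Laurent series (used in LeV and LeH).
-/

set_option linter.unusedSectionVars false
set_option linter.style.haveILetI false

namespace Pool.Agent.MLD

open scoped Classical
noncomputable section

universe u v w

namespace Ser

section Series
variable {E : Type v} [Field E]

/-- `a` is integral and `a ≡ e` modulo the maximal ideal -/
def R (a : LaurentSeries E) (e : E) : Prop := (∀ r < 0, a.coeff r = 0) ∧ a.coeff 0 = e

theorem R.add {a b : LaurentSeries E} {e f : E} (ha : R a e) (hb : R b f) : R (a + b) (e + f) := by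
  refine ⟨fun r hr => ?_, ?_⟩
  · rw [HahnSeries.coeff_add, ha.1 r hr, hb.1 r hr, add_zero]
  · rw [HahnSeries.coeff_add, ha.2, hb.2]

theorem R.zero : R (0 : LaurentSeries E) 0 := ⟨fun _ _ => rfl, rfl⟩

theorem R.C (e : E) : R (HahnSeries.C e : LaurentSeries E) e := by
  refine ⟨fun r hr => ?_, ?_⟩
  · rw [HahnSeries.C_apply, HahnSeries.coeff_single_of_ne hr.ne]
  · rw [HahnSeries.C_apply, HahnSeries.coeff_single_same]

theorem R.one : R (1 : LaurentSeries E) 1 := by
  have := R.C (1 : E)
  rwa [map_one] at this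

theorem R.mul {a b : LaurentSeries E} {e f : E} (ha : R a e) (hb : R b f) : R (a * b) (e * f) := by
  have key : ∀ r : ℤ, r ≤ 0 → (a * b).coeff r = if r = 0 then e * f else 0 := by
    intro r hr
    rw [HahnSeries.coeff_mul]
    have h1 : ∀ ij ∈ Finset.antidiagonal a.isPWO_support b.isPWO_support r,
        0 ≤ ij.1 ∧ 0 ≤ ij.2 ∧ ij.1 + ij.2 = r := by
      intro ij hij
      rw [Finset.mem_antidiagonal] at hij
      refine ⟨?_, ?_, hij.2.2⟩
      · by_contra h
        exact hij.1 (ha.1 _ (not_le.1 h))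
      · by_contra h
        exact hij.2.1 (hb.1 _ (not_le.1 h))
    split_ifs with h0
    · rw [Finset.sum_eq_single (0, 0)]
      · rw [ha.2, hb.2]
      · intro ij hij hne
        obtain ⟨h2, h3, h4⟩ := h1 ij hij
        exact absurd (Prod.ext (by simp only; omega) (by simp only; omega)) hne
      · intro hn
        rw [Finset.mem_antidiagonal] at hn
        simp only [HahnSeries.mem_support, h0, add_zero, and_true, not_and, not_not] at hn
        by_cases h : a.coeff 0 = 0
        · rw [h, zero_mul]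
        · rw [hn h, mul_zero]
    · refine Finset.sum_eq_zero fun ij hij => ?_
      obtain ⟨h2, h3, h4⟩ := h1 ij hij
      omega
  refine ⟨fun r hr => ?_, ?_⟩
  · rw [key r hr.le, if_neg hr.ne]
  · rw [key 0 le_rfl, if_pos rfl]

theorem R.neg {a : LaurentSeries E} {e : E} (ha : R a e) : R (-a) (-e) := by
  refine ⟨fun r hr => ?_, ?_⟩
  · rw [HahnSeries.coeff_neg, ha.1 r hr, neg_zero]
  · rw [HahnSeries.coeff_neg, ha.2]

theorem R.sub {a b : LaurentSeries E} {e f : E} (ha : R a e) (hb : R b f) : R (a - b) (e - f) := by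
  rw [sub_eq_add_neg, sub_eq_add_neg]
  exact ha.add hb.neg

theorem R.of_order {a : LaurentSeries E} (h : 0 ≤ a.order) : R a (a.coeff 0) :=
  ⟨fun _ hr => HahnSeries.coeff_eq_zero_of_lt_order (lt_of_lt_of_le hr h), rfl⟩

theorem R.of_order_pos {a : LaurentSeries E} (h : 0 < a.order) : R a 0 :=
  ⟨fun _ hr => HahnSeries.coeff_eq_zero_of_lt_order (hr.trans h),
    HahnSeries.coeff_eq_zero_of_lt_order h⟩

theorem R.order_nonneg {a : LaurentSeries E} {e : E} (ha : R a e) : 0 ≤ a.order := by
  by_cases h0 : a = 0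
  · rw [h0, HahnSeries.order_zero]
  · by_contra h
    exact HahnSeries.coeff_order_eq_zero.not.2 h0 (ha.1 _ (not_le.1 h))

theorem R.ne_zero {a : LaurentSeries E} {e : E} (ha : R a e) (he : e ≠ 0) : a ≠ 0 := by
  rintro rfl
  exact he (ha.2.symm.trans rfl)

theorem R.order_eq {a : LaurentSeries E} {e : E} (ha : R a e) (he : e ≠ 0) : a.order = 0 := by
  refine le_antisymm (HahnSeries.order_le_of_coeff_ne_zero ?_) ha.order_nonneg
  rw [ha.2]; exact he

theorem R.order_pos {a : LaurentSeries E} (ha : R a 0) (h0 : a ≠ 0) : 0 < a.order := by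
  refine lt_of_le_of_ne ha.order_nonneg fun h => ?_
  have := (HahnSeries.coeff_order_eq_zero.not.2 h0)
  rw [← h] at this
  exact this ha.2

theorem R.unique {a : LaurentSeries E} {e f : E} (ha : R a e) (hb : R a f) : e = f :=
  ha.2.symm.trans hb.2

theorem R.inv {a : LaurentSeries E} {e : E} (ha : R a e) (he : e ≠ 0) : R a⁻¹ e⁻¹ := by
  have h0 := ha.ne_zero he
  have h1 : a⁻¹.order = 0 := by
    have h2 := HahnSeries.order_mul h0 (inv_ne_zero h0)
    rw [mul_inv_cancel₀ h0, HahnSeries.order_one, ha.order_eq he] at h2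
    omega
  have h3 := R.of_order h1.ge
  have h4 := (ha.mul h3).unique (by rw [mul_inv_cancel₀ h0]; exact R.one)
  rwa [eq_inv_of_mul_eq_one_right h4] at h3

theorem R.pow {a : LaurentSeries E} {e : E} (ha : R a e) (n : ℕ) : R (a ^ n) (e ^ n) := by
  induction n with
  | zero => rw [pow_zero, pow_zero]; exact R.one
  | succ n ih => rw [pow_succ, pow_succ]; exact ih.mul ha

theorem R.zpow {a : LaurentSeries E} {e : E} (ha : R a e) (he : e ≠ 0) (n : ℤ) :
    R (a ^ n) (e ^ n) := by
  cases n with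
  | ofNat n => simpa using ha.pow n
  | negSucc n =>
    rw [zpow_negSucc, zpow_negSucc]
    exact (ha.pow _).inv (pow_ne_zero _ he)

theorem R.prod {ι : Type w} (s : Finset ι) {a : ι → LaurentSeries E} {e : ι → E}
    (h : ∀ i ∈ s, R (a i) (e i)) : R (∏ i ∈ s, a i) (∏ i ∈ s, e i) := by
  induction s using Finset.induction_on with
  | empty => rw [Finset.prod_empty, Finset.prod_empty]; exact R.one
  | insert i s hi ih =>
    rw [Finset.prod_insert hi, Finset.prod_insert hi]
    exact (h i (Finset.mem_insert_self i s)).mul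
      (ih fun j hj => h j (Finset.mem_insert_of_mem hj))

theorem R.sum {ι : Type w} (s : Finset ι) {a : ι → LaurentSeries E} {e : ι → E}
    (h : ∀ i ∈ s, R (a i) (e i)) : R (∑ i ∈ s, a i) (∑ i ∈ s, e i) := by
  induction s using Finset.induction_on with
  | empty => rw [Finset.sum_empty, Finset.sum_empty]; exact R.zero
  | insert i s hi ih =>
    rw [Finset.sum_insert hi, Finset.sum_insert hi]
    exact (h i (Finset.mem_insert_self i s)).add
      (ih fun j hj => h j (Finset.mem_insert_of_mem hj))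

/-- the variable -/
abbrev s (E : Type v) [Field E] : LaurentSeries E := HahnSeries.single (1 : ℤ) 1

theorem s_ne : s E ≠ 0 := by
  simp [s]

theorem order_s_zpow (n : ℤ) : (s E ^ n).order = n := by
  have h1 : (s E).order = 1 := HahnSeries.order_single one_ne_zero
  have hp : ∀ n : ℕ, (s E ^ n).order = n := by
    intro n
    rw [HahnSeries.order_pow, h1]
    simp
  cases n with
  | ofNat n => simpa using hp n
  | negSucc n =>
    rw [zpow_negSucc]
    have h0 : s E ^ (n + 1) ≠ 0 := pow_ne_zero _ s_ne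
    have h2 := HahnSeries.order_mul h0 (inv_ne_zero h0)
    rw [mul_inv_cancel₀ h0, HahnSeries.order_one, hp] at h2
    rw [Int.negSucc_eq]
    push_cast at h2
    omega

/-- `a = s ^ r (e + O(s))` -/
def Ld (a : LaurentSeries E) (r : ℤ) (e : E) : Prop := ∃ b, a = s E ^ r * b ∧ R b e

theorem Ld.of_R {a : LaurentSeries E} {e : E} (h : R a e) : Ld a 0 e := ⟨a, by simp, h⟩

theorem Ld.to_R {a : LaurentSeries E} {e : E} (h : Ld a 0 e) : R a e := by
  obtain ⟨b, rfl, h⟩ := h
  simpa using h

theorem Ld.mul {a b : LaurentSeries E} {r t : ℤ} {e f : E} (ha : Ld a r e) (hb : Ld b t f) :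
    Ld (a * b) (r + t) (e * f) := by
  obtain ⟨a, rfl, ha⟩ := ha
  obtain ⟨b, rfl, hb⟩ := hb
  exact ⟨a * b, by rw [zpow_add₀ s_ne]; ring, ha.mul hb⟩

theorem Ld.inv {a : LaurentSeries E} {r : ℤ} {e : E} (ha : Ld a r e) (he : e ≠ 0) :
    Ld a⁻¹ (-r) e⁻¹ := by
  obtain ⟨a, rfl, ha⟩ := ha
  exact ⟨a⁻¹, by rw [mul_inv, zpow_neg], ha.inv he⟩

theorem Ld.zpow {a : LaurentSeries E} {r : ℤ} {e : E} (ha : Ld a r e) (he : e ≠ 0) (n : ℤ) :
    Ld (a ^ n) (n * r) (e ^ n) := by
  obtain ⟨a, rfl, ha⟩ := ha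
  exact ⟨a ^ n, by rw [mul_zpow, mul_comm n r, zpow_mul], ha.zpow he n⟩

theorem Ld.s_zpow (r : ℤ) : Ld (s E ^ r) r 1 := ⟨1, by simp, R.one⟩

theorem Ld.prod {ι : Type w} (S : Finset ι) {a : ι → LaurentSeries E} {r : ι → ℤ} {e : ι → E}
    (h : ∀ i ∈ S, Ld (a i) (r i) (e i)) : Ld (∏ i ∈ S, a i) (∑ i ∈ S, r i) (∏ i ∈ S, e i) := by
  induction S using Finset.induction_on with
  | empty => simp only [Finset.prod_empty, Finset.sum_empty]; exact Ld.of_R R.one
  | insert i S hi ih =>
    rw [Finset.prod_insert hi, Finset.prod_insert hi, Finset.sum_insert hi]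
    exact (h i (Finset.mem_insert_self i S)).mul
      (ih fun j hj => h j (Finset.mem_insert_of_mem hj))

theorem Ld.ne_zero {a : LaurentSeries E} {r : ℤ} {e : E} (ha : Ld a r e) (he : e ≠ 0) :
    a ≠ 0 := by
  obtain ⟨a, rfl, ha⟩ := ha
  exact mul_ne_zero (zpow_ne_zero _ s_ne) (ha.ne_zero he)

theorem Ld.order_eq {a : LaurentSeries E} {r : ℤ} {e : E} (ha : Ld a r e) (he : e ≠ 0) :
    a.order = r := by
  obtain ⟨a, rfl, ha⟩ := ha
  rw [HahnSeries.order_mul (zpow_ne_zero _ s_ne) (ha.ne_zero he), order_s_zpow, ha.order_eq he,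
    add_zero]

theorem Ld.R_of_pos {a : LaurentSeries E} {r : ℤ} {e : E} (ha : Ld a r e) (hr : 0 < r) :
    R a 0 := by
  obtain ⟨a, rfl, ha⟩ := ha
  have h1 : R (s E ^ r) 0 := R.of_order_pos (by rw [order_s_zpow]; exact hr)
  simpa using h1.mul ha

theorem Ld.to_R' {a : LaurentSeries E} {r : ℤ} {e : E} (h : Ld a r e) : R (s E ^ (-r) * a) e := by
  obtain ⟨b, rfl, h⟩ := h
  rwa [← mul_assoc, ← zpow_add₀ s_ne, neg_add_cancel, zpow_zero, one_mul]

theorem Ld.unique {a : LaurentSeries E} {r : ℤ} {e f : E} (h : Ld a r e) (h' : Ld a r f) :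
    e = f := h.to_R'.unique h'.to_R'

end Series

section Alg
variable {k : Type u} [Field k] {E : Type v} [Field E] [Algebra k E]

theorem algebraMap_eq (c : k) :
    algebraMap k (LaurentSeries E) c = HahnSeries.C (algebraMap k E c) := by
  rw [HahnSeries.algebraMap_apply', PowerSeries.algebraMap_apply, HahnSeries.ofPowerSeries_C]

theorem R.algebraMap (c : k) : R (algebraMap k (LaurentSeries E) c) (algebraMap k E c) := by
  rw [algebraMap_eq]
  exact R.C _

theorem R.aeval {ζ : LaurentSeries E} {e : E} (h : R ζ e) (p : Polynomial k) :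
    R (Polynomial.aeval ζ p) (Polynomial.aeval e p) := by
  induction p using Polynomial.induction_on' with
  | add p q hp hq => rw [map_add, map_add]; exact hp.add hq
  | monomial i a =>
    rw [Polynomial.aeval_monomial, Polynomial.aeval_monomial]
    exact (R.algebraMap a).mul (h.pow i)

theorem R.mvaeval {σ : Type w} {ζ : σ → LaurentSeries E} {e : σ → E} (h : ∀ i, R (ζ i) (e i))
    (p : MvPolynomial σ k) : R (MvPolynomial.aeval ζ p) (MvPolynomial.aeval e p) := by
  induction p using MvPolynomial.induction_on with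
  | C a => rw [MvPolynomial.aeval_C, MvPolynomial.aeval_C]; exact R.algebraMap a
  | add p q hp hq => rw [map_add, map_add]; exact hp.add hq
  | mul_X p i hp =>
    rw [map_mul, map_mul, MvPolynomial.aeval_X, MvPolynomial.aeval_X]
    exact hp.mul (h i)

theorem R.s_pow {n : ℕ} (hn : 1 ≤ n) : R (s E ^ n) 0 := by
  apply R.of_order_pos
  have := order_s_zpow (E := E) (n : ℤ)
  rw [zpow_natCast] at this
  rw [this]
  omega

end Alg

end Ser

end

end Pool.Agent.MLD
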