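import Pool.Agent.Lib.MP_f23696_ag.Phi1
import Pool.Agent.Lib.MP_f23696_ag.Phi2
import Pool.Agent.Lib.MP_f23696_ag.Chx
import Pool.Agent.Lib.MP_f23696_ag.Bet
import Pool.Agent.Lib.MP_f23696_ag.Gr
import Pool.Agent.Lib.MP_f23696_ag.Ord
import Pool.Agent.Lib.MP_f23696_ag.Ser

/-!
# Module LEV: upper bound, vertical case
-/

set_option linter.unusedSectionVars false
set_option linter.style.haveILetI false

namespace Pool.Agent.MLD

open scoped Classical
noncomputable section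

universe u v w

namespace LeV

open Ser

/-! ### places of `k(z)` -/
section Place
variable {k : Type u} [Field k] {E : Type v} [Field E] [Algebra k E]

theorem psi_poly (Ψ : RatFunc k →ₐ[k] LaurentSeries E) (p : Polynomial k) :
    Ψ (algebraMap (Polynomial k) (RatFunc k) p) = Polynomial.aeval (Ψ RatFunc.X) p := by
  rw [Polynomial.aeval_algHom_apply]
  congr 1
  rw [← RatFunc.algebraMap_X, Polynomial.aeval_algebraMap_apply, Polynomial.aeval_X_left_apply]

/-- local parameter -/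
def zP (P : Option k) : RatFunc k :=
  match P with
  | some c => RatFunc.X - RatFunc.C c
  | none => RatFunc.X⁻¹

/-- image of `z` -/
def zt (P : Option k) (n : ℕ) : LaurentSeries E :=
  match P with
  | some c => algebraMap k _ c + s E ^ n
  | none => (s E ^ n)⁻¹

variable (P : Option k) {n : ℕ} (hn : 1 ≤ n) (Ψ : RatFunc k →ₐ[k] LaurentSeries E)
  (hΨ : Ψ RatFunc.X = zt P n)

include hΨ in
theorem psi_zP : Ψ (zP P) = s E ^ n := by
  cases P with
  | some c =>
    have e : Ψ (RatFunc.C c) = algebraMap k _ c := by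
      rw [← RatFunc.algebraMap_eq_C]; exact Ψ.commutes c
    simp only [zP, map_sub, hΨ, zt, e]
    ring
  | none => simp only [zP, map_inv₀, hΨ, zt, inv_inv]

include hn hΨ in
theorem psi_poly_some {c : k} (hP : P = some c) {p : Polynomial k} (hp : p ≠ 0) :
    (Ψ (algebraMap (Polynomial k) (RatFunc k) p)).order = n * p.rootMultiplicity c ∧
      Ψ (algebraMap (Polynomial k) (RatFunc k) p) ≠ 0 := by
  obtain ⟨q, hq, hqd⟩ := Polynomial.exists_eq_pow_rootMultiplicity_mul_and_not_dvd p hp c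
  have hq0 : q.eval c ≠ 0 := by
    intro h
    exact hqd (Polynomial.dvd_iff_isRoot.2 h)
  have hz : R (Ψ RatFunc.X) (algebraMap k E c) := by
    rw [hΨ, hP]
    have := (R.algebraMap (E := E) c).add (R.s_pow (E := E) hn)
    rwa [add_zero] at this
  have h1 : R (Ψ (algebraMap (Polynomial k) (RatFunc k) q)) (algebraMap k E (q.eval c)) := by
    rw [psi_poly]
    have := hz.aeval q
    rwa [Polynomial.aeval_algebraMap_apply, Polynomial.coe_aeval_eq_eval] at this
  have h2 : Ψ (algebraMap (Polynomial k) (RatFunc k) (Polynomial.X - Polynomial.C c)) = s E ^ n := by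
    rw [← psi_zP P Ψ hΨ, hP]
    congr 1
    simp [zP]
  have h3 : Ld (Ψ (algebraMap (Polynomial k) (RatFunc k) p)) (n * p.rootMultiplicity c)
      (algebraMap k E (q.eval c)) := by
    refine ⟨_, ?_, h1⟩
    conv_lhs => rw [hq]
    rw [map_mul, map_mul, map_pow, map_pow, h2, ← pow_mul]
    congr 1
  have h4 : algebraMap k E (q.eval c) ≠ 0 := by
    rwa [Ne, map_eq_zero]
  exact ⟨h3.order_eq h4, h3.ne_zero h4⟩

include hn hΨ in
theorem psi_poly_none (hP : P = none) {p : Polynomial k} (hp : p ≠ 0) :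
    (Ψ (algebraMap (Polynomial k) (RatFunc k) p)).order = -(n * p.natDegree) ∧
      Ψ (algebraMap (Polynomial k) (RatFunc k) p) ≠ 0 := by
  have hX : Ψ RatFunc.X = (s E ^ n)⁻¹ := by rw [hΨ, hP]; rfl
  have h1 : R (Polynomial.aeval (s E ^ n) p.reverse) (algebraMap k E p.leadingCoeff) := by
    have := (R.s_pow (E := E) hn).aeval p.reverse
    rwa [Polynomial.aeval_def, Polynomial.aeval_def, Polynomial.eval₂_at_zero,
      Polynomial.coeff_zero_reverse, ← Polynomial.aeval_def] at this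
  have h2 : Ψ (algebraMap (Polynomial k) (RatFunc k) p) =
      s E ^ (-((n : ℤ) * p.natDegree)) * Polynomial.aeval (s E ^ n) p.reverse := by
    rw [psi_poly, hX, Polynomial.aeval_def]
    letI : Invertible (s E ^ n)⁻¹ := invertibleOfNonzero (inv_ne_zero (pow_ne_zero _ s_ne))
    rw [← Polynomial.eval₂_reverse_mul_pow]
    rw [invOf_eq_inv, inv_inv, ← Polynomial.aeval_def, mul_comm]
    congr 1
    rw [zpow_neg, inv_pow, ← pow_mul]
    congr 1
  have h3 : Ld (Ψ (algebraMap (Polynomial k) (RatFunc k) p)) (-((n : ℤ) * p.natDegree))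
      (algebraMap k E p.leadingCoeff) := ⟨_, h2, h1⟩
  have h4 : algebraMap k E p.leadingCoeff ≠ 0 := by
    rw [Ne, map_eq_zero, Polynomial.leadingCoeff_eq_zero]
    exact hp
  exact ⟨h3.order_eq h4, h3.ne_zero h4⟩

include hn hΨ in
theorem psi_order {g : RatFunc k} (hg : g ≠ 0) : (Ψ g).order = n * ordAt P g := by
  have h1 : g.num ≠ 0 := RatFunc.num_ne_zero hg
  have h2 : g.denom ≠ 0 := g.denom_ne_zero
  have h3 : Ψ g * Ψ (algebraMap (Polynomial k) (RatFunc k) g.denom) =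
      Ψ (algebraMap (Polynomial k) (RatFunc k) g.num) := by
    rw [← map_mul]
    congr 1
    have h5 : algebraMap (Polynomial k) (RatFunc k) g.denom ≠ 0 := by
      rwa [Ne, FaithfulSMul.algebraMap_eq_zero_iff]
    exact (eq_div_iff h5).1 (RatFunc.num_div_denom g).symm
  have h4 : Ψ g ≠ 0 := by rwa [Ne, map_eq_zero]
  cases P with
  | some c =>
    obtain ⟨h5, h6⟩ := psi_poly_some (some c) hn Ψ hΨ rfl h1
    obtain ⟨h7, h8⟩ := psi_poly_some (some c) hn Ψ hΨ rfl h2
    have h9 := congrArg HahnSeries.order h3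
    rw [HahnSeries.order_mul h4 h8, h5, h7] at h9
    simp only [ordAt]
    rw [mul_sub]
    omega
  | none =>
    obtain ⟨h5, h6⟩ := psi_poly_none none hn Ψ hΨ rfl h1
    obtain ⟨h7, h8⟩ := psi_poly_none none hn Ψ hΨ rfl h2
    have h9 := congrArg HahnSeries.order h3
    rw [HahnSeries.order_mul h4 h8, h5, h7] at h9
    simp only [ordAt, RatFunc.intDegree]
    rw [mul_neg, mul_sub]
    omega

end Place

/-! ### leading coefficients -/
section Lc
variable {k : Type u} [Field k] {E : Type v} [Field E] [Algebra k E]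

/-- leading coefficient of `g` at `P` -/
def lc (P : Option k) (g : RatFunc k) : k :=
  if h : ∃ c : k, c ≠ 0 ∧ (g * zP P ^ (-ordAt P g) = RatFunc.C c ∨
    0 < ordAt P (g * zP P ^ (-ordAt P g) - RatFunc.C c)) then h.choose else 1

theorem lc_ne (P : Option k) (g : RatFunc k) : lc P g ≠ 0 := by
  unfold lc
  split_ifs with h
  · exact h.choose_spec.1
  · exact one_ne_zero

variable (P : Option k) {n : ℕ} (hn : 1 ≤ n) (Ψ : RatFunc k →ₐ[k] LaurentSeries E)
  (hΨ : Ψ RatFunc.X = zt P n)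

include hn hΨ in
theorem lc_spec {g : RatFunc k} (hg : g ≠ 0) :
    Ld (Ψ g) (n * ordAt P g) (algebraMap k E (lc P g)) := by
  set a := ordAt P g with ha
  set h := g * zP P ^ (-a) with hh
  have hz0 : zP P ≠ 0 := by
    intro h0
    have := psi_zP P Ψ hΨ
    rw [h0, map_zero] at this
    exact pow_ne_zero n s_ne this.symm
  have hh0 : h ≠ 0 := mul_ne_zero hg (zpow_ne_zero _ hz0)
  have hn0 : (n : ℤ) ≠ 0 := by omega
  have hoh : ordAt P h = 0 := by
    have h1 := psi_order P hn Ψ hΨ hh0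
    have h2 : Ψ h = Ψ g * (s E ^ n) ^ (-a) := by
      rw [hh, map_mul, map_zpow₀, psi_zP P Ψ hΨ]
    have h3 : ((s E ^ n) ^ (-a) : LaurentSeries E) = s E ^ ((n : ℤ) * (-a)) := by
      rw [← zpow_natCast, ← zpow_mul]
    have hg1 : Ψ g ≠ 0 := by rwa [Ne, map_eq_zero]
    rw [h2, h3, HahnSeries.order_mul hg1 (zpow_ne_zero _ s_ne), order_s_zpow,
      psi_order P hn Ψ hΨ hg, ← ha] at h1
    have h4 : (n : ℤ) * ordAt P h = 0 := by rw [← h1]; ring
    exact (mul_eq_zero.1 h4).resolve_left hn0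
  have hex : ∃ c : k, c ≠ 0 ∧ (h = RatFunc.C c ∨ 0 < ordAt P (h - RatFunc.C c)) := by
    obtain ⟨c, hc⟩ := ordAt_value P hh0 hoh.ge
    refine ⟨c, ?_, hc⟩
    rintro rfl
    rcases hc with hc | hc
    · exact hh0 (by rw [hc, map_zero])
    · rw [map_zero, sub_zero] at hc
      omega
  have hlc : h = RatFunc.C (lc P g) ∨ 0 < ordAt P (h - RatFunc.C (lc P g)) := by
    have : lc P g = hex.choose := by
      unfold lc
      rw [dif_pos (by rw [← ha, ← hh]; exact hex)]
    rw [this]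
    exact hex.choose_spec.2
  have eC : Ψ (RatFunc.C (lc P g)) = algebraMap k _ (lc P g) := by
    rw [← RatFunc.algebraMap_eq_C]; exact Ψ.commutes _
  have h5 : R (Ψ h) (algebraMap k E (lc P g)) := by
    rcases hlc with hc | hc
    · rw [hc, eC]
      exact R.algebraMap _
    · have h6 : h - RatFunc.C (lc P g) ≠ 0 := by
        intro h0
        rw [h0, ordAt_zero] at hc
        exact lt_irrefl _ hc
      have h7 := psi_order P hn Ψ hΨ h6
      have h8 : R (Ψ (h - RatFunc.C (lc P g))) 0 := by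
        apply R.of_order_pos
        rw [h7]
        exact mul_pos (by omega) hc
      have h9 := h8.add (R.algebraMap (E := E) (lc P g))
      rwa [map_sub, eC, sub_add_cancel, zero_add] at h9
  refine ⟨Ψ h, ?_, h5⟩
  rw [hh, map_mul, map_zpow₀, psi_zP P Ψ hΨ]
  have h3 : ((s E ^ n) ^ (-a) : LaurentSeries E) = s E ^ (-((n : ℤ) * a)) := by
    rw [← zpow_natCast, ← zpow_mul, mul_neg]
  rw [h3, mul_comm (Ψ g), ← mul_assoc, ← zpow_add₀ s_ne, add_neg_cancel, zpow_zero, one_mul]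

include hn hΨ in
theorem lc_mul {g h : RatFunc k} (hg : g ≠ 0) (hh : h ≠ 0) : lc P (g * h) = lc P g * lc P h := by
  have h1 := lc_spec P hn Ψ hΨ hg
  have h2 := lc_spec P hn Ψ hΨ hh
  have h3 := lc_spec P hn Ψ hΨ (mul_ne_zero hg hh)
  have h4 := h1.mul h2
  rw [← map_mul, ← map_mul] at h4
  have h5 : ∀ (f : RatFunc k) (c : k), c ≠ 0 → ∀ r, Ld (Ψ f) r (algebraMap k E c) →
      (Ψ f).order = r := fun f c hc r h => h.order_eq (by rwa [Ne, map_eq_zero])
  have h6 := h5 _ _ (lc_ne P _) _ h3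
  have h7 := h5 _ _ (mul_ne_zero (lc_ne P g) (lc_ne P h)) _ h4
  rw [h6] at h7
  rw [h7] at h3
  exact (algebraMap k E).injective (h3.unique h4)

include hn hΨ in
theorem lc_sub {g h : RatFunc k} (hg : g ≠ 0) (hh : h ≠ 0) (ho : ordAt P g = ordAt P h)
    (hne : g - RatFunc.C (lc P g / lc P h) * h ≠ 0) :
    ordAt P h < ordAt P (g - RatFunc.C (lc P g / lc P h) * h) := by
  obtain ⟨b, hb1, hb2⟩ := lc_spec P hn Ψ hΨ hg
  obtain ⟨b', hb1', hb2'⟩ := lc_spec P hn Ψ hΨ hh
  have eC : Ψ (RatFunc.C (lc P g / lc P h)) = algebraMap k _ (lc P g / lc P h) := by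
    rw [← RatFunc.algebraMap_eq_C]; exact Ψ.commutes _
  have h1 : Ψ (g - RatFunc.C (lc P g / lc P h) * h) = s E ^ ((n : ℤ) * ordAt P h) *
      (b - algebraMap k _ (lc P g / lc P h) * b') := by
    rw [map_sub, map_mul, eC, hb1, hb1', ho]
    ring
  have h2 : R (b - algebraMap k _ (lc P g / lc P h) * b') 0 := by
    have := hb2.sub ((R.algebraMap (E := E) (lc P g / lc P h)).mul hb2')
    rwa [← map_mul, div_mul_cancel₀ _ (lc_ne P h), sub_self] at this
  have h3 : Ψ (g - RatFunc.C (lc P g / lc P h) * h) ≠ 0 := by rwa [Ne, map_eq_zero]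
  have h4 : b - algebraMap k _ (lc P g / lc P h) * b' ≠ 0 := by
    intro h0
    rw [h1, h0, mul_zero] at h3
    exact h3 rfl
  have h5 := h2.order_pos h4
  have h6 := psi_order P hn Ψ hΨ hne
  rw [h1, HahnSeries.order_mul (zpow_ne_zero _ s_ne) h4, order_s_zpow] at h6
  have h7 : (n : ℤ) * ordAt P h < n * ordAt P (g - RatFunc.C (lc P g / lc P h) * h) := by omega
  exact lt_of_mul_lt_mul_left h7 (by omega)

end Lc

/-! ### values at a closed point -/
section Ev
variable {k : Type u} [Field k] [IsAlgClosed k] [CharZero k] {m : ℕ} {K : Type v} [Field K]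
  [Algebra k K] {C : Ctx k K m}

theorem fg (X : TV C) : X.A.FG := ⟨X.gens.image fun h : RatFunc k × (Fin m → ℤ) => C.mon h.1 h.2, by
  rw [Finset.coe_image]; exact X.adj⟩

theorem exists_ev (X : TV C) (x : MaximalSpectrum X.A) :
    ∃ ev : X.A →ₐ[k] k, ∀ a, ev a = 0 ↔ a ∈ x.asIdeal := by
  haveI : Algebra.FiniteType k X.A := (Subalgebra.fg_iff_finiteType X.A).1 (fg X)
  haveI := x.isMaximal
  letI : Field (X.A ⧸ x.asIdeal) := Ideal.Quotient.field x.asIdeal
  haveI : Algebra.FiniteType k (X.A ⧸ x.asIdeal) := inferInstance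
  haveI : Module.Finite k (X.A ⧸ x.asIdeal) := finite_of_finite_type_of_isJacobsonRing k _
  have hb := IsAlgClosed.algebraMap_bijective_of_isIntegral (k := k) (K := X.A ⧸ x.asIdeal)
  let φ : k ≃ₐ[k] (X.A ⧸ x.asIdeal) := AlgEquiv.ofBijective (Algebra.ofId k _) hb
  refine ⟨(φ.symm.toAlgHom).comp (Ideal.Quotient.mkₐ k x.asIdeal), fun a => ?_⟩
  show φ.symm (Ideal.Quotient.mk x.asIdeal a) = 0 ↔ _
  rw [EmbeddingLike.map_eq_zero_iff, Ideal.Quotient.eq_zero_iff_mem]

theorem center_val {X : TV C} {x : Ideal X.A} {V : HV k m} (hV : V.CenterEq X x)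
    {g : RatFunc k} {u : Fin m → ℤ} (hA : X.hA g u) : V.val g u = 0 ↔ X.hS x g u := by
  have h1 := hV.1 g u hA
  have h2 := hV.2 g u hA
  constructor
  · intro h0
    by_contra hn
    have := h2.2 hn
    omega
  · intro hs
    by_contra hn
    have h3 : 0 < V.val g u := lt_of_le_of_ne h1 (Ne.symm hn)
    exact h2.1 h3 hs

theorem hS_hA {X : TV C} {p : Ideal X.A} {g : RatFunc k} {u : Fin m → ℤ} (h : X.hS p g u) :
    X.hA g u := ⟨h.1, h.2.1⟩

theorem hS_mul {X : TV C} {p : Ideal X.A} (hp : p.IsPrime) {g h : RatFunc k} {u t : Fin m → ℤ}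
    (h1 : X.hS p g u) (h2 : X.hS p h t) : X.hS p (g * h) (u + t) := by
  obtain ⟨hg, hgA, hgp⟩ := h1
  obtain ⟨hh, hhA, hhp⟩ := h2
  have e := mon_mul C g h u t
  refine ⟨mul_ne_zero hg hh, by rw [e]; exact X.A.mul_mem hgA hhA, fun hmem => ?_⟩
  have : (⟨C.mon g u, hgA⟩ : X.A) * ⟨C.mon h t, hhA⟩ ∈ p := by
    convert hmem using 1
    exact Subtype.ext e.symm
  rcases hp.mem_or_mem this with h | h
  · exact hgp h
  · exact hhp h

theorem mon_one (C : Ctx k K m) : C.mon 1 0 = 1 := by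
  simp [Ctx.mon]

theorem hS_one {X : TV C} {p : Ideal X.A} (hp : p.IsPrime) : X.hS p 1 0 := by
  refine ⟨one_ne_zero, by rw [mon_one]; exact X.A.one_mem, fun h => hp.ne_top ?_⟩
  rw [Ideal.eq_top_iff_one]
  convert h using 1
  exact Subtype.ext (mon_one C).symm

/-- the degrees of the semi-invariants not in `p` -/
def Gam (X : TV C) (p : Ideal X.A) (hp : p.IsPrime) : AddSubmonoid (Fin m → ℤ) where
  carrier := {u | ∃ g, X.hS p g u}
  add_mem' := by
    rintro u t ⟨g, hg⟩ ⟨h, hh⟩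
    exact ⟨g * h, hS_mul hp hg hh⟩
  zero_mem' := ⟨1, hS_one hp⟩

/-- extension of the value at the point by zero -/
def evK (X : TV C) (ev : X.A →ₐ[k] k) (f : K) : k := if h : f ∈ X.A then ev ⟨f, h⟩ else 0

theorem evK_eq {X : TV C} {ev : X.A →ₐ[k] k} {f : K} (h : f ∈ X.A) :
    evK X ev f = ev ⟨f, h⟩ := by
  unfold evK
  rw [dif_pos h]

theorem evK_mul {X : TV C} {ev : X.A →ₐ[k] k} {f g : K} (hf : f ∈ X.A) (hg : g ∈ X.A) :
    evK X ev (f * g) = evK X ev f * evK X ev g := by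
  rw [evK_eq hf, evK_eq hg, evK_eq (X.A.mul_mem hf hg), ← map_mul]
  rfl

/-- the character -/
def psi (X : TV C) (p : Ideal X.A) (ev : X.A →ₐ[k] k) (P : Option k) (u : Fin m → ℤ) : k :=
  if h : ∃ g, X.hS p g u then evK X ev (C.mon h.choose u) / lc P h.choose else 1

theorem mon_sub_C (C : Ctx k K m) (g h : RatFunc k) (c : k) (u : Fin m → ℤ) :
    C.mon (g - RatFunc.C c * h) u = C.mon g u - algebraMap k K c * C.mon h u := by
  have e : C.ι (RatFunc.C c) = algebraMap k K c := by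
    rw [← RatFunc.algebraMap_eq_C]; exact C.ι.commutes c
  simp only [Ctx.mon, map_sub, map_mul, e]
  ring

variable {X : TV C} {x : MaximalSpectrum X.A} {V : HV k m} (hV : V.CenterEq X x.asIdeal)
  (hn : 1 ≤ V.n) {E : Type w} [Field E] [Algebra k E] (Ψ : RatFunc k →ₐ[k] LaurentSeries E)
  (hΨ : Ψ RatFunc.X = zt V.P V.n) {ev : X.A →ₐ[k] k} (hev : ∀ a, ev a = 0 ↔ a ∈ x.asIdeal)

include hV hn hΨ hev in
theorem ev_lc {g h : RatFunc k} {u : Fin m → ℤ} (hg : X.hS x.asIdeal g u)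
    (hh : X.hS x.asIdeal h u) :
    evK X ev (C.mon g u) / lc V.P g = evK X ev (C.mon h u) / lc V.P h := by
  have h1 : V.val g u = 0 := (center_val hV (hS_hA hg)).2 hg
  have h2 : V.val h u = 0 := (center_val hV (hS_hA hh)).2 hh
  have ho : ordAt V.P g = ordAt V.P h := by
    unfold HV.val at h1 h2
    have h3 : (V.n : ℤ) * (ordAt V.P g - ordAt V.P h) = 0 := by rw [mul_sub]; omega
    rcases mul_eq_zero.1 h3 with h4 | h4 <;> omega
  have hlg := lc_ne V.P g
  have hlh := lc_ne V.P h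
  set c := lc V.P g / lc V.P h with hc
  have hcA : algebraMap k K c ∈ X.A := X.A.algebraMap_mem c
  have hmonA : C.mon (g - RatFunc.C c * h) u ∈ X.A := by
    rw [mon_sub_C]
    exact X.A.sub_mem hg.2.1 (X.A.mul_mem hcA hh.2.1)
  have hkey : (⟨C.mon (g - RatFunc.C c * h) u, hmonA⟩ : X.A) ∈ x.asIdeal := by
    by_cases he : g - RatFunc.C c * h = 0
    · have : (⟨C.mon (g - RatFunc.C c * h) u, hmonA⟩ : X.A) = 0 := by
        apply Subtype.ext
        simp [he, Ctx.mon]
      rw [this]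
      exact Ideal.zero_mem _
    · have h3 := lc_sub V.P hn Ψ hΨ hg.1 hh.1 ho (by rw [← hc]; exact he)
      rw [← hc] at h3
      have h4 : 0 < V.val (g - RatFunc.C c * h) u := by
        unfold HV.val at h2 ⊢
        have h5 : (V.n : ℤ) * ordAt V.P h < V.n * ordAt V.P (g - RatFunc.C c * h) :=
          mul_lt_mul_of_pos_left h3 (by omega)
        omega
      have h5 := (hV.2 _ _ ⟨he, hmonA⟩).1 h4
      by_contra hmem
      exact h5 ⟨he, hmonA, hmem⟩
  have h6 := (hev _).2 hkey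
  have h7 : (⟨C.mon (g - RatFunc.C c * h) u, hmonA⟩ : X.A) =
      ⟨C.mon g u, hg.2.1⟩ - algebraMap k X.A c * ⟨C.mon h u, hh.2.1⟩ := by
    apply Subtype.ext
    exact mon_sub_C C g h c u
  rw [h7, map_sub, map_mul, AlgHom.commutes, ← evK_eq, ← evK_eq, sub_eq_zero] at h6
  rw [h6, hc]
  simp only [Algebra.algebraMap_self, RingHom.id_apply]
  field_simp

include hV hn hΨ hev in
theorem psi_eq {g : RatFunc k} {u : Fin m → ℤ} (hg : X.hS x.asIdeal g u) :
    psi X x.asIdeal ev V.P u = evK X ev (C.mon g u) / lc V.P g := by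
  have hex : ∃ g, X.hS x.asIdeal g u := ⟨g, hg⟩
  unfold psi
  rw [dif_pos hex]
  exact ev_lc hV hn Ψ hΨ hev hex.choose_spec hg

include hV hn hΨ hev in
theorem psi_ne (u : Fin m → ℤ) (hu : u ∈ Gam X x.asIdeal x.isMaximal.isPrime) :
    psi X x.asIdeal ev V.P u ≠ 0 := by
  obtain ⟨g, hg⟩ := hu
  rw [psi_eq hV hn Ψ hΨ hev hg]
  refine div_ne_zero ?_ (lc_ne _ _)
  rw [evK_eq hg.2.1, Ne, hev]
  exact hg.2.2

include hV hn hΨ hev in
theorem psi_add (u : Fin m → ℤ) (hu : u ∈ Gam X x.asIdeal x.isMaximal.isPrime)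
    (t : Fin m → ℤ) (ht : t ∈ Gam X x.asIdeal x.isMaximal.isPrime) :
    psi X x.asIdeal ev V.P (u + t) = psi X x.asIdeal ev V.P u * psi X x.asIdeal ev V.P t := by
  obtain ⟨g, hg⟩ := hu
  obtain ⟨h, hh⟩ := ht
  rw [psi_eq hV hn Ψ hΨ hev hg, psi_eq hV hn Ψ hΨ hev hh,
    psi_eq hV hn Ψ hΨ hev (hS_mul x.isMaximal.isPrime hg hh), mon_mul, evK_mul hg.2.1 hh.2.1,
    lc_mul V.P hn Ψ hΨ hg.1 hh.1, div_mul_div_comm]

end Ev

/-! ### the embedding -/
section Emb
variable {k : Type u} [Field k] {m : ℕ} {K : Type v} [Field K] [Algebra k K] {C : Ctx k K m}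

theorem zeta_eq (P : Option k) (n : ℕ) : (zetaV P n : LL k m) = zt P n := by
  cases P with
  | some c =>
    simp only [zetaV, zt]
    rw [algebraMap_eq, HahnSeries.algebraMap_apply]
    rfl
  | none => rfl

theorem cc_eq (c : k) : cc k m c = algebraMap k (LL k m) c := by
  rw [algebraMap_eq, HahnSeries.algebraMap_apply]
  rfl

/-- the factors of `xi` -/
def eta (k : Type u) [Field k] (m : ℕ) (I : Finset (Fin m)) (i : Fin m) : LL k m :=
  if i ∈ I then 1 + ss k m * TL k m i else TL k m i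

/-- their residues -/
def eta0 (k : Type u) [Field k] (m : ℕ) (I : Finset (Fin m)) (i : Fin m) : EE k m :=
  if i ∈ I then 1 else TT k m i

theorem TT_ne (i : Fin m) : TT k m i ≠ 0 := by
  simp [TT]

theorem R_TL (i : Fin m) : R (TL k m i) (TT k m i) := R.C _

theorem R_ss : R (ss k m) 0 := by
  have := R.s_pow (E := EE k m) (n := 1) le_rfl
  rwa [pow_one] at this

theorem eta0_ne (I : Finset (Fin m)) (i : Fin m) : eta0 k m I i ≠ 0 := by
  unfold eta0
  split_ifs
  · exact one_ne_zero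
  · exact TT_ne i

theorem R_eta (I : Finset (Fin m)) (i : Fin m) : R (eta k m I i) (eta0 k m I i) := by
  unfold eta eta0
  split_ifs
  · have := (R.one (E := EE k m)).add (R_ss.mul (R_TL (k := k) i))
    rwa [zero_mul, add_zero] at this
  · exact R_TL i

theorem eta_ne (I : Finset (Fin m)) (i : Fin m) : eta k m I i ≠ 0 := (R_eta I i).ne_zero (eta0_ne I i)

theorem ss_ne : ss k m ≠ 0 := s_ne

theorem prod_zpow_sum {F : Type v} [Field F] {ι : Type w} (S : Finset ι) (a : F) (ha : a ≠ 0)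
    (r : ι → ℤ) : ∏ j ∈ S, a ^ r j = a ^ ∑ j ∈ S, r j := by
  induction S using Finset.induction_on with
  | empty => simp
  | insert i S hi ih => rw [Finset.prod_insert hi, Finset.sum_insert hi, zpow_add₀ ha, ih]

theorem xi_eq (c : Fin m → k) (w : Fin m → ℤ) (β : Matrix (Fin m) (Fin m) ℤ)
    (B : Fin m → Fin m → ℤ) (hB : ∀ i j, β i j = B i j) (I : Finset (Fin m)) (j : Fin m) :
    xi c w β I j = cc k m (c j) * ss k m ^ w j * ∏ i, eta k m I i ^ B i j := by
  have : B = fun i j => β i j := by funext i j; exact (hB i j).symm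
  subst this
  rfl

theorem prod_gen {L : Type v} [Field L] (c : Fin m → L) (s : L) (hs : s ≠ 0)
    (η : Fin m → L) (hη : ∀ i, η i ≠ 0) (w : Fin m → ℤ) (B : Fin m → Fin m → ℤ)
    (u : Fin m → ℤ) :
    ∏ j, (c j * s ^ w j * ∏ i, η i ^ B i j) ^ u j = (∏ j, c j ^ u j) * s ^ (∑ i, w i * u i) *
      ∏ i, η i ^ ∑ j, B i j * u j := by
  have h1 : ∀ j, (c j * s ^ w j * ∏ i, η i ^ B i j) ^ u j = c j ^ u j * s ^ (w j * u j) *
      ∏ i, η i ^ (B i j * u j) := by
    intro j
    rw [mul_zpow, mul_zpow, ← zpow_mul, ← Finset.prod_zpow]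
    congr 1
    refine Finset.prod_congr rfl fun i _ => ?_
    rw [← zpow_mul]
  rw [Finset.prod_congr rfl fun j _ => h1 j, Finset.prod_mul_distrib, Finset.prod_mul_distrib,
    prod_zpow_sum _ _ hs, Finset.prod_comm]
  congr 1
  exact Finset.prod_congr rfl fun i _ => prod_zpow_sum _ _ (hη i) _

theorem prod_xi (c : Fin m → k) (w : Fin m → ℤ)
    (β : Matrix (Fin m) (Fin m) ℤ) (B : Fin m → Fin m → ℤ) (hB : ∀ i j, β i j = B i j)
    (I : Finset (Fin m)) (u : Fin m → ℤ) :
    ∏ j, xi c w β I j ^ u j = cc k m (∏ j, c j ^ u j) * ss k m ^ (∑ i, w i * u i) *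
      ∏ i, eta k m I i ^ ∑ j, B i j * u j := by
  have h1 : cc k m (∏ j, c j ^ u j) = ∏ j, cc k m (c j) ^ u j := by
    rw [map_prod]
    exact Finset.prod_congr rfl fun j _ => map_zpow₀ (cc k m) (c j) (u j)
  rw [h1]
  exact (Finset.prod_congr rfl fun j _ => congrArg (· ^ u j) (xi_eq c w β B hB I j)).trans
    (prod_gen (fun j => cc k m (c j)) (ss k m) ss_ne (eta k m I) (eta_ne I) w B u)

variable {P : Option k} {n : ℕ} (hn : 1 ≤ n) {c : Fin m → k} (hc : ∀ i, c i ≠ 0)
  {w : Fin m → ℤ} {β : Matrix (Fin m) (Fin m) ℤ} {B : Fin m → Fin m → ℤ}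
  (hB : ∀ i j, β i j = B i j) {I : Finset (Fin m)} {Φ : K →ₐ[k] LL k m} (hz : Φ (C.ι RatFunc.X) = zetaV P n)
  (hx : ∀ j, Φ (C.x j) = xi c w β I j)

include hc hx hB in
theorem phi_mon (g : RatFunc k) (u : Fin m → ℤ) :
    Φ (C.mon g u) = Φ (C.ι g) * (cc k m (∏ j, c j ^ u j) * ss k m ^ (∑ i, w i * u i) *
      ∏ i, eta k m I i ^ ∑ j, B i j * u j) := by
  rw [Ctx.mon, map_mul, map_prod, ← prod_xi c w β B hB I u]
  congr 1
  refine Finset.prod_congr rfl fun j _ => ?_
  rw [map_zpow₀, hx]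

include hn hz in
theorem Ld_phi_iota {g : RatFunc k} (hg : g ≠ 0) :
    Ld (Φ (C.ι g)) (n * ordAt P g) (algebraMap k (EE k m) (lc P g)) :=
  lc_spec P hn (Φ.comp C.ι) (by rw [AlgHom.comp_apply, hz, zeta_eq]) hg

theorem Ld_cc (a : k) : Ld (cc k m a) 0 (algebraMap k (EE k m) a) := by
  rw [cc_eq]
  exact Ld.of_R (R.algebraMap a)

theorem Ld_ss (r : ℤ) : Ld (ss k m ^ r) r 1 := Ld.s_zpow r

theorem Ld_eta (r : Fin m → ℤ) :
    Ld (∏ i, eta k m I i ^ r i) 0 (∏ i, eta0 k m I i ^ r i) :=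
  Ld.of_R (R.prod _ fun i _ => (R_eta I i).zpow (eta0_ne I i) _)

include hn hc hz hx hB in
theorem Ld_phi_mon {g : RatFunc k} (hg : g ≠ 0) (u : Fin m → ℤ) :
    Ld (Φ (C.mon g u)) (n * ordAt P g + ∑ i, w i * u i)
      (algebraMap k (EE k m) (lc P g * ∏ j, c j ^ u j) *
        ∏ i, eta0 k m I i ^ ∑ j, B i j * u j) := by
  rw [phi_mon hc hB hx]
  have h := (Ld_phi_iota hn hz hg).mul (((Ld_cc (m := m) (∏ j, c j ^ u j)).mul
    (Ld_ss (∑ i, w i * u i))).mul (Ld_eta (I := I) fun i => ∑ j, B i j * u j))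
  rw [map_mul]
  convert h using 1
  · ring
  · ring

theorem eta0_prod (r : Fin m → ℤ) (hr : ∀ i ∉ I, r i = 0) : ∏ i, eta0 k m I i ^ r i = 1 := by
  refine Finset.prod_eq_one fun i _ => ?_
  by_cases hi : i ∈ I
  · simp [eta0, hi]
  · rw [hr i hi, zpow_zero]

include hn hc hz hx hB in
theorem Ld_phi_mon_ne (g : RatFunc k) (u : Fin m → ℤ) :
    (algebraMap k (EE k m) (lc P g * ∏ j, c j ^ u j) *
        ∏ i, eta0 k m I i ^ ∑ j, B i j * u j) ≠ 0 := by
  refine mul_ne_zero ?_ (Finset.prod_ne_zero_iff.2 fun i _ => zpow_ne_zero _ (eta0_ne I i))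
  rw [Ne, map_eq_zero]
  exact mul_ne_zero (lc_ne P g) (Finset.prod_ne_zero_iff.2 fun j _ => zpow_ne_zero _ (hc j))

end Emb

/-! ### derivations -/
section Der
variable {k : Type u} [Field k]

theorem der_psi {L : Type v} [Field L] [Algebra k L] (D : Derivation k L L)
    (Ψ : RatFunc k →ₐ[k] L) (h : D (Ψ RatFunc.X) = 0) (g : RatFunc k) : D (Ψ g) = 0 := by
  have hp : ∀ p : Polynomial k, D (Ψ (algebraMap (Polynomial k) (RatFunc k) p)) = 0 := by
    intro p
    have e : Ψ (algebraMap (Polynomial k) (RatFunc k) p) = Polynomial.aeval (Ψ RatFunc.X) p := by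
      rw [Polynomial.aeval_algHom_apply]
      congr 1
      rw [← RatFunc.algebraMap_X, Polynomial.aeval_algebraMap_apply,
        Polynomial.aeval_X_left_apply]
    rw [e]
    induction p using Polynomial.induction_on' with
    | add p q hp hq =>
      rw [map_add, map_add, hp _, hq _, add_zero]
      · rw [Polynomial.aeval_algHom_apply]
        congr 1
        rw [← RatFunc.algebraMap_X, Polynomial.aeval_algebraMap_apply,
          Polynomial.aeval_X_left_apply]
      · rw [Polynomial.aeval_algHom_apply]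
        congr 1
        rw [← RatFunc.algebraMap_X, Polynomial.aeval_algebraMap_apply,
          Polynomial.aeval_X_left_apply]
    | monomial i a =>
      rw [Polynomial.aeval_monomial, Derivation.leibniz, Derivation.map_algebraMap,
        Derivation.leibniz_pow, h]
      simp
  have h2 : algebraMap (Polynomial k) (RatFunc k) g.denom ≠ 0 := by
    rw [Ne, FaithfulSMul.algebraMap_eq_zero_iff]
    exact g.denom_ne_zero
  have h1 : g * algebraMap (Polynomial k) (RatFunc k) g.denom =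
      algebraMap (Polynomial k) (RatFunc k) g.num :=
    (eq_div_iff h2).1 (RatFunc.num_div_denom g).symm
  have h3 : Ψ g * Ψ (algebraMap (Polynomial k) (RatFunc k) g.denom) =
      Ψ (algebraMap (Polynomial k) (RatFunc k) g.num) := by
    rw [← map_mul, h1]
  have h4 := congrArg D h3
  rw [Derivation.leibniz, hp, hp, smul_zero, zero_add, smul_eq_mul] at h4
  exact (mul_eq_zero.1 h4).resolve_left fun h0 => h2 ((map_eq_zero Ψ).1 h0)

theorem der_zt {L : Type v} [Field L] [Algebra k L] (D : Derivation k L L) (s : L) (hs : D s = 0)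
    (c : k) (n : ℕ) : D (algebraMap k L c + s ^ n) = 0 ∧ D ((s ^ n)⁻¹) = 0 := by
  have h1 : D (s ^ n) = 0 := by
    rw [Derivation.leibniz_pow, hs]
    simp
  refine ⟨by rw [map_add, Derivation.map_algebraMap, h1, add_zero], ?_⟩
  by_cases h0 : s ^ n = 0
  · rw [h0, inv_zero, map_zero]
  · rw [Derivation.leibniz_inv, h1, smul_zero]

/-- derivative of `κ A (1 + s T)^a - 1` -/
theorem der_form {L : Type v} [Field L] [Algebra k L] (D : Derivation k L L) (s A T κ : L)
    (hs : D s = 0) (hA : D A = 0) (hκ : D κ = 0) (a : ℕ) :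
    D (κ * (A * (1 + s * T) ^ a) - 1) =
      s * (κ * (A * ((a : L) * (1 + s * T) ^ (a - 1) * D T))) := by
  have h1 : D (1 + s * T) = s * D T := by
    rw [map_add, Derivation.map_one_eq_zero, Derivation.leibniz, hs, smul_zero, add_zero,
      zero_add, smul_eq_mul]
  rw [map_sub, Derivation.map_one_eq_zero, Derivation.leibniz, hκ, Derivation.leibniz, hA,
    Derivation.leibniz_pow, h1]
  simp only [smul_eq_mul, nsmul_eq_mul]
  ring

theorem der_form' {L : Type v} [Field L] [Algebra k L] (D : Derivation k L L)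
    (Ψ : RatFunc k →ₐ[k] L) (hΨ : D (Ψ RatFunc.X) = 0) (g : RatFunc k) (c' κ' : k) (s T : L)
    (hs0 : s ≠ 0) (hs : D s = 0) (r : ℤ) (a : ℕ) :
    D (algebraMap k L κ' * ((Ψ g * (algebraMap k L c' * s ^ r)) * (1 + s * T) ^ a) - 1) =
      s * (algebraMap k L κ' * ((Ψ g * (algebraMap k L c' * s ^ r)) *
        ((a : L) * (1 + s * T) ^ (a - 1) * D T))) := by
  have h3 : D (s ^ r) = 0 := by
    rw [Phi2.der_zpow D (q := 0) hs0 (by rw [hs, zero_mul]), mul_zero, zero_mul]
  refine der_form D s _ T _ hs ?_ (Derivation.map_algebraMap D _) a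
  rw [Derivation.leibniz, Derivation.leibniz, der_psi D Ψ hΨ, h3, Derivation.map_algebraMap]
  simp

variable {m : ℕ}

theorem exists_der (i : Fin m) : ∃ (Δ : Phi2.DDer k (EE k m)) (D : Phi2.DDer k (LL k m)),
    (∀ f r, HahnSeries.coeff (D f) r = Δ (HahnSeries.coeff f r)) ∧ D (ss k m) = 0 ∧
      (∀ j, D (TL k m j) = if i = j then TL k m j else 0) ∧
      ∀ j, Δ (TT k m j) = if i = j then TT k m j else 0 := by
  obtain ⟨Δ, hΔ⟩ := heul_exists (k := k) (Γ := Lex (Fin m → ℤ)) (R := k) (Phi2.crd m i)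
  obtain ⟨D, hadd, hmul, hD⟩ := Phi2.hcoef_fun (k := k) (Γ := ℤ) (R := EE k m) Δ
  have hC : ∀ a, D (HahnSeries.C a) = HahnSeries.C (Δ a) := by
    intro a
    ext γ
    rw [hD, HahnSeries.C_apply, HahnSeries.C_apply]
    by_cases h : γ = 0
    · subst h
      simp
    · rw [HahnSeries.coeff_single_of_ne h, HahnSeries.coeff_single_of_ne h, map_zero]
  obtain ⟨D', hD'⟩ := Phi2.mkDer (k := k) (L := LL k m) D hadd hmul (fun c => by
      rw [algebraMap_eq]
      refine (hC _).trans ?_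
      rw [Derivation.map_algebraMap, map_zero])
  have hT : ∀ j, Δ (TT k m j) = if i = j then TT k m j else 0 := by
    intro j
    ext γ
    rw [hΔ]
    by_cases h : γ = toLex (Pi.single j (1 : ℤ))
    · subst h
      unfold TT
      by_cases hij : i = j
      · subst hij
        simp [Phi2.crd]
      · simp [Phi2.crd, hij]
    · have h0 : (TT k m j).coeff γ = 0 := by
        unfold TT
        rw [HahnSeries.coeff_single_of_ne h]
      rw [h0, mul_zero]
      split_ifs
      · rw [h0]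
      · rfl
  refine ⟨Δ, D', fun f r => by rw [hD']; exact hD f r, ?_, ?_, hT⟩
  · rw [hD']
    change D (ss k m) = 0
    ext γ
    rw [hD]
    unfold ss
    by_cases h : γ = 1
    · subst h
      simp
    · rw [HahnSeries.coeff_single_of_ne h, map_zero]
      rfl
  · intro j
    rw [hD']
    unfold TL
    refine (hC _).trans ?_
    rw [hT]
    split_ifs
    · rfl
    · rw [map_zero]

end Der

/-! ### coefficients -/
section Coef
variable {E : Type v} [Field E]

theorem coeff_s_mul (b : LaurentSeries E) (r : ℤ) : (s E * b).coeff (r + 1) = b.coeff r := by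
  have := HahnSeries.coeff_single_mul_add (r := (1 : E)) (x := b) (a := r) (b := (1 : ℤ))
  rw [one_mul] at this
  exact this

theorem Ld_one_of_R {a : LaurentSeries E} (h : R a 0) : Ld a 1 (a.coeff 1) := by
  have e : s E * (s E ^ (-1 : ℤ) * a) = a := by
    rw [← mul_assoc, zpow_neg_one, mul_inv_cancel₀ s_ne, one_mul]
  refine ⟨s E ^ (-1 : ℤ) * a, ?_, ?_, ?_⟩
  · rw [zpow_one, e]
  · intro r hr
    rw [← coeff_s_mul, e]
    by_cases h0 : r + 1 = 0
    · rw [h0]; exact h.2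
    · exact h.1 _ (by omega)
  · rw [← coeff_s_mul, e]
    norm_num

theorem R_natCast (a : ℕ) : R (a : LaurentSeries E) (a : E) := by
  have := R.C (a : E)
  rwa [map_natCast] at this

theorem abs_in {k : Type u} [Field k] [Algebra k E] {K : Type w} [Field K] [Algebra k K]
    (Φ : K →ₐ[k] LaurentSeries E) (Ψ : RatFunc k →ₐ[k] LaurentSeries E) (g : RatFunc k)
    (c' κ : k) (hκ0 : κ ≠ 0) (r : ℤ) (a : ℕ) (T : LaurentSeries E) (T0 : E) (hT : R T T0) (f : K)
    (hf : Φ f = Ψ g * (algebraMap k (LaurentSeries E) c' * s E ^ r) * (1 + s E * T) ^ a)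
    (hRA : R (Ψ g * (algebraMap k (LaurentSeries E) c' * s E ^ r)) (algebraMap k E κ)) :
    ∃ (t : K) (τ : E), Ld (Φ t) 1 τ ∧ ∀ (Δ : E → E) (D : Phi2.DDer k (LaurentSeries E)),
      (∀ f r, HahnSeries.coeff (D f) r = Δ (HahnSeries.coeff f r)) → D (s E) = 0 →
      D (Ψ RatFunc.X) = 0 → ∀ T1 : E, R (D T) T1 → Δ τ = (a : E) * T1 := by
  have hR1 : R (1 + s E * T) 1 := by
    have h := (R.s_pow (E := E) le_rfl).mul hT
    rw [pow_one, zero_mul] at h
    have := (R.one (E := E)).add h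
    rwa [add_zero] at this
  have ht : Φ (algebraMap k K κ⁻¹ * f - 1) =
      algebraMap k (LaurentSeries E) κ⁻¹ * (Ψ g * (algebraMap k (LaurentSeries E) c' * s E ^ r) *
        (1 + s E * T) ^ a) - 1 := by
    rw [map_sub, map_mul, map_one, AlgHom.commutes, hf]
  have hRt : R (Φ (algebraMap k K κ⁻¹ * f - 1)) 0 := by
    rw [ht]
    have h1 := ((R.algebraMap (E := E) κ⁻¹).mul (hRA.mul (hR1.pow a))).sub R.one
    rwa [one_pow, mul_one, ← map_mul, inv_mul_cancel₀ hκ0, map_one, sub_self] at h1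
  refine ⟨algebraMap k K κ⁻¹ * f - 1, _, Ld_one_of_R hRt, fun Δ D hΔ hs hX T1 hT1 => ?_⟩
  rw [← hΔ, ht, der_form' D Ψ hX g c' κ⁻¹ (s E) T s_ne hs r a]
  have h6 := coeff_s_mul (E := E) (algebraMap k (LaurentSeries E) κ⁻¹ *
    (Ψ g * (algebraMap k (LaurentSeries E) c' * s E ^ r) * ((a : LaurentSeries E) *
      (1 + s E * T) ^ (a - 1) * D T))) 0
  rw [zero_add] at h6
  have h7 := (R.algebraMap (E := E) κ⁻¹).mul (hRA.mul (((R_natCast (E := E) a).mul
    (hR1.pow (a - 1))).mul hT1))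
  rw [h6, h7.2, one_pow, mul_one, ← mul_assoc, ← map_mul, inv_mul_cancel₀ hκ0, map_one, one_mul]

end Coef

/-! ### residues -/
section Res
variable {k : Type u} [Field k] [CharZero k] {m : ℕ} {K : Type v} [Field K] [Algebra k K]
  {C : Ctx k K m}

theorem R_if {E : Type v} [Field E] {p : Prop} [Decidable p] {a : LaurentSeries E} {e : E} (h : R a e) :
    R (if p then a else 0) (if p then e else 0) := by
  split_ifs
  · exact h
  · exact R.zero

/-- the derivations used to separate the residues -/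
def IsDer (j : Fin m) (Δ : Phi2.DDer k (EE k m)) (D : Phi2.DDer k (LL k m)) : Prop :=
  (∀ f r, HahnSeries.coeff (D f) r = Δ (HahnSeries.coeff f r)) ∧ D (ss k m) = 0 ∧
      (∀ l, D (TL k m l) = if j = l then TL k m l else 0) ∧
      ∀ l, Δ (TT k m l) = if j = l then TT k m l else 0

theorem der_zetaV {j : Fin m} {Δ : Phi2.DDer k (EE k m)} {D : Phi2.DDer k (LL k m)}
    (h : IsDer j Δ D) (P : Option k) (n : ℕ) : D (zetaV P n) = 0 := by
  rw [zeta_eq]
  cases P with
  | some c => exact (der_zt (L := LL k m) D (ss k m) h.2.1 c n).1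
  | none => exact (der_zt (L := LL k m) D (ss k m) h.2.1 (0 : k) n).2

variable {P : Option k} {n : ℕ} (hn : 1 ≤ n) {c : Fin m → k} (hc : ∀ i, c i ≠ 0)
  {w : Fin m → ℤ} {β : Matrix (Fin m) (Fin m) ℤ} {B : Fin m → Fin m → ℤ}
  (hB : ∀ i j, β i j = B i j) {I : Finset (Fin m)} {Φ : K →ₐ[k] LL k m}
  (hz : Φ (C.ι RatFunc.X) = zetaV P n)
  (hx : ∀ j, Φ (C.x j) = xi c w β I j)

include hn hc hB hz hx in
theorem res_in {i : Fin m} (hi : i ∈ I) (a : ℕ) (g : RatFunc k) (hg : g ≠ 0)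
    (e : Fin m → ℤ) (he : ∀ i', ∑ j, B i' j * e j = if i' = i then (a : ℤ) else 0)
    (h0 : (n : ℤ) * ordAt P g + ∑ l, w l * e l = 0) :
    ∃ (t : K) (τ : EE k m), Ld (Φ t) 1 τ ∧ ∀ j Δ D, IsDer j Δ D →
      Δ τ = if j = i then (a : EE k m) * TT k m i else 0 := by
  set κ : k := lc P g * ∏ j, c j ^ e j with hκ
  have hκ0 : κ ≠ 0 := mul_ne_zero (lc_ne P g) (Finset.prod_ne_zero_iff.2 fun j _ =>
    zpow_ne_zero _ (hc j))
  set c' : k := ∏ j, c j ^ e j with hc'
  set r : ℤ := ∑ l, w l * e l with hr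
  set A : LL k m := (Φ.comp C.ι) g * (algebraMap k (LL k m) c' * ss k m ^ r) with hA
  have hRA : R A (algebraMap k (EE k m) κ) := by
    have h1 := (Ld_phi_iota hn hz hg).mul ((Ld_cc (m := m) c').mul (Ld_ss r))
    rw [zero_add, h0, mul_one, ← map_mul, cc_eq] at h1
    exact h1.to_R
  have hprod : ∏ i', eta k m I i' ^ ∑ j, B i' j * e j = (1 + ss k m * TL k m i) ^ a := by
    have h1 : ∀ i', eta k m I i' ^ ∑ j, B i' j * e j =
        if i' = i then (1 + ss k m * TL k m i) ^ a else 1 := by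
      intro i'
      rw [he]
      by_cases h : i' = i
      · rw [if_pos h, if_pos h, h]
        unfold eta
        rw [if_pos hi]
        exact zpow_natCast _ _
      · rw [if_neg h, if_neg h]
        exact zpow_zero _
    rw [Finset.prod_congr rfl fun i' _ => h1 i', Finset.prod_ite_eq' Finset.univ i,
      if_pos (Finset.mem_univ i)]
  have hmon : Φ (C.mon g e) = A * (1 + ss k m * TL k m i) ^ a := by
    rw [phi_mon hc hB hx, hprod, cc_eq]
    exact (mul_assoc (Φ (C.ι g)) (algebraMap k (LL k m) c' * ss k m ^ r)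
      ((1 + ss k m * TL k m i) ^ a)).symm
  obtain ⟨t, τ, h1, h2⟩ := abs_in (E := EE k m) Φ (Φ.comp C.ι) g c' κ hκ0 r a (TL k m i)
    (TT k m i) (R_TL i) (C.mon g e) hmon hRA
  refine ⟨t, τ, h1, fun j Δ D hD => ?_⟩
  have hX : D ((Φ.comp C.ι) RatFunc.X) = 0 := by
    rw [AlgHom.comp_apply, hz]
    exact der_zetaV hD P n
  have hT1 : R (D (TL k m i)) (if j = i then TT k m i else 0) := by
    rw [hD.2.2.1]
    exact R_if (E := EE k m) (R_TL i)
  have h3 := h2 Δ D hD.1 hD.2.1 hX _ hT1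
  refine h3.trans ?_
  split_ifs
  · rfl
  · exact mul_zero (a : EE k m)

include hn hc hB hz hx in
theorem res_out {i : Fin m} (hi : i ∉ I) (b : ℤ) (g : RatFunc k) (hg : g ≠ 0)
    (e : Fin m → ℤ) (he : ∀ i', ∑ j, B i' j * e j = if i' = i then b else 0)
    (h0 : (n : ℤ) * ordAt P g + ∑ l, w l * e l = 0) :
    ∃ (ρ : EE k m), ρ ≠ 0 ∧ R (Φ (C.mon g e)) ρ ∧ ∀ j Δ D, IsDer j Δ D →
      Δ ρ = if j = i then (b : EE k m) * ρ else 0 := by
  set κ : k := lc P g * ∏ j, c j ^ e j with hκ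
  have hκ0 : κ ≠ 0 := mul_ne_zero (lc_ne P g) (Finset.prod_ne_zero_iff.2 fun j _ =>
    zpow_ne_zero _ (hc j))
  have hprod : ∏ i', eta0 k m I i' ^ ∑ j, B i' j * e j = TT k m i ^ b := by
    have h1 : ∀ i', eta0 k m I i' ^ ∑ j, B i' j * e j = if i' = i then TT k m i ^ b else 1 := by
      intro i'
      rw [he]
      by_cases h : i' = i
      · rw [if_pos h, if_pos h, h]
        unfold eta0
        rw [if_neg hi]
      · rw [if_neg h, if_neg h]
        exact zpow_zero _
    rw [Finset.prod_congr rfl fun i' _ => h1 i', Finset.prod_ite_eq' Finset.univ i,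
      if_pos (Finset.mem_univ i)]
  have h1 := Ld_phi_mon hn hc hB hz hx hg e
  rw [h0, hprod, ← hκ] at h1
  have hρ0 : algebraMap k (EE k m) κ * TT k m i ^ b ≠ 0 :=
    mul_ne_zero (fun h => hκ0 ((map_eq_zero _).1 h)) (zpow_ne_zero _ (TT_ne i))
  refine ⟨_, hρ0, h1.to_R, fun j Δ D hD => ?_⟩
  have h2 : Δ (TT k m i) = (if j = i then (1 : EE k m) else 0) * TT k m i := by
    rw [hD.2.2.2]
    split_ifs
    · rw [one_mul]
    · rw [zero_mul]
  have h3 := Phi2.der_zpow (L := EE k m) Δ (s := TT k m i) (TT_ne i) h2 b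
  rw [Derivation.leibniz, Derivation.map_algebraMap, h3]
  split_ifs
  · simp only [smul_eq_mul]
    ring
  · simp

end Res

/-! ### the theorem -/
section Main
variable {k : Type u} [Field k] [IsAlgClosed k] [CharZero k] {m : ℕ} {K : Type v} [Field K]
  [Algebra k K] {C : Ctx k K m}

theorem ordAt_zP {E : Type v} [Field E] [Algebra k E] (P : Option k) {n : ℕ} (hn : 1 ≤ n)
    (Ψ : RatFunc k →ₐ[k] LaurentSeries E) (hΨ : Ψ RatFunc.X = zt P n) (r : ℤ) :
    zP P ^ r ≠ 0 ∧ ordAt P (zP P ^ r) = r := by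
  have hz0 : zP P ≠ 0 := by
    intro h0
    have := psi_zP P Ψ hΨ
    rw [h0, map_zero] at this
    exact pow_ne_zero n s_ne this.symm
  have h0 : zP P ^ r ≠ 0 := zpow_ne_zero _ hz0
  refine ⟨h0, ?_⟩
  have h1 := psi_order P hn Ψ hΨ h0
  rw [map_zpow₀, psi_zP P Ψ hΨ] at h1
  have h3 : ((s E ^ n) ^ r : LaurentSeries E) = s E ^ ((n : ℤ) * r) := by
    rw [← zpow_natCast, ← zpow_mul]
  rw [h3, order_s_zpow] at h1
  exact (mul_left_cancel₀ (by omega) h1).symm

theorem indep_res {ρ : Fin m → EE k m} (Δ : Fin m → Phi2.DDer k (EE k m)) (q : Fin m → EE k m)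
    (hq : ∀ i, q i ≠ 0) (h : ∀ i j, Δ j (ρ i) = if j = i then q i else 0) :
    AlgebraicIndependent k ρ := by
  apply jac_indep (k := k) (L := EE k m) Δ ρ
  have e : (Matrix.of fun i j => Δ i (ρ j)) = Matrix.diagonal q := by
    ext i j
    rw [Matrix.of_apply, h, Matrix.diagonal_apply]
    by_cases hij : i = j
    · subst hij; simp
    · rw [if_neg hij, if_neg hij]
  rw [e, Matrix.det_diagonal]
  exact Finset.prod_ne_zero_iff.2 fun i _ => hq i

theorem natCast_TT_ne {a : ℕ} (ha : 0 < a) (i : Fin m) : (a : EE k m) * TT k m i ≠ 0 := by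
  haveI : CharZero (EE k m) :=
    charZero_of_injective_algebraMap (algebraMap k (EE k m)).injective
  exact mul_ne_zero (Nat.cast_ne_zero.2 ha.ne') (TT_ne i)

open Classical in
theorem rk_eq (X : TV C) (x : MaximalSpectrum X.A) :
    rk (X.hS x.asIdeal) = Module.finrank ℚ (Submodule.span ℚ
        {y : Fin m → ℚ | ∃ u ∈ Gam X x.asIdeal x.isMaximal.isPrime, y = fun i => (u i : ℚ)}) := by
  have e : {y : Fin m → ℚ | ∃ g u, X.hS x.asIdeal g u ∧ y = fun i => (u i : ℚ)} =
      {y : Fin m → ℚ | ∃ u ∈ Gam X x.asIdeal x.isMaximal.isPrime, y = fun i => (u i : ℚ)} := by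
    ext y
    constructor
    · rintro ⟨g, u, h, rfl⟩
      exact ⟨u, ⟨g, h⟩, rfl⟩
    · rintro ⟨u, ⟨g, h⟩, rfl⟩
      exact ⟨g, u, h, rfl⟩
  unfold rk
  rw [e]

end Main

end LeV

section LE
variable {k : Type u} [Field k] [IsAlgClosed k] [CharZero k] {m : ℕ} {K : Type v} [Field K]
  [Algebra k K] {C : Ctx k K m}

open Ser LeV in
theorem le_vert (X : TV C) (x : MaximalSpectrum X.A) (V : HV k m)
    (hV : V.CenterEq X x.asIdeal) (hn : 1 ≤ V.n) (hr : 1 ≤ rk (X.hS x.asIdeal)) :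
    ∃ (v : DVal k K) (j : ℤ), v.IsDivisorial m ∧ v.HasCenter X.A x.asIdeal ∧
      v.FormOrd C.der j ∧ (∀ g u, g ≠ 0 → v.ord (C.mon g u) = V.val g u) ∧
      j + 1 ≤ V.disc + rk (X.hS x.asIdeal) := by
  have hpr : x.asIdeal.IsPrime := x.isMaximal.isPrime
  obtain ⟨ev, hev⟩ := exists_ev X x
  -- an auxiliary embedding of `k(z)`
  obtain ⟨Φ₀, hz₀, -⟩ := phi_vert (F := k) C V.P V.n hn (fun _ => 1) (fun _ => one_ne_zero) 0 1
    (by rw [Matrix.det_one]; exact one_ne_zero) ∅
  have hΨ : (Φ₀.comp C.ι) RatFunc.X = zt V.P V.n := by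
    rw [AlgHom.comp_apply, hz₀, zeta_eq]
  obtain ⟨c, hc, hcψ⟩ := chext (F := k) (Gam X x.asIdeal hpr) (psi X x.asIdeal ev V.P)
    (psi_ne hV hn (Φ₀.comp C.ι) hΨ hev) (psi_add hV hn (Φ₀.comp C.ι) hΨ hev)
  obtain ⟨β, I, α, e, hβ, hI, hβΓ, hα, hβe, heΓ, -⟩ := beta (Gam X x.asIdeal hpr)
  obtain ⟨Φ, hz, hx⟩ := phi_vert (F := k) C V.P V.n hn c hc V.w β hβ I
  obtain ⟨B, hB⟩ : ∃ B : Fin m → Fin m → ℤ, ∀ i j, β i j = B i j := ⟨fun i j => β i j, fun _ _ => rfl⟩
  have hβΓ' : ∀ u ∈ Gam X x.asIdeal hpr, ∀ i ∉ I, ∑ j, B i j * u j = 0 := by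
    intro u hu i hi
    rw [← hβΓ u hu i hi]
    exact Finset.sum_congr rfl fun j _ => by rw [← hB]
  have hBe : ∀ i i', ∑ j, B i' j * e i j = if i = i' then α else 0 := by
    intro i i'
    rw [← hβe i i']
    exact Finset.sum_congr rfl fun j _ => by rw [← hB]
  clear hβΓ hβe
  rw [← rk_eq X x] at hI
  obtain ⟨a, rfl⟩ : ∃ a : ℕ, α = a := ⟨α.toNat, by omega⟩
  have ha : 0 < a := by exact_mod_cast hα
  -- orders
  have hord : ∀ g u, g ≠ 0 → (Φ (C.mon g u)).order = V.val g u := fun g u hg =>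
    (Ld_phi_mon hn hc hB hz hx hg u).order_eq (Ld_phi_mon_ne hn hc hB hz hx g u)
  -- values
  have hR : ∀ b : X.A, R (Φ (b : K)) (algebraMap k (EE k m) (ev b)) := by
    intro b
    obtain ⟨S, g, hS, hg⟩ := gr1 X b
    have hsum : b = ∑ u ∈ S.attach, (⟨C.mon (g u) u, (hg u u.2).2⟩ : X.A) := by
      apply Subtype.ext
      rw [hS, ← Finset.sum_attach]
      simp
    have h1 : Φ (b : K) = ∑ u ∈ S.attach, Φ (C.mon (g u) u) := by
      rw [hS, map_sum, ← Finset.sum_attach]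
    have h2 : algebraMap k (EE k m) (ev b) =
        ∑ u ∈ S.attach, algebraMap k (EE k m) (ev ⟨C.mon (g u) u, (hg u u.2).2⟩) := by
      conv_lhs => rw [hsum]
      rw [map_sum, map_sum]
    rw [h1, h2]
    refine R.sum _ fun u _ => ?_
    have hA := hg u u.2
    by_cases hSu : X.hS x.asIdeal (g u) u
    · have h3 := Ld_phi_mon hn hc hB hz hx hA.1 u
      have h4 : V.val (g u) u = 0 := (center_val hV hA).2 hSu
      have h5 : (u : Fin m → ℤ) ∈ Gam X x.asIdeal hpr := ⟨g u, hSu⟩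
      rw [eta0_prod (I := I) _ (hβΓ' u h5), mul_one, hcψ u h5,
        psi_eq hV hn (Φ₀.comp C.ι) hΨ hev hSu, mul_div_cancel₀ _ (lc_ne V.P (g u)),
        evK_eq hSu.2.1] at h3
      have h6 : (V.n : ℤ) * ordAt V.P (g u) + ∑ i, V.w i * (u : Fin m → ℤ) i = 0 := h4
      rw [h6] at h3
      exact h3.to_R
    · have h3 := Ld_phi_mon hn hc hB hz hx hA.1 u
      have h4 : 0 < V.val (g u) u := (hV.2 _ _ hA).2 hSu
      have h5 : ev ⟨C.mon (g u) u, hA.2⟩ = 0 := by
        rw [hev]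
        by_contra h
        exact hSu ⟨hA.1, hA.2, h⟩
      rw [h5, map_zero]
      exact h3.R_of_pos h4
  -- the quotients of degree `e i`, `i ∈ I`
  have hquot : ∀ i ∈ I, ∃ g : RatFunc k, g ≠ 0 ∧
      (V.n : ℤ) * ordAt V.P g + ∑ l, V.w l * e i l = 0 := by
    intro i hi
    obtain ⟨u, ⟨g₁, h₁⟩, t, ⟨g₂, h₂⟩, hut⟩ := heΓ i hi
    refine ⟨g₁ / g₂, div_ne_zero h₁.1 h₂.1, ?_⟩
    have h3 : V.val g₁ u = 0 := (center_val hV (LeV.hS_hA h₁)).2 h₁
    have h4 : V.val g₂ t = 0 := (center_val hV (LeV.hS_hA h₂)).2 h₂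
    have h5 : ordAt V.P g₁ = ordAt V.P (g₁ / g₂) + ordAt V.P g₂ := by
      rw [← ordAt_mul V.P (div_ne_zero h₁.1 h₂.1) h₂.1, div_mul_cancel₀ _ h₂.1]
    have h6 : ∑ l, V.w l * u l = ∑ l, V.w l * e i l + ∑ l, V.w l * t l := by
      rw [← Finset.sum_add_distrib]
      refine Finset.sum_congr rfl fun l _ => ?_
      rw [← hut, Pi.add_apply]
      ring
    unfold HV.val at h3 h4
    rw [h5, h6, mul_add] at h3
    omega
  choose Δ D hD using exists_der (k := k) (m := m)
  have hD' : ∀ j, IsDer j (Δ j) (D j) := hD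
  -- elements of order one
  have hT : ∀ i ∈ I, ∃ (t : K) (τ : EE k m), Ld (Φ t) 1 τ ∧
      ∀ j, Δ j τ = if j = i then (a : EE k m) * TT k m i else 0 := by
    intro i hi
    obtain ⟨g, hg, h0⟩ := hquot i hi
    obtain ⟨t, τ, h1, h2⟩ := res_in hn hc hB hz hx hi a g hg (e i)
      (fun i' => by rw [hBe]; simp only [eq_comm]) h0
    exact ⟨t, τ, h1, fun j => h2 j _ _ (hD' j)⟩
  have hτ : ∀ i (τ : EE k m), (∀ j, Δ j τ = if j = i then (a : EE k m) * TT k m i else 0) →
      τ ≠ 0 := by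
    rintro i τ h rfl
    have h1 := h i
    rw [if_pos rfl, map_zero] at h1
    exact natCast_TT_ne ha i h1.symm
  obtain ⟨i₀, hi₀⟩ : I.Nonempty := by
    rw [← Finset.card_pos, hI]
    exact hr
  obtain ⟨t₀, τ₀, h₀, h₀'⟩ := hT i₀ hi₀
  have hτ₀ := hτ i₀ τ₀ h₀'
  obtain ⟨v, hv⟩ := exists_dval (L := EE k m) Φ ⟨t₀, fun h => h₀.ne_zero hτ₀ (by rw [h, map_zero]),
    h₀.order_eq hτ₀⟩
  have hint : ∀ b : K, ∀ f : EE k m, R (Φ b) f → v.Integral b := by
    intro b f hb hb0
    rw [hv b hb0]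
    exact hb.order_nonneg
  have hint' : ∀ b : K, v.Integral b → 0 ≤ (Φ b).order := by
    intro b hb
    by_cases h0 : b = 0
    · rw [h0, map_zero, HahnSeries.order_zero]
    · rw [← hv b h0]
      exact hb h0
  -- form order
  obtain ⟨j, hj, hjN⟩ := formOrd_exists (C := C) v (1 - (V.n * kap V.P + ∑ i, V.w i + I.card)) (by
    intro b hb hJ
    rw [hv _ hJ]
    exact bound_vert C V.P V.n hn c hc V.w β hβ I Φ hz hx b (fun i => hint' _ (hb i)) hJ)
  refine ⟨v, j, ?_, ⟨fun b => hint _ _ (hR b), fun b => ?_⟩, hj, fun g u hg => ?_, ?_⟩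
  · -- divisorial
    have hsn : ∀ r : ℤ, Ld ((s (EE k m) ^ V.n) ^ r) (V.n * r) 1 := by
      intro r
      have h3 : ((s (EE k m) ^ V.n) ^ r : LaurentSeries (EE k m)) =
          s (EE k m) ^ ((V.n : ℤ) * r) := by
        rw [← zpow_natCast, ← zpow_mul]
      rw [h3]
      exact Ld.s_zpow _
    have hres : ∀ i, ∃ (t : K) (ρ q : EE k m), R (Φ t) ρ ∧ q ≠ 0 ∧
        ∀ j, Δ j ρ = if j = i then q else 0 := by
      intro i
      by_cases hi : i ∈ I
      · obtain ⟨t, τ, h1, h2⟩ := hT i hi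
        have hτ0 := hτ i τ h2
        haveI : CharZero (EE k m) :=
          charZero_of_injective_algebraMap (algebraMap k (EE k m)).injective
        refine ⟨t ^ V.n * C.ι (zP V.P) ^ (-1 : ℤ), τ ^ V.n,
          (V.n : EE k m) * τ ^ (V.n - 1) * ((a : EE k m) * TT k m i), ?_, ?_, ?_⟩
        · have h3 : Φ (t ^ V.n * C.ι (zP V.P) ^ (-1 : ℤ)) =
              Φ t ^ (V.n : ℤ) * (s (EE k m) ^ V.n) ^ (-1 : ℤ) := by
            rw [map_mul, map_pow, map_zpow₀, zpow_natCast]
            have h4 : Φ (C.ι (zP V.P)) = s (EE k m) ^ V.n :=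
              psi_zP (E := EE k m) V.P (Φ.comp C.ι) (by rw [AlgHom.comp_apply, hz, zeta_eq])
            rw [h4]
          rw [h3]
          have h5 := (h1.zpow hτ0 (V.n : ℤ)).mul (hsn (-1))
          have h6 : (V.n : ℤ) * 1 + (V.n : ℤ) * (-1) = 0 := by ring
          rw [h6, mul_one, zpow_natCast] at h5
          exact h5.to_R
        · exact mul_ne_zero (mul_ne_zero (Nat.cast_ne_zero.2 (by omega)) (pow_ne_zero _ hτ0))
            (natCast_TT_ne ha i)
        · intro j
          rw [Derivation.leibniz_pow, h2]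
          split_ifs
          · simp only [smul_eq_mul, nsmul_eq_mul]
            ring
          · simp
      · have hzP := ordAt_zP (E := EE k m) V.P hn (Φ.comp C.ι)
          (by rw [AlgHom.comp_apply, hz, zeta_eq]) (-∑ l, V.w l * e i l)
        obtain ⟨ρ, h1, h2, h3⟩ := res_out hn hc hB hz hx hi ((V.n : ℤ) * a)
          (zP V.P ^ (-∑ l, V.w l * e i l)) hzP.1 (fun l => V.n * e i l) (by
            intro i'
            have h4 : ∑ j, B i' j * ((V.n : ℤ) * e i j) = V.n * ∑ j, B i' j * e i j := by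
              rw [Finset.mul_sum]
              exact Finset.sum_congr rfl fun _ _ => by ring
            rw [h4, hBe]
            by_cases h5 : i = i'
            · rw [if_pos h5, if_pos h5.symm]
            · rw [if_neg h5, if_neg (Ne.symm h5), mul_zero]) (by
            rw [hzP.2]
            have h4 : ∑ l, V.w l * ((V.n : ℤ) * e i l) = V.n * ∑ l, V.w l * e i l := by
              rw [Finset.mul_sum]
              exact Finset.sum_congr rfl fun _ _ => by ring
            rw [h4]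
            ring)
        haveI : CharZero (EE k m) :=
          charZero_of_injective_algebraMap (algebraMap k (EE k m)).injective
        refine ⟨_, ρ, (((V.n : ℤ) * a : ℤ) : EE k m) * ρ, h2, mul_ne_zero ?_ h1,
          fun j => h3 j _ _ (hD' j)⟩
        rw [Int.cast_ne_zero]
        positivity
    choose t ρ q h1 h2 h3 using hres
    refine ⟨t, fun i => hint _ _ (h1 i), fun F hF hsm => ?_⟩
    have hind := indep_res Δ q h2 fun i j => h3 i j
    have h4 : Φ (MvPolynomial.aeval t F) = MvPolynomial.aeval (fun i => Φ (t i)) F :=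
      MvPolynomial.comp_aeval_apply t Φ F
    have h5 := R.mvaeval (E := EE k m) h1 F
    rw [← h4] at h5
    have h6 : MvPolynomial.aeval ρ F ≠ 0 := fun h => hF ((hind.eq_zero_of_aeval_eq_zero F h))
    have h7 : (MvPolynomial.aeval t F : K) ≠ 0 := fun h => h5.ne_zero h6 (by rw [h, map_zero])
    have h8 := hsm h7
    rw [hv _ h7, h5.order_eq h6] at h8
    exact lt_irrefl _ h8
  · -- centre
    rw [← hev b]
    have hb := hR b
    constructor
    · intro h0 hb0
      rw [hv _ hb0]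
      rw [h0, map_zero] at hb
      exact hb.order_pos fun h => hb0 ((map_eq_zero Φ).1 h)
    · intro hsm
      by_contra h0
      have h1 : algebraMap k (EE k m) (ev b) ≠ 0 := fun h => h0 ((map_eq_zero _).1 h)
      have h2 : (b : K) ≠ 0 := fun h => hb.ne_zero h1 (by rw [h, map_zero])
      have h3 := hsm h2
      rw [hv _ h2, hb.order_eq h1] at h3
      exact lt_irrefl _ h3
  · rw [hv _ (mon_ne_zero C hg u), hord g u hg]
  · rw [← hI]
    unfold HV.disc
    omega

end LE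

end

end Pool.Agent.MLD
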