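import Pool.Agent.Lib.MP_f23696_ag.Ctx

/-!
Project LSC (MP_f23696_ag): instance bookkeeping for derivations of Laurent series fields.

For `Γ = ℤ` the instance `Algebra k (HahnSeries ℤ R)` found by Lean is `HahnSeries.powerSeriesAlgebra`
and NOT `HahnSeries.instAlgebra`, and `Module k (HahnSeries ℤ R)` is `HahnSeries.instModule`.
A lemma about an abstract field `L` with `[Algebra k L]` (such as `jac_chain`) uses
`Algebra.toModule`.  The lemmas below produce derivations for these instances.
-/

namespace Pool.Agent.MLD

universe u v w

/-- a derivation of `L/k` from an additive map (module structure `Algebra.toModule`). -/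
theorem mk_der {k : Type u} {L : Type v} [Field k] [Field L] [Algebra k L] (d : L → L)
    (hadd : ∀ f g, d (f + g) = d f + d g) (hmul : ∀ f g, d (f * g) = f * d g + g * d f)
    (hc : ∀ c : k, d (algebraMap k L c) = 0) : ∃ E : Derivation k L L, ∀ f, E f = d f := by
  refine ⟨Derivation.mk' { toFun := d, map_add' := hadd, map_smul' := ?_ } ?_, fun f => rfl⟩
  · intro c f
    rw [Algebra.smul_def, hmul, hc, mul_zero, add_zero, RingHom.id_apply, Algebra.smul_def]
  · intro f g
    change d (f * g) = f • d g + g • d f
    rw [hmul, smul_eq_mul, smul_eq_mul]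

theorem algebraMap_laurent' {k : Type u} {R : Type v} [Field k] [CommRing R] [Algebra k R] (c : k) :
    (algebraMap k (LaurentSeries R)) c = HahnSeries.C (algebraMap k R c) := by
  rw [HahnSeries.algebraMap_apply', PowerSeries.algebraMap_apply, HahnSeries.ofPowerSeries_C]

/-- Transport of a derivation of `HahnSeries ℤ R` for the generic instances
(`HahnSeries.instAlgebra`, `HahnSeries.instModule`) to a derivation of the field `LaurentSeries R`
for the instances used in lemmas about abstract fields. -/
theorem der_laurent {k : Type u} {R : Type v} [Field k] [Field R] [Algebra k R]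
    (E : @Derivation k (HahnSeries ℤ R) (HahnSeries ℤ R) _ _ _ HahnSeries.instAlgebra _
      HahnSeries.instModule) :
    ∃ E' : @Derivation k (LaurentSeries R) (LaurentSeries R) _ _ _
        (HahnSeries.powerSeriesAlgebra ℤ R) _ (HahnSeries.powerSeriesAlgebra ℤ R).toModule,
      ∀ f, E' f = E f := by
  refine mk_der (k := k) (L := LaurentSeries R) (fun f => E f) (fun f g => map_add E f g) ?_ ?_
  · intro f g
    have := @Derivation.leibniz k (HahnSeries ℤ R) (HahnSeries ℤ R) _ _ _
      HahnSeries.instAlgebra _ HahnSeries.instModule E f g
    simpa only [smul_eq_mul] using this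
  · intro c
    rw [algebraMap_laurent']
    have : (HahnSeries.C (algebraMap k R c) : HahnSeries ℤ R) =
        @algebraMap k (HahnSeries ℤ R) _ _ HahnSeries.instAlgebra c := by
      rw [HahnSeries.algebraMap_apply]
    rw [this]
    exact @Derivation.map_algebraMap k (HahnSeries ℤ R) (HahnSeries ℤ R) _ _ _
      HahnSeries.instAlgebra _ HahnSeries.instModule E c

end Pool.Agent.MLD
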