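import Pool.Agent.Lib.MP_f23696_ag.Gr

/-!
Orders of products, the rational basis of the coefficients of a local equation, values of
homogeneous local equations (auxiliary part of module NRM of the project LSC).
-/

namespace Pool.Agent.MLD

open scoped Classical
noncomputable section

universe u v w

namespace Nrm

section
variable {k : Type u} [Field k] {K : Type v} [Field K] [Algebra k K]

theorem ord_one (v : DVal k K) : v.ord (1 : K) = 0 := by
  have h := v.ord_mul 1 1 one_ne_zero one_ne_zero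
  rw [mul_one] at h
  omega

/-- The order as a homomorphism on the units. -/
def toHom (v : DVal k K) : Kˣ →* Multiplicative ℤ where
  toFun g := Multiplicative.ofAdd (v.ord (g : K))
  map_one' := by
    show Multiplicative.ofAdd (v.ord ((1 : Kˣ) : K)) = 1
    rw [Units.val_one, ord_one]
    rfl
  map_mul' a b := by
    show Multiplicative.ofAdd (v.ord ((a * b : Kˣ) : K)) = _
    rw [Units.val_mul, v.ord_mul _ _ a.ne_zero b.ne_zero]
    rfl

theorem ord_eq (v : DVal k K) (g : Kˣ) : v.ord (g : K) = Multiplicative.toAdd (toHom v g) := rfl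

theorem ord_prod_zpow (v : DVal k K) {ι : Type*} (s : Finset ι) (g : ι → Kˣ) (z : ι → ℤ) :
    v.ord ((∏ i ∈ s, g i ^ z i : Kˣ) : K) = ∑ i ∈ s, z i * v.ord (g i : K) := by
  rw [ord_eq, map_prod, toAdd_prod]
  refine Finset.sum_congr rfl fun i _ => ?_
  rw [map_zpow, toAdd_zpow, ord_eq, smul_eq_mul]

theorem ord_inv (v : DVal k K) (g : Kˣ) : v.ord ((g⁻¹ : Kˣ) : K) = -v.ord (g : K) := by
  rw [ord_eq, map_inv, toAdd_inv, ord_eq]

theorem val_sub (v : DVal k K) (γ₁ γ₂ : Kˣ →₀ ℝ) : v.val (γ₁ - γ₂) = v.val γ₁ - v.val γ₂ := by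
  unfold DVal.val
  exact Finsupp.sum_sub_index fun a b₁ b₂ => sub_mul _ _ _

/-- A common denominator of finitely many rational numbers. -/
theorem common_denom {ι : Type*} (s : Finset ι) (d : ι → ℚ) :
    ∃ N : ℕ, 0 < N ∧ ∀ i ∈ s, ∃ z : ℤ, (z : ℚ) = N * d i := by
  refine ⟨∏ i ∈ s, (d i).den, Finset.prod_pos fun i _ => (d i).den_pos, fun i hi => ?_⟩
  obtain ⟨c, hc⟩ := Finset.dvd_prod_of_mem (fun i => (d i).den) hi
  refine ⟨c * (d i).num, ?_⟩
  rw [hc]
  push_cast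
  have h1 : ((d i).den : ℚ) * d i = (d i).num := by
    rw [mul_comm]; exact Rat.mul_den_eq_num (d i)
  rw [← h1]; ring

theorem qbasis (γ : Kˣ →₀ ℝ) : ∃ (n : ℕ) (ρ : Fin n → ℝ) (h : Fin n → Kˣ),
    LinearIndependent ℚ ρ ∧ ∀ v : DVal k K, v.val γ = ∑ i, ρ i * (v.ord (h i : K) : ℝ) := by
  set W : Submodule ℚ ℝ := Submodule.span ℚ (γ.support.image γ : Finset ℝ) with hW
  have : FiniteDimensional ℚ W := FiniteDimensional.span_finset ℚ _
  have hmem : ∀ g : Kˣ, γ g ∈ W := by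
    intro g
    by_cases hg : g ∈ γ.support
    · exact Submodule.subset_span (by
        rw [Finset.mem_coe, Finset.mem_image]
        exact ⟨g, hg, rfl⟩)
    · rw [Finsupp.notMem_support_iff.mp hg]
      exact W.zero_mem
  set b := Module.finBasis ℚ W with hb
  set n := Module.finrank ℚ W with hn
  obtain ⟨N, hN, hz⟩ := common_denom (γ.support ×ˢ (Finset.univ : Finset (Fin n)))
    (fun x => b.repr ⟨γ x.1, hmem x.1⟩ x.2)
  choose! z hz using hz
  have hNQ : (N : ℚ) ≠ 0 := by exact_mod_cast hN.ne'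
  have hNR : (N : ℝ) ≠ 0 := by exact_mod_cast hN.ne'
  refine ⟨n, fun i => ((N : ℚ)⁻¹ : ℚ) • ((b i : W) : ℝ),
    fun i => ∏ g ∈ γ.support, g ^ z (g, i), ?_, ?_⟩
  · have h1 : LinearIndependent ℚ (fun i => ((b i : W) : ℝ)) :=
      b.linearIndependent.map' W.subtype (Submodule.ker_subtype W)
    have h2 := h1.units_smul (fun _ => Units.mk0 ((N : ℚ)⁻¹) (inv_ne_zero hNQ))
    exact h2
  · intro v
    have h1 : ∀ g : Kˣ, γ g = ∑ i, ((b.repr ⟨γ g, hmem g⟩ i : ℚ) : ℝ) * ((b i : W) : ℝ) := by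
      intro g
      have h2 := congrArg (fun x : W => (x : ℝ)) (b.sum_repr ⟨γ g, hmem g⟩)
      refine h2.symm.trans ?_
      show ((∑ i, b.repr ⟨γ g, hmem g⟩ i • b i : W) : ℝ) = _
      rw [AddSubmonoidClass.coe_finsetSum]
      refine Finset.sum_congr rfl fun i _ => ?_
      rw [Submodule.coe_smul, Rat.smul_def]
    unfold DVal.val Finsupp.sum
    have h3 : ∀ i, ((N : ℚ)⁻¹ • ((b i : W) : ℝ)) *
        ((v.ord ((∏ g ∈ γ.support, g ^ z (g, i) : Kˣ) : K) : ℤ) : ℝ) =
        ∑ g ∈ γ.support, ((b.repr ⟨γ g, hmem g⟩ i : ℚ) : ℝ) * ((b i : W) : ℝ) *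
          (v.ord (g : K) : ℝ) := by
      intro i
      rw [ord_prod_zpow, Int.cast_sum, Finset.mul_sum]
      refine Finset.sum_congr rfl fun g hg => ?_
      have h4 : ((z (g, i) : ℤ) : ℝ) = (N : ℝ) * ((b.repr ⟨γ g, hmem g⟩ i : ℚ) : ℝ) := by
        have h5 := hz (g, i) (Finset.mem_product.mpr ⟨hg, Finset.mem_univ _⟩)
        have h6 := congrArg (fun x : ℚ => (x : ℝ)) h5
        simp only [Rat.cast_intCast, Rat.cast_mul, Rat.cast_natCast] at h6
        exact h6
      rw [Int.cast_mul, h4, Rat.smul_def, Rat.cast_inv, Rat.cast_natCast]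
      field_simp
    simp only [h3]
    rw [Finset.sum_comm]
    refine Finset.sum_congr rfl fun g _ => ?_
    rw [← Finset.sum_mul, ← h1 g]

theorem ord_zero_of_sum {n : ℕ} (ρ : Fin n → ℝ) (hρ : LinearIndependent ℚ ρ) (z : Fin n → ℤ)
    (h : ∑ i, ρ i * (z i : ℝ) = 0) : ∀ i, z i = 0 := by
  have h1 := Fintype.linearIndependent_iff.mp hρ (fun i => (z i : ℚ)) (by
    rw [← h]
    refine Finset.sum_congr rfl fun i _ => ?_
    rw [Rat.smul_def, Rat.cast_intCast, mul_comm])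
  intro i
  exact_mod_cast h1 i

theorem ord_nonneg_of_center (A : Subalgebra k K) (q : Ideal A) (v : DVal k K)
    (hv : v.HasCenter A q) (f : K) (hf : f ≠ 0) (h : ∃ s : A, s ∉ q ∧ (s : K) * f ∈ A) :
    0 ≤ v.ord f := by
  obtain ⟨s, hs, hsf⟩ := h
  have hs0 : (s : K) ≠ 0 := by
    intro h0
    apply hs
    rw [show s = 0 from Subtype.ext h0]
    exact q.zero_mem
  have h1 : v.ord (s : K) ≤ 0 := by
    by_contra h2
    exact hs ((hv.2 s).mpr fun _ => not_le.mp h2)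
  have h3 : 0 ≤ v.ord ((s : K) * f) := hv.1 ⟨_, hsf⟩ (mul_ne_zero hs0 hf)
  rw [v.ord_mul _ _ hs0 hf] at h3
  linarith

end

end Nrm

section
variable {k : Type u} [Field k] {K : Type v} [Field K] [Algebra k K]

/-- The value of a local equation with real coefficients in terms of coefficients which are
linearly independent over the rational numbers. -/
theorem qbasis (γ : Kˣ →₀ ℝ) : ∃ (n : ℕ) (ρ : Fin n → ℝ) (h : Fin n → Kˣ),
    LinearIndependent ℚ ρ ∧ ∀ v : DVal k K, v.val γ = ∑ i, ρ i * (v.ord (h i : K) : ℝ) :=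
  Nrm.qbasis γ

end

section DIVS
variable {k : Type u} [Field k] [IsAlgClosed k] [CharZero k] {m : ℕ} {K : Type v} [Field K]
  [Algebra k K] {C : Ctx k K m}

theorem toEq_val (C : Ctx k K m) (γ' : (RatFunc k × (Fin m → ℤ)) →₀ ℝ)
    (hγ : ∀ h ∈ γ'.support, h.1 ≠ 0) (V : HV k m) (v : DVal k K) (N : ℝ)
    (h : ∀ g u, g ≠ 0 → N * v.ord (C.mon g u) = V.val g u) :
    N * v.val (C.toEq γ') = V.valR γ' := by
  unfold DVal.val Ctx.toEq HV.valR
  rw [Finsupp.sum_mapDomain_index (fun _ => zero_mul _) (fun _ _ _ => add_mul _ _ _)]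
  unfold Finsupp.sum
  rw [Finset.mul_sum]
  refine Finset.sum_congr rfl fun x hx => ?_
  have h1 : ((C.monU x : Kˣ) : K) = C.mon x.1 x.2 := by
    unfold Ctx.monU
    rw [dif_pos (mon_ne_zero C (hγ x hx) x.2)]
    rfl
  show N * (γ' x * (v.ord ((C.monU x : Kˣ) : K) : ℝ)) = γ' x * (V.val x.1 x.2 : ℝ)
  rw [h1, ← h x.1 x.2 (hγ x hx)]
  ring

end DIVS

end

end Pool.Agent.MLD
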