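import Pool.Agent.Lib.MP_f23696_ag.Gr
import Pool.Agent.Lib.MP_f23696_ag.Ord

/-!
Module CEN: the centre of a nonnegative homogeneous valuation, the homogeneous core of a prime
ideal, finitely many types of homogeneous valuations.
-/

namespace Pool.Agent.MLD

open scoped Classical
noncomputable section

universe u v w

variable {k : Type u} [Field k] {m : ℕ} {K : Type v} [Field K] [Algebra k K] {C : Ctx k K m}

namespace Cen

theorem mon_add (C : Ctx k K m) (g h : RatFunc k) (u : Fin m → ℤ) :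
    C.mon (g + h) u = C.mon g u + C.mon h u := by
  unfold Ctx.mon
  rw [map_add, add_mul]

theorem mon_zero (C : Ctx k K m) (u : Fin m → ℤ) : C.mon 0 u = 0 := by
  unfold Ctx.mon
  rw [map_zero, zero_mul]

theorem mon_neg (C : Ctx k K m) (g : RatFunc k) (u : Fin m → ℤ) :
    C.mon (-g) u = -C.mon g u := by
  unfold Ctx.mon
  rw [map_neg, neg_mul]

theorem mon_one (C : Ctx k K m) : C.mon 1 0 = 1 := by
  unfold Ctx.mon
  simp

/-- the element of `K` with the given homogeneous components -/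
def phi (C : Ctx k K m) : ((Fin m → ℤ) →₀ RatFunc k) →+ K where
  toFun c := c.sum fun u g => C.mon g u
  map_zero' := by simp
  map_add' c d := by
    rw [Finsupp.sum_add_index' (fun u => mon_zero C u) (fun u g h => mon_add C g h u)]

theorem phi_apply (C : Ctx k K m) (c : (Fin m → ℤ) →₀ RatFunc k) :
    phi C c = ∑ u ∈ c.support, C.mon (c u) u := rfl

theorem phi_single (C : Ctx k K m) (u : Fin m → ℤ) (g : RatFunc k) :
    phi C (Finsupp.single u g) = C.mon g u := by
  change (Finsupp.single u g).sum (fun u g => C.mon g u) = _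
  rw [Finsupp.sum_single_index (mon_zero C u)]

theorem phi_eq_zero (C : Ctx k K m) (c : (Fin m → ℤ) →₀ RatFunc k) (h : phi C c = 0) : c = 0 := by
  ext1 u
  by_cases hu : u ∈ c.support
  · exact C.li c.support c (by simpa [phi_apply, Ctx.mon] using h) u hu
  · simpa using hu

theorem phi_inj (C : Ctx k K m) {c d : (Fin m → ℤ) →₀ RatFunc k} (h : phi C c = phi C d) :
    c = d := by
  have := phi_eq_zero C (c - d) (by rw [map_sub, h, sub_self])
  exact sub_eq_zero.mp this

/-- sums of monomials with distinct degrees -/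
theorem phi_sum (C : Ctx k K m) (s : Finset (Fin m → ℤ)) (g : (Fin m → ℤ) → RatFunc k) :
    phi C (∑ u ∈ s, Finsupp.single u (g u)) = ∑ u ∈ s, C.mon (g u) u := by
  rw [map_sum]
  exact Finset.sum_congr rfl fun u _ => phi_single C u (g u)

theorem sum_single_apply (s : Finset (Fin m → ℤ)) (g : (Fin m → ℤ) → RatFunc k)
    (t : Fin m → ℤ) : (∑ u ∈ s, Finsupp.single u (g u)) t = if t ∈ s then g t else 0 := by
  rw [Finsupp.finsetSum_apply]
  simp only [Finsupp.single_apply]
  rw [Finset.sum_ite_eq']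

theorem exists_rep (X : TV C) (a : X.A) :
    ∃ c : (Fin m → ℤ) →₀ RatFunc k, phi C c = a ∧ ∀ u, c u ≠ 0 → X.hA (c u) u := by
  obtain ⟨s, g, h1, h2⟩ := gr1 X a
  refine ⟨∑ u ∈ s, Finsupp.single u (g u), ?_, ?_⟩
  · rw [phi_sum, h1]
  · intro u hu
    rw [sum_single_apply] at hu ⊢
    split_ifs at hu ⊢ with hs
    · exact h2 u hs
    · exact absurd rfl hu

theorem comp_mem (X : TV C) {c : (Fin m → ℤ) →₀ RatFunc k} (h : phi C c ∈ X.A)
    {u : Fin m → ℤ} (hu : c u ≠ 0) : X.hA (c u) u :=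
  ⟨hu, gr2 X c.support c h u (by simpa using hu)⟩

theorem hA_mul (X : TV C) {g h : RatFunc k} {u t : Fin m → ℤ} (hg : X.hA g u) (hh : X.hA h t) :
    X.hA (g * h) (u + t) :=
  ⟨mul_ne_zero hg.1 hh.1, by rw [mon_mul]; exact X.A.mul_mem hg.2 hh.2⟩

theorem hA_add (X : TV C) {g h : RatFunc k} {u : Fin m → ℤ} (hg : X.hA g u) (hh : X.hA h u)
    (hs : g + h ≠ 0) : X.hA (g + h) u :=
  ⟨hs, by rw [mon_add]; exact X.A.add_mem hg.2 hh.2⟩

theorem hA_one (X : TV C) : X.hA 1 0 :=
  ⟨one_ne_zero, by rw [mon_one]; exact X.A.one_mem⟩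

/-- the general construction of an invariant prime ideal from its homogeneous elements -/
theorem gen (X : TV C) (Q : RatFunc k → (Fin m → ℤ) → Prop)
    (hadd : ∀ g h u, X.hA g u → X.hA h u → Q g u → Q h u → g + h ≠ 0 → Q (g + h) u)
    (hmul : ∀ g h u t, X.hA g u → X.hA h t → Q g u → Q (g * h) (u + t))
    (hpr : ∀ g h u t, X.hA g u → X.hA h t → Q (g * h) (u + t) → Q g u ∨ Q h t)
    (h1 : ¬ Q 1 0) :
    ∃ p : Ideal X.A, p.IsPrime ∧ ∀ a : X.A, a ∈ p ↔ ∃ c : (Fin m → ℤ) →₀ RatFunc k,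
      phi C c = a ∧ ∀ u, c u ≠ 0 → X.hA (c u) u ∧ Q (c u) u := by
  -- closure properties
  have add_cl : ∀ c d : (Fin m → ℤ) →₀ RatFunc k, (∀ u, c u ≠ 0 → X.hA (c u) u ∧ Q (c u) u) →
      (∀ u, d u ≠ 0 → X.hA (d u) u ∧ Q (d u) u) →
      ∀ u, (c + d) u ≠ 0 → X.hA ((c + d) u) u ∧ Q ((c + d) u) u := by
    intro c d hc hd u hu
    rw [Finsupp.add_apply] at hu ⊢
    by_cases h0 : c u = 0
    · rw [h0, zero_add] at hu ⊢
      exact hd u hu
    by_cases h0' : d u = 0
    · rw [h0', add_zero] at hu ⊢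
      exact hc u hu
    exact ⟨hA_add X (hc u h0).1 (hd u h0').1 hu,
      hadd _ _ _ (hc u h0).1 (hd u h0').1 (hc u h0).2 (hd u h0').2 hu⟩
  have zero_cl : ∀ u, (0 : (Fin m → ℤ) →₀ RatFunc k) u ≠ 0 →
      X.hA ((0 : (Fin m → ℤ) →₀ RatFunc k) u) u ∧ Q ((0 : (Fin m → ℤ) →₀ RatFunc k) u) u := by
    intro u hu
    exact absurd rfl hu
  let S : AddSubmonoid K :=
    { carrier := {x | ∃ c : (Fin m → ℤ) →₀ RatFunc k,
        phi C c = x ∧ ∀ u, c u ≠ 0 → X.hA (c u) u ∧ Q (c u) u}
      zero_mem' := ⟨0, map_zero _, zero_cl⟩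
      add_mem' := by
        rintro x y ⟨c, hc, hc'⟩ ⟨d, hd, hd'⟩
        exact ⟨c + d, by rw [map_add, hc, hd], add_cl c d hc' hd'⟩ }
  have hS : ∀ x, x ∈ S ↔ ∃ c : (Fin m → ℤ) →₀ RatFunc k,
      phi C c = x ∧ ∀ u, c u ≠ 0 → X.hA (c u) u ∧ Q (c u) u := fun x => Iff.rfl
  have hmon : ∀ g u, X.hA g u → Q g u → C.mon g u ∈ S := by
    intro g u hg hq
    refine ⟨Finsupp.single u g, phi_single C u g, ?_⟩
    intro t ht
    rw [Finsupp.single_apply] at ht ⊢
    split_ifs at ht ⊢ with hs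
    · subst hs
      exact ⟨hg, hq⟩
    · exact absurd rfl ht
  have smul_cl : ∀ (a b : X.A), (b : K) ∈ S → ((a * b : X.A) : K) ∈ S := by
    intro a b hb
    obtain ⟨d, hd, hd'⟩ := hb
    obtain ⟨c, hc, hc'⟩ := exists_rep X a
    rw [MulMemClass.coe_mul, ← hc, ← hd, phi_apply, phi_apply, Finset.sum_mul_sum]
    refine S.sum_mem fun u hu => S.sum_mem fun t ht => ?_
    rw [← mon_mul]
    have hcu := hc' u (by simpa using hu)
    have hdt := hd' t (by simpa using ht)
    apply hmon _ _ (hA_mul X hcu hdt.1)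
    rw [mul_comm, add_comm]
    exact hmul _ _ _ _ hdt.1 hcu hdt.2
  let p : Ideal X.A :=
    { carrier := {a | (a : K) ∈ S}
      zero_mem' := S.zero_mem
      add_mem' := fun {a b} ha hb => S.add_mem ha hb
      smul_mem' := fun a b hb => smul_cl a b hb }
  have hp : ∀ a : X.A, a ∈ p ↔ (a : K) ∈ S := fun a => Iff.rfl
  refine ⟨p, ?_, fun a => Iff.rfl⟩
  constructor
  · intro htop
    have h1' : (1 : X.A) ∈ p := by rw [htop]; trivial
    obtain ⟨c, hc, hc'⟩ := (hp 1).1 h1'
    have : phi C c = phi C (Finsupp.single 0 1) := by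
      rw [phi_single, mon_one, hc]; rfl
    have hc1 := phi_inj C this
    have := (hc' 0 (by rw [hc1]; simp)).2
    rw [hc1] at this
    exact h1 (by simpa using this)
  · intro a b hab
    by_contra hcon
    push Not at hcon
    obtain ⟨ha, hb⟩ := hcon
    obtain ⟨c, hc, hc'⟩ := exists_rep X a
    obtain ⟨d, hd, hd'⟩ := exists_rep X b
    -- split off the parts in the ideal
    set c₀ := c.filter fun u => ¬ Q (c u) u with hc₀
    set c₁ := c.filter fun u => Q (c u) u with hc₁
    set d₀ := d.filter fun u => ¬ Q (d u) u with hd₀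
    set d₁ := d.filter fun u => Q (d u) u with hd₁
    have hcs : c₁ + c₀ = c := Finsupp.filter_add_filter_not c _
    have hds : d₁ + d₀ = d := Finsupp.filter_add_filter_not d _
    have c₁S : phi C c₁ ∈ S := by
      refine ⟨c₁, rfl, fun u hu => ?_⟩
      rw [hc₁, Finsupp.filter_apply] at hu ⊢
      split_ifs at hu ⊢ with hs
      · exact ⟨hc' u hu, hs⟩
      · exact absurd rfl hu
    have d₁S : phi C d₁ ∈ S := by
      refine ⟨d₁, rfl, fun u hu => ?_⟩
      rw [hd₁, Finsupp.filter_apply] at hu ⊢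
      split_ifs at hu ⊢ with hs
      · exact ⟨hd' u hu, hs⟩
      · exact absurd rfl hu
    have c₀A : ∀ u, c₀ u ≠ 0 → X.hA (c₀ u) u ∧ ¬ Q (c₀ u) u := by
      intro u hu
      rw [hc₀, Finsupp.filter_apply] at hu ⊢
      split_ifs at hu ⊢ with hs
      · exact absurd rfl hu
      · exact ⟨hc' u hu, hs⟩
    have d₀A : ∀ u, d₀ u ≠ 0 → X.hA (d₀ u) u ∧ ¬ Q (d₀ u) u := by
      intro u hu
      rw [hd₀, Finsupp.filter_apply] at hu ⊢
      split_ifs at hu ⊢ with hs
      · exact absurd rfl hu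
      · exact ⟨hd' u hu, hs⟩
    have c₀ne : c₀.support.Nonempty := by
      rw [Finsupp.support_nonempty_iff]
      intro h0
      rw [h0, add_zero] at hcs
      apply ha
      rw [hp, ← hc, ← hcs]
      exact c₁S
    have d₀ne : d₀.support.Nonempty := by
      rw [Finsupp.support_nonempty_iff]
      intro h0
      rw [h0, add_zero] at hds
      apply hb
      rw [hp, ← hd, ← hds]
      exact d₁S
    have c₀K : phi C c₀ ∈ X.A := by
      rw [phi_apply]
      exact X.A.sum_mem fun u hu => (c₀A u (by simpa using hu)).1.2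
    have c₁K : phi C c₁ ∈ X.A := by
      obtain ⟨c', h1, h2⟩ := (hS _).1 c₁S
      rw [← h1, phi_apply]
      exact X.A.sum_mem fun u hu => (h2 u (by simpa using hu)).1.2
    have d₁K : phi C d₁ ∈ X.A := by
      obtain ⟨c', h1, h2⟩ := (hS _).1 d₁S
      rw [← h1, phi_apply]
      exact X.A.sum_mem fun u hu => (h2 u (by simpa using hu)).1.2
    have d₀K : phi C d₀ ∈ X.A := by
      rw [phi_apply]
      exact X.A.sum_mem fun u hu => (d₀A u (by simpa using hu)).1.2
    have ea : a = ⟨phi C c₁, c₁K⟩ + ⟨phi C c₀, c₀K⟩ := by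
      apply Subtype.ext
      change (a : K) = phi C c₁ + phi C c₀
      rw [← map_add, hcs, hc]
    have eb : b = ⟨phi C d₁, d₁K⟩ + ⟨phi C d₀, d₀K⟩ := by
      apply Subtype.ext
      change (b : K) = phi C d₁ + phi C d₀
      rw [← map_add, hds, hd]
    have key : (⟨phi C c₀, c₀K⟩ : X.A) * ⟨phi C d₀, d₀K⟩ ∈ p := by
      have e1 : (⟨phi C c₀, c₀K⟩ : X.A) * ⟨phi C d₀, d₀K⟩ =
          a * b - (b * ⟨phi C c₁, c₁K⟩ + ⟨phi C c₀, c₀K⟩ * ⟨phi C d₁, d₁K⟩) := by
        rw [ea, eb]; ring
      rw [e1]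
      refine p.sub_mem hab (p.add_mem (p.mul_mem_left _ ?_) (p.mul_mem_left _ ?_))
      · exact c₁S
      · exact d₁S
    obtain ⟨e, he, he'⟩ := (hp _).1 key
    obtain ⟨u₀, hu₀, t₀, ht₀, huniq⟩ := UniqueSums.uniqueAdd_of_nonempty c₀ne d₀ne
    have hu0 : c₀ u₀ ≠ 0 := by simpa using hu₀
    have ht0 : d₀ t₀ ≠ 0 := by simpa using ht₀
    -- the product
    have hprod : e = ∑ u ∈ c₀.support, ∑ t ∈ d₀.support,
        Finsupp.single (u + t) (c₀ u * d₀ t) := by
      apply phi_inj C
      rw [he, MulMemClass.coe_mul, map_sum]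
      change phi C c₀ * phi C d₀ = _
      rw [phi_apply, phi_apply, Finset.sum_mul_sum]
      refine Finset.sum_congr rfl fun u _ => ?_
      rw [map_sum]
      refine Finset.sum_congr rfl fun t _ => ?_
      rw [phi_single, mon_mul]
    have hval : e (u₀ + t₀) = c₀ u₀ * d₀ t₀ := by
      rw [hprod, Finsupp.finsetSum_apply, Finset.sum_eq_single u₀]
      · rw [Finsupp.finsetSum_apply, Finset.sum_eq_single t₀]
        · simp
        · intro t ht hne
          rw [Finsupp.single_apply, if_neg]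
          intro h
          exact hne (huniq hu₀ ht h).2
        · intro h
          exact absurd ht₀ h
      · intro u hu hne
        rw [Finsupp.finsetSum_apply]
        refine Finset.sum_eq_zero fun t ht => ?_
        rw [Finsupp.single_apply, if_neg]
        intro h
        exact hne (huniq hu ht h).1
      · intro h
        exact absurd hu₀ h
    have hQ := (he' (u₀ + t₀) (by rw [hval]; exact mul_ne_zero hu0 ht0)).2
    rw [hval] at hQ
    rcases hpr _ _ _ _ (c₀A u₀ hu0).1 (d₀A t₀ ht0).1 hQ with h | h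
    · exact (c₀A u₀ hu0).2 h
    · exact (d₀A t₀ ht0).2 h

/-- consequences of the description of the ideal -/
theorem gen_inv (X : TV C) (Q : RatFunc k → (Fin m → ℤ) → Prop) (p : Ideal X.A)
    (hp : ∀ a : X.A, a ∈ p ↔ ∃ c : (Fin m → ℤ) →₀ RatFunc k,
      phi C c = a ∧ ∀ u, c u ≠ 0 → X.hA (c u) u ∧ Q (c u) u) :
    X.Inv p ∧ ∀ g u, X.hA g u → (X.hS p g u ↔ ¬ Q g u) := by
  have hmem : ∀ g u, ∀ h : C.mon g u ∈ X.A, g ≠ 0 → ((⟨C.mon g u, h⟩ : X.A) ∈ p ↔ Q g u) := by
    intro g u h hg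
    rw [hp]
    constructor
    · rintro ⟨c, hc, hc'⟩
      have : c = Finsupp.single u g := by
        apply phi_inj C
        rw [hc, phi_single]
      have h2 := (hc' u (by rw [this]; simpa using hg)).2
      rw [this] at h2
      simpa using h2
    · intro hq
      refine ⟨Finsupp.single u g, phi_single C u g, ?_⟩
      intro t ht
      rw [Finsupp.single_apply] at ht ⊢
      split_ifs at ht ⊢ with hs
      · subst hs
        exact ⟨⟨hg, h⟩, hq⟩
      · exact absurd rfl ht
  constructor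
  · intro a ha s g hsum u hu h
    by_cases hg : g u = 0
    · have : (⟨C.mon (g u) u, h⟩ : X.A) = 0 := by
        apply Subtype.ext
        change C.mon (g u) u = 0
        rw [hg, mon_zero]
      rw [this]
      exact p.zero_mem
    · rw [hmem _ _ h hg]
      obtain ⟨c, hc, hc'⟩ := (hp a).1 ha
      have : c = ∑ u ∈ s, Finsupp.single u (g u) := by
        apply phi_inj C
        rw [hc, hsum, phi_sum]
      have hcu : c u = g u := by
        rw [this, sum_single_apply, if_pos hu]
      have h2 := (hc' u (by rw [hcu]; exact hg)).2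
      rw [hcu] at h2
      exact h2
  · intro g u hg
    constructor
    · rintro ⟨_, h, hn⟩ hq
      exact hn ((hmem g u h hg.1).2 hq)
    · intro hq
      exact ⟨hg.1, hg.2, fun h => hq ((hmem g u hg.2 hg.1).1 h)⟩

theorem val_mul (V : HV k m) {g h : RatFunc k} (hg : g ≠ 0) (hh : h ≠ 0) (u t : Fin m → ℤ) :
    V.val (g * h) (u + t) = V.val g u + V.val h t := by
  unfold HV.val
  rw [ordAt_mul V.P hg hh]
  simp only [Pi.add_apply, mul_add, Finset.sum_add_distrib]
  ring

theorem val_add (V : HV k m) {g h : RatFunc k} (hg : g ≠ 0) (hh : h ≠ 0) (hs : g + h ≠ 0)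
    (u : Fin m → ℤ) : min (V.val g u) (V.val h u) ≤ V.val (g + h) u := by
  have h1 := ordAt_add V.P hg hh hs
  unfold HV.val
  have hn : (0 : ℤ) ≤ (V.n : ℤ) := Int.natCast_nonneg _
  rcases min_le_iff.mp h1 with h | h
  · exact (min_le_left _ _).trans (add_le_add_left (mul_le_mul_of_nonneg_left h hn) _)
  · exact (min_le_right _ _).trans (add_le_add_left (mul_le_mul_of_nonneg_left h hn) _)

theorem ordAt_one (P : Option k) : ordAt P (1 : RatFunc k) = 0 := by
  have := ordAt_C P (1 : k)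
  rwa [map_one] at this

theorem val_one (V : HV k m) : V.val 1 0 = 0 := by
  unfold HV.val
  rw [ordAt_one]
  simp

theorem val_C (V : HV k m) (c : k) : V.val (RatFunc.C c) 0 = 0 := by
  unfold HV.val
  rw [ordAt_C]
  simp

theorem val_C_mul (V : HV k m) {c : k} (hc : c ≠ 0) {g : RatFunc k} (hg : g ≠ 0)
    (u : Fin m → ℤ) : V.val (RatFunc.C c * g) u = V.val g u := by
  have h := val_mul V (g := RatFunc.C c) (by simpa using hc) hg 0 u
  rw [zero_add, val_C, zero_add] at h
  exact h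

/-- a finite sum of elements with positive values is zero or has positive value -/
theorem sum_pos {ι : Type*} (V : HV k m) (u : Fin m → ℤ) (T : Finset ι) (g : ι → RatFunc k)
    (N : ℤ) (h : ∀ i ∈ T, g i ≠ 0 → N ≤ V.val (g i) u) :
    ∑ i ∈ T, g i ≠ 0 → N ≤ V.val (∑ i ∈ T, g i) u := by
  induction T using Finset.induction_on with
  | empty => intro h0; exact absurd rfl h0
  | insert i T hi ih =>
    rw [Finset.sum_insert hi]
    intro h0
    have hi' := h i (Finset.mem_insert_self i T)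
    have ih' := ih fun j hj => h j (Finset.mem_insert_of_mem hj)
    by_cases h1 : g i = 0
    · rw [h1, zero_add] at h0 ⊢
      exact ih' h0
    by_cases h2 : ∑ i ∈ T, g i = 0
    · rw [h2, add_zero] at h0 ⊢
      exact hi' h1
    exact (le_min (hi' h1) (ih' h2)).trans (val_add V h1 h2 h0 u)

theorem prod_ne {gens : Finset (RatFunc k × (Fin m → ℤ))} (hne : ∀ h ∈ gens, h.1 ≠ 0)
    (α : (RatFunc k × (Fin m → ℤ)) →₀ ℕ) (hα : α.support ⊆ gens) :
    (α.prod fun h a => h.1 ^ a) ≠ 0 := by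
  rw [Finsupp.prod, Finset.prod_ne_zero_iff]
  intro h hh
  exact pow_ne_zero _ (hne h (hα hh))

theorem val_pow (V : HV k m) {g : RatFunc k} (hg : g ≠ 0) (u : Fin m → ℤ) (a : ℕ) :
    V.val (g ^ a) (a • u) = a * V.val g u := by
  induction a with
  | zero => simp [val_one]
  | succ a ih =>
    rw [pow_succ, succ_nsmul, val_mul V (pow_ne_zero a hg) hg, ih]
    push_cast
    ring

theorem val_prod (V : HV k m) {gens : Finset (RatFunc k × (Fin m → ℤ))}
    (hne : ∀ h ∈ gens, h.1 ≠ 0) (α : (RatFunc k × (Fin m → ℤ)) →₀ ℕ) (hα : α.support ⊆ gens) :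
    V.val (α.prod fun h a => h.1 ^ a) (α.sum fun h a => a • h.2) =
      ∑ h ∈ α.support, (α h : ℤ) * V.val h.1 h.2 := by
  rw [Finsupp.prod, Finsupp.sum]
  have key : ∀ s : Finset (RatFunc k × (Fin m → ℤ)), s ⊆ gens →
      V.val (∏ h ∈ s, h.1 ^ α h) (∑ h ∈ s, α h • h.2) = ∑ h ∈ s, (α h : ℤ) * V.val h.1 h.2 := by
    intro s
    induction s using Finset.induction_on with
    | empty => intro _; simp [val_one]
    | insert i s hi ih =>
      intro hs
      rw [Finset.prod_insert hi, Finset.sum_insert hi, Finset.sum_insert hi, val_mul V,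
        val_pow V, ih fun x hx => hs (Finset.mem_insert_of_mem hx)]
      · exact hne i (hs (Finset.mem_insert_self i s))
      · exact pow_ne_zero _ (hne i (hs (Finset.mem_insert_self i s)))
      · rw [Finset.prod_ne_zero_iff]
        intro h hh
        exact pow_ne_zero _ (hne h (hs (Finset.mem_insert_of_mem hh)))
  exact key α.support hα

theorem gens_hA (X : TV C) {h : RatFunc k × (Fin m → ℤ)} (hh : h ∈ X.gens) : X.hA h.1 h.2 := by
  refine ⟨X.gens_ne h hh, ?_⟩
  rw [← X.adj]
  exact Algebra.subset_adjoin ⟨h, hh, rfl⟩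

/-- one half of `types` -/
theorem types_aux (X : TV C) (V V' : HV k m) (hV : ∀ g u, X.hA g u → 0 ≤ V.val g u)
    (hV' : ∀ g u, X.hA g u → 0 ≤ V'.val g u)
    (hJ : ∀ h ∈ X.gens, V.val h.1 h.2 = 0 ↔ V'.val h.1 h.2 = 0)
    (hn : V.n = 0 ↔ V'.n = 0) (hP : V.n ≠ 0 → V.P = V'.P) (g : RatFunc k) (u : Fin m → ℤ)
    (hg : X.hA g u) (h0 : V.val g u = 0) : V'.val g u = 0 := by
  obtain ⟨T, c, hT, hsum⟩ := gr3 X g u hg
  set μ : ((RatFunc k × (Fin m → ℤ)) →₀ ℕ) → RatFunc k := fun α => α.prod fun h a => h.1 ^ a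
    with hμ
  have μne : ∀ α ∈ T, μ α ≠ 0 := fun α hα => prod_ne X.gens_ne α (hT α hα).1
  -- values of the monomials
  have hval : ∀ W : HV k m, ∀ α ∈ T,
      W.val (μ α) u = ∑ h ∈ α.support, (α h : ℤ) * W.val h.1 h.2 := by
    intro W α hα
    have := val_prod W X.gens_ne α (hT α hα).1
    rw [(hT α hα).2] at this
    exact this
  have hnn : ∀ W : HV k m, (∀ g u, X.hA g u → 0 ≤ W.val g u) → ∀ α ∈ T, 0 ≤ W.val (μ α) u := by
    intro W hW α hα
    rw [hval W α hα]
    refine Finset.sum_nonneg fun h hh => mul_nonneg (Int.natCast_nonneg _) ?_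
    exact hW _ _ (gens_hA X ((hT α hα).1 hh))
  have hz : ∀ W : HV k m, (∀ g u, X.hA g u → 0 ≤ W.val g u) → ∀ α ∈ T,
      (W.val (μ α) u = 0 ↔ ∀ h ∈ α.support, W.val h.1 h.2 = 0) := by
    intro W hW α hα
    rw [hval W α hα, Finset.sum_eq_zero_iff_of_nonneg]
    · refine forall_congr' fun h => forall_congr' fun hh => ?_
      have : (α h : ℤ) ≠ 0 := by
        have := Finsupp.mem_support_iff.mp hh
        exact_mod_cast this
      rw [mul_eq_zero]
      tauto
    · intro h hh
      exact mul_nonneg (Int.natCast_nonneg _) (hW _ _ (gens_hA X ((hT α hα).1 hh)))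
  have hVV' : ∀ α ∈ T, (V.val (μ α) u = 0 ↔ V'.val (μ α) u = 0) := by
    intro α hα
    rw [hz V hV α hα, hz V' hV' α hα]
    exact forall_congr' fun h => forall_congr' fun hh => hJ h ((hT α hα).1 hh)
  set g₀ := ∑ α ∈ T.filter (fun α => V.val (μ α) u = 0), RatFunc.C (c α) * μ α with hg₀
  set g₁ := ∑ α ∈ T.filter (fun α => ¬ V.val (μ α) u = 0), RatFunc.C (c α) * μ α with hg₁
  have hg01 : g = g₀ + g₁ := by
    rw [hsum, hg₀, hg₁, Finset.sum_filter_add_sum_filter_not]
  have tv : ∀ W : HV k m, ∀ α ∈ T, RatFunc.C (c α) * μ α ≠ 0 →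
      W.val (RatFunc.C (c α) * μ α) u = W.val (μ α) u := by
    intro W α hα hne
    exact val_C_mul W (by
      intro h
      apply hne
      rw [h, map_zero, zero_mul]) (μne α hα) u
  -- the part `g₁`
  have h1 : g₁ ≠ 0 → 1 ≤ V.val g₁ u := by
    apply sum_pos
    intro α hα hne
    rw [Finset.mem_filter] at hα
    rw [tv V α hα.1 hne]
    have := hnn V hV α hα.1
    have := hα.2
    omega
  have h1' : g₁ ≠ 0 → 1 ≤ V'.val g₁ u := by
    apply sum_pos
    intro α hα hne
    rw [Finset.mem_filter] at hα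
    rw [tv V' α hα.1 hne]
    have := hnn V' hV' α hα.1
    have h2 := hα.2
    rw [hVV' α hα.1] at h2
    omega
  have h00 : g₀ ≠ 0 := by
    intro h
    rw [h, zero_add] at hg01
    have := h1 (by rw [← hg01]; exact hg.1)
    rw [← hg01, h0] at this
    omega
  have h0n : 0 ≤ V.val g₀ u := by
    apply sum_pos V u _ _ 0 _ h00
    intro α hα hne
    rw [Finset.mem_filter] at hα
    rw [tv V α hα.1 hne]
    exact hnn V hV α hα.1
  have h0z : V.val g₀ u = 0 := by
    by_contra hcon
    have hpos : 1 ≤ V.val g₀ u := by omega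
    by_cases hz1 : g₁ = 0
    · rw [hz1, add_zero] at hg01
      rw [← hg01, h0] at hpos
      omega
    · have := val_add V h00 hz1 (by rw [← hg01]; exact hg.1) u
      rw [← hg01, h0] at this
      have h2 := le_min hpos (h1 hz1)
      omega
  -- a monomial of `g₀`
  obtain ⟨α, hα, hαne⟩ : ∃ α ∈ T.filter (fun α => V.val (μ α) u = 0),
      RatFunc.C (c α) * μ α ≠ 0 := by
    by_contra hcon
    push Not at hcon
    exact h00 (Finset.sum_eq_zero hcon)
  rw [Finset.mem_filter] at hα
  have hα' := (hVV' α hα.1).1 hα.2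
  have h0z' : V'.val g₀ u = 0 := by
    by_cases hn0 : V.n = 0
    · have hn0' := hn.1 hn0
      rw [← hα']
      unfold HV.val
      rw [hn0']
      simp
    · have e1 : (V.n : ℤ) * ordAt V.P g₀ = V.n * ordAt V.P (μ α) := by
        have a1 := h0z
        have a2 := hα.2
        unfold HV.val at a1 a2
        linarith
      have e2 : ordAt V.P g₀ = ordAt V.P (μ α) := by
        have hne : (V.n : ℤ) ≠ 0 := by exact_mod_cast hn0
        exact mul_left_cancel₀ hne e1
      rw [← hα']
      unfold HV.val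
      rw [← hP hn0, e2]
  by_contra hcon
  have hpos : 1 ≤ V'.val g u := by
    have := hV' g u hg
    omega
  by_cases hz1 : g₁ = 0
  · rw [hz1, add_zero] at hg01
    rw [hg01, h0z'] at hpos
    omega
  · have hneg : V'.val (-g₁) u = V'.val g₁ u := by
      have := val_C_mul V' (c := (-1 : k)) (neg_ne_zero.mpr one_ne_zero) hz1 u
      rw [map_neg, map_one, neg_one_mul] at this
      exact this
    have e0 : g + -g₁ = g₀ := by rw [hg01]; ring
    have := val_add V' hg.1 (neg_ne_zero.mpr hz1) (by rw [e0]; exact h00) u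
    rw [e0, h0z', hneg] at this
    have h2 := le_min hpos (h1' hz1)
    omega

end Cen

/-- the centre of a nonnegative homogeneous valuation, as an invariant prime ideal -/
theorem center_prime (X : TV C) (V : HV k m) (hV : ∀ g u, X.hA g u → 0 ≤ V.val g u) :
    ∃ p : Ideal X.A, p.IsPrime ∧ X.Inv p ∧ V.CenterEq X p := by
  obtain ⟨p, hp, hpm⟩ := Cen.gen X (fun g u => 0 < V.val g u)
    (by
      intro g h u hg hh qg qh hs
      exact lt_of_lt_of_le (lt_min qg qh) (Cen.val_add V hg.1 hh.1 hs u))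
    (by
      intro g h u t hg hh qg
      rw [Cen.val_mul V hg.1 hh.1]
      exact add_pos_of_pos_of_nonneg qg (hV h t hh))
    (by
      intro g h u t hg hh q
      change 0 < V.val (g * h) (u + t) at q
      rw [Cen.val_mul V hg.1 hh.1] at q
      by_contra hcon
      push Not at hcon
      have := hV g u hg
      have := hV h t hh
      omega)
    (by
      rw [Cen.val_one]
      exact lt_irrefl 0)
  obtain ⟨h1, h2⟩ := Cen.gen_inv X (fun g u => 0 < V.val g u) p hpm
  refine ⟨p, hp, h1, hV, fun g u hg => ?_⟩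
  rw [h2 g u hg, not_not]

/-- the homogeneous core of a prime ideal -/
theorem core_prime (X : TV C) (p : Ideal X.A) (hp : p.IsPrime) :
    ∃ q : Ideal X.A, q.IsPrime ∧ X.Inv q ∧ q ≤ p ∧ ∀ g u, X.hA g u → (X.hS q g u ↔ X.hS p g u) := by
  obtain ⟨q, hq, hqm⟩ := Cen.gen X (fun g u => ¬ X.hS p g u)
    (by
      intro g h u hg hh qg qh hs hcon
      obtain ⟨_, hm, hn⟩ := hcon
      apply hn
      have e : (⟨C.mon (g + h) u, hm⟩ : X.A) = ⟨C.mon g u, hg.2⟩ + ⟨C.mon h u, hh.2⟩ := by
        apply Subtype.ext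
        exact Cen.mon_add C g h u
      rw [e]
      refine p.add_mem ?_ ?_
      · by_contra hc
        exact qg ⟨hg.1, hg.2, hc⟩
      · by_contra hc
        exact qh ⟨hh.1, hh.2, hc⟩)
    (by
      intro g h u t hg hh qg hcon
      obtain ⟨_, hm, hn⟩ := hcon
      apply hn
      have e : (⟨C.mon (g * h) (u + t), hm⟩ : X.A) = ⟨C.mon g u, hg.2⟩ * ⟨C.mon h t, hh.2⟩ := by
        apply Subtype.ext
        exact mon_mul C g h u t
      rw [e]
      refine p.mul_mem_right _ ?_
      by_contra hc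
      exact qg ⟨hg.1, hg.2, hc⟩)
    (by
      intro g h u t hg hh q
      by_contra hcon
      push Not at hcon
      obtain ⟨⟨_, a1, a2⟩, ⟨_, b1, b2⟩⟩ := hcon
      apply q
      refine ⟨mul_ne_zero hg.1 hh.1, (Cen.hA_mul X hg hh).2, ?_⟩
      have e : (⟨C.mon (g * h) (u + t), (Cen.hA_mul X hg hh).2⟩ : X.A) =
          ⟨C.mon g u, a1⟩ * ⟨C.mon h t, b1⟩ := by
        apply Subtype.ext
        exact mon_mul C g h u t
      rw [e]
      intro hc
      rcases hp.mem_or_mem hc with hc | hc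
      · exact a2 hc
      · exact b2 hc)
    (by
      intro hcon
      apply hcon
      refine ⟨one_ne_zero, (Cen.hA_one X).2, ?_⟩
      have e : (⟨C.mon 1 0, (Cen.hA_one X).2⟩ : X.A) = 1 := by
        apply Subtype.ext
        exact Cen.mon_one C
      rw [e]
      exact fun h => hp.ne_top (p.eq_top_iff_one.mpr h))
  obtain ⟨h1, h2⟩ := Cen.gen_inv X (fun g u => ¬ X.hS p g u) q hqm
  refine ⟨q, hq, h1, ?_, fun g u hg => ?_⟩
  · intro a ha
    obtain ⟨c, hc, hc'⟩ := (hqm a).1 ha
    have e : a = ∑ u ∈ c.support.attach, (⟨C.mon (c u) u,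
        (hc' u (Finsupp.mem_support_iff.mp u.2)).1.2⟩ : X.A) := by
      apply Subtype.ext
      rw [← hc, Cen.phi_apply, AddSubmonoidClass.coe_finsetSum,
        ← Finset.sum_attach (f := fun u => C.mon (c u) u)]
    rw [e]
    refine p.sum_mem fun u _ => ?_
    have hcu := hc' u (Finsupp.mem_support_iff.mp u.2)
    by_contra hcon
    exact hcu.2 ⟨hcu.1.1, hcu.1.2, hcon⟩
  · rw [h2 g u hg, not_not]

/-- finitely many types of homogeneous valuations -/
theorem types (X : TV C) (B : Finset (Option k))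
    (hB : ∀ h ∈ X.gens, ∀ Q ∉ B, ordAt Q h.1 = 0) :
    ∃ (N : ℕ) (f : HV k m → Fin N), ∀ V V' : HV k m,
      (∀ g u, X.hA g u → 0 ≤ V.val g u) → (∀ g u, X.hA g u → 0 ≤ V'.val g u) →
      (V.n = 0 ∨ V.P ∈ B) → (V'.n = 0 ∨ V'.P ∈ B) → f V = f V' →
      ∀ g u, X.hA g u → (V.val g u = 0 ↔ V'.val g u = 0) := by
  let S : Finset (Finset (RatFunc k × (Fin m → ℤ)) × Option (Option k)) :=
    X.gens.powerset ×ˢ (insert none (B.image some))
  let code : HV k m → Finset (RatFunc k × (Fin m → ℤ)) × Option (Option k) := fun V =>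
    (X.gens.filter (fun h => V.val h.1 h.2 = 0), if V.n = 0 then none else some V.P)
  have hdef : ((∅ : Finset (RatFunc k × (Fin m → ℤ))), (none : Option (Option k))) ∈ S := by
    simp [S]
  have hcode : ∀ V : HV k m, (V.n = 0 ∨ V.P ∈ B) → code V ∈ S := by
    intro V hV
    simp only [S, code, Finset.mem_product, Finset.mem_powerset, Finset.mem_insert,
      Finset.mem_image]
    refine ⟨Finset.filter_subset _ _, ?_⟩
    by_cases h : V.n = 0
    · left
      rw [if_pos h]
    · right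
      rw [if_neg h]
      exact ⟨V.P, hV.resolve_left h, rfl⟩
  refine ⟨S.card, fun V => if h : code V ∈ S then S.equivFin ⟨code V, h⟩ else
    S.equivFin ⟨_, hdef⟩, ?_⟩
  intro V V' hV hV' hn hn' hf g u hg
  have h1 := hcode V hn
  have h2 := hcode V' hn'
  simp only [h1, h2, dif_pos] at hf
  have hc : code V = code V' := by
    have := S.equivFin.injective hf
    exact congrArg Subtype.val this
  have c1 : X.gens.filter (fun h => V.val h.1 h.2 = 0) =
      X.gens.filter (fun h => V'.val h.1 h.2 = 0) := congrArg Prod.fst hc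
  have c2 : (if V.n = 0 then none else some V.P) = (if V'.n = 0 then none else some V'.P) :=
    congrArg Prod.snd hc
  have hJ : ∀ h ∈ X.gens, V.val h.1 h.2 = 0 ↔ V'.val h.1 h.2 = 0 := by
    intro h hh
    have := Finset.ext_iff.mp c1 h
    simpa [Finset.mem_filter, hh] using this
  have hnn : V.n = 0 ↔ V'.n = 0 := by
    by_cases a : V.n = 0 <;> by_cases b : V'.n = 0 <;> simp [a, b] at c2 ⊢
  have hP : V.n ≠ 0 → V.P = V'.P := by
    intro a
    have b : ¬ V'.n = 0 := fun b => a (hnn.2 b)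
    rw [if_neg a, if_neg b] at c2
    exact Option.some_injective _ c2
  constructor
  · exact Cen.types_aux X V V' hV hV' hJ hnn hP g u hg
  · exact Cen.types_aux X V' V hV' hV (fun h hh => (hJ h hh).symm) hnn.symm
      (fun a => (hP fun b => a (hnn.1 b)).symm) g u hg

end
end Pool.Agent.MLD
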