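import Pool.Agent.Lib.MP_f23696_ag.Defs

/-!
Internal vocabulary for the project LSC (MP_f23696_ag): places of `k(z)`, homogeneous valuations,
torus-graded subalgebras of `K = k(z)(x_1, …, x_m)`.
-/

namespace Pool.Agent.MLD

open scoped Classical
noncomputable section

universe u v

/-- Order of the rational function `g` at the point `P` of `ℙ¹` (`none = ∞`). -/
def ordAt {k : Type u} [Field k] (P : Option k) (g : RatFunc k) : ℤ :=
  match P with
  | some c => (g.num.rootMultiplicity c : ℤ) - (g.denom.rootMultiplicity c : ℤ)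
  | none => -g.intDegree

/-- `1 + ord_P(dz) ` up to sign conventions: `1` at finite points, `-1` at infinity. -/
def kap {k : Type u} (P : Option k) : ℤ :=
  match P with
  | some _ => 1
  | none => -1

/-- A homogeneous valuation: `(P, n, w)` takes the value `n ord_P(g) + ⟨w,u⟩` at `g x^u`. -/
@[ext] structure HV (k : Type u) (m : ℕ) where
  P : Option k
  n : ℕ
  w : Fin m → ℤ

variable {k : Type u} [Field k] {m : ℕ}

def HV.val (V : HV k m) (g : RatFunc k) (u : Fin m → ℤ) : ℤ :=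
  V.n * ordAt V.P g + ∑ i, V.w i * u i

/-- `1 +` the order of `dz ∧ dx_1 ∧ ⋯ ∧ dx_m`. -/
def HV.disc (V : HV k m) : ℤ := V.n * kap V.P + ∑ i, V.w i

def HV.valR (V : HV k m) (γ : (RatFunc k × (Fin m → ℤ)) →₀ ℝ) : ℝ :=
  γ.sum fun h r => r * (V.val h.1 h.2 : ℝ)

/-- log discrepancy of `V` with respect to the local equation `γ`. -/
def HV.ld (V : HV k m) (γ : (RatFunc k × (Fin m → ℤ)) →₀ ℝ) : ℝ := (V.disc : ℝ) - V.valR γ

/-- rank of the group generated by the degrees of the elements satisfying `S`. -/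
def rk (S : RatFunc k → (Fin m → ℤ) → Prop) : ℕ :=
  Module.finrank ℚ (Submodule.span ℚ {x : Fin m → ℚ | ∃ g u, S g u ∧ x = fun i => (u i : ℚ)})

/-- the elements of `A` at which `V` vanishes. -/
def zeroSet (A : RatFunc k → (Fin m → ℤ) → Prop) (V : HV k m) : RatFunc k → (Fin m → ℤ) → Prop :=
  fun g u => A g u ∧ V.val g u = 0

/-- `1` if `V` is horizontal and the invariant functions on its centre are not all constant. -/
def kapV (A : RatFunc k → (Fin m → ℤ) → Prop) (V : HV k m) : ℕ :=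
  if V.n = 0 ∧ ∃ g h u, zeroSet A V g u ∧ zeroSet A V h u ∧ ¬ ∃ c : k, g = RatFunc.C c * h
  then 1 else 0

/-- The data at a point `y` needed for the combinatorial part: `A g u` means that `g x^u` is a
nonzero element of the ring, `S g u` that moreover it does not vanish at `y`, `E` is the set of the
valuations of the invariant prime divisors through `y`. -/
structure LocData (k : Type u) [Field k] (m : ℕ) where
  A : RatFunc k → (Fin m → ℤ) → Prop
  S : RatFunc k → (Fin m → ℤ) → Prop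
  B : Finset (Option k)
  γ : (RatFunc k × (Fin m → ℤ)) →₀ ℝ
  E : Set (HV k m)
  none_mem : none ∈ B
  A_ne : ∀ g u, A g u → g ≠ 0
  S_A : ∀ g u, S g u → A g u
  A_mul : ∀ g u h t, A g u → A h t → A (g * h) (u + t)
  S_mul : ∀ g u h t, S g u → S h t → S (g * h) (u + t)
  S_C : ∀ c : k, c ≠ 0 → S (RatFunc.C c) 0
  A_add : ∀ g h u, A g u → A h u → g + h ≠ 0 → A (g + h) u
  N_mul : ∀ g u h t, A g u → ¬ S g u → A h t → ¬ S (g * h) (u + t)
  N_add : ∀ g h u, A g u → A h u → ¬ S g u → ¬ S h u → ¬ S (g + h) u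
  gen_pos : ∀ Q ∉ B, ∀ g u, A g u → 0 ≤ ordAt Q g
  gen_w : ∀ V ∈ E, V.P ∉ B → ∀ g u, A g u → 0 ≤ ∑ i, V.w i * u i
  γ_ne : ∀ h ∈ γ.support, h.1 ≠ 0
  γ_B : ∀ h ∈ γ.support, ∀ Q ∉ B, ordAt Q h.1 = 0
  E_A : ∀ V ∈ E, ∀ g u, A g u → 0 ≤ V.val g u
  E_S : ∀ V ∈ E, ∀ g u, S g u → V.val g u = 0
  E_ld : ∀ V ∈ E, V.ld γ ≤ 1
  nrm : ∀ g u, g ≠ 0 → (∀ V ∈ E, 0 ≤ V.val g u) → ∃ h t, S h t ∧ A (h * g) (t + u)

/-- The field `K = k(z)(x_1, …, x_m)` with its partial derivatives. -/
structure Ctx (k : Type u) (K : Type v) [Field k] [Field K] [Algebra k K] (m : ℕ) where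
  ι : RatFunc k →ₐ[k] K
  x : Fin m → K
  x_ne : ∀ i, x i ≠ 0
  li : ∀ (s : Finset (Fin m → ℤ)) (g : (Fin m → ℤ) → RatFunc k),
    ∑ u ∈ s, ι (g u) * ∏ i, x i ^ u i = 0 → ∀ u ∈ s, g u = 0
  gen : IntermediateField.adjoin k (insert (ι RatFunc.X) (Set.range x)) = ⊤
  der : Fin (m + 1) → Derivation k K K
  der0_X : der 0 (ι RatFunc.X) = 1
  der0_x : ∀ i, der 0 (x i) = 0
  derS_X : ∀ j : Fin m, der j.succ (ι RatFunc.X) = 0
  derS_x : ∀ j i : Fin m, der j.succ (x i) = if i = j then 1 else 0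

variable {K : Type v} [Field K] [Algebra k K]

/-- the semi-invariant `g x^u`. -/
def Ctx.mon (C : Ctx k K m) (g : RatFunc k) (u : Fin m → ℤ) : K := C.ι g * ∏ i, C.x i ^ u i

/-- A normal affine variety with an effective action of the `m`-dimensional torus, of dimension
`m + 1`, with rational quotient: the coordinate ring `A ⊆ K` is generated by semi-invariants. -/
structure TV (C : Ctx k K m) where
  A : Subalgebra k K
  gens : Finset (RatFunc k × (Fin m → ℤ))
  gens_ne : ∀ h ∈ gens, h.1 ≠ 0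
  adj : Algebra.adjoin k ((fun h : RatFunc k × (Fin m → ℤ) => C.mon h.1 h.2) '' (gens : Set _)) = A
  frac : ∀ f : K, ∃ a b : A, (b : K) ≠ 0 ∧ f = (a : K) / b
  normal : ∀ f : K, IsIntegral A f → f ∈ A

variable {C : Ctx k K m}

/-- `g x^u` is a nonzero element of the coordinate ring. -/
def TV.hA (X : TV C) (g : RatFunc k) (u : Fin m → ℤ) : Prop := g ≠ 0 ∧ C.mon g u ∈ X.A

/-- `g x^u` is an element of the coordinate ring not in `p`. -/
def TV.hS (X : TV C) (p : Ideal X.A) (g : RatFunc k) (u : Fin m → ℤ) : Prop :=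
  g ≠ 0 ∧ ∃ h : C.mon g u ∈ X.A, (⟨C.mon g u, h⟩ : X.A) ∉ p

/-- `V` is nonnegative on `A` and positive exactly on the semi-invariants in `p`. -/
def HV.CenterEq (V : HV k m) (X : TV C) (p : Ideal X.A) : Prop :=
  (∀ g u, X.hA g u → 0 ≤ V.val g u) ∧ ∀ g u, X.hA g u → (0 < V.val g u ↔ ¬ X.hS p g u)

/-- `p` is generated by semi-invariants. -/
def TV.Inv (X : TV C) (p : Ideal X.A) : Prop :=
  ∀ a : X.A, a ∈ p → ∀ (s : Finset (Fin m → ℤ)) (g : (Fin m → ℤ) → RatFunc k),
    (a : K) = ∑ u ∈ s, C.mon (g u) u → ∀ u ∈ s, ∀ h : C.mon (g u) u ∈ X.A,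
      (⟨C.mon (g u) u, h⟩ : X.A) ∈ p

/-- The unit of `K` given by a nonzero semi-invariant (junk value `1` if `g = 0`). -/
def Ctx.monU (C : Ctx k K m) (h : RatFunc k × (Fin m → ℤ)) : Kˣ :=
  if H : C.mon h.1 h.2 ≠ 0 then Units.mk0 _ H else 1

/-- homogeneous local equation as a local equation. -/
def Ctx.toEq (C : Ctx k K m) (γ : (RatFunc k × (Fin m → ℤ)) →₀ ℝ) : Kˣ →₀ ℝ :=
  γ.mapDomain C.monU

/-- `B` contains infinity and all the special places of the ring `A` and of the equation `γ`. -/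
structure GoodB (A : RatFunc k → (Fin m → ℤ) → Prop) (γ : (RatFunc k × (Fin m → ℤ)) →₀ ℝ)
    (B : Finset (Option k)) : Prop where
  none_mem : none ∈ B
  pos : ∀ Q ∉ B, ∀ g u, A g u → 0 ≤ ordAt Q g
  ne : ∀ h ∈ γ.support, h.1 ≠ 0
  gam : ∀ h ∈ γ.support, ∀ Q ∉ B, ordAt Q h.1 = 0

/-- the sum of the valuations `X Q`, `Q ∈ B`, of height `j` (of height `≥ j` for `Q = R`). -/
def sumHV (B : Finset (Option k)) (X : Option k → HV k m) (R : Option k) (j : ℕ) : HV k m :=
  ⟨R, (X R).n - j, fun i => ∑ Q ∈ B, (X Q).w i⟩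

/-- residue field of the big Laurent series field: Hahn series in `T_1, …, T_m` over `F` -/
abbrev EE (F : Type v) [Field F] (m : ℕ) : Type v := HahnSeries (Lex (Fin m → ℤ)) F

/-- the big field `F((T))((s))` -/
abbrev LL (F : Type v) [Field F] (m : ℕ) : Type v := LaurentSeries (EE F m)

/-- the variable `T_i` of `EE F m` -/
def TT (F : Type v) [Field F] (m : ℕ) (i : Fin m) : EE F m :=
  HahnSeries.single (toLex (Pi.single i (1 : ℤ))) 1

/-- the variable `s` -/
def ss (F : Type v) [Field F] (m : ℕ) : LL F m := HahnSeries.single (1 : ℤ) 1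

/-- constants -/
def cc (F : Type v) [Field F] (m : ℕ) : F →+* LL F m := HahnSeries.C.comp HahnSeries.C

/-- `T_i` as an element of the big field -/
def TL (F : Type v) [Field F] (m : ℕ) (i : Fin m) : LL F m := HahnSeries.C (TT F m i)

/-- image of `x_j`: `c_j s^{w_j} ∏_{i ∈ I} (1 + s T_i)^{β i j} ∏_{i ∉ I} T_i^{β i j}` -/
def xi {F : Type v} [Field F] (c : Fin m → F) (w : Fin m → ℤ) (β : Matrix (Fin m) (Fin m) ℤ)
    (I : Finset (Fin m)) (j : Fin m) : LL F m :=
  cc F m (c j) * ss F m ^ w j * ∏ i, (if i ∈ I then 1 + ss F m * TL F m i else TL F m i) ^ β i j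

/-- image of `z` in the vertical case -/
def zetaV {F : Type v} [Field F] [Algebra k F] (P : Option k) (n : ℕ) : LL F m :=
  match P with
  | some c => cc F m (algebraMap k F c) + ss F m ^ n
  | none => (ss F m ^ n)⁻¹

end

end Pool.Agent.MLD
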