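import Mathlib

/-!
Definitions for the lower semicontinuity of minimal log discrepancies (MP_f23696_ag).

`K/k` is the function field of the varieties considered; `D 0, …, D m` are the partial derivatives
of `K/k` with respect to a transcendence basis `y 0, …, y m`.  Divisors over a variety are discrete
valuations of `K/k` whose residue field has transcendence degree `m`.
-/

namespace Pool.Agent.MLD

universe u v

/-- A discrete valuation of `K/k` with value group `ℤ`. Only the values at nonzero elements matter. -/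
structure DVal (k : Type u) (K : Type v) [Field k] [Field K] [Algebra k K] where
  ord : K → ℤ
  ord_mul : ∀ a b : K, a ≠ 0 → b ≠ 0 → ord (a * b) = ord a + ord b
  ord_add : ∀ a b : K, a ≠ 0 → b ≠ 0 → a + b ≠ 0 → min (ord a) (ord b) ≤ ord (a + b)
  ord_algebraMap : ∀ c : k, c ≠ 0 → ord (algebraMap k K c) = 0
  exists_ord_eq_one : ∃ a : K, a ≠ 0 ∧ ord a = 1

variable {k : Type u} {K : Type v} [Field k] [Field K] [Algebra k K]

/-- `a` lies in the valuation ring of `v`. -/
def DVal.Integral (v : DVal k K) (a : K) : Prop := a ≠ 0 → 0 ≤ v.ord a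

/-- `a` lies in the maximal ideal of the valuation ring of `v`. -/
def DVal.Small (v : DVal k K) (a : K) : Prop := a ≠ 0 → 0 < v.ord a

/-- The residue field of `v` has transcendence degree at least `d` over `k`: there are `d` elements
of the valuation ring whose residues are algebraically independent over `k`. -/
def DVal.IsDivisorial (v : DVal k K) (d : ℕ) : Prop :=
  ∃ t : Fin d → K, (∀ i, v.Integral (t i)) ∧
    ∀ F : MvPolynomial (Fin d) k, F ≠ 0 → ¬ v.Small (MvPolynomial.aeval t F)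

/-- The valuation ring of `v` contains `A`, and its maximal ideal meets `A` in `p`
(`v` has centre `p` on `Spec A`). -/
def DVal.HasCenter (v : DVal k K) (A : Subalgebra k K) (p : Ideal A) : Prop :=
  (∀ a : A, v.Integral (a : K)) ∧ ∀ a : A, a ∈ p ↔ v.Small (a : K)

/-- The Jacobian determinant `det (D i (a j))`. -/
noncomputable def jac {n : ℕ} (D : Fin n → Derivation k K K) (a : Fin n → K) : K :=
  Matrix.det (Matrix.of fun i j => D i (a j))

/-- If `D i = ∂/∂y_i`: the rational top form `dy_0 ∧ ⋯ ∧ dy_m` has order `j` along `v`, i.e.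
`-j` is the least order of a Jacobian determinant of elements of the valuation ring of `v`. -/
def DVal.FormOrd (v : DVal k K) {n : ℕ} (D : Fin n → Derivation k K K) (j : ℤ) : Prop :=
  (∀ a : Fin n → K, (∀ i, v.Integral (a i)) → jac D a ≠ 0 → -j ≤ v.ord (jac D a)) ∧
  ∃ a : Fin n → K, (∀ i, v.Integral (a i)) ∧ jac D a ≠ 0 ∧ v.ord (jac D a) = -j

/-- `p` is a prime ideal of height one: a minimal nonzero prime. -/
def IsHeightOne {A : Subalgebra k K} (p : Ideal A) : Prop :=
  p.IsPrime ∧ p ≠ ⊥ ∧ ∀ q : Ideal A, q.IsPrime → q ≠ ⊥ → q ≤ p → q = p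

/-- The value `∑ r_i v(g_i)` of the formal real combination `∑ r_i [g_i]` of elements of `Kˣ`. -/
noncomputable def DVal.val (v : DVal k K) (γ : Kˣ →₀ ℝ) : ℝ :=
  γ.sum fun g r => r * (v.ord (g : K) : ℝ)

/-- `γ = ∑ r_i [g_i]` is a local equation of the `ℝ`-divisor `K_X + Δ` near the generic point of
`V(p)`, `X = Spec A`, `K_X = div (dy_0 ∧ ⋯ ∧ dy_m)`, `Δ = ∑ δ(q) V(q)`: for every prime divisor
`V(q)`, `q ⊆ p`, with valuation `v`, `ord_v (dy_0 ∧ ⋯ ∧ dy_m) + δ(q) = ∑ r_i v(g_i)`. -/
def IsLocalEq (A : Subalgebra k K) {n : ℕ} (D : Fin n → Derivation k K K) (δ : Ideal A →₀ ℝ)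
    (p : Ideal A) (γ : Kˣ →₀ ℝ) : Prop :=
  ∀ q : Ideal A, q ≤ p → IsHeightOne q → ∀ v : DVal k K, v.HasCenter A q →
    ∀ j : ℤ, v.FormOrd D j → (j : ℝ) + δ q = v.val γ

/-- The log discrepancies `1 + ord_v(dy) - ∑ r_i v(g_i)` over `(X, Δ)` of the divisorial valuations
`v` with centre the closed point `x`. -/
def logDiscs (A : Subalgebra k K) {m : ℕ} (D : Fin (m + 1) → Derivation k K K) (δ : Ideal A →₀ ℝ)
    (x : MaximalSpectrum A) : Set ℝ :=
  {l | ∃ v : DVal k K, v.IsDivisorial m ∧ v.HasCenter A x.asIdeal ∧ ∃ j : ℤ, v.FormOrd D j ∧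
    ∃ γ : Kˣ →₀ ℝ, IsLocalEq A D δ x.asIdeal γ ∧ l = 1 + (j : ℝ) - v.val γ}

open Classical in
/-- The minimal log discrepancy at the closed point `x` (`-∞` if some log discrepancy is
negative). -/
noncomputable def mld (A : Subalgebra k K) {m : ℕ} (D : Fin (m + 1) → Derivation k K K)
    (δ : Ideal A →₀ ℝ) (x : MaximalSpectrum A) : EReal :=
  if ∃ l ∈ logDiscs A D δ x, l < 0 then ⊥ else ⨅ l ∈ logDiscs A D δ x, (l : EReal)

/-- `f` is a semi-invariant rational function: `f = g(y_0) y_1^{u_1} ⋯ y_m^{u_m}`. -/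
def IsSemiInv {m : ℕ} (y : Fin (m + 1) → K) (f : K) : Prop :=
  ∃ g ∈ IntermediateField.adjoin k {y 0}, ∃ w : Fin m → ℤ, f = g * ∏ i, y i.succ ^ w i

/-- `p` is generated by semi-invariant elements (`V(p)` is stable under the torus). -/
def IsInvIdeal {m : ℕ} (y : Fin (m + 1) → K) {A : Subalgebra k K} (p : Ideal A) : Prop :=
  p = Ideal.span {a : A | a ∈ p ∧ IsSemiInv (k := k) y (a : K)}

end Pool.Agent.MLD
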