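import Pool.Agent.Lib.MP_f23696_ag.Defs

/-!
Definitions for the lower semicontinuity of minimal log discrepancies of varieties with a torus
action whose quotient is a projective space with a general hyperplane arrangement (MP_f23696_ag).
-/

namespace Pool.Agent.MLD

universe u v

variable {k : Type u} {K : Type v} [Field k] [Field K] [Algebra k K]

/-- The value `l_0 + l_1 z_1 + ⋯ + l_n z_n` of the affine linear form with coefficients `l`. -/
noncomputable def linForm {n : ℕ} (z : Fin n → K) (l : Fin (n + 1) → k) : K :=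
  algebraMap k K (l 0) + ∑ i, algebraMap k K (l i.succ) * z i

/-- `f` is a monomial of the arrangement `L`: `f = ∏ L_Q(z)^{a_Q} ∏ x_i^{u_i}`. -/
def IsArrMon {n m r : ℕ} (L : Fin r → Fin (n + 1) → k) (z : Fin n → K) (x : Fin m → K)
    (f : K) : Prop :=
  ∃ (a : Fin r → ℤ) (u : Fin m → ℤ), f = (∏ Q, linForm z (L Q) ^ a Q) * ∏ i, x i ^ u i

/-- `p` is generated by monomials of the arrangement `L`. -/
def IsMonIdeal {n m r : ℕ} (L : Fin r → Fin (n + 1) → k) (z : Fin n → K) (x : Fin m → K)
    {A : Subalgebra k K} (p : Ideal A) : Prop :=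
  p = Ideal.span {a : A | a ∈ p ∧ IsArrMon L z x (a : K)}

end Pool.Agent.MLD
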