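import Pool.Agent.Lib.MP_f23696_ag.Cen
import Pool.Agent.Lib.MP_f23696_ag.Dvr
import Pool.Agent.Lib.MP_f23696_ag.Mono
import Pool.Agent.Lib.MP_f23696_ag.Cls

/-!
Invariant and non-invariant prime divisors (MP_f23696_ag, project LSC).
-/

namespace Pool.Agent.MLD

open scoped Classical
noncomputable section

universe u v w

namespace Hdv

section Basics
variable {k : Type u} {K : Type v} [Field k] [Field K] [Algebra k K] (w : DVal k K)

theorem ord_one : w.ord 1 = 0 := by
  have h := w.ord_mul 1 1 one_ne_zero one_ne_zero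
  rw [one_mul] at h
  omega

theorem ord_inv {a : K} (ha : a ≠ 0) : w.ord a⁻¹ = -w.ord a := by
  have h := w.ord_mul a a⁻¹ ha (inv_ne_zero ha)
  rw [mul_inv_cancel₀ ha, ord_one] at h
  omega

theorem ord_pow {a : K} (ha : a ≠ 0) (n : ℕ) : w.ord (a ^ n) = n * w.ord a := by
  induction n with
  | zero => simp [ord_one]
  | succ n ih =>
    rw [pow_succ, w.ord_mul _ _ (pow_ne_zero _ ha) ha, ih]
    push_cast
    ring

theorem ord_zpow {a : K} (ha : a ≠ 0) (n : ℤ) : w.ord (a ^ n) = n * w.ord a := by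
  cases n with
  | ofNat n =>
    simp only [Int.ofNat_eq_natCast, zpow_natCast]
    exact ord_pow w ha n
  | negSucc n =>
    rw [zpow_negSucc, ord_inv w (pow_ne_zero _ ha), ord_pow w ha]
    rw [Int.negSucc_eq]
    push_cast
    ring

theorem ord_prod {ι : Type*} (s : Finset ι) (f : ι → K) (hf : ∀ i ∈ s, f i ≠ 0) :
    w.ord (∏ i ∈ s, f i) = ∑ i ∈ s, w.ord (f i) := by
  classical
  induction s using Finset.induction_on with
  | empty => simp [ord_one]
  | insert a s ha ih =>
    rw [Finset.prod_insert ha, Finset.sum_insert ha,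
      w.ord_mul _ _ (hf a (Finset.mem_insert_self _ _))
        (Finset.prod_ne_zero_iff.2 fun i hi => hf i (Finset.mem_insert_of_mem hi)),
      ih fun i hi => hf i (Finset.mem_insert_of_mem hi)]

theorem integral_mul {a b : K} (ha : w.Integral a) (hb : w.Integral b) : w.Integral (a * b) := by
  intro h
  have h1 : a ≠ 0 := left_ne_zero_of_mul h
  have h2 : b ≠ 0 := right_ne_zero_of_mul h
  rw [w.ord_mul _ _ h1 h2]
  exact add_nonneg (ha h1) (hb h2)

theorem integral_add {a b : K} (ha : w.Integral a) (hb : w.Integral b) : w.Integral (a + b) := by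
  intro h
  by_cases h1 : a = 0
  · subst h1
    rw [zero_add] at h ⊢
    exact hb h
  by_cases h2 : b = 0
  · subst h2
    rw [add_zero] at h ⊢
    exact ha h
  exact (le_min (ha h1) (hb h2)).trans (w.ord_add _ _ h1 h2 h)

theorem integral_algebraMap (c : k) : w.Integral (algebraMap k K c) := by
  intro h
  have hc : c ≠ 0 := by
    rintro rfl
    exact h (map_zero _)
  rw [w.ord_algebraMap c hc]

/-- the valuation ring -/
def ring : Subalgebra k K where
  carrier := {a | w.Integral a}
  mul_mem' := integral_mul w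
  add_mem' := integral_add w
  algebraMap_mem' := integral_algebraMap w

theorem mem_ring {a : K} : a ∈ ring w ↔ w.Integral a := Iff.rfl

/-- the elements of the valuation ring with derivative in the valuation ring -/
def dring (D : Derivation k K K) : Subalgebra k K where
  carrier := {a | w.Integral a ∧ w.Integral (D a)}
  mul_mem' := by
    rintro a b ⟨h1, h2⟩ ⟨h3, h4⟩
    refine ⟨integral_mul w h1 h3, ?_⟩
    rw [Derivation.leibniz, smul_eq_mul, smul_eq_mul]
    exact integral_add w (integral_mul w h1 h4) (integral_mul w h3 h2)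
  add_mem' := by
    rintro a b ⟨h1, h2⟩ ⟨h3, h4⟩
    refine ⟨integral_add w h1 h3, ?_⟩
    rw [map_add]
    exact integral_add w h2 h4
  algebraMap_mem' := by
    intro c
    refine ⟨integral_algebraMap w c, ?_⟩
    rw [Derivation.map_algebraMap]
    exact fun h => absurd rfl h

theorem mem_dring {D : Derivation k K K} {a : K} :
    a ∈ dring w D ↔ w.Integral a ∧ w.Integral (D a) := Iff.rfl

theorem inv_mem_dring {D : Derivation k K K} {a : K} (h : a ∈ dring w D)
    (h' : w.Integral a⁻¹) : a⁻¹ ∈ dring w D := by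
  refine ⟨h', ?_⟩
  have h1 : D a⁻¹ = -(a⁻¹ * a⁻¹ * D a) := by
    rw [Derivation.leibniz_inv, smul_eq_mul, sq]
    ring
  rw [h1]
  have h2 : w.Integral (a⁻¹ * a⁻¹ * D a) := integral_mul w (integral_mul w h' h') h.2
  exact (ring w).neg_mem h2

end Basics

section Mon
variable {k : Type u} [Field k] {m : ℕ} {K : Type v} [Field K] [Algebra k K] {C : Ctx k K m}

theorem ι_ne {g : RatFunc k} (hg : g ≠ 0) : C.ι g ≠ 0 :=
  fun h => hg ((map_eq_zero_iff C.ι (RingHom.injective (C.ι : RatFunc k →+* K))).1 h)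

theorem mon_ne {g : RatFunc k} (hg : g ≠ 0) (u : Fin m → ℤ) : C.mon g u ≠ 0 :=
  mul_ne_zero (ι_ne hg) (Finset.prod_ne_zero_iff.2 fun i _ => zpow_ne_zero _ (C.x_ne i))

theorem ord_mon (w : DVal k K) (P : Option k) (n : ℕ)
    (h : ∀ g, g ≠ 0 → w.ord (C.ι g) = n * ordAt P g) {g : RatFunc k} (hg : g ≠ 0)
    (u : Fin m → ℤ) :
    w.ord (C.mon g u) = (⟨P, n, fun i => w.ord (C.x i)⟩ : HV k m).val g u := by
  rw [Ctx.mon, w.ord_mul _ _ (ι_ne hg)
    (Finset.prod_ne_zero_iff.2 fun i _ => zpow_ne_zero _ (C.x_ne i)), h g hg,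
    ord_prod w _ _ fun i _ => zpow_ne_zero _ (C.x_ne i), HV.val]
  congr 1
  apply Finset.sum_congr rfl
  intro i _
  rw [ord_zpow w (C.x_ne i), mul_comm]

/-- elements with a given center: nonzero elements of the ring outside `p` have order zero -/
theorem ord_eq_zero {A : Subalgebra k K} {p : Ideal A} {w : DVal k K} (h : w.HasCenter A p)
    (a : A) (ha : a ∉ p) : w.ord (a : K) = 0 := by
  have h1 := h.1 a
  have h2 : ¬ w.Small (a : K) := fun hs => ha ((h.2 a).2 hs)
  unfold DVal.Small at h2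
  push Not at h2
  obtain ⟨h3, h4⟩ := h2
  exact le_antisymm h4 (h1 h3)

theorem hS_iff (X : TV C) (p : Ideal X.A) {g : RatFunc k} {u : Fin m → ℤ} (h : X.hA g u) :
    ¬ X.hS p g u ↔ (⟨C.mon g u, h.2⟩ : X.A) ∈ p := by
  constructor
  · intro h1
    by_contra h2
    exact h1 ⟨h.1, h.2, h2⟩
  · rintro h1 ⟨_, _, h2⟩
    exact h2 h1

/-- the derivations preserve the valuation ring if it contains all semi-invariants -/
theorem mon_mem_dring (w : DVal k K) (h : ∀ g u, g ≠ 0 → w.ord (C.mon g u) = 0)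
    (i : Fin (m + 1)) (g : RatFunc k) (u : Fin m → ℤ) : C.mon g u ∈ dring w (C.der i) := by
  have hι : ∀ g : RatFunc k, g ≠ 0 → w.ord (C.ι g) = 0 := by
    intro g hg
    have h1 := h g 0 hg
    rw [Ctx.mon] at h1
    simpa using h1
  have hι' : ∀ g : RatFunc k, w.Integral (C.ι g) := by
    intro g hg
    have : g ≠ 0 := by
      rintro rfl
      exact hg (map_zero _)
    rw [hι g this]
  have hx : ∀ j, w.ord (C.x j) = 0 := by
    intro j
    have h1 := h 1 (Pi.single j 1) one_ne_zero
    rw [Ctx.mon, map_one, one_mul, Finset.prod_eq_single j] at h1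
    · simpa using h1
    · intro b _ hb
      rw [Pi.single_eq_of_ne hb, zpow_zero]
    · intro hj
      exact absurd (Finset.mem_univ j) hj
  have h01 : ∀ a : K, a = 0 ∨ a = 1 → w.Integral a := by
    rintro a (rfl | rfl)
    · exact fun h => absurd rfl h
    · intro _
      rw [ord_one]
  have hX : C.ι RatFunc.X ∈ dring w (C.der i) := by
    refine ⟨hι' _, h01 _ ?_⟩
    refine Fin.cases ?_ (fun j => ?_) i
    · exact Or.inr C.der0_X
    · exact Or.inl (C.derS_X j)
  have hpoly : ∀ q : Polynomial k, C.ι (algebraMap (Polynomial k) (RatFunc k) q) ∈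
      dring w (C.der i) := by
    intro q
    have h1 : C.ι (algebraMap (Polynomial k) (RatFunc k) q) =
        Polynomial.aeval (C.ι RatFunc.X) q := by
      rw [Polynomial.aeval_algHom_apply]
      congr 1
      rw [← RatFunc.algebraMap_X, Polynomial.aeval_algebraMap_apply, Polynomial.aeval_X_left_apply]
    rw [h1, Polynomial.aeval_eq_sum_range]
    exact (dring w (C.der i)).sum_mem fun j _ =>
      (dring w (C.der i)).smul_mem ((dring w (C.der i)).pow_mem hX j) _
  have hrat : ∀ g : RatFunc k, C.ι g ∈ dring w (C.der i) := by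
    intro g
    rw [← RatFunc.num_div_denom g, map_div₀, div_eq_mul_inv]
    refine (dring w (C.der i)).mul_mem (hpoly _) (inv_mem_dring w (hpoly _) ?_)
    rw [← map_inv₀]
    exact hι' _
  have hxm : ∀ j, C.x j ∈ dring w (C.der i) := by
    intro j
    refine ⟨fun _ => (hx j).ge, h01 _ ?_⟩
    refine Fin.cases ?_ (fun l => ?_) i
    · exact Or.inl (C.der0_x j)
    · rw [C.derS_x]
      split_ifs
      · exact Or.inr rfl
      · exact Or.inl rfl
  have hxi : ∀ j, (C.x j)⁻¹ ∈ dring w (C.der i) := by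
    intro j
    apply inv_mem_dring w (hxm j)
    intro _
    rw [ord_inv w (C.x_ne j), hx j, neg_zero]
  refine (dring w (C.der i)).mul_mem (hrat g) ((dring w (C.der i)).prod_mem fun j _ => ?_)
  cases u j with
  | ofNat n =>
    simp only [Int.ofNat_eq_natCast, zpow_natCast]
    exact (dring w (C.der i)).pow_mem (hxm j) n
  | negSucc n =>
    rw [zpow_negSucc, ← inv_pow]
    exact (dring w (C.der i)).pow_mem (hxi j) _

theorem jac_self (C : Ctx k K m) : jac C.der (Fin.cons (C.ι RatFunc.X) C.x) = 1 := by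
  rw [jac]
  have h : (Matrix.of fun i j => C.der i
      ((Fin.cons (C.ι RatFunc.X) C.x : Fin (m + 1) → K) j)) = 1 := by
    ext i j
    rw [Matrix.of_apply, Matrix.one_apply]
    refine Fin.cases ?_ (fun i => ?_) i <;> refine Fin.cases ?_ (fun j => ?_) j
    · simp [C.der0_X]
    · simp [C.der0_x, (Fin.succ_ne_zero j).symm]
    · simp [C.derS_X]
    · simp [C.derS_x, eq_comm]
  rw [h, Matrix.det_one]

end Mon

end Hdv

section DIVS
variable {k : Type u} [Field k] [IsAlgClosed k] [CharZero k] {m : ℕ} {K : Type v} [Field K]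
  [Algebra k K] {C : Ctx k K m}

theorem homDiv (X : TV C) (p : Ideal X.A) (hp : IsHeightOne p) (hi : X.Inv p) :
    ∃ (V : HV k m) (v : DVal k K), v.HasCenter X.A p ∧ v.FormOrd C.der (V.disc - 1) ∧
      V.CenterEq X p ∧ (∀ g u, g ≠ 0 → v.ord (C.mon g u) = V.val g u) ∧
      ∀ (s : Finset (Fin m → ℤ)) (hs : s.Nonempty) (g : (Fin m → ℤ) → RatFunc k),
        (∀ u ∈ s, g u ≠ 0) →
          v.ord (∑ u ∈ s, C.mon (g u) u) = s.inf' hs fun u => V.val (g u) u := by
  obtain ⟨w, hw, -⟩ := dvr X.A (noeth X) X.frac X.normal p hp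
  obtain ⟨P, n, hPn⟩ := cls w C.ι
  set V₁ : HV k m := ⟨P, n, fun i => w.ord (C.x i)⟩ with hV₁
  have hord : ∀ g u, g ≠ 0 → w.ord (C.mon g u) = V₁.val g u :=
    fun g u hg => Hdv.ord_mon w P n hPn hg u
  have hcA : ∀ g u, X.hA g u → 0 ≤ V₁.val g u := by
    intro g u h
    rw [← hord g u h.1]
    exact hw.1 ⟨_, h.2⟩ (Hdv.mon_ne h.1 u)
  have hcS : ∀ g u (h : X.hA g u), 0 < V₁.val g u ↔ (⟨C.mon g u, h.2⟩ : X.A) ∈ p := by
    intro g u h
    rw [← hord g u h.1, hw.2]
    exact ⟨fun h1 _ => h1, fun h1 => h1 (Hdv.mon_ne h.1 u)⟩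
  have hne : ∃ g u, g ≠ 0 ∧ V₁.val g u ≠ 0 := by
    obtain ⟨a, hap, ha0⟩ := Submodule.exists_mem_ne_zero_of_ne_bot hp.2.1
    obtain ⟨s, g, hs, hg⟩ := gr1 X a
    have hsne : s.Nonempty := by
      rw [Finset.nonempty_iff_ne_empty]
      rintro rfl
      rw [Finset.sum_empty] at hs
      exact ha0 (Subtype.ext hs)
    obtain ⟨u, hu⟩ := hsne
    refine ⟨g u, u, (hg u hu).1, ?_⟩
    exact ((hcS _ _ (hg u hu)).2 (hi a hap s g hs u hu (hg u hu).2)).ne'
  obtain ⟨N, V, hN, h1, hVN, -, -, -⟩ := prim V₁ hne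
  have hN' : (0 : ℤ) < N := by exact_mod_cast hN
  obtain ⟨v, -, hform, hvord, hmin⟩ := mono C V h1
  have hpos : ∀ g u, 0 < V.val g u ↔ 0 < V₁.val g u := by
    intro g u
    rw [hVN g u]
    exact (mul_pos_iff_of_pos_left hN').symm
  have hnn : ∀ g u, X.hA g u → 0 ≤ V.val g u := by
    intro g u h
    have h2 := hcA g u h
    rw [hVN g u] at h2
    exact nonneg_of_mul_nonneg_right h2 hN'
  refine ⟨V, v, ⟨?_, ?_⟩, hform, ⟨hnn, ?_⟩, hvord, hmin⟩
  · intro a ha
    obtain ⟨s, g, hs, hg⟩ := gr1 X a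
    have hsne : s.Nonempty := by
      rw [Finset.nonempty_iff_ne_empty]
      rintro rfl
      rw [Finset.sum_empty] at hs
      exact ha hs
    rw [hs, hmin s hsne g fun u hu => (hg u hu).1]
    exact Finset.le_inf' _ _ fun u hu => hnn _ _ (hg u hu)
  · intro a
    obtain ⟨s, g, hs, hg⟩ := gr1 X a
    constructor
    · intro hap ha
      have hsne : s.Nonempty := by
        rw [Finset.nonempty_iff_ne_empty]
        rintro rfl
        rw [Finset.sum_empty] at hs
        exact ha hs
      rw [hs, hmin s hsne g fun u hu => (hg u hu).1, Finset.lt_inf'_iff]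
      intro u hu
      rw [hpos]
      exact (hcS _ _ (hg u hu)).2 (hi a hap s g hs u hu (hg u hu).2)
    · intro hsm
      by_cases ha : (a : K) = 0
      · have : a = 0 := Subtype.ext ha
        rw [this]
        exact p.zero_mem
      have hsne : s.Nonempty := by
        rw [Finset.nonempty_iff_ne_empty]
        rintro rfl
        rw [Finset.sum_empty] at hs
        exact ha hs
      have h2 := hsm ha
      rw [hs, hmin s hsne g fun u hu => (hg u hu).1, Finset.lt_inf'_iff] at h2
      have h3 : a = ∑ u ∈ s.attach, (⟨C.mon (g u) u, (hg u u.2).2⟩ : X.A) := by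
        apply Subtype.ext
        rw [hs]
        push_cast
        exact (Finset.sum_attach s fun u => C.mon (g u) u).symm
      rw [h3]
      refine p.sum_mem fun u _ => ?_
      exact (hcS _ _ (hg u u.2)).1 ((hpos _ _).1 (h2 u u.2))
  · intro g u h
    rw [hpos, hcS g u h, Hdv.hS_iff X p h]

theorem nonhomDiv (X : TV C) (p : Ideal X.A) (hp : IsHeightOne p) (hi : ¬ X.Inv p) :
    (∀ g u, X.hA g u → X.hS p g u) ∧
    ∃ v : DVal k K, v.HasCenter X.A p ∧ v.FormOrd C.der 0 ∧
      ∀ g u, g ≠ 0 → v.ord (C.mon g u) = 0 := by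
  have hS : ∀ g u, X.hA g u → X.hS p g u := by
    obtain ⟨q, hq, hqi, hqp, hqS⟩ := core_prime X p hp.1
    have hqb : q = ⊥ := by
      by_contra hne
      exact hi (hp.2.2 q hq hne hqp ▸ hqi)
    intro g u h
    rw [← hqS g u h]
    refine ⟨h.1, h.2, ?_⟩
    rw [hqb, Ideal.mem_bot]
    intro h0
    exact Hdv.mon_ne h.1 u (congrArg Subtype.val h0)
  refine ⟨hS, ?_⟩
  obtain ⟨v, hv, hval⟩ := dvr X.A (noeth X) X.frac X.normal p hp
  have hA0 : ∀ g u, X.hA g u → v.ord (C.mon g u) = 0 := by
    intro g u h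
    obtain ⟨_, h1, h2⟩ := hS g u h
    exact Hdv.ord_eq_zero hv _ h2
  have h0 : ∀ g u, g ≠ 0 → v.ord (C.mon g u) = 0 := by
    intro g u hg
    obtain ⟨g₁, g₂, u₁, u₂, h1, h2, h3, h4⟩ := ratio X hg u
    have h5 := hA0 _ _ h1
    rw [h3, h4, mon_mul, v.ord_mul _ _ (Hdv.mon_ne hg u) (Hdv.mon_ne h2.1 u₂), hA0 _ _ h2,
      add_zero] at h5
    exact h5
  refine ⟨v, hv, ⟨?_, ?_⟩, h0⟩
  · intro a ha hj
    have hA : ∀ (i : Fin (m + 1)) (b : X.A), (b : K) ∈ Hdv.dring v (C.der i) := by
      intro i b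
      obtain ⟨s, g, hs, -⟩ := gr1 X b
      rw [hs]
      exact (Hdv.dring v (C.der i)).sum_mem fun u _ => Hdv.mon_mem_dring v h0 i _ _
    have hder : ∀ (i : Fin (m + 1)) (f : K), v.Integral f → v.Integral (C.der i f) := by
      intro i f hf
      by_cases hf0 : f = 0
      · rw [hf0, map_zero]
        exact fun h => absurd rfl h
      obtain ⟨s, hsp, hsf⟩ := (hval f hf0).1 (hf hf0)
      have hs0 : (s : K) ≠ 0 := by
        intro h
        apply hsp
        rw [show s = 0 from Subtype.ext h]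
        exact p.zero_mem
      have hso := Hdv.ord_eq_zero hv s hsp
      have h1 : C.der i f = (s : K)⁻¹ * (C.der i ((s : K) * f) + -(f * C.der i (s : K))) := by
        rw [Derivation.leibniz, smul_eq_mul, smul_eq_mul]
        field_simp
        ring
      rw [h1]
      apply Hdv.integral_mul
      · intro _
        rw [Hdv.ord_inv v hs0, hso, neg_zero]
      · apply Hdv.integral_add
        · exact (hA i ⟨_, hsf⟩).2
        · exact (Hdv.ring v).neg_mem (Hdv.integral_mul v hf (hA i s).2)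
    rw [neg_zero]
    have h2 : v.Integral (jac C.der a) := by
      rw [jac, Matrix.det_apply]
      apply (Hdv.ring v).sum_mem
      intro σ _
      have h3 : ∏ i, (Matrix.of fun i j => C.der i (a j)) (σ i) i ∈ Hdv.ring v :=
        (Hdv.ring v).prod_mem fun i _ => hder _ _ (ha i)
      rcases Int.units_eq_one_or (Equiv.Perm.sign σ) with h4 | h4
      · rw [h4, one_smul]
        exact h3
      · rw [h4, Units.neg_smul, one_smul]
        exact (Hdv.ring v).neg_mem h3
    exact h2 hj
  · refine ⟨Fin.cons (C.ι RatFunc.X) C.x, ?_, ?_, ?_⟩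
    · intro i
      refine Fin.cases ?_ (fun j => ?_) i
      · have := (Hdv.mon_mem_dring v h0 0 RatFunc.X 0).1
        rw [Ctx.mon] at this
        simpa using this
      · rw [Fin.cons_succ]
        intro _
        have h1 := h0 1 (Pi.single j 1) one_ne_zero
        rw [Ctx.mon, map_one, one_mul, Finset.prod_eq_single j] at h1
        · rw [Pi.single_eq_same, zpow_one] at h1
          exact h1.ge
        · intro b _ hb
          rw [Pi.single_eq_of_ne hb, zpow_zero]
        · intro hj
          exact absurd (Finset.mem_univ j) hj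
    · rw [Hdv.jac_self]
      exact one_ne_zero
    · rw [Hdv.jac_self, Hdv.ord_one, neg_zero]

end DIVS

end

end Pool.Agent.MLD
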