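import Pool.Agent.Lib.MP_f23696_ag.NrmA
import Pool.Agent.Lib.MP_f23696_ag.Dvr
import Pool.Agent.Lib.MP_f23696_ag.Hart
import Pool.Agent.Lib.MP_f23696_ag.Hdv

/-!
# Homogeneous local equations (module HEQ of project LSC)

A local equation of `K_X + Δ` at a prime `p`, `Δ` torus invariant, can be replaced by a
combination of semi-invariants.
-/

set_option autoImplicit false

namespace Pool.Agent.MLD

open scoped Classical
noncomputable section

universe u v w

namespace HEQ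

section basic
variable {k : Type u} [Field k] {K : Type v} [Field K] [Algebra k K]

theorem ord_one (v : DVal k K) : v.ord 1 = 0 := by
  have h := v.ord_mul 1 1 one_ne_zero one_ne_zero
  rw [mul_one] at h
  omega

theorem ord_pow (v : DVal k K) {a : K} (ha : a ≠ 0) (n : ℕ) : v.ord (a ^ n) = n * v.ord a := by
  induction n with
  | zero => simp [ord_one]
  | succ n ih =>
    rw [pow_succ, v.ord_mul _ _ (pow_ne_zero n ha) ha, ih]
    push_cast
    ring

theorem ord_nonneg {v : DVal k K} {A : Subalgebra k K} {q : Ideal A} (hv : v.HasCenter A q)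
    (a : A) (ha : (a : K) ≠ 0) : 0 ≤ v.ord (a : K) := hv.1 a ha

theorem ord_pos {v : DVal k K} {A : Subalgebra k K} {q : Ideal A} (hv : v.HasCenter A q)
    (a : A) (ha : (a : K) ≠ 0) (h : a ∈ q) : 1 ≤ v.ord (a : K) := (hv.2 a).1 h ha

theorem ne_of_not_mem {A : Subalgebra k K} {q : Ideal A} (a : A) (h : a ∉ q) : (a : K) ≠ 0 := by
  intro h0
  apply h
  have : a = 0 := by
    ext
    exact h0
  rw [this]
  exact q.zero_mem

theorem ord_eq_zero {v : DVal k K} {A : Subalgebra k K} {q : Ideal A} (hv : v.HasCenter A q)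
    (a : A) (h : a ∉ q) : v.ord (a : K) = 0 := by
  have ha := ne_of_not_mem a h
  have h1 := hv.1 a ha
  have h2 : ¬ v.Small (a : K) := fun hs => h ((hv.2 a).2 hs)
  have h3 : ¬ (0 < v.ord (a : K)) := fun hs => h2 fun _ => hs
  omega

theorem val_add (v : DVal k K) (a b : Kˣ →₀ ℝ) : v.val (a + b) = v.val a + v.val b := by
  unfold DVal.val
  exact Finsupp.sum_add_index' (fun _ => by simp) (fun _ _ _ => by ring)

theorem val_single (v : DVal k K) (g : Kˣ) (r : ℝ) :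
    v.val (Finsupp.single g r) = r * (v.ord (g : K) : ℝ) := by
  unfold DVal.val
  exact Finsupp.sum_single_index (by simp)

theorem val_zero (v : DVal k K) : v.val (0 : Kˣ →₀ ℝ) = 0 := by
  unfold DVal.val
  exact Finsupp.sum_zero_index

theorem val_sum (v : DVal k K) {ι : Type*} (s : Finset ι) (F : ι → (Kˣ →₀ ℝ)) :
    v.val (∑ i ∈ s, F i) = ∑ i ∈ s, v.val (F i) := by
  induction s using Finset.induction_on with
  | empty => simp [val_zero]
  | insert a s ha ih => rw [Finset.sum_insert ha, Finset.sum_insert ha, val_add, ih]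

end basic

section main
variable {k : Type u} [Field k] {m : ℕ} {K : Type v} [Field K] [Algebra k K] {C : Ctx k K m}

theorem mon_pow (C : Ctx k K m) (g : RatFunc k) (u : Fin m → ℤ) (n : ℕ) :
    C.mon (g ^ n) (n • u) = C.mon g u ^ n := by
  induction n with
  | zero => simp [Ctx.mon]
  | succ n ih => rw [pow_succ, succ_nsmul, mon_mul, ih, pow_succ]

theorem exists_semi (X : TV C) (q : Ideal X.A) (hq : IsHeightOne q) (hi : X.Inv q) :
    ∃ g u, X.hA g u ∧ ∀ v : DVal k K, v.HasCenter X.A q → 1 ≤ v.ord (C.mon g u) := by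
  obtain ⟨a, haq, ha0⟩ := Submodule.exists_mem_ne_zero_of_ne_bot hq.2.1
  obtain ⟨s, g, hs, hg⟩ := gr1 X a
  have hne : s.Nonempty := by
    by_contra h
    rw [Finset.not_nonempty_iff_eq_empty] at h
    rw [h, Finset.sum_empty] at hs
    apply ha0
    ext
    exact hs
  obtain ⟨u, hu⟩ := hne
  refine ⟨g u, u, hg u hu, fun v hv => ?_⟩
  exact ord_pos hv ⟨C.mon (g u) u, (hg u hu).2⟩ (mon_ne_zero C (hg u hu).1 u)
    (hi a haq s g hs u hu (hg u hu).2)

theorem clear (X : TV C) (F : Finset (Ideal X.A)) (hF : ∀ q ∈ F, IsHeightOne q ∧ X.Inv q)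
    (N : Ideal X.A → ℕ) :
    ∃ g u, X.hA g u ∧ ∀ q ∈ F, ∀ v : DVal k K, v.HasCenter X.A q →
      (N q : ℤ) ≤ v.ord (C.mon g u) := by
  induction F using Finset.induction_on with
  | empty =>
    refine ⟨1, 0, ⟨one_ne_zero, ?_⟩, fun q hq => absurd hq (Finset.notMem_empty q)⟩
    have : C.mon 1 0 = 1 := by simp [Ctx.mon]
    rw [this]
    exact X.A.one_mem
  | insert q₀ F hq₀ ih =>
    obtain ⟨g, u, hgu, h1⟩ := ih fun q hq => hF q (Finset.mem_insert_of_mem hq)
    obtain ⟨h0, hi0⟩ := hF q₀ (Finset.mem_insert_self q₀ F)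
    obtain ⟨g₀, u₀, hgu₀, h2⟩ := exists_semi X q₀ h0 hi0
    have e : C.mon (g * g₀ ^ N q₀) (u + N q₀ • u₀) = C.mon g u * C.mon g₀ u₀ ^ N q₀ := by
      rw [mon_mul, mon_pow]
    refine ⟨g * g₀ ^ N q₀, u + N q₀ • u₀, ⟨mul_ne_zero hgu.1 (pow_ne_zero _ hgu₀.1), ?_⟩,
      fun q hq v hv => ?_⟩
    · rw [e]
      exact X.A.mul_mem hgu.2 (X.A.pow_mem hgu₀.2 _)
    · have n1 := mon_ne_zero C hgu.1 u
      have n2 := mon_ne_zero C hgu₀.1 u₀
      rw [e, v.ord_mul _ _ n1 (pow_ne_zero _ n2), ord_pow v n2]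
      have p1 : 0 ≤ v.ord (C.mon g u) := ord_nonneg hv ⟨_, hgu.2⟩ n1
      have p2 : 0 ≤ v.ord (C.mon g₀ u₀) := ord_nonneg hv ⟨_, hgu₀.2⟩ n2
      rcases Finset.mem_insert.1 hq with rfl | hq'
      · have p3 := h2 v hv
        have p4 : (N q : ℤ) * 1 ≤ (N q : ℤ) * v.ord (C.mon g₀ u₀) :=
          mul_le_mul_of_nonneg_left p3 (Int.natCast_nonneg _)
        linarith
      · have p3 := h1 q hq' v hv
        have p4 : 0 ≤ (N q₀ : ℤ) * v.ord (C.mon g₀ u₀) := mul_nonneg (Int.natCast_nonneg _) p2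
        linarith

end main

section claim
variable {k : Type u} [Field k] [IsAlgClosed k] [CharZero k] {m : ℕ} {K : Type v} [Field K]
  [Algebra k K] {C : Ctx k K m}

theorem unique (X : TV C) (q : Ideal X.A) (hq : IsHeightOne q) (v v' : DVal k K)
    (hv : v.HasCenter X.A q) (hv' : v'.HasCenter X.A q) (f : K) (hf : f ≠ 0) :
    v.ord f = v'.ord f :=
  dvr_unique X.A (noeth X) X.frac X.normal q hq v v' hv hv' f hf

/-- no pole along the prime divisors through `p`: the element is a fraction with denominator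
outside `p` -/
theorem hart (X : TV C) (p : Ideal X.A) (hp : p.IsPrime) (f : K) (hf : f ≠ 0)
    (h : ∀ q : Ideal X.A, IsHeightOne q → q ≤ p → ∀ v : DVal k K, v.HasCenter X.A q →
      0 ≤ v.ord f) :
    ∃ s : X.A, s ∉ p ∧ (s : K) * f ∈ X.A := by
  refine hartogs X.A (noeth X) X.frac X.normal p hp f hf fun q hq hqp => ?_
  obtain ⟨v, hv, h1⟩ := dvr X.A (noeth X) X.frac X.normal q hq
  exact (h1 f hf).1 (h q hq hqp v hv)

theorem claim (X : TV C) (p : Ideal X.A) (hp : p.IsPrime) (f : K) (hf : f ≠ 0)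
    (h0 : ∀ q : Ideal X.A, IsHeightOne q → ¬ X.Inv q → q ≤ p → ∀ v : DVal k K,
      v.HasCenter X.A q → v.ord f = 0) :
    ∃ (g : RatFunc k) (u : Fin m → ℤ), g ≠ 0 ∧ ∀ q : Ideal X.A, IsHeightOne q → q ≤ p →
      ∀ v : DVal k K, v.HasCenter X.A q → v.ord f = v.ord (C.mon g u) := by
  obtain ⟨a₁, a₂, ha₂, hfa⟩ := X.frac f
  have hfa' : f * (a₂ : K) = a₁ := by
    rw [hfa]
    exact div_mul_cancel₀ _ ha₂
  have ha₁ : (a₁ : K) ≠ 0 := by
    rw [← hfa']
    exact mul_ne_zero hf ha₂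
  have ha₂' : a₂ ≠ 0 := fun h => ha₂ (by rw [h]; rfl)
  -- the invariant prime divisors in the support of the denominator
  have hfin : {q : Ideal X.A | IsHeightOne q ∧ a₂ ∈ q ∧ X.Inv q}.Finite :=
    (finite_heightOne X.A (noeth X) a₂ ha₂').subset fun q hq => ⟨hq.1, hq.2.1⟩
  have hb : ∀ q : Ideal X.A, ∃ n : ℕ, IsHeightOne q → ∀ v : DVal k K, v.HasCenter X.A q →
      v.ord (a₂ : K) ≤ n := by
    intro q
    by_cases hq : IsHeightOne q
    · obtain ⟨v, hv, -⟩ := dvr X.A (noeth X) X.frac X.normal q hq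
      refine ⟨(v.ord (a₂ : K)).toNat, fun _ v' hv' => ?_⟩
      rw [unique X q hq v' v hv' hv _ ha₂]
      exact Int.self_le_toNat _
    · exact ⟨0, fun h => absurd h hq⟩
  choose N hN using hb
  obtain ⟨G, U, hGU, hclear⟩ := clear X hfin.toFinset
    (fun q hq => by
      have := (Set.Finite.mem_toFinset hfin).1 hq
      exact ⟨this.1, this.2.2⟩) N
  have hb0 := mon_ne_zero C hGU.1 U
  have hbf : C.mon G U * f ≠ 0 := mul_ne_zero hb0 hf
  have h1 : ∀ q : Ideal X.A, IsHeightOne q → q ≤ p → ∀ v : DVal k K, v.HasCenter X.A q →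
      0 ≤ v.ord (C.mon G U * f) := by
    intro q hq hqp v hv
    rw [v.ord_mul _ _ hb0 hf]
    have e1 : v.ord f + v.ord (a₂ : K) = v.ord (a₁ : K) := by
      rw [← v.ord_mul _ _ hf ha₂, hfa']
    have e2 := ord_nonneg hv a₁ ha₁
    have e3 : 0 ≤ v.ord (C.mon G U) := ord_nonneg hv ⟨_, hGU.2⟩ hb0
    by_cases haq : a₂ ∈ q
    · by_cases hi : X.Inv q
      · have e4 := hN q hq v hv
        have e5 := hclear q ((Set.Finite.mem_toFinset hfin).2 ⟨hq, haq, hi⟩) v hv
        omega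
      · have e4 := h0 q hq hi hqp v hv
        omega
    · have e4 := ord_eq_zero hv a₂ haq
      omega
  obtain ⟨s, hsp, hsA⟩ := hart X p hp _ hbf h1
  have hs0 := ne_of_not_mem s hsp
  have hc0 : (s : K) * (C.mon G U * f) ≠ 0 := mul_ne_zero hs0 hbf
  obtain ⟨S, g, hc, hg⟩ := gr1 X ⟨_, hsA⟩
  have hc' : (s : K) * (C.mon G U * f) = ∑ u ∈ S, C.mon (g u) u := hc
  have hne : S.Nonempty := by
    by_contra h
    rw [Finset.not_nonempty_iff_eq_empty] at h
    rw [h, Finset.sum_empty] at hc'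
    exact hc0 hc'
  set c : K := (s : K) * (C.mon G U * f) with hcdef
  have hordc : ∀ q : Ideal X.A, IsHeightOne q → q ≤ p → ∀ v : DVal k K, v.HasCenter X.A q →
      v.ord c = v.ord (C.mon G U) + v.ord f := by
    intro q hq hqp v hv
    rw [hcdef, v.ord_mul _ _ hs0 hbf, v.ord_mul _ _ hb0 hf,
      ord_eq_zero hv s fun h => hsp (hqp h), zero_add]
  have hle : ∀ u ∈ S, ∀ q : Ideal X.A, IsHeightOne q → q ≤ p → ∀ v : DVal k K,
      v.HasCenter X.A q → v.ord c ≤ v.ord (C.mon (g u) u) := by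
    intro u hu q hq hqp v hv
    have hgu := mon_ne_zero C (hg u hu).1 u
    by_cases hi : X.Inv q
    · obtain ⟨V, v₀, hv₀, -, -, e1, e2⟩ := homDiv X q hq hi
      rw [unique X q hq v v₀ hv hv₀ _ hc0, unique X q hq v v₀ hv hv₀ _ hgu, hc',
        e2 S hne g fun t ht => (hg t ht).1, e1 _ _ (hg u hu).1]
      exact Finset.inf'_le (fun u => V.val (g u) u) hu
    · obtain ⟨-, v₀, hv₀, -, e1⟩ := nonhomDiv X q hq hi
      rw [hordc q hq hqp v hv, h0 q hq hi hqp v hv, unique X q hq v v₀ hv hv₀ _ hb0,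
        unique X q hq v v₀ hv hv₀ _ hgu, e1 _ _ hGU.1, e1 _ _ (hg u hu).1]
      simp
  have hdiv : ∀ u, ∃ t : X.A, t ∉ p ∧ (u ∈ S → (t : K) * (C.mon (g u) u / c) ∈ X.A) := by
    intro u
    by_cases hu : u ∈ S
    · have hgu := mon_ne_zero C (hg u hu).1 u
      obtain ⟨t, ht, htA⟩ := hart X p hp (C.mon (g u) u / c) (div_ne_zero hgu hc0) (by
        intro q hq hqp v hv
        have e : v.ord (C.mon (g u) u / c) + v.ord c = v.ord (C.mon (g u) u) := by
          rw [← v.ord_mul _ _ (div_ne_zero hgu hc0) hc0, div_mul_cancel₀ _ hc0]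
        have := hle u hu q hq hqp v hv
        omega)
      exact ⟨t, ht, fun _ => htA⟩
    · refine ⟨1, fun h => hp.ne_top ((Ideal.eq_top_iff_one p).2 h), fun h => absurd h hu⟩
  choose t ht htA using hdiv
  have hT : ∏ u ∈ S, t u ∉ p := by
    intro h
    obtain ⟨u, -, hu⟩ := (hp.prod_mem_iff).1 h
    exact ht u hu
  have hTA : ∀ u ∈ S, ((∏ u ∈ S, t u : X.A) : K) * (C.mon (g u) u / c) ∈ X.A := by
    intro u hu
    have e : ((∏ u ∈ S, t u : X.A) : K) * (C.mon (g u) u / c) =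
        ((∏ u ∈ S.erase u, t u : X.A) : K) * ((t u : K) * (C.mon (g u) u / c)) := by
      rw [← Finset.prod_erase_mul S t hu]
      push_cast
      ring
    rw [e]
    exact X.A.mul_mem (Subtype.property _) (htA u hu)
  have hex : ∃ u, ∃ hu : u ∈ S, (⟨_, hTA u hu⟩ : X.A) ∉ p := by
    by_contra hcon
    push_neg at hcon
    apply hT
    have e : (∏ u ∈ S, t u : X.A) = ∑ u ∈ S.attach, (⟨_, hTA u.1 u.2⟩ : X.A) := by
      ext
      rw [AddSubmonoidClass.coe_finset_sum]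
      show _ = ∑ u ∈ S.attach, ((∏ u ∈ S, t u : X.A) : K) * (C.mon (g u.1) u.1 / c)
      rw [Finset.sum_attach S fun u => ((∏ u ∈ S, t u : X.A) : K) * (C.mon (g u) u / c),
        ← Finset.mul_sum, ← Finset.sum_div, ← hc', div_self hc0, mul_one]
    rw [e]
    exact Ideal.sum_mem _ fun u _ => hcon u.1 u.2
  obtain ⟨u, hu, hdu⟩ := hex
  have hgu := mon_ne_zero C (hg u hu).1 u
  have hG := hGU.1
  refine ⟨g u * G⁻¹, u - U, mul_ne_zero (hg u hu).1 (inv_ne_zero hG), fun q hq hqp v hv => ?_⟩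
  have e1 : C.mon (g u * G⁻¹) (u - U) * C.mon G U = C.mon (g u) u := by
    rw [← mon_mul, sub_add_cancel, inv_mul_cancel_right₀ hG]
  have hh : C.mon (g u * G⁻¹) (u - U) ≠ 0 :=
    mon_ne_zero C (mul_ne_zero (hg u hu).1 (inv_ne_zero hG)) _
  have e2 : v.ord (C.mon (g u * G⁻¹) (u - U)) + v.ord (C.mon G U) = v.ord (C.mon (g u) u) := by
    rw [← v.ord_mul _ _ hh hb0, e1]
  have e3 : v.ord (((∏ u ∈ S, t u : X.A) : K) * (C.mon (g u) u / c)) = 0 :=
    ord_eq_zero hv ⟨_, hTA u hu⟩ fun h => hdu (hqp h)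
  have hT0 : ((∏ u ∈ S, t u : X.A) : K) ≠ 0 := ne_of_not_mem _ hT
  have e4 : v.ord ((∏ u ∈ S, t u : X.A) : K) = 0 := ord_eq_zero hv _ fun h => hT (hqp h)
  have e5 : v.ord (C.mon (g u) u / c) + v.ord c = v.ord (C.mon (g u) u) := by
    rw [← v.ord_mul _ _ (div_ne_zero hgu hc0) hc0, div_mul_cancel₀ _ hc0]
  rw [v.ord_mul _ _ hT0 (div_ne_zero hgu hc0)] at e3
  have e6 := hordc q hq hqp v hv
  omega

end claim

end HEQ

section DIVS
variable {k : Type u} [Field k] [IsAlgClosed k] [CharZero k] {m : ℕ} {K : Type v} [Field K]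
  [Algebra k K] {C : Ctx k K m}

theorem homEq (X : TV C) (δ : Ideal X.A →₀ ℝ)
    (hδ : ∀ q, IsHeightOne q → δ q ≠ 0 → X.Inv q) (p : Ideal X.A) (hp : p.IsPrime)
    (γ : Kˣ →₀ ℝ) (h : IsLocalEq X.A C.der δ p γ) :
    ∃ γ' : (RatFunc k × (Fin m → ℤ)) →₀ ℝ, (∀ h ∈ γ'.support, h.1 ≠ 0) ∧
      IsLocalEq X.A C.der δ p (C.toEq γ') := by
  obtain ⟨n, ρ, f, hρ, hval⟩ := qbasis (k := k) γ
  have h0 : ∀ i, ∀ q : Ideal X.A, IsHeightOne q → ¬ X.Inv q → q ≤ p → ∀ v : DVal k K,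
      v.HasCenter X.A q → v.ord (f i : K) = 0 := by
    intro i q hq hi hqp v hv
    obtain ⟨-, v₀, hv₀, hj, -⟩ := nonhomDiv X q hq hi
    have e1 := h q hqp hq v₀ hv₀ 0 hj
    have e2 : δ q = 0 := by
      by_contra hne
      exact hi (hδ q hq hne)
    rw [e2, hval v₀] at e1
    have e3 : ∑ i, ((v₀.ord (f i : K) : ℤ) : ℚ) • ρ i = 0 := by
      have e5 : ∑ i, ρ i * (v₀.ord (f i : K) : ℝ) = 0 := by simpa using e1.symm
      rw [← e5]
      refine Finset.sum_congr rfl fun i _ => ?_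
      rw [Rat.smul_def]
      push_cast
      ring
    have e4 := Fintype.linearIndependent_iff.1 hρ _ e3 i
    rw [HEQ.unique X q hq v v₀ hv hv₀ _ (f i).ne_zero]
    exact_mod_cast e4
  have hcl := fun i => HEQ.claim X p hp (f i : K) (f i).ne_zero (h0 i)
  choose g u hg hgu using hcl
  refine ⟨∑ i, Finsupp.single (g i, u i) (ρ i), fun a ha => ?_, fun q hqp hq v hv j hj => ?_⟩
  · have h1 := Finsupp.support_finset_sum ha
    rw [Finset.mem_biUnion] at h1
    obtain ⟨i, -, hi⟩ := h1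
    have h2 := Finsupp.support_single_subset hi
    rw [Finset.mem_singleton] at h2
    rw [h2]
    exact hg i
  · rw [h q hqp hq v hv j hj, hval v, Ctx.toEq, Finsupp.mapDomain_finset_sum, HEQ.val_sum]
    refine Finset.sum_congr rfl fun i _ => ?_
    rw [Finsupp.mapDomain_single, HEQ.val_single, hgu i q hq hqp v hv]
    have : ((C.monU (g i, u i) : Kˣ) : K) = C.mon (g i) (u i) := by
      unfold Ctx.monU
      rw [dif_pos (mon_ne_zero C (hg i) (u i))]
      rfl
    rw [this]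

end DIVS

end

end Pool.Agent.MLD
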