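import Pool.Agent.Lib.MP_f23696_ag.LeHB
import Pool.Agent.Lib.MP_f23696_ag.Phi2

/-!
Project LSC (MP_f23696_ag), module LEH: upper bound in the horizontal case.
-/

namespace Pool.Agent.MLD

open scoped Classical
noncomputable section

universe u v w

theorem LEC.cancel_div {L : Type*} [Field L] {a : L} (h : a ≠ 0) (y : L) :
    a * y / a = y := by
  field_simp

section LE
variable {k : Type u} [Field k] [IsAlgClosed k] [CharZero k] {m : ℕ} {K : Type v} [Field K]
  [Algebra k K] {C : Ctx k K m}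

theorem le_horiz (X : TV C) (x : MaximalSpectrum X.A) (V : HV k m)
    (hV : V.CenterEq X x.asIdeal) (hn : V.n = 0) (hr : 1 ≤ rk (X.hS x.asIdeal)) :
    ∃ (v : DVal k K) (j : ℤ), v.IsDivisorial m ∧ v.HasCenter X.A x.asIdeal ∧
      v.FormOrd C.der j ∧ (∀ g u, g ≠ 0 → v.ord (C.mon g u) = V.val g u) ∧
      j + 1 ≤ V.disc + rk (X.hS x.asIdeal) := by
  have : CharZero K := charZero_of_injective_algebraMap (algebraMap k K).injective
  have : CharZero (AlgebraicClosure K) :=
    charZero_of_injective_algebraMap (algebraMap K (AlgebraicClosure K)).injective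
  obtain ⟨ε, hε⟩ := Value.exists_eval X x
  obtain ⟨c, hc, hchar⟩ := LEC.exists_char hV hn hε
  obtain ⟨β, I, α, e, hβ, hI, hΓI, hα, hβe, heΓ, hw⟩ := beta (LEC.Gam X x)
  rw [← LEC.rk_Gam] at hI
  have hwΓ : ∀ u ∈ LEC.Gam X x, ∑ i, V.w i * u i = 0 := by
    rintro u ⟨g, hS⟩
    rw [← LEC.val_eq hn g u]
    exact LEC.val_S hV hS
  obtain ⟨l, hl⟩ := hw V.w hwΓ
  have hlne : ∃ i ∉ I, l i ≠ 0 := by
    by_contra hcon
    push Not at hcon
    apply LEC.w_ne hV hn hε
    funext j
    have h1 := hl j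
    rw [Finset.sum_eq_zero] at h1
    · exact_mod_cast h1
    · intro i hi
      rw [hcon i (Finset.mem_compl.1 hi), zero_mul]
  obtain ⟨p, hpI, hlp⟩ := hlne
  obtain ⟨δ, hδ⟩ := dext (C.der 0)
  have hδz : δ (LEC.lam C RatFunc.X) = 1 := by
    have h1 : LEC.lam C RatFunc.X = algebraMap K (AlgebraicClosure K) (C.ι RatFunc.X) := rfl
    rw [h1, hδ, C.der0_X, map_one]
  obtain ⟨Φ, hΦz, hΦx⟩ := phi_horiz C (LEC.lam C RatFunc.X) δ hδz c hc V.w β hβ I
  have hmon : ∀ g u, Φ (C.mon g u) = cc (AlgebraicClosure K) m (LEC.lam C g) *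
      ∏ j, xi c V.w β I j ^ u j := by
    intro g u
    unfold Ctx.mon
    rw [map_mul, LEC.Phi_iota Φ hΦz, map_prod]
    congr 1
    exact Finset.prod_congr rfl fun j _ => by rw [map_zpow₀, hΦx]
  have hord : ∀ g u, g ≠ 0 → (Φ (C.mon g u)).order = ∑ i, V.w i * u i := by
    intro g u hg
    rw [hmon, LEC.order_xi' hc V.w β I u (LEC.lam_ne hg)]
  have hlc : ∀ g u, LEC.lc (EE (AlgebraicClosure K) m) (Φ (C.mon g u)) = HahnSeries.single
      (toLex fun i => if i ∈ I then 0 else ∑ j, β i j * u j)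
      (LEC.lam C g * ∏ j, c j ^ u j) := by
    intro g u
    rw [hmon, LEC.lc_xi']
  have hconst : ∀ b : k, Φ (algebraMap k K b)
      = cc (AlgebraicClosure K) m (algebraMap k (AlgebraicClosure K) b) := by
    intro b
    rw [AlgHom.commutes, PHI1.algebraMap_laurent]
    rfl
  have hNe : ∀ {a : K}, a ≠ 0 → Φ a ≠ 0 := fun {a} ha => by
    rw [Ne, map_eq_zero]
    exact ha
  -- the natural number α
  obtain ⟨n, hnα⟩ : ∃ n : ℕ, α = n := ⟨α.toNat, (Int.toNat_of_nonneg hα.le).symm⟩
  have hn0 : 0 < n := by omega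
  -- the elements of order one
  have hτ : ∀ i ∈ I, ∃ τ : K, Φ τ = (1 + ss (AlgebraicClosure K) m * TL _ m i) ^ n - 1 := by
    intro i hi
    obtain ⟨u, ⟨g1, hS1⟩, t, ⟨g2, hS2⟩, heut⟩ := heΓ i hi
    have hA1 := hS1.2.choose
    have hA2 := hS2.2.choose
    have e1 := (LEC.hS_iff hε hS1.1 hA1).1 hS1
    have e2 := (LEC.hS_iff hε hS2.1 hA2).1 hS2
    have c1 := hchar g1 u hS1.1 hA1 e1
    have c2 := hchar g2 t hS2.1 hA2 e2
    set a1 := ε ⟨_, hA1⟩
    set a2 := ε ⟨_, hA2⟩
    have hcu : ∏ j, c j ^ u j = (∏ j, c j ^ e i j) * ∏ j, c j ^ t j := by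
      rw [← Finset.prod_mul_distrib]
      refine Finset.prod_congr rfl fun j _ => ?_
      rw [← zpow_add₀ (hc j), ← heut]
      rfl
    have hwe : ∑ j, V.w j * e i j = 0 := by
      have h1 := hwΓ u ⟨g1, hS1⟩
      have h2 := hwΓ t ⟨g2, hS2⟩
      rw [← heut] at h1
      have h3 : ∑ j, V.w j * (e i + t) j = ∑ j, V.w j * e i j + ∑ j, V.w j * t j := by
        rw [← Finset.sum_add_distrib]
        exact Finset.sum_congr rfl fun j _ => by rw [Pi.add_apply, mul_add]
      omega
    have hct : ∏ j, c j ^ t j ≠ 0 := Finset.prod_ne_zero_iff.2 fun j _ => zpow_ne_zero _ (hc j)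
    have hl2 : LEC.lam C g2 ≠ 0 := LEC.lam_ne hS2.1
    have hlam : LEC.lam C (g1 / g2) * ∏ j, c j ^ e i j
        = algebraMap k (AlgebraicClosure K) (a1 / a2) := by
      rw [map_div₀, map_div₀, ← c1, ← c2, hcu]
      field_simp
    have ha : a1 / a2 ≠ 0 := div_ne_zero e1 e2
    refine ⟨C.mon (g1 / g2) (e i) / algebraMap k K (a1 / a2) - 1, ?_⟩
    have hmonv : Φ (C.mon (g1 / g2) (e i)) = cc (AlgebraicClosure K) m
        (algebraMap k (AlgebraicClosure K) (a1 / a2)) *
        (1 + ss (AlgebraicClosure K) m * TL _ m i) ^ n := by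
      rw [hmon, LEC.xi_prod, hwe, ← hlam, map_mul]
      have h1 : ∏ i', LEC.fac (AlgebraicClosure K) m I i' ^ ∑ j, β i' j * e i j
          = (1 + ss (AlgebraicClosure K) m * TL _ m i) ^ n := by
        rw [Finset.prod_eq_single i]
        · rw [hβe i i, if_pos rfl, hnα, zpow_natCast]
          unfold LEC.fac
          rw [if_pos hi]
        · intro i' _ hi'
          rw [hβe i i', if_neg (Ne.symm hi'), zpow_zero]
        · intro h
          exact absurd (Finset.mem_univ i) h
      rw [h1, zpow_zero]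
      ring
    have hane : cc (AlgebraicClosure K) m (algebraMap k (AlgebraicClosure K) (a1 / a2)) ≠ 0 := by
      apply LEC.cc_ne
      rw [Ne, map_eq_zero]
      exact ha
    rw [map_sub, map_one, map_div₀, hmonv, hconst]
    congr 1
    exact LEC.cancel_div (L := LL (AlgebraicClosure K) m) hane _
  choose! τ hτ using hτ
  have hτne : ∀ i ∈ I, Φ (τ i) ≠ 0 := fun i hi => by
    rw [hτ i hi]
    exact (LEC.geom i hn0).1
  have hτne' : ∀ i ∈ I, τ i ≠ 0 := fun i hi h => hτne i hi (by rw [h, map_zero])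
  have hτord : ∀ i ∈ I, (Φ (τ i)).order = 1 := fun i hi => by
    rw [hτ i hi]
    exact (LEC.geom i hn0).2.1
  have hτlc : ∀ i ∈ I, LEC.lc (EE (AlgebraicClosure K) m) (Φ (τ i))
      = HahnSeries.single (toLex (Pi.single i 1)) (n : AlgebraicClosure K) := fun i hi => by
    rw [hτ i hi]
    exact (LEC.geom i hn0).2.2
  have hIne : I.Nonempty := by
    rw [← Finset.card_pos]
    omega
  obtain ⟨i₀, hi₀⟩ := hIne
  obtain ⟨v, hv⟩ := exists_dval Φ ⟨τ i₀, hτne' i₀ hi₀, hτord i₀ hi₀⟩
  have hvmon : ∀ g u, g ≠ 0 → v.ord (C.mon g u) = V.val g u := by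
    intro g u hg
    rw [hv _ (mon_ne_zero C hg u), hord g u hg, LEC.val_eq hn]
  -- centre
  have hcenter : v.HasCenter X.A x.asIdeal := by
    refine LEC.hasCenter_of X x Φ v hv ε hε fun g u hA => ?_
    by_cases hS : X.hS x.asIdeal g u
    · have he := (LEC.hS_iff hε hA.1 hA.2).1 hS
      have h0 : (Φ (C.mon g u)).order = 0 := by
        rw [hord g u hA.1, ← LEC.val_eq hn g u]
        exact LEC.val_S hV hS
      have h1 : (Φ (C.mon g u)).coeff 0 = algebraMap k (EE (AlgebraicClosure K) m)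
          (ε ⟨C.mon g u, hA.2⟩) := by
        rw [LEC.coeff_zero_of_order h0, hlc, hchar g u hA.1 hA.2 he]
        have h2 : (fun i => if i ∈ I then (0 : ℤ) else ∑ j, β i j * u j) = 0 := by
          funext i
          by_cases hi : i ∈ I
          · rw [if_pos hi]
            rfl
          · rw [if_neg hi]
            exact hΓI u ⟨g, hS⟩ i hi
        rw [h2]
        rfl
      intro q hq
      rw [HahnSeries.coeff_sub]
      rcases hq.lt_or_eq with hq | hq
      · rw [LEC.nn_of_order h0.ge q hq, LEC.nn_C _ q hq, sub_zero]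
      · rw [hq, h1, LEC.coeff_C_zero, sub_self]
    · have h1 := Value.not_hS hA hS
      have h2 := (hε _).2 h1
      rw [h2, map_zero, map_zero, sub_zero]
      apply LEC.pos_of_order
      rw [hord g u hA.1, ← LEC.val_eq hn g u]
      exact (hV.2 g u hA).2 hS
  -- the residues
  set qq : Fin m → ℤ := fun i => ∑ j, V.w j * e i j with hqq
  have hqp : qq p ≠ 0 := by
    have h1 : ((qq p : ℤ) : ℚ) = l p * α := by
      rw [hqq]
      push_cast
      have h2 : ∀ j, (V.w j : ℚ) * (e p j : ℚ) = ∑ i ∈ Iᶜ, l i * (β i j * e p j) := by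
        intro j
        rw [hl j, Finset.sum_mul]
        exact Finset.sum_congr rfl fun i _ => by ring
      rw [Finset.sum_congr rfl fun j _ => h2 j, Finset.sum_comm]
      have h3 : ∀ i ∈ Iᶜ, ∑ j, l i * ((β i j : ℚ) * e p j) = l i * (if p = i then α else 0 : ℤ) := by
        intro i _
        rw [← Finset.mul_sum, ← hβe p i]
        push_cast
        rfl
      rw [Finset.sum_congr rfl h3, Finset.sum_eq_single p]
      · rw [if_pos rfl]
      · intro i _ hi
        rw [if_neg (Ne.symm hi), Int.cast_zero, mul_zero]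
      · intro h
        exact absurd (Finset.mem_compl.2 hpI) h
    intro h
    rw [h, Int.cast_zero] at h1
    rcases mul_eq_zero.1 h1.symm with h2 | h2
    · exact hlp h2
    · have : α = 0 := by exact_mod_cast h2
      omega
  set q := qq p with hq
  let t : Fin m → K := fun i => if i = p then C.ι RatFunc.X else
    if i ∈ I then τ i ^ q * C.mon 1 (-e p) else C.mon 1 (q • e i - qq i • e p)
  have htp : t p = C.ι RatFunc.X := if_pos rfl
  have htI : ∀ i, i ≠ p → i ∈ I → t i = τ i ^ q * C.mon 1 (-e p) := fun i h1 h2 => by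
    simp only [t]
    rw [if_neg h1, if_pos h2]
  have htJ : ∀ i, i ≠ p → i ∉ I → t i = C.mon 1 (q • e i - qq i • e p) := fun i h1 h2 => by
    simp only [t]
    rw [if_neg h1, if_neg h2]
  have hm1 : ∀ u, C.mon 1 u ≠ 0 := fun u => mon_ne_zero C one_ne_zero u
  have hord0 : ∀ i, (Φ (t i)).order = 0 := by
    intro i
    by_cases hip : i = p
    · rw [hip, htp, hΦz, LEC.order_cc]
    · by_cases hiI : i ∈ I
      · rw [htI i hip hiI, map_mul, map_zpow₀]
        have h1 : (Φ (τ i)) ^ q ≠ 0 := LEC.zne (hτne i hiI) q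
        rw [HahnSeries.order_mul h1 (hNe (hm1 _)), hord 1 _ one_ne_zero]
        have h2 : ((Φ (τ i)) ^ q).order = q * (Φ (τ i)).order := LEC.order_zpow (hτne i hiI) q
        rw [h2, hτord i hiI]
        have h3 : ∑ j, V.w j * (-e p) j = -qq p := by
          rw [hqq, ← Finset.sum_neg_distrib]
          exact Finset.sum_congr rfl fun j _ => by rw [Pi.neg_apply]; ring
        rw [h3]
        omega
      · rw [htJ i hip hiI, hord 1 _ one_ne_zero]
        have h3 : ∑ j, V.w j * (q • e i - qq i • e p) j = q * qq i - qq i * qq p := by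
          rw [hqq]
          simp only
          rw [Finset.mul_sum, Finset.mul_sum, ← Finset.sum_sub_distrib]
          refine Finset.sum_congr rfl fun j _ => ?_
          rw [Pi.sub_apply, Pi.smul_apply, Pi.smul_apply, smul_eq_mul, smul_eq_mul]
          ring
        rw [h3]
        ring
  let B : Fin m → Fin m → ℤ := fun i => if i ∈ I then
      q • Pi.single i 1 + (fun i' => if i' ∈ I then 0 else ∑ j, β i' j * (-e p) j)
    else fun i' => if i' ∈ I then 0 else ∑ j, β i' j * (q • e i - qq i • e p) j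
  let aa : Fin m → AlgebraicClosure K := fun i => if i ∈ I then
      (n : AlgebraicClosure K) ^ q * (LEC.lam C 1 * ∏ j, c j ^ (-e p) j)
    else LEC.lam C 1 * ∏ j, c j ^ (q • e i - qq i • e p) j
  have hcprod : ∀ u : Fin m → ℤ, LEC.lam C 1 * ∏ j, c j ^ u j ≠ 0 := fun u =>
    mul_ne_zero (LEC.lam_ne one_ne_zero)
      (Finset.prod_ne_zero_iff.2 fun j _ => zpow_ne_zero _ (hc j))
  have hnK : (n : AlgebraicClosure K) ≠ 0 := by exact_mod_cast hn0.ne'
  have hβneg : ∀ i', ∑ j, β i' j * (-e p) j = -(if p = i' then α else 0) := by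
    intro i'
    rw [← hβe p i', ← Finset.sum_neg_distrib]
    exact Finset.sum_congr rfl fun j _ => by rw [Pi.neg_apply]; ring
  have hβJ : ∀ i i', ∑ j, β i' j * (q • e i - qq i • e p) j
      = q * (if i = i' then α else 0) - qq i * (if p = i' then α else 0) := by
    intro i i'
    rw [← hβe p i', ← hβe i i', Finset.mul_sum, Finset.mul_sum, ← Finset.sum_sub_distrib]
    refine Finset.sum_congr rfl fun j _ => ?_
    rw [Pi.sub_apply, Pi.smul_apply, Pi.smul_apply, smul_eq_mul, smul_eq_mul]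
    ring
  have hind : AlgebraicIndependent k fun i => (Φ (t i)).coeff 0 := by
    refine LEC.indep p B aa (LEC.lam C RatFunc.X) δ hδz ?_ ?_ ?_ _ ?_ ?_
    · intro i _
      simp only [aa]
      split_ifs
      · exact mul_ne_zero (zpow_ne_zero _ hnK) (hcprod _)
      · exact hcprod _
    · intro i hip
      simp only [B]
      by_cases hiI : i ∈ I
      · rw [if_pos hiI, Pi.add_apply, Pi.smul_apply, Pi.single_eq_same, if_pos hiI]
        simpa using hqp
      · rw [if_neg hiI, if_neg hiI, hβJ, if_pos rfl, if_neg (Ne.symm hip)]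
        rw [mul_zero, sub_zero]
        exact mul_ne_zero hqp hα.ne'
    · intro i hip j hji hjp
      simp only [B]
      by_cases hiI : i ∈ I
      · rw [if_pos hiI, Pi.add_apply, Pi.smul_apply, Pi.single_eq_of_ne hji, smul_zero, zero_add]
        by_cases hjI : j ∈ I
        · rw [if_pos hjI]
        · rw [if_neg hjI, hβneg, if_neg (Ne.symm hjp), neg_zero]
      · rw [if_neg hiI]
        by_cases hjI : j ∈ I
        · rw [if_pos hjI]
        · rw [if_neg hjI, hβJ, if_neg (Ne.symm hji), if_neg (Ne.symm hjp), mul_zero, mul_zero,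
            sub_zero]
    · rw [htp, hΦz]
      exact LEC.coeff_C_zero _
    · intro i hip
      rw [LEC.coeff_zero_of_order (hord0 i)]
      by_cases hiI : i ∈ I
      · rw [htI i hip hiI, map_mul, map_mul, map_zpow₀, map_zpow₀, hlc, hτlc i hiI,
          LEC.single_zpow, HahnSeries.single_mul_single]
        simp only [B, aa]
        rw [if_pos hiI, if_pos hiI]
        rfl
      · rw [htJ i hip hiI, hlc]
        simp only [B, aa]
        rw [if_neg hiI, if_neg hiI]
  have hdiv : v.IsDivisorial m :=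
    LEC.divisorial_of Φ v hv t (fun i => LEC.nn_of_order (hord0 i).ge) hind
  -- the order of the form
  obtain ⟨j, hj, hjle⟩ := formOrd_exists (C := C) v (1 - (∑ i, V.w i + I.card)) (by
    intro a ha hJ
    rw [hv _ hJ]
    refine bound_horiz C (LEC.lam C RatFunc.X) δ hδz c hc V.w β hβ I l ⟨p, hpI, hlp⟩ hl Φ hΦz hΦx
      a ?_ hJ
    intro i
    by_cases h0 : a i = 0
    · rw [h0, map_zero, HahnSeries.order_zero]
    · rw [← hv _ h0]
      exact ha i h0)
  refine ⟨v, j, hdiv, hcenter, hj, hvmon, ?_⟩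
  have hdisc : V.disc = ∑ i, V.w i := by
    unfold HV.disc
    rw [hn]
    simp
  rw [hdisc, ← hI]
  omega

end LE

end

end Pool.Agent.MLD
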