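import Pool.Agent.Lib.MP_f23696_ag.Gr
import Pool.Agent.Lib.MP_f23696_ag.Value
import Pool.Agent.Lib.MP_f23696_ag.LeV
import Pool.Agent.Lib.MP_f23696_ag.LeH
import Pool.Agent.Lib.MP_f23696_ag.Mono

/-!
Project LSC, module LE: the upper bound (assembly), MP_f23696_ag.
-/

namespace Pool.Agent.MLD

open scoped Classical
noncomputable section

universe u v w

section LE
variable {k : Type u} [Field k] [IsAlgClosed k] [CharZero k] {m : ℕ} {K : Type v} [Field K]
  [Algebra k K] {C : Ctx k K m}

namespace Le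

omit [CharZero k] in
/-- a homogeneous valuation centred at a closed point is not zero -/
theorem ne_zero (X : TV C) (x : MaximalSpectrum X.A) (V : HV k m) (hV : V.CenterEq X x.asIdeal) :
    ∃ g u, g ≠ 0 ∧ V.val g u ≠ 0 := by
  by_contra hcon
  push Not at hcon
  obtain ⟨g₁, g₂, u₁, u₂, h₁, h₂, e₁, e₂⟩ := ratio X (RatFunc.X_ne_zero (K := k)) (0 : Fin m → ℤ)
  rw [zero_add] at e₂
  subst e₂
  subst e₁
  -- the values at x
  obtain ⟨a, ha⟩ := Value.value X x ⟨C.mon (RatFunc.X * g₂) u₁, h₁.2⟩
  obtain ⟨b, hb⟩ := Value.value X x ⟨C.mon g₂ u₁, h₂.2⟩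
  have hb0 : b ≠ 0 := by
    rintro rfl
    rw [map_zero, sub_zero] at hb
    have hn : ¬ X.hS x.asIdeal g₂ u₁ := fun hs => hs.2.2 hb
    have := (hV.2 g₂ u₁ h₂).mpr hn
    rw [hcon g₂ u₁ h₂.1] at this
    exact lt_irrefl _ this
  -- the combination
  have hkey : C.mon ((RatFunc.X - RatFunc.C (a / b)) * g₂) u₁ =
      C.mon (RatFunc.X * g₂) u₁ - algebraMap k K (a / b) * C.mon g₂ u₁ := by
    unfold Ctx.mon
    rw [map_mul, map_sub, map_mul, Value.iota_C]
    ring
  have hne : (RatFunc.X - RatFunc.C (a / b)) * g₂ ≠ 0 := by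
    exact mul_ne_zero (Value.X_sub_C_ne _) h₂.1
  have hmem : C.mon ((RatFunc.X - RatFunc.C (a / b)) * g₂) u₁ ∈ X.A := by
    rw [hkey]
    exact X.A.sub_mem h₁.2 (X.A.mul_mem (X.A.algebraMap_mem _) h₂.2)
  have hA : X.hA ((RatFunc.X - RatFunc.C (a / b)) * g₂) u₁ := ⟨hne, hmem⟩
  have hin : (⟨C.mon ((RatFunc.X - RatFunc.C (a / b)) * g₂) u₁, hmem⟩ : X.A) ∈ x.asIdeal := by
    have h3 := x.asIdeal.sub_mem ha (x.asIdeal.mul_mem_left (algebraMap k X.A (a / b)) hb)
    have he : (⟨C.mon ((RatFunc.X - RatFunc.C (a / b)) * g₂) u₁, hmem⟩ : X.A) =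
        (⟨C.mon (RatFunc.X * g₂) u₁, h₁.2⟩ - algebraMap k X.A a) -
          algebraMap k X.A (a / b) * (⟨C.mon g₂ u₁, h₂.2⟩ - algebraMap k X.A b) := by
      have h4 : algebraMap k X.A (a / b) * algebraMap k X.A b = algebraMap k X.A a := by
        rw [← map_mul, div_mul_cancel₀ _ hb0]
      rw [mul_sub, h4]
      apply Subtype.ext
      refine hkey.trans ?_
      simp
    rw [he]
    exact h3
  have hn : ¬ X.hS x.asIdeal ((RatFunc.X - RatFunc.C (a / b)) * g₂) u₁ := fun hs => hs.2.2 hin
  have := (hV.2 _ _ hA).mpr hn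
  rw [hcon _ _ hne] at this
  exact lt_irrefl _ this

end Le

theorem le (X : TV C) (x : MaximalSpectrum X.A) (V : HV k m) (hV : V.CenterEq X x.asIdeal) :
    ∃ (N : ℕ) (v : DVal k K) (j : ℤ), 1 ≤ N ∧ v.IsDivisorial m ∧ v.HasCenter X.A x.asIdeal ∧
      v.FormOrd C.der j ∧ (∀ g u, g ≠ 0 → N * v.ord (C.mon g u) = V.val g u) ∧
      N * (j + 1) ≤ V.disc + rk (X.hS x.asIdeal) := by
  by_cases hr : 1 ≤ rk (X.hS x.asIdeal)
  · rcases Nat.eq_zero_or_pos V.n with hn | hn
    · obtain ⟨v, j, h1, h2, h3, h4, h5⟩ := le_horiz X x V hV hn hr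
      refine ⟨1, v, j, le_refl _, h1, h2, h3, ?_, ?_⟩
      · intro g u hg
        rw [Nat.cast_one, one_mul]
        exact h4 g u hg
      · rw [Nat.cast_one, one_mul]
        exact h5
    · obtain ⟨v, j, h1, h2, h3, h4, h5⟩ := le_vert X x V hV hn hr
      refine ⟨1, v, j, le_refl _, h1, h2, h3, ?_, ?_⟩
      · intro g u hg
        rw [Nat.cast_one, one_mul]
        exact h4 g u hg
      · rw [Nat.cast_one, one_mul]
        exact h5
  · have hr0 : rk (X.hS x.asIdeal) = 0 := by omega
    obtain ⟨N, V₀, hN, h1, hval, hdisc, -, -⟩ := prim V (Le.ne_zero X x V hV)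
    obtain ⟨v, hdiv, hform, hmon, hmin⟩ := mono C V₀ h1
    have hNpos : (0 : ℤ) < N := by exact_mod_cast hN
    have hV0nn : ∀ g u, X.hA g u → 0 ≤ V₀.val g u := by
      intro g u h
      have := hV.1 g u h
      rw [hval] at this
      by_contra hc
      push Not at hc
      have : (N : ℤ) * V₀.val g u < 0 := mul_neg_of_pos_of_neg hNpos hc
      omega
    have hV0pos : ∀ g u, X.hA g u → (0 < V₀.val g u ↔ ¬ X.hS x.asIdeal g u) := by
      intro g u h
      rw [← hV.2 g u h, hval]
      exact (mul_pos_iff_of_pos_left hNpos).symm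
    refine ⟨N, v, V₀.disc - 1, hN, hdiv, ⟨?_, ?_⟩, hform, ?_, ?_⟩
    · intro a ha
      obtain ⟨s, g, he, hA⟩ := gr1 X a
      have hs : s.Nonempty := by
        rw [Finset.nonempty_iff_ne_empty]
        rintro rfl
        rw [Finset.sum_empty] at he
        exact ha he
      rw [he, hmin s hs g (fun u hu => (hA u hu).1)]
      rw [Finset.le_inf'_iff]
      intro u hu
      exact hV0nn _ _ (hA u hu)
    · intro a
      obtain ⟨s, g, he, hA⟩ := gr1 X a
      constructor
      · intro hap ha
        have hs : s.Nonempty := by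
          rw [Finset.nonempty_iff_ne_empty]
          rintro rfl
          rw [Finset.sum_empty] at he
          exact ha he
        rw [he, hmin s hs g (fun u hu => (hA u hu).1)]
        rw [Finset.lt_inf'_iff]
        intro u hu
        rw [hV0pos _ _ (hA u hu)]
        intro hS
        have hu0 : u = 0 := Value.deg_zero hr0 hS
        -- all the other terms are in the ideal
        have hoth : ∀ t ∈ s.erase u, ∀ h : C.mon (g t) t ∈ X.A,
            (⟨C.mon (g t) t, h⟩ : X.A) ∈ x.asIdeal := by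
          intro t ht h
          have htne := (Finset.mem_erase.mp ht).1
          refine Value.not_hS (hA t (Finset.mem_erase.mp ht).2) ?_
          intro hSt
          exact htne ((Value.deg_zero hr0 hSt).trans hu0.symm)
        apply hS.2.2
        have hsum : (⟨C.mon (g u) u, (hA u hu).2⟩ : X.A) =
            a - ∑ t ∈ (s.erase u).attach,
              ⟨C.mon (g t.1) t.1, (hA t.1 (Finset.mem_erase.mp t.2).2).2⟩ := by
          apply Subtype.ext
          rw [AddSubgroupClass.coe_sub, AddSubmonoidClass.coe_finsetSum]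
          rw [Finset.sum_attach (s.erase u) (fun t => C.mon (g t) t)]
          rw [he, ← Finset.add_sum_erase s _ hu]
          simp
        rw [hsum]
        refine x.asIdeal.sub_mem hap (x.asIdeal.sum_mem ?_)
        intro t _
        exact hoth t.1 t.2 _
      · intro hsm
        by_cases ha : (a : K) = 0
        · have : a = 0 := Subtype.ext ha
          rw [this]
          exact x.asIdeal.zero_mem
        have hpos := hsm ha
        have hs : s.Nonempty := by
          rw [Finset.nonempty_iff_ne_empty]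
          rintro rfl
          rw [Finset.sum_empty] at he
          exact ha he
        rw [he, hmin s hs g (fun u hu => (hA u hu).1), Finset.lt_inf'_iff] at hpos
        have hsum : a = ∑ t ∈ s.attach, (⟨C.mon (g t.1) t.1, (hA t.1 t.2).2⟩ : X.A) := by
          apply Subtype.ext
          rw [AddSubmonoidClass.coe_finsetSum]
          rw [Finset.sum_attach s (fun t => C.mon (g t) t)]
          exact he
        rw [hsum]
        refine x.asIdeal.sum_mem ?_
        intro t _
        exact Value.not_hS (hA t.1 t.2) ((hV0pos _ _ (hA t.1 t.2)).mp (hpos t.1 t.2))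
    · intro g u hg
      rw [hmon g u hg, hval]
    · rw [hr0, hdisc]
      simp

end LE

end

end Pool.Agent.MLD
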