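import Pool.Agent.Lib.MP_f23696_ag.Nrm
import Pool.Agent.Lib.MP_f23696_ag.Ord

/-!
# Local data at a closed point (module LOC of the project LSC, MP_f23696_ag)
-/

set_option linter.unusedSectionVars false

namespace Pool.Agent.MLD

open scoped Classical
noncomputable section

universe u v w

section DIVS
variable {k : Type u} [Field k] [IsAlgClosed k] [CharZero k] {m : ℕ} {K : Type v} [Field K]
  [Algebra k K] {C : Ctx k K m}

namespace LOC

lemma mon_add (C : Ctx k K m) (g h : RatFunc k) (u : Fin m → ℤ) :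
    C.mon (g + h) u = C.mon g u + C.mon h u := by
  simp only [Ctx.mon, map_add, add_mul]

lemma mon_C_zero (C : Ctx k K m) (c : k) : C.mon (RatFunc.C c) 0 = algebraMap k K c := by
  have h : C.ι (RatFunc.C c) = algebraMap k K c := by
    rw [← RatFunc.algebraMap_eq_C]
    exact C.ι.commutes c
  simp [Ctx.mon, h]

lemma C_ne_zero' {c : k} (hc : c ≠ 0) : (RatFunc.C c : RatFunc k) ≠ 0 := by
  intro h
  exact hc ((map_eq_zero (RatFunc.C : k →+* RatFunc k)).1 h)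

lemma hA_mul (X : TV C) {g h : RatFunc k} {u t : Fin m → ℤ} (hg : X.hA g u) (hh : X.hA h t) :
    X.hA (g * h) (u + t) :=
  ⟨mul_ne_zero hg.1 hh.1, by rw [mon_mul]; exact X.A.mul_mem hg.2 hh.2⟩

lemma hA_add (X : TV C) {g h : RatFunc k} {u : Fin m → ℤ} (hg : X.hA g u) (hh : X.hA h u)
    (hs : g + h ≠ 0) : X.hA (g + h) u :=
  ⟨hs, by rw [mon_add]; exact X.A.add_mem hg.2 hh.2⟩

lemma hS_mul (X : TV C) {p : Ideal X.A} (hp : p.IsPrime) {g h : RatFunc k} {u t : Fin m → ℤ}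
    (hg : X.hS p g u) (hh : X.hS p h t) : X.hS p (g * h) (u + t) := by
  obtain ⟨hg0, hg1, hg2⟩ := hg
  obtain ⟨hh0, hh1, hh2⟩ := hh
  refine ⟨mul_ne_zero hg0 hh0, by rw [mon_mul]; exact X.A.mul_mem hg1 hh1, ?_⟩
  intro hmem
  have e : (⟨C.mon (g * h) (u + t), by rw [mon_mul]; exact X.A.mul_mem hg1 hh1⟩ : X.A) =
      ⟨C.mon g u, hg1⟩ * ⟨C.mon h t, hh1⟩ := Subtype.ext (mon_mul C g h u t)
  rw [e] at hmem
  rcases hp.mem_or_mem hmem with h1 | h1
  · exact hg2 h1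
  · exact hh2 h1

lemma mem_of_not_hS (X : TV C) {p : Ideal X.A} {g : RatFunc k} {u : Fin m → ℤ}
    (hg : X.hA g u) (hn : ¬ X.hS p g u) : (⟨C.mon g u, hg.2⟩ : X.A) ∈ p := by
  by_contra h
  exact hn ⟨hg.1, hg.2, h⟩

lemma not_hS_mul (X : TV C) {p : Ideal X.A} {g h : RatFunc k} {u t : Fin m → ℤ}
    (hg : X.hA g u) (hn : ¬ X.hS p g u) (hh : X.hA h t) : ¬ X.hS p (g * h) (u + t) := by
  rintro ⟨_, h1, h2⟩
  apply h2
  have e : (⟨C.mon (g * h) (u + t), h1⟩ : X.A) = ⟨C.mon g u, hg.2⟩ * ⟨C.mon h t, hh.2⟩ :=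
    Subtype.ext (mon_mul C g h u t)
  rw [e]
  exact p.mul_mem_right _ (mem_of_not_hS X hg hn)

lemma not_hS_add (X : TV C) {p : Ideal X.A} {g h : RatFunc k} {u : Fin m → ℤ}
    (hg : X.hA g u) (hh : X.hA h u) (hn : ¬ X.hS p g u) (hn' : ¬ X.hS p h u) :
    ¬ X.hS p (g + h) u := by
  rintro ⟨_, h1, h2⟩
  apply h2
  have e : (⟨C.mon (g + h) u, h1⟩ : X.A) = ⟨C.mon g u, hg.2⟩ + ⟨C.mon h u, hh.2⟩ :=
    Subtype.ext (mon_add C g h u)
  rw [e]
  exact p.add_mem (mem_of_not_hS X hg hn) (mem_of_not_hS X hh hn')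

lemma hS_C (X : TV C) {p : Ideal X.A} (hp : p.IsPrime) {c : k} (hc : c ≠ 0) :
    X.hS p (RatFunc.C c) 0 := by
  have h1 : C.mon (RatFunc.C c) 0 ∈ X.A := by
    rw [mon_C_zero]
    exact X.A.algebraMap_mem c
  refine ⟨C_ne_zero' hc, h1, fun hmem => hp.ne_top ?_⟩
  have e : (⟨C.mon (RatFunc.C c) 0, h1⟩ : X.A) = algebraMap k X.A c :=
    Subtype.ext (mon_C_zero C c)
  rw [e] at hmem
  exact Ideal.eq_top_of_isUnit_mem _ hmem ((IsUnit.mk0 c hc).map (algebraMap k X.A))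

lemma gens_hA (X : TV C) {h : RatFunc k × (Fin m → ℤ)} (hh : h ∈ X.gens) : X.hA h.1 h.2 :=
  ⟨X.gens_ne h hh, by
    rw [← X.adj]
    exact Algebra.subset_adjoin ⟨h, hh, rfl⟩⟩

/-- closure of the set of functions without pole at `Q` -/
lemma ord_nonneg_add (Q : Option k) {g h : RatFunc k} (hg : 0 ≤ ordAt Q g) (hh : 0 ≤ ordAt Q h) :
    0 ≤ ordAt Q (g + h) := by
  by_cases h0 : g = 0
  · rwa [h0, zero_add]
  by_cases h1 : h = 0
  · rwa [h1, add_zero]
  by_cases h2 : g + h = 0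
  · rw [h2, ordAt_zero]
  · exact le_trans (le_min hg hh) (ordAt_add Q h0 h1 h2)

lemma ord_nonneg_sum (Q : Option k) {ι : Type*} (s : Finset ι) (f : ι → RatFunc k)
    (hf : ∀ i ∈ s, 0 ≤ ordAt Q (f i)) : 0 ≤ ordAt Q (∑ i ∈ s, f i) := by
  induction s using Finset.induction_on with
  | empty => rw [Finset.sum_empty, ordAt_zero]
  | insert a s ha ih =>
    rw [Finset.sum_insert ha]
    exact ord_nonneg_add Q (hf a (Finset.mem_insert_self _ _))
      (ih fun i hi => hf i (Finset.mem_insert_of_mem hi))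

lemma ord_one (Q : Option k) : ordAt Q (1 : RatFunc k) = 0 := by
  have h := ordAt_C Q (1 : k)
  rwa [map_one] at h

lemma ord_pow (Q : Option k) {g : RatFunc k} (hg : g ≠ 0) (n : ℕ) :
    ordAt Q (g ^ n) = n * ordAt Q g := by
  induction n with
  | zero => simp [ord_one]
  | succ n ih =>
    rw [pow_succ, ordAt_mul Q (pow_ne_zero n hg) hg, ih]
    push_cast
    ring

lemma ord_prod (Q : Option k) {ι : Type*} (s : Finset ι) (f : ι → RatFunc k)
    (hf : ∀ i ∈ s, f i ≠ 0) : ordAt Q (∏ i ∈ s, f i) = ∑ i ∈ s, ordAt Q (f i) := by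
  induction s using Finset.induction_on with
  | empty => simp [ord_one]
  | insert a s ha ih =>
    have h1 : ∀ i ∈ s, f i ≠ 0 := fun i hi => hf i (Finset.mem_insert_of_mem hi)
    rw [Finset.prod_insert ha, Finset.sum_insert ha,
      ordAt_mul Q (hf a (Finset.mem_insert_self _ _)) (Finset.prod_ne_zero_iff.2 h1), ih h1]

lemma gen_pos (X : TV C) (Q : Option k) (hQ : ∀ h ∈ X.gens, ordAt Q h.1 = 0)
    {g : RatFunc k} {u : Fin m → ℤ} (h : X.hA g u) : 0 ≤ ordAt Q g := by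
  obtain ⟨T, c, hT, hg⟩ := gr3 X g u h
  rw [hg]
  refine ord_nonneg_sum Q T _ fun α hα => ?_
  have hsub := (hT α hα).1
  have hne : ∀ h ∈ α.support, h.1 ^ α h ≠ 0 := fun h hh =>
    pow_ne_zero _ (X.gens_ne h (hsub hh))
  have h1 : ordAt Q (α.prod fun h a => h.1 ^ a) = 0 := by
    rw [Finsupp.prod, ord_prod Q _ _ hne]
    refine Finset.sum_eq_zero fun h hh => ?_
    rw [ord_pow Q (X.gens_ne h (hsub hh)), hQ h (hsub hh), mul_zero]
  have h2 : (α.prod fun h a => h.1 ^ a) ≠ 0 := Finset.prod_ne_zero_iff.2 hne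
  by_cases hc : c α = 0
  · rw [hc, map_zero, zero_mul, ordAt_zero]
  · rw [ordAt_mul Q (C_ne_zero' hc) h2, ordAt_C, h1, add_zero]

lemma gen_w (X : TV C) (V : HV k m) (hV : ∀ g u, X.hA g u → 0 ≤ V.val g u)
    (hQ : ∀ h ∈ X.gens, ordAt V.P h.1 = 0) {g : RatFunc k} {u : Fin m → ℤ} (h : X.hA g u) :
    0 ≤ ∑ i, V.w i * u i := by
  obtain ⟨T, c, hT, hg⟩ := gr3 X g u h
  have hne : T.Nonempty := by
    rw [Finset.nonempty_iff_ne_empty]
    rintro rfl
    rw [Finset.sum_empty] at hg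
    exact h.1 hg
  obtain ⟨α, hα⟩ := hne
  obtain ⟨hsub, hu⟩ := hT α hα
  have h1 : ∑ i, V.w i * u i = ∑ h ∈ α.support, (α h : ℤ) * ∑ i, V.w i * h.2 i := by
    rw [← hu, Finsupp.sum]
    simp only [Finset.sum_apply, Pi.smul_apply, Finset.mul_sum]
    rw [Finset.sum_comm]
    refine Finset.sum_congr rfl fun h _ => Finset.sum_congr rfl fun i _ => ?_
    rw [nsmul_eq_mul]
    ring
  rw [h1]
  refine Finset.sum_nonneg fun h hh => mul_nonneg (Int.natCast_nonneg _) ?_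
  have h2 := hV h.1 h.2 (gens_hA X (hsub hh))
  rw [HV.val, hQ h (hsub hh), mul_zero, zero_add] at h2
  exact h2

/-- the valuations of the invariant prime divisors through `y` -/
def EE' (X : TV C) (p : Ideal X.A) : Set (HV k m) :=
  {V | ∃ q : Ideal X.A, IsHeightOne q ∧ X.Inv q ∧ q ≤ p ∧ ∃ v : DVal k K, v.HasCenter X.A q ∧
    v.FormOrd C.der (V.disc - 1) ∧ V.CenterEq X q ∧
      ∀ g u, g ≠ 0 → v.ord (C.mon g u) = V.val g u}

end LOC

open LOC in
/-- the local data at a closed point -/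
theorem locData (X : TV C) (δ : Ideal X.A →₀ ℝ) (hδ0 : ∀ q, 0 ≤ δ q)
    (hδ : ∀ q, IsHeightOne q → δ q ≠ 0 → X.Inv q) (y : MaximalSpectrum X.A)
    (γ' : (RatFunc k × (Fin m → ℤ)) →₀ ℝ) (hγ : ∀ h ∈ γ'.support, h.1 ≠ 0)
    (h : IsLocalEq X.A C.der δ y.asIdeal (C.toEq γ')) :
    ∃ L : LocData k m, L.A = X.hA ∧ L.S = X.hS y.asIdeal ∧ L.γ = γ' ∧
      ∀ h ∈ X.gens, ∀ Q ∉ L.B, ordAt Q h.1 = 0 := by
  have hyp : y.asIdeal.IsPrime := y.isMaximal.isPrime
  -- the finite set of places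
  have hfin : ∀ g : RatFunc k, ∃ B : Finset (Option k), g ≠ 0 → ∀ P, ordAt P g ≠ 0 → P ∈ B := by
    intro g
    by_cases hg : g = 0
    · exact ⟨∅, fun h => absurd hg h⟩
    · obtain ⟨B, hB⟩ := ordAt_finite hg
      exact ⟨B, fun _ => hB⟩
  choose b hb using hfin
  let B : Finset (Option k) := insert none ((X.gens ∪ γ'.support).biUnion fun h => b h.1)
  have hB1 : ∀ h ∈ X.gens, ∀ Q ∉ B, ordAt Q h.1 = 0 := by
    intro h hh Q hQ
    by_contra hne
    exact hQ (Finset.mem_insert_of_mem (Finset.mem_biUnion.2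
      ⟨h, Finset.mem_union_left _ hh, hb h.1 (X.gens_ne h hh) Q hne⟩))
  have hB2 : ∀ h ∈ γ'.support, ∀ Q ∉ B, ordAt Q h.1 = 0 := by
    intro h hh Q hQ
    by_contra hne
    exact hQ (Finset.mem_insert_of_mem (Finset.mem_biUnion.2
      ⟨h, Finset.mem_union_right _ hh, hb h.1 (hγ h hh) Q hne⟩))
  refine ⟨{
    A := X.hA
    S := X.hS y.asIdeal
    B := B
    γ := γ'
    E := EE' X y.asIdeal
    none_mem := Finset.mem_insert_self _ _
    A_ne := fun g u h => h.1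
    S_A := fun g u h => ⟨h.1, h.2.1⟩
    A_mul := fun g u h t hg hh => hA_mul X hg hh
    S_mul := fun g u h t hg hh => hS_mul X hyp hg hh
    S_C := fun c hc => hS_C X hyp hc
    A_add := fun g h u hg hh hs => hA_add X hg hh hs
    N_mul := fun g u h t hg hn hh => not_hS_mul X hg hn hh
    N_add := fun g h u hg hh hn hn' => not_hS_add X hg hh hn hn'
    gen_pos := fun Q hQ g u hg => gen_pos X Q (fun h hh => hB1 h hh Q hQ) hg
    gen_w := ?_
    γ_ne := hγ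
    γ_B := hB2
    E_A := ?_
    E_S := ?_
    E_ld := ?_
    nrm := ?_ }, rfl, rfl, rfl, hB1⟩
  · rintro V ⟨q, -, -, -, v, -, -, hV, -⟩ hP g u hg
    exact gen_w X V hV.1 (fun h hh => hB1 h hh V.P hP) hg
  · rintro V ⟨q, -, -, -, v, -, -, hV, -⟩ g u hg
    exact hV.1 g u hg
  · rintro V ⟨q, -, -, hq, v, -, -, hV, -⟩ g u hg
    have h1 : X.hA g u := ⟨hg.1, hg.2.1⟩
    have h2 : X.hS q g u := ⟨hg.1, hg.2.1, fun hmem => hg.2.2 (hq hmem)⟩
    have h3 := hV.1 g u h1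
    have h4 := (hV.2 g u h1).not.2 (not_not.2 h2)
    omega
  · rintro V ⟨q, hq1, -, hq, v, hv, hf, hV, hord⟩
    have h1 := h q hq hq1 v hv _ hf
    have h2 := toEq_val C γ' hγ V v 1 (fun g u hg => by rw [hord g u hg, one_mul])
    rw [one_mul] at h2
    rw [h2] at h1
    have h3 := hδ0 q
    rw [HV.ld]
    push_cast at h1
    linarith
  · intro g u hg hE
    refine hom_normal X y.asIdeal hyp g u hg fun q hq1 hqi hqy v' hv' => ?_
    obtain ⟨V, v, hv, hf, hV, hord, -⟩ := homDiv X q hq1 hqi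
    rw [dvr_unique X.A (noeth X) X.frac X.normal q hq1 v' v hv' hv _ (mon_ne_zero C hg u),
      hord g u hg]
    exact hE V ⟨q, hq1, hqi, hqy, v, hv, hf, hV, hord⟩

end DIVS

end

end Pool.Agent.MLD
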