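import Pool.Agent.Lib.MP_f23696_ag.NrmA
import Pool.Agent.Lib.MP_f23696_ag.Hdv
import Pool.Agent.Lib.MP_f23696_ag.Hart

/-!
Homogeneous normality and independence of the local equation (module NRM of the project LSC).
-/

namespace Pool.Agent.MLD

open scoped Classical
noncomputable section

universe u v w

section DIVS
variable {k : Type u} [Field k] [IsAlgClosed k] [CharZero k] {m : ℕ} {K : Type v} [Field K]
  [Algebra k K] {C : Ctx k K m}

theorem hom_normal (X : TV C) (p : Ideal X.A) (hp : p.IsPrime) (g : RatFunc k) (u : Fin m → ℤ)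
    (hg : g ≠ 0)
    (h : ∀ q : Ideal X.A, IsHeightOne q → X.Inv q → q ≤ p → ∀ v : DVal k K,
      v.HasCenter X.A q → 0 ≤ v.ord (C.mon g u)) :
    ∃ s t, X.hS p s t ∧ X.hA (s * g) (t + u) := by
  have hf : C.mon g u ≠ 0 := mon_ne_zero C hg u
  obtain ⟨s, hs, hsf⟩ := hartogs X.A (noeth X) X.frac X.normal p hp (C.mon g u) hf (by
    intro q hq hqp
    obtain ⟨v, hv, hv2⟩ := dvr X.A (noeth X) X.frac X.normal q hq
    rw [← hv2 _ hf]
    by_cases hi : X.Inv q
    · exact h q hq hi hqp v hv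
    · obtain ⟨-, v', hv', -, h0⟩ := nonhomDiv X q hq hi
      rw [dvr_unique X.A (noeth X) X.frac X.normal q hq v v' hv hv' _ hf, h0 g u hg])
  obtain ⟨T, G, hT, hG⟩ := gr1 X s
  have h1 : ∃ t ∈ T, X.hS p (G t) t := by
    by_contra hcon
    push Not at hcon
    apply hs
    have h2 : ∀ t, ∃ a : X.A, t ∈ T → (a : K) = C.mon (G t) t ∧ a ∈ p := by
      intro t
      by_cases ht : t ∈ T
      · refine ⟨⟨C.mon (G t) t, (hG t ht).2⟩, fun _ => ⟨rfl, ?_⟩⟩
        by_contra hnot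
        exact hcon t ht ⟨(hG t ht).1, (hG t ht).2, hnot⟩
      · exact ⟨0, fun h => absurd h ht⟩
    choose a ha using h2
    have h3 : s = ∑ t ∈ T, a t := by
      apply Subtype.ext
      rw [hT, AddSubmonoidClass.coe_finsetSum]
      exact Finset.sum_congr rfl fun t ht => (ha t ht).1.symm
    rw [h3]
    exact Ideal.sum_mem _ fun t ht => (ha t ht).2
  obtain ⟨t, ht, hSt⟩ := h1
  refine ⟨G t, t, hSt, mul_ne_zero hSt.1 hg, ?_⟩
  have h4 : (s : K) * C.mon g u =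
      ∑ t' ∈ T.image (fun t => t + u), C.mon (G (t' - u) * g) t' := by
    rw [Finset.sum_image (fun a _ b _ hab => by simpa using hab), hT, Finset.sum_mul]
    refine Finset.sum_congr rfl fun t _ => ?_
    rw [add_sub_cancel_right, mon_mul]
  rw [h4] at hsf
  have h5 := gr2 X _ (fun t' => G (t' - u) * g) hsf (t + u) (Finset.mem_image_of_mem _ ht)
  simp only [add_sub_cancel_right] at h5
  exact h5

theorem indep (X : TV C) (δ : Ideal X.A →₀ ℝ) (p₁ p₂ q : Ideal X.A) (hq : q.IsPrime)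
    (h₁ : q ≤ p₁) (h₂ : q ≤ p₂) (γ₁ γ₂ : Kˣ →₀ ℝ) (e₁ : IsLocalEq X.A C.der δ p₁ γ₁)
    (e₂ : IsLocalEq X.A C.der δ p₂ γ₂) (v : DVal k K) (hv : v.HasCenter X.A q) :
    v.val γ₁ = v.val γ₂ := by
  obtain ⟨n, ρ, h, hρ, hval⟩ := Nrm.qbasis (k := k) (γ₁ - γ₂)
  have h0 : ∀ q' : Ideal X.A, IsHeightOne q' → q' ≤ q → ∃ v' : DVal k K, v'.HasCenter X.A q' ∧
      ∀ i, v'.ord (h i : K) = 0 := by
    intro q' hq' hle
    have h1 : ∃ (v' : DVal k K) (j : ℤ), v'.HasCenter X.A q' ∧ v'.FormOrd C.der j := by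
      by_cases hi : X.Inv q'
      · obtain ⟨V, v', hv', hF, -⟩ := homDiv X q' hq' hi
        exact ⟨v', _, hv', hF⟩
      · obtain ⟨-, v', hv', hF, -⟩ := nonhomDiv X q' hq' hi
        exact ⟨v', _, hv', hF⟩
    obtain ⟨v', j, hv', hF⟩ := h1
    refine ⟨v', hv', ?_⟩
    have h2 := e₁ q' (hle.trans h₁) hq' v' hv' j hF
    have h3 := e₂ q' (hle.trans h₂) hq' v' hv' j hF
    have h4 : v'.val (γ₁ - γ₂) = 0 := by rw [Nrm.val_sub, ← h2, ← h3, sub_self]
    rw [hval v'] at h4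
    exact Nrm.ord_zero_of_sum ρ hρ _ h4
  have h5 : ∀ f : Kˣ, (∀ q' : Ideal X.A, IsHeightOne q' → q' ≤ q → ∃ v' : DVal k K,
      v'.HasCenter X.A q' ∧ v'.ord (f : K) = 0) → 0 ≤ v.ord (f : K) := by
    intro f hf
    refine Nrm.ord_nonneg_of_center X.A q v hv f f.ne_zero
      (hartogs X.A (noeth X) X.frac X.normal q hq f f.ne_zero fun q' hq' hle => ?_)
    obtain ⟨v', hv', h6⟩ := hf q' hq' hle
    obtain ⟨v'', hv'', h7⟩ := dvr X.A (noeth X) X.frac X.normal q' hq'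
    rw [← h7 _ f.ne_zero,
      dvr_unique X.A (noeth X) X.frac X.normal q' hq' v'' v' hv'' hv' _ f.ne_zero, h6]
  have h8 : ∀ i, v.ord (h i : K) = 0 := by
    intro i
    have h9 := h5 (h i) fun q' hq' hle => by
      obtain ⟨v', hv', h6⟩ := h0 q' hq' hle
      exact ⟨v', hv', h6 i⟩
    have h10 := h5 (h i)⁻¹ fun q' hq' hle => by
      obtain ⟨v', hv', h6⟩ := h0 q' hq' hle
      exact ⟨v', hv', by rw [Nrm.ord_inv, h6 i, neg_zero]⟩
    rw [Nrm.ord_inv] at h10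
    linarith
  have h11 := hval v
  rw [Nrm.val_sub] at h11
  have h12 : ∑ i, ρ i * (v.ord (h i : K) : ℝ) = 0 := by
    refine Finset.sum_eq_zero fun i _ => ?_
    rw [h8 i, Int.cast_zero, mul_zero]
  rw [h12] at h11
  linarith

end DIVS

end

end Pool.Agent.MLD
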