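import Pool.Agent.Lib.MP_f23696_ag.Nrm
import Pool.Agent.Lib.MP_f23696_ag.Gr
import Pool.Agent.Lib.MP_f23696_ag.Cen
import Pool.Agent.Lib.MP_f23696_ag.Cls

/-!
LSC module OPN: a homogeneous local equation of `K_X + Δ` at a closed point is valid on an open
neighbourhood of this point.
-/

namespace Pool.Agent.MLD

open scoped Classical
noncomputable section

universe u v w

namespace OPN

section Val
variable {k : Type u} [Field k] {K : Type v} [Field K] [Algebra k K]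

theorem formOrd_congr (v v' : DVal k K) (h : ∀ f : K, f ≠ 0 → v.ord f = v'.ord f) {n : ℕ}
    (D : Fin n → Derivation k K K) {j : ℤ} (hj : v.FormOrd D j) : v'.FormOrd D j := by
  have hI : ∀ a, v.Integral a ↔ v'.Integral a := fun a => by
    constructor <;> intro H ha
    · rw [← h a ha]; exact H ha
    · rw [h a ha]; exact H ha
  refine ⟨fun a ha hJ => ?_, ?_⟩
  · rw [← h _ hJ]; exact hj.1 a (fun i => (hI _).2 (ha i)) hJ
  · obtain ⟨a, ha, hJ, he⟩ := hj.2
    exact ⟨a, fun i => (hI _).1 (ha i), hJ, by rw [← h _ hJ]; exact he⟩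

theorem formOrd_unique (v : DVal k K) {n : ℕ} (D : Fin n → Derivation k K K) {j j' : ℤ}
    (hj : v.FormOrd D j) (hj' : v.FormOrd D j') : j = j' := by
  obtain ⟨a, ha, hJ, he⟩ := hj.2
  obtain ⟨a', ha', hJ', he'⟩ := hj'.2
  have h1 := hj.1 a' ha' hJ'
  have h2 := hj'.1 a ha hJ
  omega

theorem val_congr (v v' : DVal k K) (h : ∀ f : K, f ≠ 0 → v.ord f = v'.ord f) (γ : Kˣ →₀ ℝ) :
    v.val γ = v'.val γ := by
  unfold DVal.val
  refine Finsupp.sum_congr fun g _ => ?_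
  rw [h _ g.ne_zero]

end Val

section Ord
variable {k : Type u} [Field k]

theorem nonneg_mul (Q : Option k) {g h : RatFunc k} (hg : 0 ≤ ordAt Q g) (hh : 0 ≤ ordAt Q h) :
    0 ≤ ordAt Q (g * h) := by
  by_cases g0 : g = 0
  · simp [g0, ordAt_zero]
  by_cases h0 : h = 0
  · simp [h0, ordAt_zero]
  rw [ordAt_mul Q g0 h0]; omega

theorem nonneg_add (Q : Option k) {g h : RatFunc k} (hg : 0 ≤ ordAt Q g) (hh : 0 ≤ ordAt Q h) :
    0 ≤ ordAt Q (g + h) := by
  by_cases g0 : g = 0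
  · simpa [g0] using hh
  by_cases h0 : h = 0
  · simpa [h0] using hg
  by_cases s0 : g + h = 0
  · simp [s0, ordAt_zero]
  exact (le_min hg hh).trans (ordAt_add Q g0 h0 s0)

theorem ordAt_one (Q : Option k) : ordAt Q (1 : RatFunc k) = 0 := by
  have := ordAt_C Q (1 : k)
  rwa [map_one] at this

theorem nonneg_pow (Q : Option k) {g : RatFunc k} (hg : 0 ≤ ordAt Q g) (n : ℕ) :
    0 ≤ ordAt Q (g ^ n) := by
  induction n with
  | zero => simp [ordAt_one]
  | succ n ih => rw [pow_succ]; exact nonneg_mul Q ih hg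

end Ord

section Dot
variable {m : ℕ}

/-- the pairing of a weight with a degree -/
def dot (w : Fin m → ℤ) : (Fin m → ℤ) →+ ℤ where
  toFun u := ∑ i, w i * u i
  map_zero' := by simp
  map_add' u t := by
    rw [← Finset.sum_add_distrib]
    exact Finset.sum_congr rfl fun i _ => by simp [mul_add]

theorem dot_apply (w u : Fin m → ℤ) : dot w u = ∑ i, w i * u i := rfl

end Dot

section Gr
variable {k : Type u} [Field k] {m : ℕ} {K : Type v} [Field K] [Algebra k K] {C : Ctx k K m}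

theorem hA_gen (X : TV C) {h : RatFunc k × (Fin m → ℤ)} (hh : h ∈ X.gens) : X.hA h.1 h.2 := by
  refine ⟨X.gens_ne h hh, ?_⟩
  rw [← X.adj]
  exact Algebra.subset_adjoin ⟨h, hh, rfl⟩

theorem hA_ord_nonneg (X : TV C) (Q : Option k) (hQ : ∀ h ∈ X.gens, 0 ≤ ordAt Q h.1)
    {g : RatFunc k} {u : Fin m → ℤ} (h : X.hA g u) : 0 ≤ ordAt Q g := by
  obtain ⟨T, c, hT, hg⟩ := gr3 X g u h
  rw [hg]
  refine Finset.sum_induction _ (fun g => 0 ≤ ordAt Q g) (fun a b ha hb => nonneg_add Q ha hb)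
    (by simp [ordAt_zero]) ?_
  intro α hα
  refine nonneg_mul Q (by rw [ordAt_C]) ?_
  unfold Finsupp.prod
  refine Finset.prod_induction _ (fun g => 0 ≤ ordAt Q g) (fun a b ha hb => nonneg_mul Q ha hb)
    (by simp [ordAt_one]) ?_
  intro b hb
  exact nonneg_pow Q (hQ b ((hT α hα).1 hb)) _

theorem exists_comb (X : TV C) {g : RatFunc k} {u : Fin m → ℤ} (h : X.hA g u) :
    ∃ α : (RatFunc k × (Fin m → ℤ)) →₀ ℕ, α.support ⊆ X.gens ∧
      (α.sum fun h a => a • h.2) = u := by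
  obtain ⟨T, c, hT, hg⟩ := gr3 X g u h
  have hne : T.Nonempty := by
    by_contra h0
    rw [Finset.not_nonempty_iff_eq_empty] at h0
    rw [h0, Finset.sum_empty] at hg
    exact h.1 hg
  obtain ⟨α, hα⟩ := hne
  exact ⟨α, hT α hα⟩

theorem dot_comb (w : Fin m → ℤ) (α : (RatFunc k × (Fin m → ℤ)) →₀ ℕ) :
    dot w (α.sum fun h a => a • h.2) = α.sum fun h a => (a : ℤ) * dot w h.2 := by
  unfold Finsupp.sum
  rw [map_sum]
  exact Finset.sum_congr rfl fun h _ => by rw [map_nsmul]; simp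

theorem dot_nonneg (X : TV C) (w : Fin m → ℤ) (hw : ∀ h ∈ X.gens, 0 ≤ dot w h.2)
    {g : RatFunc k} {u : Fin m → ℤ} (h : X.hA g u) : 0 ≤ dot w u := by
  obtain ⟨α, hα, rfl⟩ := exists_comb X h
  rw [dot_comb]
  exact Finset.sum_nonneg fun b hb => mul_nonneg (by positivity) (hw b (hα hb))

theorem exists_gen_pos (X : TV C) (w : Fin m → ℤ) {g : RatFunc k} {u : Fin m → ℤ}
    (h : X.hA g u) (hp : 0 < dot w u) : ∃ b ∈ X.gens, 0 < dot w b.2 := by
  by_contra hcon
  push Not at hcon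
  obtain ⟨α, hα, rfl⟩ := exists_comb X h
  rw [dot_comb] at hp
  have : (α.sum fun h a => (a : ℤ) * dot w h.2) ≤ 0 :=
    Finset.sum_nonpos fun b hb => mul_nonpos_of_nonneg_of_nonpos (by positivity)
      (hcon b (hα hb))
  omega

theorem le_of_hS (X : TV C) {c q : Ideal X.A} (hc : X.Inv c)
    (h : ∀ g u, X.hA g u → ¬ X.hS c g u → ¬ X.hS q g u) : c ≤ q := by
  intro a ha
  obtain ⟨s, g, hs, hA⟩ := gr1 X a
  have hmem : ∀ u (hu : u ∈ s), (⟨C.mon (g u) u, (hA u hu).2⟩ : X.A) ∈ q := by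
    intro u hu
    have h1 := hc a ha s g hs u hu (hA u hu).2
    have h2 : ¬ X.hS c (g u) u := by
      rintro ⟨_, hh, hn⟩; exact hn h1
    have h3 := h _ _ (hA u hu) h2
    by_contra h4
    exact h3 ⟨(hA u hu).1, _, h4⟩
  have hsum : a = ∑ u ∈ s.attach, (⟨C.mon (g u) u, (hA u u.2).2⟩ : X.A) := by
    apply Subtype.ext
    rw [hs, AddSubmonoidClass.coe_finsetSum]
    exact (Finset.sum_attach s fun u => C.mon (g u) u).symm
  rw [hsum]
  exact Ideal.sum_mem _ fun u _ => hmem u.1 u.2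

theorem eq_of_hS (X : TV C) {p q : Ideal X.A} (hp : X.Inv p) (hq : X.Inv q)
    (h : ∀ g u, X.hA g u → (¬ X.hS p g u ↔ ¬ X.hS q g u)) : p = q :=
  le_antisymm (le_of_hS X hp fun g u hA => (h g u hA).1)
    (le_of_hS X hq fun g u hA => (h g u hA).2)

/-- an ideal with a homogeneous valuation positive exactly on its semi-invariants contains a
nonzero element as soon as the valuation is positive somewhere -/
theorem ne_bot_of_pos (X : TV C) {V : HV k m} {p : Ideal X.A} (hV : V.CenterEq X p)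
    {g : RatFunc k} {u : Fin m → ℤ} (hA : X.hA g u) (hp : 0 < V.val g u) : p ≠ ⊥ := by
  intro h0
  have h1 : ¬ X.hS p g u := (hV.2 g u hA).1 hp
  have h2 : (⟨C.mon g u, hA.2⟩ : X.A) ∈ p := by
    by_contra h3
    exact h1 ⟨hA.1, _, h3⟩
  rw [h0, Ideal.mem_bot] at h2
  exact mon_ne_zero C hA.1 u (congrArg Subtype.val h2)

/-- finitely many invariant height one primes have a valuation which is horizontal or over `B` -/
theorem finite_special (X : TV C) (B : Finset (Option k))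
    (hB : ∀ h ∈ X.gens, ∀ Q ∉ B, ordAt Q h.1 = 0) :
    {q : Ideal X.A | X.Inv q ∧ ∃ V : HV k m, V.CenterEq X q ∧ (V.n = 0 ∨ V.P ∈ B)}.Finite := by
  obtain ⟨N, f, hf⟩ := types X B hB
  set G : Set (Ideal X.A) :=
    {q : Ideal X.A | X.Inv q ∧ ∃ V : HV k m, V.CenterEq X q ∧ (V.n = 0 ∨ V.P ∈ B)} with hG
  let W : Ideal X.A → HV k m := fun q => if h : q ∈ G then h.2.choose else ⟨none, 0, 0⟩
  have hW : ∀ q ∈ G, (W q).CenterEq X q ∧ ((W q).n = 0 ∨ (W q).P ∈ B) := by
    intro q hq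
    have : W q = hq.2.choose := dif_pos hq
    rw [this]
    exact hq.2.choose_spec
  refine Set.Finite.of_injOn (f := fun q => f (W q)) (t := Set.univ)
    (fun q _ => Set.mem_univ _) ?_ Set.finite_univ
  intro p hp q hq he
  have hp' := hW p hp
  have hq' := hW q hq
  refine eq_of_hS X hp.1 hq.1 fun g u hA => ?_
  have h1 := hf (W p) (W q) hp'.1.1 hq'.1.1 hp'.2 hq'.2 he g u hA
  have h2 := hp'.1.2 g u hA
  have h3 := hq'.1.2 g u hA
  rw [← h2, ← h3]
  have h4 := hp'.1.1 g u hA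
  have h5 := hq'.1.1 g u hA
  constructor
  · intro h
    have : (W q).val g u ≠ 0 := fun h0 => by rw [h1.2 h0] at h; exact lt_irrefl _ h
    omega
  · intro h
    have : (W p).val g u ≠ 0 := fun h0 => by rw [h1.1 h0] at h; exact lt_irrefl _ h
    omega

end Gr

section Main
variable {k : Type u} [Field k] [IsAlgClosed k] [CharZero k] {m : ℕ} {K : Type v} [Field K]
  [Algebra k K] {C : Ctx k K m}

omit [IsAlgClosed k] in
/-- a generic vertical divisor: the valuation is the order at the place -/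
theorem vertical (X : TV C) (B : Finset (Option k)) (hn : none ∈ B)
    (hB : ∀ h ∈ X.gens, ∀ Q ∉ B, ordAt Q h.1 = 0) (q : Ideal X.A) (hq : IsHeightOne q)
    (V : HV k m) (v : DVal k K) (hV : V.CenterEq X q)
    (hsum : ∀ (s : Finset (Fin m → ℤ)) (hs : s.Nonempty) (g : (Fin m → ℤ) → RatFunc k),
        (∀ u ∈ s, g u ≠ 0) →
          v.ord (∑ u ∈ s, C.mon (g u) u) = s.inf' hs fun u => V.val (g u) u)
    (hn1 : V.n ≠ 0) (hP : V.P ∉ B) : V.w = 0 ∧ V.n = 1 := by
  have hgen0 : ∀ h ∈ X.gens, 0 ≤ ordAt V.P h.1 := fun h hh => (hB h hh _ hP).ge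
  have hgenw : ∀ h ∈ X.gens, 0 ≤ dot V.w h.2 := by
    intro h hh
    have h1 := hV.1 h.1 h.2 (hA_gen X hh)
    unfold HV.val at h1
    rw [hB h hh _ hP] at h1
    simpa [dot_apply] using h1
  have hAord : ∀ g u, X.hA g u → 0 ≤ ordAt V.P g := fun g u h => hA_ord_nonneg X _ hgen0 h
  have hAw : ∀ g u, X.hA g u → 0 ≤ dot V.w u := fun g u h => dot_nonneg X _ hgenw h
  have hnpos : (1 : ℤ) ≤ V.n := by
    have : 1 ≤ V.n := Nat.one_le_iff_ne_zero.2 hn1
    exact_mod_cast this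
  have hVval : ∀ g u, V.val g u = V.n * ordAt V.P g + dot V.w u := fun g u => rfl
  -- the two centres
  have hw0 : ∀ g u, (⟨V.P, 0, V.w⟩ : HV k m).val g u = dot V.w u := fun g u => by
    simp [HV.val, dot_apply]
  have hQ0 : ∀ g u, (⟨V.P, 1, 0⟩ : HV k m).val g u = ordAt V.P g := fun g u => by
    simp [HV.val]
  obtain ⟨cQ, hcQp, hcQi, hcQ⟩ := center_prime X ⟨V.P, 1, 0⟩
    (fun g u h => by rw [hQ0]; exact hAord g u h)
  obtain ⟨cw, hcwp, hcwi, hcw⟩ := center_prime X ⟨V.P, 0, V.w⟩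
    (fun g u h => by rw [hw0]; exact hAw g u h)
  have hcQq : cQ ≤ q := by
    refine le_of_hS X hcQi fun g u hA hS => ?_
    have h1 : 0 < ordAt V.P g := by
      have := (hcQ.2 g u hA).2 hS
      rwa [hQ0] at this
    refine (hV.2 g u hA).1 ?_
    rw [hVval]
    have h2 := hAw g u hA
    nlinarith
  have hcwq : cw ≤ q := by
    refine le_of_hS X hcwi fun g u hA hS => ?_
    have h1 : 0 < dot V.w u := by
      have := (hcw.2 g u hA).2 hS
      rwa [hw0] at this
    refine (hV.2 g u hA).1 ?_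
    rw [hVval]
    have h2 := hAord g u hA
    nlinarith
  -- the centre of the order is not zero
  have hcQne : cQ ≠ ⊥ := by
    obtain ⟨c, hc⟩ : ∃ c, V.P = some c := by
      rcases h : V.P with _ | c
      · exact absurd hn (h ▸ hP)
      · exact ⟨c, rfl⟩
    have hXne : (RatFunc.X - RatFunc.C c : RatFunc k) ≠ 0 := by
      intro h0
      have h1 := ordAt_X_sub c c
      rw [h0, ordAt_zero] at h1
      simp at h1
    obtain ⟨g₁, g₂, u₁, u₂, h1, h2, h3, h4⟩ := ratio X hXne 0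
    refine ne_bot_of_pos X hcQ h1 ?_
    rw [hQ0, h3, ordAt_mul _ hXne h2.1, hc, ordAt_X_sub]
    have := hAord g₂ u₂ h2
    rw [hc] at this
    simp only [if_true]
    omega
  have hcQeq : cQ = q := hq.2.2 cQ hcQp hcQne hcQq
  have hwz : V.w = 0 := by
    by_contra hw
    obtain ⟨i, hi⟩ : ∃ i, V.w i ≠ 0 := by
      by_contra h
      push Not at h
      exact hw (funext h)
    obtain ⟨g₁, g₂, u₁, u₂, h1, h2, h3, h4⟩ :=
      ratio X (one_ne_zero : (1 : RatFunc k) ≠ 0) (Pi.single i 1)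
    have h5 : dot V.w u₁ = V.w i + dot V.w u₂ := by
      rw [h4, map_add]
      congr 1
      rw [dot_apply, Finset.sum_eq_single i]
      · simp
      · intro j _ hj
        simp [hj]
      · simp
    have h6 := hAw g₁ u₁ h1
    have h7 := hAw g₂ u₂ h2
    obtain ⟨g, u, hgu, hpos⟩ : ∃ g u, X.hA g u ∧ 0 < dot V.w u := by
      by_cases h : 0 < dot V.w u₁
      · exact ⟨g₁, u₁, h1, h⟩
      · exact ⟨g₂, u₂, h2, by omega⟩
    have hcwne : cw ≠ ⊥ := ne_bot_of_pos X hcw hgu (by rw [hw0]; exact hpos)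
    have hcweq : cw = q := hq.2.2 cw hcwp hcwne hcwq
    obtain ⟨b, hb, hbp⟩ := exists_gen_pos X V.w hgu hpos
    have h8 : ¬ X.hS cw b.1 b.2 := (hcw.2 _ _ (hA_gen X hb)).1 (by rw [hw0]; exact hbp)
    rw [hcweq, ← hcQeq] at h8
    have h9 := (hcQ.2 _ _ (hA_gen X hb)).2 h8
    rw [hQ0, hB b hb _ hP] at h9
    exact lt_irrefl _ h9
  refine ⟨hwz, ?_⟩
  -- divisibility
  have hdvdA : ∀ a : X.A, (a : K) ≠ 0 → (V.n : ℤ) ∣ v.ord (a : K) := by
    intro a ha
    obtain ⟨s, g, hs, hA⟩ := gr1 X a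
    have hne : s.Nonempty := by
      by_contra h0
      rw [Finset.not_nonempty_iff_eq_empty] at h0
      rw [h0, Finset.sum_empty] at hs
      exact ha hs
    rw [hs, hsum s hne g fun u hu => (hA u hu).1]
    obtain ⟨u, hu, he⟩ := Finset.exists_mem_eq_inf' hne fun u => V.val (g u) u
    rw [he, hVval, hwz]
    refine ⟨ordAt V.P (g u), ?_⟩
    simp [dot_apply]
  obtain ⟨a, ha0, ha1⟩ := v.exists_ord_eq_one
  obtain ⟨b, c, hc, he⟩ := X.frac a
  have hb : (b : K) ≠ 0 := by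
    intro h0
    rw [h0, zero_div] at he
    exact ha0 he
  have hmul : (b : K) = a * c := by
    rw [he, div_mul_cancel₀ _ hc]
  have h1 := v.ord_mul a c ha0 hc
  rw [← hmul, ha1] at h1
  have h2 : (V.n : ℤ) ∣ 1 := by
    have h3 := dvd_sub (hdvdA b hb) (hdvdA c hc)
    rwa [h1, add_sub_cancel_right] at h3
  have h3 : V.n ∣ 1 := by exact_mod_cast h2
  exact Nat.dvd_one.1 h3

theorem toEq_val_zero (γ' : (RatFunc k × (Fin m → ℤ)) →₀ ℝ)
    (hγ : ∀ h ∈ γ'.support, h.1 ≠ 0) (v : DVal k K)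
    (h : ∀ g u, g ≠ 0 → v.ord (C.mon g u) = 0) : v.val (C.toEq γ') = 0 := by
  have h1 := toEq_val C γ' hγ ⟨none, 0, 0⟩ v 1 (fun g u hg => by
    rw [h g u hg]; simp [HV.val])
  rw [one_mul] at h1
  rw [h1]
  unfold HV.valR
  refine Finset.sum_eq_zero fun b _ => ?_
  simp [HV.val]

omit [IsAlgClosed k] [CharZero k] in
theorem eq_at (X : TV C) (δ : Ideal X.A →₀ ℝ) (γ : Kˣ →₀ ℝ) (q : Ideal X.A)
    (hq : IsHeightOne q) (v : DVal k K) (hv : v.HasCenter X.A q) (j : ℤ)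
    (hj : v.FormOrd C.der j) (he : (j : ℝ) + δ q = v.val γ) :
    ∀ v' : DVal k K, v'.HasCenter X.A q → ∀ j' : ℤ, v'.FormOrd C.der j' →
      (j' : ℝ) + δ q = v'.val γ := by
  intro v' hv' j' hj'
  have hE : ∀ f : K, f ≠ 0 → v.ord f = v'.ord f := fun f hf =>
    dvr_unique X.A (noeth X) X.frac X.normal q hq v v' hv hv' f hf
  have h1 := formOrd_congr v v' hE C.der hj
  rw [formOrd_unique v' C.der hj' h1, he, val_congr v v' hE]

/-- the equation is valid at all but finitely many height one primes -/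
theorem finite_bad (X : TV C) (δ : Ideal X.A →₀ ℝ)
    (γ' : (RatFunc k × (Fin m → ℤ)) →₀ ℝ) (hγ : ∀ h ∈ γ'.support, h.1 ≠ 0) :
    {q : Ideal X.A | IsHeightOne q ∧ ¬ ∀ v : DVal k K, v.HasCenter X.A q → ∀ j : ℤ,
      v.FormOrd C.der j → (j : ℝ) + δ q = v.val (C.toEq γ')}.Finite := by
  obtain ⟨B, hn, hB, hBγ⟩ : ∃ B : Finset (Option k), none ∈ B ∧
      (∀ h ∈ X.gens, ∀ Q ∉ B, ordAt Q h.1 = 0) ∧
      ∀ h ∈ γ'.support, ∀ Q ∉ B, ordAt Q h.1 = 0 := by
    have hex : ∀ g : RatFunc k, ∃ B : Finset (Option k), ∀ P, ordAt P g ≠ 0 → P ∈ B := by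
      intro g
      by_cases hg : g = 0
      · exact ⟨∅, fun P hP => absurd (by rw [hg]; exact ordAt_zero P) hP⟩
      · exact ordAt_finite hg
    choose Bf hBf using hex
    refine ⟨insert none ((X.gens ∪ γ'.support).biUnion fun h => Bf h.1),
      Finset.mem_insert_self _ _, ?_, ?_⟩
    · intro h hh Q hQ
      by_contra h0
      exact hQ (Finset.mem_insert_of_mem (Finset.mem_biUnion.2
        ⟨h, Finset.mem_union_left _ hh, hBf _ _ h0⟩))
    · intro h hh Q hQ
      by_contra h0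
      exact hQ (Finset.mem_insert_of_mem (Finset.mem_biUnion.2
        ⟨h, Finset.mem_union_right _ hh, hBf _ _ h0⟩))
  refine ((finite_special X B hB).union (Finset.finite_toSet δ.support)).subset ?_
  rintro q ⟨hq, hbad⟩
  by_contra hnot
  apply hbad
  have hδ0 : δ q = 0 := by
    by_contra h0
    exact hnot (Or.inr (by simpa using h0))
  by_cases hi : X.Inv q
  · obtain ⟨V, v, hv, hj, hV, hval, hsum⟩ := homDiv X q hq hi
    have hVB : V.n ≠ 0 ∧ V.P ∉ B := by
      constructor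
      · intro h0
        exact hnot (Or.inl ⟨hi, V, hV, Or.inl h0⟩)
      · intro h0
        exact hnot (Or.inl ⟨hi, V, hV, Or.inr h0⟩)
    obtain ⟨hw, hn1⟩ := vertical X B hn hB q hq V v hV hsum hVB.1 hVB.2
    refine eq_at X δ _ q hq v hv _ hj ?_
    have hdisc : V.disc - 1 = 0 := by
      unfold HV.disc
      rw [hw, hn1]
      rcases h : V.P with _ | c
      · exact absurd hn (h ▸ hVB.2)
      · simp [kap]
    have h1 := toEq_val C γ' hγ V v 1 (fun g u hg => by rw [hval g u hg]; simp)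
    rw [one_mul] at h1
    rw [h1, hdisc, hδ0]
    have h2 : V.valR γ' = 0 := by
      unfold HV.valR
      refine Finset.sum_eq_zero fun b hb => ?_
      have h3 : V.val b.1 b.2 = 0 := by
        unfold HV.val
        rw [hBγ b hb _ hVB.2, hw]
        simp
      simp [h3]
    rw [h2]
    simp
  · obtain ⟨-, v, hv, hj, hval⟩ := nonhomDiv X q hq hi
    refine eq_at X δ _ q hq v hv _ hj ?_
    rw [toEq_val_zero γ' hγ v hval, hδ0]
    simp

end Main

end OPN

section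
variable {k : Type u} [Field k] [IsAlgClosed k] [CharZero k] {m : ℕ} {K : Type v} [Field K]
  [Algebra k K] {C : Ctx k K m}

theorem open_localEq (X : TV C) (δ : Ideal X.A →₀ ℝ)
    (hδ : ∀ q, IsHeightOne q → δ q ≠ 0 → X.Inv q) (y : MaximalSpectrum X.A)
    (γ' : (RatFunc k × (Fin m → ℤ)) →₀ ℝ) (hγ : ∀ h ∈ γ'.support, h.1 ≠ 0)
    (h : IsLocalEq X.A C.der δ y.asIdeal (C.toEq γ')) :
    ∃ U : Set (MaximalSpectrum X.A), IsOpen U ∧ y ∈ U ∧
      ∀ x ∈ U, IsLocalEq X.A C.der δ x.asIdeal (C.toEq γ') := by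
  have hfin := OPN.finite_bad X δ γ' hγ
  set Bad := {q : Ideal X.A | IsHeightOne q ∧ ¬ ∀ v : DVal k K, v.HasCenter X.A q → ∀ j : ℤ,
      v.FormOrd C.der j → (j : ℝ) + δ q = v.val (C.toEq γ')} with hBad
  refine ⟨⋂ q ∈ Bad, {x | ¬ q ≤ x.asIdeal}, hfin.isOpen_biInter fun q _ => ?_, ?_, ?_⟩
  · refine isOpen_induced_iff.2 ⟨(PrimeSpectrum.zeroLocus (q : Set X.A))ᶜ,
      (PrimeSpectrum.isClosed_zeroLocus _).isOpen_compl, ?_⟩
    ext x
    simp only [Set.mem_preimage, Set.mem_compl_iff, PrimeSpectrum.mem_zeroLocus,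
      Set.mem_ofPred_eq]
    exact Iff.rfl
  · refine Set.mem_iInter₂.2 fun q hq hle => ?_
    exact hq.2 fun v hv j hj => h q hle hq.1 v hv j hj
  · intro x hx q hle hq v hv j hj
    by_contra hne
    exact (Set.mem_iInter₂.1 hx q ⟨hq, fun H => hne (H v hv j hj)⟩) hle

end

end

end Pool.Agent.MLD
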