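import Pool.Agent.Lib.MP_f23696_ag.Brg
import Pool.Agent.Lib.MP_f23696_ag.Gr
import Pool.Agent.Lib.MP_f23696_ag.Key

namespace Pool.Agent.MLD

open scoped Classical
noncomputable section
universe u v w

namespace Fin0

variable {k : Type u} [Field k] {m : ℕ} {K : Type v} [Field K] [Algebra k K] {C : Ctx k K m}

theorem mon_add (C : Ctx k K m) (g h : RatFunc k) (u : Fin m → ℤ) :
    C.mon (g + h) u = C.mon g u + C.mon h u := by
  simp [Ctx.mon, add_mul]

theorem mon_zero (C : Ctx k K m) (u : Fin m → ℤ) : C.mon 0 u = 0 := by simp [Ctx.mon]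

/-- uniqueness of expansions -/
theorem expand_unique (C : Ctx k K m) (s t : Finset (Fin m → ℤ))
    (g h : (Fin m → ℤ) → RatFunc k)
    (e : ∑ u ∈ s, C.mon (g u) u = ∑ u ∈ t, C.mon (h u) u) (u : Fin m → ℤ) (hu : u ∈ s) :
    g u = if u ∈ t then h u else 0 := by
  have key := C.li (s ∪ t) (fun u => (if u ∈ s then g u else 0) - (if u ∈ t then h u else 0)) ?_ u
    (Finset.mem_union_left _ hu)
  · simp only [hu, if_true] at key
    exact sub_eq_zero.mp key
  · have h1 : ∀ (s' : Finset (Fin m → ℤ)) (g' : (Fin m → ℤ) → RatFunc k), s' ⊆ s ∪ t →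
        ∑ u ∈ s ∪ t, C.mon (if u ∈ s' then g' u else 0) u = ∑ u ∈ s', C.mon (g' u) u := by
      intro s' g' hs'
      rw [← Finset.sum_subset hs']
      · exact Finset.sum_congr rfl fun x hx => by simp [hx]
      · intro x _ hx
        simp [hx, mon_zero]
    have h2 : ∑ u ∈ s ∪ t, C.ι ((if u ∈ s then g u else 0) - (if u ∈ t then h u else 0)) *
        ∏ i, C.x i ^ u i = ∑ u ∈ s ∪ t, C.mon (if u ∈ s then g u else 0) u -
        ∑ u ∈ s ∪ t, C.mon (if u ∈ t then h u else 0) u := by
      rw [← Finset.sum_sub_distrib]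
      refine Finset.sum_congr rfl fun x _ => ?_
      simp only [Ctx.mon, map_sub, sub_mul]
    rw [h2, h1 s g Finset.subset_union_left, h1 t h Finset.subset_union_right, e, sub_self]

/-- `a` has an expansion with all terms in `q`. -/
def Good (X : TV C) (q : Ideal X.A) (a : X.A) : Prop :=
  ∃ (s : Finset (Fin m → ℤ)) (g : (Fin m → ℤ) → RatFunc k),
    (a : K) = ∑ u ∈ s, C.mon (g u) u ∧
      ∀ u ∈ s, ∃ h : C.mon (g u) u ∈ X.A, (⟨C.mon (g u) u, h⟩ : X.A) ∈ q

theorem good_add (X : TV C) (q : Ideal X.A) {a b : X.A} (ha : Good X q a) (hb : Good X q b) :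
    Good X q (a + b) := by
  obtain ⟨s, g, hs, hg⟩ := ha
  obtain ⟨t, h, ht, hh⟩ := hb
  refine ⟨s ∪ t, fun u => (if u ∈ s then g u else 0) + (if u ∈ t then h u else 0), ?_, ?_⟩
  · simp only [mon_add, Finset.sum_add_distrib]
    have h1 : ∀ (s' : Finset (Fin m → ℤ)) (g' : (Fin m → ℤ) → RatFunc k), s' ⊆ s ∪ t →
        ∑ u ∈ s ∪ t, C.mon (if u ∈ s' then g' u else 0) u = ∑ u ∈ s', C.mon (g' u) u := by
      intro s' g' hs'
      rw [← Finset.sum_subset hs']
      · exact Finset.sum_congr rfl fun x hx => by simp [hx]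
      · intro x _ hx
        simp [hx, mon_zero]
    rw [h1 s g Finset.subset_union_left, h1 t h Finset.subset_union_right, ← hs, ← ht]
    rfl
  · intro u hu
    have m1 : ∃ e : C.mon (if u ∈ s then g u else 0) u ∈ X.A,
        (⟨C.mon (if u ∈ s then g u else 0) u, e⟩ : X.A) ∈ q := by
      by_cases hus : u ∈ s
      · simpa [hus] using hg u hus
      · simp only [hus, if_false, mon_zero]
        exact ⟨X.A.zero_mem, q.zero_mem⟩
    have m2 : ∃ e : C.mon (if u ∈ t then h u else 0) u ∈ X.A,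
        (⟨C.mon (if u ∈ t then h u else 0) u, e⟩ : X.A) ∈ q := by
      by_cases hut : u ∈ t
      · simpa [hut] using hh u hut
      · simp only [hut, if_false, mon_zero]
        exact ⟨X.A.zero_mem, q.zero_mem⟩
    obtain ⟨e1, q1⟩ := m1
    obtain ⟨e2, q2⟩ := m2
    have e3 : C.mon ((if u ∈ s then g u else 0) + (if u ∈ t then h u else 0)) u ∈ X.A := by
      rw [mon_add]; exact X.A.add_mem e1 e2
    refine ⟨e3, ?_⟩
    have : (⟨_, e3⟩ : X.A) = ⟨_, e1⟩ + ⟨_, e2⟩ := by
      apply Subtype.ext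
      simp [mon_add]
    rw [this]
    exact q.add_mem q1 q2

theorem good_mon_mul (X : TV C) (q : Ideal X.A) {b : X.A} (g0 : RatFunc k) (u0 : Fin m → ℤ)
    (hb : (b : K) = C.mon g0 u0) (hq : b ∈ q) (c : X.A) : Good X q (c * b) := by
  obtain ⟨s, g, hs, hg⟩ := gr1 X c
  refine ⟨s.image (fun u => u + u0), fun u => g (u - u0) * g0, ?_, ?_⟩
  · rw [Finset.sum_image (fun a _ b _ h => add_right_cancel h)]
    simp only [add_sub_cancel_right, mon_mul]
    rw [← Finset.sum_mul, ← hs, ← hb]
    rfl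
  · intro u hu
    obtain ⟨t, ht, rfl⟩ := Finset.mem_image.mp hu
    simp only [add_sub_cancel_right]
    have e1 : C.mon (g t * g0) (t + u0) ∈ X.A := by
      rw [mon_mul, ← hb]
      exact X.A.mul_mem (hg t ht).2 b.2
    refine ⟨e1, ?_⟩
    have : (⟨_, e1⟩ : X.A) = ⟨_, (hg t ht).2⟩ * b := by
      apply Subtype.ext
      simp [mon_mul, hb]
    rw [this]
    exact q.mul_mem_left _ hq

theorem good_inv (X : TV C) (q : Ideal X.A) (h : ∀ a ∈ q, Good X q a) : X.Inv q := by
  intro a ha s g hs u hu hm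
  obtain ⟨t, h', ht, hh⟩ := h a ha
  have e := expand_unique C s t g h' (hs.symm.trans ht) u hu
  by_cases hut : u ∈ t
  · simp only [hut, if_true] at e
    obtain ⟨e1, q1⟩ := hh u hut
    have : (⟨C.mon (g u) u, hm⟩ : X.A) = ⟨C.mon (h' u) u, e1⟩ := by
      apply Subtype.ext
      simp [e]
    rw [this]; exact q1
  · simp only [hut, if_false] at e
    have : (⟨C.mon (g u) u, hm⟩ : X.A) = 0 := by
      apply Subtype.ext
      simp [e, mon_zero]
    rw [this]; exact q.zero_mem

end Fin0

theorem final {k : Type u} {K : Type v} [Field k] [IsAlgClosed k] [CharZero k] [Field K]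
    [Algebra k K] {m : ℕ} (y : Fin (m + 1) → K) (hind : AlgebraicIndependent k y)
    (hgen : IntermediateField.adjoin k (Set.range y) = ⊤)
    (D : Fin (m + 1) → Derivation k K K) (hD : ∀ i j, D i (y j) = if i = j then 1 else 0)
    (A : Subalgebra k K) (hA : ∃ S : Finset K, (∀ f ∈ S, IsSemiInv (k := k) y f) ∧
      Algebra.adjoin k (S : Set K) = A)
    [IsFractionRing A K] [IsIntegrallyClosed A]
    (δ : Ideal A →₀ ℝ) (hδ0 : ∀ p, 0 ≤ δ p) (hδ : ∀ p, δ p ≠ 0 → IsHeightOne p ∧ IsInvIdeal y p)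
    (hRC : ∀ x : MaximalSpectrum A, ∃ γ : Kˣ →₀ ℝ, IsLocalEq A D δ x.asIdeal γ) :
    LowerSemicontinuous (mld A D δ) := by
  obtain ⟨C, hder, hX, hx, hsemi⟩ := bridge y hind hgen D hD
  obtain ⟨S, hS, hadj⟩ := hA
  have hS' : ∀ f ∈ S, ∃ h : RatFunc k × (Fin m → ℤ), f = C.mon h.1 h.2 := by
    intro f hf
    obtain ⟨g, u, e⟩ := (hsemi f).1 (hS f hf)
    exact ⟨(g, u), e⟩
  choose! φ hφ using hS'
  have hne : ∀ h ∈ (S.filter (· ≠ 0)).image φ, h.1 ≠ 0 := by
    intro h hh
    obtain ⟨f, hf, rfl⟩ := Finset.mem_image.mp hh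
    rw [Finset.mem_filter] at hf
    intro h0
    apply hf.2
    rw [hφ f hf.1, h0, Fin0.mon_zero]
  have hadj' : Algebra.adjoin k ((fun h : RatFunc k × (Fin m → ℤ) => C.mon h.1 h.2) ''
      (((S.filter (· ≠ 0)).image φ : Finset _) : Set _)) = A := by
    rw [← hadj]
    apply le_antisymm
    · apply Algebra.adjoin_le
      rintro _ ⟨h, hh, rfl⟩
      obtain ⟨f, hf, rfl⟩ := Finset.mem_image.mp (Finset.mem_coe.mp hh)
      rw [Finset.mem_filter] at hf
      simp only
      rw [← hφ f hf.1]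
      exact Algebra.subset_adjoin hf.1
    · apply Algebra.adjoin_le
      intro f hf
      by_cases h0 : f = 0
      · rw [h0]; exact Subalgebra.zero_mem _
      · apply Algebra.subset_adjoin
        refine ⟨φ f, Finset.mem_coe.mpr (Finset.mem_image.mpr ⟨f, Finset.mem_filter.mpr
          ⟨hf, h0⟩, rfl⟩), ?_⟩
        simp only
        rw [← hφ f hf]
  let X : TV C :=
    { A := A
      gens := (S.filter (· ≠ 0)).image φ
      gens_ne := hne
      adj := hadj'
      frac := by
        intro f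
        obtain ⟨a, b, hb, e⟩ := IsFractionRing.div_surjective (A := A) f
        refine ⟨a, b, ?_, e.symm⟩
        intro h
        exact nonZeroDivisors.ne_zero hb (Subtype.ext h)
      normal := by
        intro f hf
        obtain ⟨a, ha⟩ := (IsIntegrallyClosed.isIntegral_iff (R := A) (K := K)).1 hf
        rw [← ha]
        exact a.2 }
  have hinv : ∀ q : Ideal A, δ q ≠ 0 → X.Inv q := by
    intro q hq
    apply Fin0.good_inv
    obtain ⟨-, hI⟩ := hδ q hq
    intro a ha
    have ha' : a ∈ Ideal.span {a : A | a ∈ q ∧ IsSemiInv (k := k) y (a : K)} := by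
      rw [← hI]; exact ha
    refine Submodule.span_induction (p := fun a _ => Fin0.Good X q a) ?_ ?_ ?_ ?_ ha'
    · rintro b ⟨hb, hb'⟩
      obtain ⟨g, u, e⟩ := (hsemi (b : K)).1 hb'
      have := Fin0.good_mon_mul X q g u e hb 1
      rwa [one_mul] at this
    · exact ⟨∅, fun _ => 0, by simp, by simp⟩
    · intro a b _ _ h1 h2
      exact Fin0.good_add X q h1 h2
    · intro c b _ h1
      -- multiply an expansion by c
      obtain ⟨s, g, hs, hg⟩ := h1
      have : ∀ (s' : Finset (Fin m → ℤ)), s' ⊆ s → ∀ (b' : A),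
          (b' : K) = ∑ u ∈ s', C.mon (g u) u → Fin0.Good X q (c * b') := by
        intro s'
        induction s' using Finset.induction_on with
        | empty =>
          intro _ b' hb'
          refine ⟨∅, fun _ => 0, ?_, by simp⟩
          have : b' = 0 := Subtype.ext (by simpa using hb')
          rw [this, mul_zero]
          simp
        | insert u s'' hu ih =>
          intro hsub b' hb'
          obtain ⟨e1, q1⟩ := hg u (hsub (Finset.mem_insert_self _ _))
          rw [Finset.sum_insert hu] at hb'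
          have h3 := Fin0.good_mon_mul X q (b := ⟨_, e1⟩) (g u) u rfl q1 c
          have h4 := ih (fun x hx => hsub (Finset.mem_insert_of_mem hx)) (b' - ⟨_, e1⟩) (by
            rw [AddSubgroupClass.coe_sub, hb']; simp)
          have h5 := Fin0.good_add X q h3 h4
          rwa [← mul_add, add_sub_cancel] at h5
      exact this s (Finset.Subset.refl _) b hs
  have hD' : C.der = D := hder
  subst hD'
  exact lsc_tv X δ hδ0 (fun q _ hq => hinv q hq) hRC

end

end Pool.Agent.MLD
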