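import Pool.Agent.Lib.MP_f23696_ag.Phi1
import Pool.Agent.Lib.MP_f23696_ag.Gr
import Pool.Agent.Lib.MP_f23696_ag.Value

/-!
Project LSC (MP_f23696_ag): auxiliary part of the module LEH.

Leading coefficients and orders in `F((T))((s))`, centre and transcendence degree of a valuation
given by an embedding into a Laurent series field.
-/

namespace Pool.Agent.MLD

open scoped Classical
noncomputable section

universe u v w

namespace LEC

section Lead

variable {R : Type v} [Field R]

/-- the leading coefficient as a homomorphism -/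
def lc (R : Type v) [Field R] : LaurentSeries R →*₀ R where
  toFun f := HahnSeries.leadingCoeff f
  map_zero' := HahnSeries.leadingCoeff_zero
  map_one' := HahnSeries.leadingCoeff_one
  map_mul' x y := HahnSeries.leadingCoeff_mul x y

theorem lc_apply (f : LaurentSeries R) : lc R f = HahnSeries.leadingCoeff f := rfl

theorem order_inv {f : LaurentSeries R} (hf : f ≠ 0) : (f⁻¹).order = -f.order := by
  have h := HahnSeries.order_mul hf (inv_ne_zero hf)
  rw [mul_inv_cancel₀ hf, HahnSeries.order_one] at h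
  omega

theorem order_zpow {f : LaurentSeries R} (hf : f ≠ 0) (n : ℤ) : (f ^ n).order = n * f.order := by
  cases n with
  | ofNat n =>
    rw [Int.ofNat_eq_natCast, zpow_natCast, HahnSeries.order_pow, nsmul_eq_mul]
  | negSucc n =>
    rw [zpow_negSucc, order_inv (pow_ne_zero _ hf), HahnSeries.order_pow, nsmul_eq_mul,
      Int.negSucc_eq]
    push_cast
    ring

theorem order_prod {ι : Type*} (s : Finset ι) (f : ι → LaurentSeries R) (h : ∀ i ∈ s, f i ≠ 0) :
    (∏ i ∈ s, f i).order = ∑ i ∈ s, (f i).order := by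
  induction s using Finset.induction_on with
  | empty => simp
  | insert a s ha ih =>
    rw [Finset.prod_insert ha, Finset.sum_insert ha, HahnSeries.order_mul
      (h a (Finset.mem_insert_self a s))
      (Finset.prod_ne_zero_iff.2 fun i hi => h i (Finset.mem_insert_of_mem hi)),
      ih fun i hi => h i (Finset.mem_insert_of_mem hi)]

/-- nonnegative order (or zero) -/
def NN (f : LaurentSeries R) : Prop := ∀ n : ℤ, n < 0 → f.coeff n = 0

/-- positive order (or zero) -/
def Pos (f : LaurentSeries R) : Prop := ∀ n : ℤ, n ≤ 0 → f.coeff n = 0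

theorem Pos.nn {f : LaurentSeries R} (h : Pos f) : NN f := fun n hn => h n hn.le

theorem Pos.zero : Pos (0 : LaurentSeries R) := fun _ _ => rfl

theorem Pos.add {f g : LaurentSeries R} (hf : Pos f) (hg : Pos g) : Pos (f + g) := fun n hn => by
  rw [HahnSeries.coeff_add, hf n hn, hg n hn, add_zero]

theorem NN.add {f g : LaurentSeries R} (hf : NN f) (hg : NN g) : NN (f + g) := fun n hn => by
  rw [HahnSeries.coeff_add, hf n hn, hg n hn, add_zero]

theorem Pos.sum {ι : Type*} (s : Finset ι) (f : ι → LaurentSeries R) (h : ∀ i ∈ s, Pos (f i)) :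
    Pos (∑ i ∈ s, f i) := by
  induction s using Finset.induction_on with
  | empty => simpa using Pos.zero
  | insert a s ha ih =>
    rw [Finset.sum_insert ha]
    exact (h a (Finset.mem_insert_self a s)).add
      (ih fun i hi => h i (Finset.mem_insert_of_mem hi))

theorem nn_C (a : R) : NN (HahnSeries.C a : LaurentSeries R) := fun n hn => by
  rw [HahnSeries.C_apply, HahnSeries.coeff_single_of_ne hn.ne]

theorem coeff_C_zero (a : R) : (HahnSeries.C a : LaurentSeries R).coeff 0 = a := by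
  rw [HahnSeries.C_apply, HahnSeries.coeff_single_same]

theorem nn_of_order {f : LaurentSeries R} (h : 0 ≤ f.order) : NN f := fun n hn =>
  HahnSeries.coeff_eq_zero_of_lt_order (hn.trans_le h)

theorem pos_of_order {f : LaurentSeries R} (h : 0 < f.order) : Pos f := fun n hn =>
  HahnSeries.coeff_eq_zero_of_lt_order (hn.trans_lt h)

theorem order_of_nn {f : LaurentSeries R} (h : NN f) : 0 ≤ f.order := by
  by_cases hf : f = 0
  · rw [hf, HahnSeries.order_zero]
  · by_contra hc
    push Not at hc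
    have h1 := h _ hc
    rw [HahnSeries.coeff_order_eq_zero] at h1
    exact hf h1

theorem order_of_pos {f : LaurentSeries R} (h : Pos f) (hf : f ≠ 0) : 0 < f.order := by
  by_contra hc
  push Not at hc
  have h1 := h _ hc
  rw [HahnSeries.coeff_order_eq_zero] at h1
  exact hf h1

theorem nn_iff {f : LaurentSeries R} (h : NN f) :
    f = HahnSeries.ofPowerSeries ℤ R (PowerSeries.mk fun n => f.coeff (n : ℤ)) := by
  ext n
  rcases lt_or_ge n 0 with hn | hn
  · rw [h n hn, HahnSeries.ofPowerSeries_apply]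
    symm
    apply HahnSeries.embDomain_of_notMem_range
    rintro ⟨k, hk⟩
    simp at hk
    omega
  · obtain ⟨k, rfl⟩ := Int.eq_ofNat_of_zero_le hn
    rw [HahnSeries.ofPowerSeries_apply_coeff, PowerSeries.coeff_mk]

theorem nn_mul {f g : LaurentSeries R} (hf : NN f) (hg : NN g) :
    NN (f * g) ∧ (f * g).coeff 0 = f.coeff 0 * g.coeff 0 := by
  rw [nn_iff hf, nn_iff hg, ← map_mul]
  refine ⟨fun n hn => ?_, ?_⟩
  · rw [HahnSeries.ofPowerSeries_apply]
    apply HahnSeries.embDomain_of_notMem_range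
    rintro ⟨k, hk⟩
    simp at hk
    omega
  · have h0 : (0 : ℤ) = ((0 : ℕ) : ℤ) := rfl
    rw [h0, HahnSeries.ofPowerSeries_apply_coeff, HahnSeries.ofPowerSeries_apply_coeff,
      HahnSeries.ofPowerSeries_apply_coeff, PowerSeries.coeff_mul]
    simp

theorem coeff_zero_of_order {f : LaurentSeries R} (h : f.order = 0) : f.coeff 0 = lc R f := by
  rw [lc_apply, HahnSeries.leadingCoeff_eq, h]

end Lead

section Val

variable {k : Type u} [Field k] {R : Type v} [Field R] [Algebra k R]
  {K : Type w} [Field K] [Algebra k K]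

/-- transcendence degree of the residue field -/
theorem divisorial_of (Φ : K →ₐ[k] LaurentSeries R) (v : DVal k K)
    (hv : ∀ a, a ≠ 0 → v.ord a = (Φ a).order) {d : ℕ} (t : Fin d → K) (ht : ∀ i, NN (Φ (t i)))
    (hind : AlgebraicIndependent k fun i => (Φ (t i)).coeff 0) : v.IsDivisorial d := by
  have key : ∀ F : MvPolynomial (Fin d) k, NN (Φ (MvPolynomial.aeval t F)) ∧
      (Φ (MvPolynomial.aeval t F)).coeff 0
        = MvPolynomial.aeval (fun i => (Φ (t i)).coeff 0) F := by
    intro F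
    induction F using MvPolynomial.induction_on with
    | C a =>
      rw [MvPolynomial.aeval_C, MvPolynomial.aeval_C, AlgHom.commutes, PHI1.algebraMap_laurent]
      exact ⟨nn_C _, coeff_C_zero _⟩
    | add p q hp hq =>
      rw [map_add, map_add, map_add, HahnSeries.coeff_add, hp.2, hq.2]
      exact ⟨hp.1.add hq.1, rfl⟩
    | mul_X p i hp =>
      rw [map_mul, map_mul, map_mul, MvPolynomial.aeval_X, MvPolynomial.aeval_X]
      obtain ⟨h1, h2⟩ := nn_mul hp.1 (ht i)
      exact ⟨h1, by rw [h2, hp.2]⟩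
  refine ⟨t, fun i hi => ?_, fun F hF hs => ?_⟩
  · rw [hv _ hi]
    exact order_of_nn (ht i)
  · obtain ⟨h1, h2⟩ := key F
    have h3 : (Φ (MvPolynomial.aeval t F)).coeff 0 ≠ 0 := by
      rw [h2]
      intro h0
      exact hF ((injective_iff_map_eq_zero _).1 hind F h0)
    have h4 : MvPolynomial.aeval t F ≠ 0 := by
      intro h0
      rw [h0, map_zero] at h3
      exact h3 rfl
    have h5 := hs h4
    rw [hv _ h4] at h5
    exact h3 (HahnSeries.coeff_eq_zero_of_lt_order h5)

variable {m : ℕ} {C : Ctx k K m}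

/-- the centre of the valuation -/
theorem hasCenter_of (X : TV C) (x : MaximalSpectrum X.A) (Φ : K →ₐ[k] LaurentSeries R)
    (v : DVal k K) (hv : ∀ a, a ≠ 0 → v.ord a = (Φ a).order) (ε : X.A →ₐ[k] k)
    (hε : ∀ a : X.A, ε a = 0 ↔ a ∈ x.asIdeal)
    (h : ∀ g u, ∀ hg : X.hA g u,
      Pos (Φ (C.mon g u) - HahnSeries.C (algebraMap k R (ε ⟨C.mon g u, hg.2⟩)))) :
    v.HasCenter X.A x.asIdeal := by
  have key : ∀ a : X.A, Pos (Φ (a : K) - HahnSeries.C (algebraMap k R (ε a))) := by
    intro a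
    obtain ⟨s, g, hs, hA⟩ := gr1 X a
    have ha : a = ∑ u ∈ s.attach, (⟨C.mon (g u) u, (hA u u.2).2⟩ : X.A) := by
      apply Subtype.ext
      rw [hs]
      rw [AddSubmonoidClass.coe_finsetSum]
      exact (Finset.sum_attach s (fun u => C.mon (g u) u)).symm
    have h1 : Φ (a : K) - HahnSeries.C (algebraMap k R (ε a)) = ∑ u ∈ s.attach,
        (Φ (C.mon (g u) u) - HahnSeries.C (algebraMap k R (ε ⟨C.mon (g u) u, (hA u u.2).2⟩))) := by
      rw [Finset.sum_sub_distrib]
      congr 1
      · conv_lhs => rw [ha]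
        rw [AddSubmonoidClass.coe_finsetSum, map_sum]
      · conv_lhs => rw [ha]
        rw [map_sum, map_sum, map_sum]
    rw [h1]
    exact Pos.sum _ _ fun u _ => h _ _ (hA u u.2)
  have hint : ∀ a : X.A, NN (Φ (a : K)) := by
    intro a
    have h1 : Φ (a : K) = (Φ (a : K) - HahnSeries.C (algebraMap k R (ε a)))
        + HahnSeries.C (algebraMap k R (ε a)) := by ring
    rw [h1]
    exact (key a).nn.add (nn_C _)
  refine ⟨fun a ha => ?_, fun a => ⟨fun hp ha => ?_, fun hs => ?_⟩⟩
  · rw [hv _ ha]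
    exact order_of_nn (hint a)
  · rw [hv _ ha]
    have h1 := key a
    rw [(hε a).2 hp, map_zero, map_zero, sub_zero] at h1
    refine order_of_pos h1 ?_
    intro h2
    exact ha ((map_eq_zero Φ).1 h2)
  · rw [← hε]
    by_cases ha : (a : K) = 0
    · have : a = 0 := Subtype.ext ha
      rw [this, map_zero]
    · have h1 := hs ha
      rw [hv _ ha] at h1
      have h2 := key a 0 le_rfl
      rw [HahnSeries.coeff_sub, HahnSeries.coeff_eq_zero_of_lt_order h1, coeff_C_zero,
        zero_sub, neg_eq_zero] at h2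
      exact (map_eq_zero _).1 h2

/-- degrees of the semi-invariants not vanishing at `x` -/
def Gam (X : TV C) (x : MaximalSpectrum X.A) : AddSubmonoid (Fin m → ℤ) where
  carrier := {u | ∃ g, X.hS x.asIdeal g u}
  zero_mem' := by
    refine ⟨1, one_ne_zero, ?_⟩
    have h1 : C.mon 1 0 = 1 := GR.mon_one C
    refine ⟨by rw [h1]; exact X.A.one_mem, ?_⟩
    intro h
    have h2 : (⟨C.mon 1 0, by rw [h1]; exact X.A.one_mem⟩ : X.A) = 1 := Subtype.ext h1
    rw [h2] at h
    exact x.isMaximal.ne_top ((Ideal.eq_top_iff_one _).2 h)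
  add_mem' := by
    rintro u t ⟨g, hg, hgA, hgx⟩ ⟨h, hh, hhA, hhx⟩
    refine ⟨g * h, mul_ne_zero hg hh, ?_⟩
    have h1 := mon_mul C g h u t
    refine ⟨by rw [h1]; exact X.A.mul_mem hgA hhA, ?_⟩
    intro h2
    have h3 : (⟨C.mon (g * h) (u + t), by rw [h1]; exact X.A.mul_mem hgA hhA⟩ : X.A)
        = ⟨C.mon g u, hgA⟩ * ⟨C.mon h t, hhA⟩ := Subtype.ext h1
    rw [h3] at h2
    rcases x.isMaximal.isPrime.mem_or_mem h2 with h4 | h4
    · exact hgx h4
    · exact hhx h4

theorem mem_Gam (X : TV C) (x : MaximalSpectrum X.A) (u : Fin m → ℤ) :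
    u ∈ Gam X x ↔ ∃ g, X.hS x.asIdeal g u := Iff.rfl

theorem rk_Gam (X : TV C) (x : MaximalSpectrum X.A) :
    rk (X.hS x.asIdeal) = Module.finrank ℚ (Submodule.span ℚ
        {y : Fin m → ℚ | ∃ u ∈ Gam X x, y = fun i => (u i : ℚ)}) := by
  have h : {y : Fin m → ℚ | ∃ g u, X.hS x.asIdeal g u ∧ y = fun i => (u i : ℚ)}
      = {y : Fin m → ℚ | ∃ u ∈ Gam X x, y = fun i => (u i : ℚ)} := by
    ext y
    constructor
    · rintro ⟨g, u, hS, rfl⟩
      exact ⟨u, ⟨g, hS⟩, rfl⟩
    · rintro ⟨u, ⟨g, hS⟩, rfl⟩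
      exact ⟨g, u, hS, rfl⟩
  unfold rk
  rw [h]

end Val

section XI

variable {F : Type v} [Field F] {m : ℕ}

theorem TT_ne (i : Fin m) : TT F m i ≠ 0 := HahnSeries.single_ne_zero one_ne_zero

theorem ss_ne : ss F m ≠ 0 := HahnSeries.single_ne_zero one_ne_zero

theorem TL_ne (i : Fin m) : TL F m i ≠ 0 := by
  unfold TL
  rw [Ne, map_eq_zero]
  exact TT_ne i

theorem cc_ne {a : F} (ha : a ≠ 0) : cc F m a ≠ 0 := by
  rw [Ne, map_eq_zero]
  exact ha

theorem order_ss : (ss F m).order = 1 := HahnSeries.order_single one_ne_zero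

theorem order_TL (i : Fin m) : (TL F m i).order = 0 := HahnSeries.order_C

theorem order_cc (a : F) : (cc F m a).order = 0 := by
  unfold cc
  rw [RingHom.comp_apply]
  exact HahnSeries.order_C

theorem lc_ss : lc (EE F m) (ss F m) = 1 := HahnSeries.leadingCoeff_of_single

theorem lc_TL (i : Fin m) : lc (EE F m) (TL F m i) = TT F m i := HahnSeries.leadingCoeff_of_single

theorem lc_cc (a : F) : lc (EE F m) (cc F m a) = HahnSeries.C a := HahnSeries.leadingCoeff_of_single

theorem ss_TL (i : Fin m) : ss F m * TL F m i = HahnSeries.single (1 : ℤ) (TT F m i) := by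
  unfold ss TL
  rw [HahnSeries.C_apply, HahnSeries.single_mul_single, add_zero, one_mul]

theorem coeff_one_add (i : Fin m) (n : ℤ) (hn : n ≤ 0) :
    (1 + ss F m * TL F m i).coeff n = if n = 0 then 1 else 0 := by
  rw [ss_TL, HahnSeries.coeff_add, HahnSeries.coeff_single_of_ne (by omega), add_zero,
    HahnSeries.coeff_one]
  congr

theorem pos_one_add (i : Fin m) : Pos ((1 + ss F m * TL F m i) - 1) := by
  intro n hn
  rw [add_sub_cancel_left, ss_TL, HahnSeries.coeff_single_of_ne (by omega)]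

theorem one_add_ne (i : Fin m) : 1 + ss F m * TL F m i ≠ 0 := by
  intro h
  have h1 := coeff_one_add (F := F) i 0 le_rfl
  rw [h, if_pos rfl] at h1
  exact zero_ne_one h1

theorem order_one_add (i : Fin m) : (1 + ss F m * TL F m i).order = 0 := by
  apply le_antisymm
  · apply HahnSeries.order_le_of_coeff_ne_zero
    rw [coeff_one_add i 0 le_rfl, if_pos rfl]
    exact one_ne_zero
  · apply order_of_nn
    intro n hn
    rw [coeff_one_add i n hn.le, if_neg hn.ne]

theorem lc_one_add (i : Fin m) : lc (EE F m) (1 + ss F m * TL F m i) = 1 := by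
  rw [← coeff_zero_of_order (order_one_add i), coeff_one_add i 0 le_rfl, if_pos rfl]

/-- the `i`-th factor -/
def fac (F : Type v) [Field F] (m : ℕ) (I : Finset (Fin m)) (i : Fin m) : LL F m :=
  if i ∈ I then 1 + ss F m * TL F m i else TL F m i

theorem fac_ne (I : Finset (Fin m)) (i : Fin m) : fac F m I i ≠ 0 := by
  unfold fac
  split_ifs
  · exact one_add_ne i
  · exact TL_ne i

theorem order_fac (I : Finset (Fin m)) (i : Fin m) : (fac F m I i).order = 0 := by
  unfold fac
  split_ifs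
  · exact order_one_add i
  · exact order_TL i

theorem lc_fac (I : Finset (Fin m)) (i : Fin m) :
    lc (EE F m) (fac F m I i) = if i ∈ I then 1 else TT F m i := by
  unfold fac
  split_ifs
  · exact lc_one_add i
  · exact lc_TL i

theorem zne {a : LL F m} (h : a ≠ 0) (n : ℤ) : a ^ n ≠ 0 := zpow_ne_zero (G₀ := LL F m) n h

theorem zadd {a : LL F m} (h : a ≠ 0) (n p : ℤ) : a ^ (n + p) = a ^ n * a ^ p :=
  zpow_add₀ (G₀ := LL F m) h n p

theorem zsum {ι : Type*} {a : LL F m} (h : a ≠ 0) (s : Finset ι) (b : ι → ℤ) :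
    ∏ i ∈ s, a ^ b i = a ^ ∑ i ∈ s, b i := by
  induction s using Finset.induction_on with
  | empty => simp
  | insert a s ha ih => rw [Finset.prod_insert ha, Finset.sum_insert ha, zadd h, ih]

theorem xi_eq (c : Fin m → F) (w : Fin m → ℤ) (β : Matrix (Fin m) (Fin m) ℤ)
    (I : Finset (Fin m)) (j : Fin m) :
    xi c w β I j = cc F m (c j) * ss F m ^ w j * ∏ i, fac F m I i ^ β i j := rfl

theorem xi_prod {c : Fin m → F} (w : Fin m → ℤ) (β : Matrix (Fin m) (Fin m) ℤ)
    (I : Finset (Fin m)) (u : Fin m → ℤ) :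
    ∏ j, xi c w β I j ^ u j = cc F m (∏ j, c j ^ u j) * ss F m ^ (∑ j, w j * u j) *
      ∏ i, fac F m I i ^ (∑ j, β i j * u j) := by
  have h1 : ∀ j, xi c w β I j ^ u j = cc F m (c j) ^ u j * ss F m ^ (w j * u j) *
      ∏ i, fac F m I i ^ (β i j * u j) := by
    intro j
    have e1 := mul_zpow (cc F m (c j) * ss F m ^ w j) (∏ i, fac F m I i ^ β i j) (u j)
    have e2 := mul_zpow (cc F m (c j)) (ss F m ^ w j) (u j)
    have e3 := zpow_mul (ss F m) (w j) (u j)
    have e4 := Finset.prod_zpow (fun i => fac F m I i ^ β i j) Finset.univ (u j)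
    have e5 : ∏ i, (fac F m I i ^ β i j) ^ u j = ∏ i, fac F m I i ^ (β i j * u j) :=
      Finset.prod_congr rfl fun i _ => (zpow_mul (fac F m I i) (β i j) (u j)).symm
    rw [xi_eq, e3, ← e5]
    exact e1.trans (by rw [e2]; congr 1; exact e4.symm)
  rw [Finset.prod_congr rfl fun j _ => h1 j, Finset.prod_mul_distrib, Finset.prod_mul_distrib,
    Finset.prod_comm]
  congr 1
  · congr 1
    · rw [map_prod]
      exact Finset.prod_congr rfl fun j _ => by rw [map_zpow₀]
    · exact zsum ss_ne _ _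
  · exact Finset.prod_congr rfl fun i _ => zsum (fac_ne I i) _ _

theorem order_facs (I : Finset (Fin m)) (b : Fin m → ℤ) :
    (∏ i, fac F m I i ^ b i).order = 0 := by
  rw [order_prod _ _ fun i _ => zne (fac_ne I i) _]
  refine Finset.sum_eq_zero fun i _ => ?_
  rw [order_zpow (fac_ne I i), order_fac, mul_zero]

theorem facs_ne (I : Finset (Fin m)) (b : Fin m → ℤ) : ∏ i, fac F m I i ^ b i ≠ 0 :=
  Finset.prod_ne_zero_iff.2 fun i _ => zne (fac_ne I i) _

theorem lc_facs (I : Finset (Fin m)) (b : Fin m → ℤ) :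
    lc (EE F m) (∏ i, fac F m I i ^ b i) = ∏ i, (if i ∈ I then 1 else TT F m i) ^ b i := by
  rw [map_prod]
  exact Finset.prod_congr rfl fun i _ => by rw [map_zpow₀, lc_fac]

/-- the order of the image of a monomial -/
theorem order_xi {c : Fin m → F} (hc : ∀ i, c i ≠ 0) (w : Fin m → ℤ)
    (β : Matrix (Fin m) (Fin m) ℤ) (I : Finset (Fin m)) (u : Fin m → ℤ) :
    (∏ j, xi c w β I j ^ u j).order = ∑ j, w j * u j := by
  have h1 : cc F m (∏ j, c j ^ u j) ≠ 0 :=
    cc_ne (Finset.prod_ne_zero_iff.2 fun i _ => zpow_ne_zero _ (hc i))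
  rw [xi_prod, HahnSeries.order_mul (mul_ne_zero h1 (zne ss_ne _)) (facs_ne I _),
    HahnSeries.order_mul h1 (zne ss_ne _), order_cc, order_facs, order_zpow ss_ne,
    order_ss]
  ring

/-- the leading coefficient of the image of a monomial -/
theorem lc_xi {c : Fin m → F} (w : Fin m → ℤ)
    (β : Matrix (Fin m) (Fin m) ℤ) (I : Finset (Fin m)) (u : Fin m → ℤ) :
    lc (EE F m) (∏ j, xi c w β I j ^ u j) = HahnSeries.C (∏ j, c j ^ u j) *
      ∏ i, (if i ∈ I then 1 else TT F m i) ^ (∑ j, β i j * u j) := by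
  rw [xi_prod, map_mul, map_mul, lc_cc, lc_facs, map_zpow₀, lc_ss, one_zpow, mul_one]

end XI

end LEC

end

end Pool.Agent.MLD
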