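import Pool.Agent.Lib.MP_f23696_ag.LeHA
import Pool.Agent.Lib.MP_f23696_ag.Chx
import Pool.Agent.Lib.MP_f23696_ag.Bet
import Pool.Agent.Lib.MP_f23696_ag.Hahn
import Pool.Agent.Lib.MP_f23696_ag.Jind
import Pool.Agent.Lib.MP_f23696_ag.DerInst
import Pool.Agent.Lib.MP_f23696_ag.Ord

/-!
Project LSC (MP_f23696_ag): second auxiliary part of the module LEH.
-/

namespace Pool.Agent.MLD

open scoped Classical
noncomputable section

universe u v w

namespace LEC

section EEs

variable {F : Type v} [Field F] {m : ℕ}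

theorem single_zpow (γ : Lex (Fin m → ℤ)) (a : F) (n : ℤ) :
    (HahnSeries.single γ a : EE F m) ^ n = HahnSeries.single (n • γ) (a ^ n) := by
  cases n with
  | ofNat n =>
    rw [Int.ofNat_eq_natCast, zpow_natCast, zpow_natCast, HahnSeries.single_pow, natCast_zsmul]
  | negSucc n =>
    rw [zpow_negSucc, zpow_negSucc, HahnSeries.single_pow, HahnSeries.inv_single, negSucc_zsmul]

theorem single_prod {ι : Type*} (s : Finset ι) (γ : ι → Lex (Fin m → ℤ)) (a : ι → F) :
    ∏ i ∈ s, (HahnSeries.single (γ i) (a i) : EE F m)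
      = HahnSeries.single (∑ i ∈ s, γ i) (∏ i ∈ s, a i) := by
  induction s using Finset.induction_on with
  | empty => rfl
  | insert a s ha ih =>
    rw [Finset.prod_insert ha, Finset.sum_insert ha, Finset.prod_insert ha, ih,
      HahnSeries.single_mul_single]

theorem facs_single (I : Finset (Fin m)) (b : Fin m → ℤ) :
    ∏ i, (if i ∈ I then (1 : EE F m) else TT F m i) ^ b i
      = HahnSeries.single (toLex fun i => if i ∈ I then 0 else b i) 1 := by
  have h1 : ∀ i, (if i ∈ I then (1 : EE F m) else TT F m i) ^ b i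
      = HahnSeries.single (toLex (Pi.single i (if i ∈ I then 0 else b i))) 1 := by
    intro i
    by_cases hi : i ∈ I
    · rw [if_pos hi, if_pos hi, one_zpow, Pi.single_zero]
      rfl
    · rw [if_neg hi, if_neg hi, TT, single_zpow, one_zpow]
      have h2 : b i • toLex (Pi.single i (1 : ℤ)) = (toLex (Pi.single i (b i)) : Lex (Fin m → ℤ)) := by
        apply ofLex.injective
        funext j
        change b i • (Pi.single i (1 : ℤ) : Fin m → ℤ) j = (Pi.single i (b i) : Fin m → ℤ) j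
        by_cases hj : j = i
        · subst hj
          simp
        · rw [Pi.single_eq_of_ne hj, Pi.single_eq_of_ne hj, smul_zero]
      rw [h2]
  rw [Finset.prod_congr rfl fun i _ => h1 i, single_prod, Finset.prod_const_one]
  have h2 : (∑ i, toLex (Pi.single i (if i ∈ I then (0 : ℤ) else b i)) : Lex (Fin m → ℤ))
      = toLex fun i => if i ∈ I then 0 else b i := by
    apply ofLex.injective
    funext j
    change (∑ i, (Pi.single i (if i ∈ I then (0 : ℤ) else b i) : Fin m → ℤ)) j = _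
    rw [Finset.sum_apply, Finset.sum_eq_single j]
    · rw [Pi.single_eq_same]
      rfl
    · intro i _ hij
      rw [Pi.single_eq_of_ne hij.symm]
    · intro h
      exact absurd (Finset.mem_univ j) h
  rw [h2]

/-- leading coefficient and order of the image of a monomial, final form -/
theorem lc_xi' {c : Fin m → F} (w : Fin m → ℤ)
    (β : Matrix (Fin m) (Fin m) ℤ) (I : Finset (Fin m)) (u : Fin m → ℤ) (a : F) :
    lc (EE F m) (cc F m a * ∏ j, xi c w β I j ^ u j)
      = HahnSeries.single (toLex fun i => if i ∈ I then 0 else ∑ j, β i j * u j)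
        (a * ∏ j, c j ^ u j) := by
  rw [map_mul, lc_cc, lc_xi, facs_single, HahnSeries.C_apply, HahnSeries.C_apply,
    HahnSeries.single_mul_single, HahnSeries.single_mul_single, zero_add, zero_add, mul_one]

theorem order_xi' {c : Fin m → F} (hc : ∀ i, c i ≠ 0) (w : Fin m → ℤ)
    (β : Matrix (Fin m) (Fin m) ℤ) (I : Finset (Fin m)) (u : Fin m → ℤ) {a : F} (ha : a ≠ 0) :
    (cc F m a * ∏ j, xi c w β I j ^ u j).order = ∑ j, w j * u j := by
  have h0 : ∏ j, xi c w β I j ^ u j ≠ 0 := by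
    rw [xi_prod]
    exact mul_ne_zero (mul_ne_zero
      (cc_ne (Finset.prod_ne_zero_iff.2 fun i _ => zpow_ne_zero _ (hc i)))
      (zne ss_ne _)) (facs_ne I _)
  rw [HahnSeries.order_mul (cc_ne ha) h0, order_cc, order_xi hc, zero_add]

/-- `(1 + s T_i) ^ n - 1` -/
theorem geom [CharZero F] (i : Fin m) {n : ℕ} (hn : 0 < n) :
    (1 + ss F m * TL F m i) ^ n - 1 ≠ 0 ∧ ((1 + ss F m * TL F m i) ^ n - 1).order = 1 ∧
      lc (EE F m) ((1 + ss F m * TL F m i) ^ n - 1)
        = HahnSeries.single (toLex (Pi.single i 1)) (n : F) := by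
  set y : LL F m := 1 + ss F m * TL F m i with hy
  set S : LL F m := ∑ j ∈ Finset.range n, y ^ j with hS
  have hyNN : NN y := nn_of_order (order_one_add i).ge
  have hy0 : y.coeff 0 = 1 := by
    rw [hy, coeff_one_add i 0 le_rfl, if_pos rfl]
  have hpow : ∀ j : ℕ, NN (y ^ j) ∧ (y ^ j).coeff 0 = 1 := by
    intro j
    induction j with
    | zero =>
      rw [pow_zero]
      exact ⟨nn_C 1, coeff_C_zero 1⟩
    | succ j ih =>
      rw [pow_succ]
      obtain ⟨h1, h2⟩ := nn_mul ih.1 hyNN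
      exact ⟨h1, by rw [h2, ih.2, hy0, mul_one]⟩
  have hSc : NN S ∧ S.coeff 0 = (n : EE F m) := by
    have h1 : ∀ l : ℕ, NN (∑ j ∈ Finset.range l, y ^ j) ∧
        (∑ j ∈ Finset.range l, y ^ j).coeff 0 = (l : EE F m) := by
      intro l
      induction l with
      | zero =>
        rw [Finset.range_zero, Finset.sum_empty, Nat.cast_zero]
        exact ⟨fun _ _ => rfl, rfl⟩
      | succ l ih =>
        rw [Finset.sum_range_succ]
        refine ⟨ih.1.add (hpow l).1, ?_⟩
        rw [HahnSeries.coeff_add, ih.2, (hpow l).2, Nat.cast_succ]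
    exact h1 n
  have hnE : (n : EE F m) = HahnSeries.single 0 (n : F) := by
    rw [← HahnSeries.C_apply, map_natCast]
  have hnne : (n : EE F m) ≠ 0 := by
    rw [hnE]
    exact HahnSeries.single_ne_zero (by exact_mod_cast hn.ne')
  have hSne : S ≠ 0 := by
    intro h
    have h1 := hSc.2
    rw [h] at h1
    exact hnne h1.symm
  have hSord : S.order = 0 := by
    apply le_antisymm
    · apply HahnSeries.order_le_of_coeff_ne_zero
      rw [hSc.2]
      exact hnne
    · exact order_of_nn hSc.1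
  have hgeom : y ^ n - 1 = (ss F m * TL F m i) * S := by
    have h1 := mul_geom_sum y n
    rw [← h1, hS, hy, add_sub_cancel_left]
  have hsT : ss F m * TL F m i ≠ 0 := mul_ne_zero ss_ne (TL_ne i)
  have hfin : y ^ n - 1 ≠ 0 := by
    rw [hgeom]
    exact mul_ne_zero hsT hSne
  refine ⟨hfin, ?_, ?_⟩
  · rw [hgeom, HahnSeries.order_mul hsT hSne, HahnSeries.order_mul ss_ne (TL_ne i), order_ss,
      order_TL, hSord]
    rfl
  · rw [hgeom, map_mul, map_mul, lc_ss, lc_TL, one_mul, ← coeff_zero_of_order hSord, hSc.2, hnE,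
      TT, HahnSeries.single_mul_single, add_zero, one_mul]

/-- algebraic independence of the residues -/
theorem indep {k : Type u} [Field k] [CharZero k] [CharZero F] [Algebra k F] (p : Fin m)
    (B : Fin m → Fin m → ℤ) (a : Fin m → F) (zF : F) (δ : Derivation k F F) (hδ : δ zF = 1)
    (ha : ∀ i, i ≠ p → a i ≠ 0) (hB : ∀ i, i ≠ p → B i i ≠ 0)
    (hB' : ∀ i, i ≠ p → ∀ j, j ≠ i → j ≠ p → B i j = 0) (ρ : Fin m → EE F m)
    (hρp : ρ p = HahnSeries.single 0 zF)
    (hρ : ∀ i, i ≠ p → ρ i = HahnSeries.single (toLex (B i)) (a i)) :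
    AlgebraicIndependent k ρ := by
  -- the derivations
  let l : Fin m → (Lex (Fin m → ℤ) →+ ℤ) := fun j =>
    { toFun := fun γ => ofLex γ j, map_zero' := rfl, map_add' := fun _ _ => rfl }
  have hE0 : ∃ E : Derivation k (EE F m) (EE F m), ∀ f γ, (E f).coeff γ = δ (f.coeff γ) :=
    hcoef_exists δ
  have hEl : ∀ j, ∃ E : Derivation k (EE F m) (EE F m), ∀ f γ,
      (E f).coeff γ = ((l j γ : ℤ) : F) * f.coeff γ := fun j => heul_exists (l j)
  obtain ⟨E0, hE0⟩ := hE0
  choose E hE using hEl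
  let D : Fin m → Derivation k (EE F m) (EE F m) := fun j => if j = p then E0 else E j
  refine jac_indep D ρ ?_
  have hDp : ∀ f γ, (D p f).coeff γ = δ (f.coeff γ) := by
    intro f γ
    simp only [D, if_pos]
    exact hE0 f γ
  have hDj : ∀ j, j ≠ p → ∀ f γ, (D j f).coeff γ = ((l j γ : ℤ) : F) * f.coeff γ := by
    intro j hj f γ
    simp only [D, if_neg hj]
    exact hE j f γ
  -- entries
  have hpp : D p (ρ p) = 1 := by
    rw [hρp]
    ext γ
    rw [hDp, HahnSeries.coeff_one]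
    by_cases hγ : γ = 0
    · rw [hγ, HahnSeries.coeff_single_same, hδ, if_pos rfl]
    · rw [HahnSeries.coeff_single_of_ne hγ, map_zero, if_neg hγ]
  have hip : ∀ i, i ≠ p → D i (ρ p) = 0 := by
    intro i hi
    rw [hρp]
    ext γ
    rw [hDj i hi]
    by_cases hγ : γ = 0
    · rw [hγ, map_zero, Int.cast_zero, zero_mul]
      rfl
    · rw [HahnSeries.coeff_single_of_ne hγ, mul_zero]
      rfl
  have hij : ∀ i j, i ≠ p → j ≠ p →
      D i (ρ j) = HahnSeries.single (toLex (B j)) (((B j i : ℤ) : F) * a j) := by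
    intro i j hi hj
    rw [hρ j hj]
    ext γ
    rw [hDj i hi]
    by_cases hγ : γ = toLex (B j)
    · rw [hγ, HahnSeries.coeff_single_same, HahnSeries.coeff_single_same]
      rfl
    · rw [HahnSeries.coeff_single_of_ne hγ, HahnSeries.coeff_single_of_ne hγ, mul_zero]
  set M : Matrix (Fin m) (Fin m) (EE F m) := Matrix.of fun i j => D i (ρ j) with hM
  intro hdet
  obtain ⟨v, hv0, hv⟩ := Matrix.exists_vecMul_eq_zero_iff.2 hdet
  apply hv0
  have hcol : ∀ j, ∑ i, v i * M i j = 0 := by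
    intro j
    have := congrFun hv j
    simpa [Matrix.vecMul, dotProduct] using this
  have hvp : v p = 0 := by
    have h1 := hcol p
    rw [Finset.sum_eq_single p] at h1
    · rw [hM, Matrix.of_apply, hpp, mul_one] at h1
      exact h1
    · intro i _ hi
      rw [hM, Matrix.of_apply, hip i hi, mul_zero]
    · intro h
      exact absurd (Finset.mem_univ p) h
  funext j
  by_cases hj : j = p
  · rw [hj, hvp]
    rfl
  · have h1 := hcol j
    rw [Finset.sum_eq_single j] at h1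
    · rw [hM, Matrix.of_apply, hij j j hj hj] at h1
      rcases mul_eq_zero.1 h1 with h2 | h2
      · exact h2
      · exfalso
        have h3 : ((B j j : ℤ) : F) * a j ≠ 0 :=
          mul_ne_zero (by exact_mod_cast hB j hj) (ha j hj)
        exact (HahnSeries.single_ne_zero h3) h2
    · intro i _ hi
      by_cases hip' : i = p
      · rw [hip', hvp, zero_mul]
      · rw [hM, Matrix.of_apply, hij i j hip' hj, hB' j hj i hi hip', Int.cast_zero, zero_mul,
          HahnSeries.single_eq_zero, mul_zero]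
    · intro h
      exact absurd (Finset.mem_univ j) h

end EEs

section Char

variable {k : Type u} [Field k] [IsAlgClosed k] [CharZero k] {m : ℕ} {K : Type v} [Field K]
  [Algebra k K] {C : Ctx k K m}

/-- rational functions as elements of the algebraic closure -/
def lam (C : Ctx k K m) : RatFunc k →+* AlgebraicClosure K :=
  (algebraMap K (AlgebraicClosure K)).comp (C.ι : RatFunc k →+* K)

theorem lam_C (c : k) : lam C (RatFunc.C c) = algebraMap k (AlgebraicClosure K) c := by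
  unfold lam
  rw [RingHom.comp_apply]
  have h : (C.ι : RatFunc k →+* K) (RatFunc.C c) = algebraMap k K c := Value.iota_C C c
  rw [h, ← IsScalarTower.algebraMap_apply]

theorem lam_ne {g : RatFunc k} (hg : g ≠ 0) : lam C g ≠ 0 := by
  rw [Ne, map_eq_zero]
  exact hg

theorem val_eq {V : HV k m} (hn : V.n = 0) (g : RatFunc k) (u : Fin m → ℤ) :
    V.val g u = ∑ i, V.w i * u i := by
  unfold HV.val
  rw [hn]
  simp

theorem val_S {X : TV C} {x : MaximalSpectrum X.A} {V : HV k m} (hV : V.CenterEq X x.asIdeal)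
    {g : RatFunc k} {u : Fin m → ℤ} (h : X.hS x.asIdeal g u) : V.val g u = 0 := by
  have hA : X.hA g u := ⟨h.1, h.2.choose⟩
  have h1 := hV.1 g u hA
  have h2 := (hV.2 g u hA)
  by_contra hne
  exact (h2.1 (lt_of_le_of_ne h1 (Ne.symm hne))) h

theorem hS_iff {X : TV C} {x : MaximalSpectrum X.A} {ε : X.A →ₐ[k] k}
    (hε : ∀ a : X.A, ε a = 0 ↔ a ∈ x.asIdeal) {g : RatFunc k} {u : Fin m → ℤ} (hg : g ≠ 0)
    (hA : C.mon g u ∈ X.A) : X.hS x.asIdeal g u ↔ ε ⟨_, hA⟩ ≠ 0 := by
  rw [Ne, hε]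
  exact ⟨fun h => h.2.choose_spec, fun h => ⟨hg, hA, h⟩⟩

theorem mon_sub_C (C : Ctx k K m) (g g' : RatFunc k) (c : k) (u : Fin m → ℤ) :
    C.mon (g - RatFunc.C c * g') u = C.mon g u - algebraMap k K c * C.mon g' u := by
  unfold Ctx.mon
  rw [map_sub, map_mul, Value.iota_C]
  ring

/-- two semi-invariants of the same degree not vanishing at `x` are proportional -/
theorem same_degree {X : TV C} {x : MaximalSpectrum X.A} {V : HV k m}
    (hV : V.CenterEq X x.asIdeal) (hn : V.n = 0) {ε : X.A →ₐ[k] k}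
    (hε : ∀ a : X.A, ε a = 0 ↔ a ∈ x.asIdeal) {g g' : RatFunc k} {u : Fin m → ℤ}
    (hg : g ≠ 0) (hA : C.mon g u ∈ X.A) (hA' : C.mon g' u ∈ X.A)
    (he : ε ⟨_, hA⟩ ≠ 0) (he' : ε ⟨_, hA'⟩ ≠ 0) :
    g = RatFunc.C (ε ⟨_, hA⟩ / ε ⟨_, hA'⟩) * g' := by
  set c := ε ⟨_, hA⟩ / ε ⟨_, hA'⟩ with hc
  by_contra hne
  have h0 : g - RatFunc.C c * g' ≠ 0 := sub_ne_zero.2 hne
  have h1 := mon_sub_C C g g' c u
  have hmem : C.mon (g - RatFunc.C c * g') u ∈ X.A := by
    rw [h1]
    exact X.A.sub_mem hA (X.A.mul_mem (X.A.algebraMap_mem c) hA')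
  have h2 : ε ⟨_, hmem⟩ = 0 := by
    have h3 : (⟨_, hmem⟩ : X.A) = ⟨_, hA⟩ - algebraMap k X.A c * ⟨_, hA'⟩ := Subtype.ext h1
    rw [h3, map_sub, map_mul, AlgHom.commutes]
    simp only [Algebra.algebraMap_self, RingHom.id_apply]
    rw [hc, div_mul_cancel₀ _ he', sub_self]
  have h3 : ¬ X.hS x.asIdeal (g - RatFunc.C c * g') u := by
    rw [hS_iff hε h0 hmem]
    exact fun h => h h2
  have h4 := (hV.2 _ _ ⟨h0, hmem⟩).2 h3
  rw [val_eq hn] at h4
  have h5 := val_S hV ((hS_iff hε hg hA).2 he)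
  rw [val_eq hn] at h5
  omega

/-- the character -/
theorem exists_char {X : TV C} {x : MaximalSpectrum X.A} {V : HV k m}
    (hV : V.CenterEq X x.asIdeal) (hn : V.n = 0) {ε : X.A →ₐ[k] k}
    (hε : ∀ a : X.A, ε a = 0 ↔ a ∈ x.asIdeal) :
    ∃ c : Fin m → AlgebraicClosure K, (∀ i, c i ≠ 0) ∧
      ∀ g u, g ≠ 0 → ∀ hA : C.mon g u ∈ X.A, ε ⟨_, hA⟩ ≠ 0 →
        lam C g * ∏ i, c i ^ u i = algebraMap k (AlgebraicClosure K) (ε ⟨_, hA⟩) := by
  set Fb := AlgebraicClosure K
  let ψ : (Fin m → ℤ) → Fb := fun u =>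
    if h : ∃ g, X.hS x.asIdeal g u then
      algebraMap k Fb (ε ⟨_, h.choose_spec.2.choose⟩) / lam C h.choose else 1
  have key : ∀ g u, ∀ hg : g ≠ 0, ∀ hA : C.mon g u ∈ X.A, ε ⟨_, hA⟩ ≠ 0 →
      ψ u = algebraMap k Fb (ε ⟨_, hA⟩) / lam C g := by
    intro g u hg hA he
    have hex : ∃ g, X.hS x.asIdeal g u := ⟨g, (hS_iff hε hg hA).2 he⟩
    have hψ : ψ u = algebraMap k Fb (ε ⟨_, hex.choose_spec.2.choose⟩) / lam C hex.choose := by
      simp only [ψ]
      rw [dif_pos hex]
    set g' := hex.choose with hg'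
    have hg'0 : g' ≠ 0 := hex.choose_spec.1
    have hA' : C.mon g' u ∈ X.A := hex.choose_spec.2.choose
    have he' : ε ⟨_, hA'⟩ ≠ 0 := (hS_iff hε hg'0 hA').1 hex.choose_spec
    have h1 := same_degree hV hn hε hg'0 hA' hA he' he
    have h2 : lam C g' = algebraMap k Fb (ε ⟨_, hA'⟩ / ε ⟨_, hA⟩) * lam C g := by
      rw [← lam_C (C := C), ← map_mul, ← h1]
    have n1 : algebraMap k Fb (ε ⟨_, hA'⟩) ≠ 0 := by rw [Ne, map_eq_zero]; exact he'
    rw [hψ, h2, map_div₀, div_mul_eq_mul_div, div_div_eq_mul_div, mul_div_mul_left _ _ n1]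
  have h0 : ∀ u ∈ Gam X x, ψ u ≠ 0 := by
    rintro u ⟨g, hS⟩
    have hA := hS.2.choose
    have he := (hS_iff hε hS.1 hA).1 hS
    rw [key g u hS.1 hA he]
    refine div_ne_zero ?_ (lam_ne hS.1)
    rw [Ne, map_eq_zero]
    exact he
  have hm : ∀ u ∈ Gam X x, ∀ t ∈ Gam X x, ψ (u + t) = ψ u * ψ t := by
    rintro u ⟨g, hS⟩ t ⟨h, hT⟩
    have hA := hS.2.choose
    have he := (hS_iff hε hS.1 hA).1 hS
    have hB := hT.2.choose
    have hf := (hS_iff hε hT.1 hB).1 hT
    have h1 := mon_mul C g h u t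
    have hAB : C.mon (g * h) (u + t) ∈ X.A := by
      rw [h1]
      exact X.A.mul_mem hA hB
    have h2 : ε ⟨_, hAB⟩ = ε ⟨_, hA⟩ * ε ⟨_, hB⟩ := by
      rw [← map_mul]
      congr 1
      exact Subtype.ext h1
    have h3 : ε ⟨_, hAB⟩ ≠ 0 := by
      rw [h2]
      exact mul_ne_zero he hf
    rw [key g u hS.1 hA he, key h t hT.1 hB hf, key (g * h) (u + t) (mul_ne_zero hS.1 hT.1) hAB h3,
      h2, map_mul, map_mul]
    rw [mul_div_mul_comm]
  obtain ⟨c, hc, hcu⟩ := chext (Gam X x) ψ h0 hm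
  refine ⟨c, hc, fun g u hg hA he => ?_⟩
  rw [hcu u ⟨g, (hS_iff hε hg hA).2 he⟩, key g u hg hA he]
  rw [mul_comm, div_mul_cancel₀ _ (lam_ne hg)]

/-- the horizontal valuation is not trivial -/
theorem w_ne {X : TV C} {x : MaximalSpectrum X.A} {V : HV k m}
    (hV : V.CenterEq X x.asIdeal) (hn : V.n = 0) {ε : X.A →ₐ[k] k}
    (hε : ∀ a : X.A, ε a = 0 ↔ a ∈ x.asIdeal) : V.w ≠ 0 := by
  intro hw
  have hval : ∀ g u, V.val g u = 0 := by
    intro g u
    rw [val_eq hn, hw]
    simp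
  have hall : ∀ g u, X.hA g u → X.hS x.asIdeal g u := by
    intro g u hA
    by_contra hnS
    have := (hV.2 g u hA).2 hnS
    rw [hval] at this
    exact lt_irrefl _ this
  have hX : (RatFunc.X : RatFunc k) ≠ 0 := RatFunc.X_ne_zero
  obtain ⟨g₁, g₂, u₁, u₂, h1, h2, h3, h4⟩ := ratio X hX 0
  rw [zero_add] at h4
  subst h4
  have e1 := (hS_iff hε h1.1 h1.2).1 (hall _ _ h1)
  have e2 := (hS_iff hε h2.1 h2.2).1 (hall _ _ h2)
  have h5 := h3.symm.trans (same_degree hV hn hε h1.1 h1.2 h2.2 e1 e2)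
  have h6 := mul_right_cancel₀ h2.1 h5
  exact Value.X_sub_C_ne _ (sub_eq_zero.2 h6)

/-- the embedding on rational functions -/
theorem Phi_iota (Φ : K →ₐ[k] LL (AlgebraicClosure K) m)
    (h : Φ (C.ι RatFunc.X) = cc (AlgebraicClosure K) m (lam C RatFunc.X)) (g : RatFunc k) :
    Φ (C.ι g) = cc (AlgebraicClosure K) m (lam C g) := by
  set Fb := AlgebraicClosure K
  let f1 : RatFunc k →+* LL Fb m := (Φ : K →+* LL Fb m).comp (C.ι : RatFunc k →+* K)
  let f2 : RatFunc k →+* LL Fb m := (cc Fb m).comp (lam C)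
  have hf : f1 = f2 := by
    apply IsLocalization.ringHom_ext (nonZeroDivisors (Polynomial k))
    apply Polynomial.ringHom_ext
    · intro c
      simp only [RingHom.comp_apply, f1, f2]
      rw [RatFunc.algebraMap_C, lam_C]
      change Φ (C.ι (RatFunc.C c)) = _
      rw [Value.iota_C, AlgHom.commutes, PHI1.algebraMap_laurent]
      rfl
    · simp only [RingHom.comp_apply, f1, f2]
      rw [RatFunc.algebraMap_X]
      exact h
  exact DFunLike.congr_fun hf g

end Char

end LEC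

end

end Pool.Agent.MLD
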