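import Pool.Agent.Lib.MP_f23696_ag.Ord

/-!
# LSC, module SUM: sums of homogeneous valuations over places
-/

namespace Pool.Agent.MLD

open scoped Classical
noncomputable section

universe u v w

section SUM
variable {k : Type u} [Field k] {m : ℕ}

namespace Sum

/-- weighted sum over the places of `B` with weights `n_Q` equal to `j` away from `R`. -/
theorem wsum (B : Finset (Option k)) (X : Option k → HV k m) (R : Option k)
    (j : ℕ) (hR : R ∈ B) (hj : ∀ Q ∈ B, Q ≠ R → (X Q).n = j)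
    (hRj : j ≤ (X R).n) (f : Option k → ℤ) :
    (((X R).n - j : ℕ) : ℤ) * f R = ∑ Q ∈ B, ((X Q).n : ℤ) * f Q - j * ∑ Q ∈ B, f Q := by
  rw [Finset.mul_sum, ← Finset.sum_sub_distrib]
  rw [Finset.sum_eq_single R]
  · push_cast [Nat.cast_sub hRj]
    ring
  · intro Q hQ hQR
    rw [hj Q hQ hQR]
    ring
  · intro h
    exact absurd hR h

theorem kap_sum (B : Finset (Option k)) (h : none ∈ B) :
    ∑ Q ∈ B, kap Q = (B.card : ℤ) - 2 := by
  have h1 : ∀ Q ∈ B, kap Q = 1 - (if Q = none then (2 : ℤ) else 0) := by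
    intro Q _
    cases Q with
    | none => simp [kap]
    | some c => simp [kap]
  rw [Finset.sum_congr rfl h1, Finset.sum_sub_distrib, Finset.sum_ite_eq' B none]
  simp [h]

end Sum

theorem sum_val [IsAlgClosed k] (B : Finset (Option k)) (X : Option k → HV k m) (R : Option k)
    (j : ℕ) (hR : R ∈ B) (hP : ∀ Q ∈ B, (X Q).P = Q) (hj : ∀ Q ∈ B, Q ≠ R → (X Q).n = j)
    (hRj : j ≤ (X R).n) (g : RatFunc k) (u : Fin m → ℤ) :
    (sumHV B X R j).val g u = ∑ Q ∈ B, (X Q).val g u - j * ∑ Q ∈ B, ordAt Q g := by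
  have h1 : ∀ Q ∈ B, (X Q).val g u = ((X Q).n : ℤ) * ordAt Q g + ∑ i, (X Q).w i * u i := by
    intro Q hQ
    unfold HV.val
    rw [hP Q hQ]
  rw [Finset.sum_congr rfl h1, Finset.sum_add_distrib]
  have h2 := Sum.wsum B X R j hR hj hRj (fun Q => ordAt Q g)
  have h3 : ∑ i, (∑ Q ∈ B, (X Q).w i) * u i = ∑ Q ∈ B, ∑ i, (X Q).w i * u i := by
    rw [Finset.sum_comm]
    refine Finset.sum_congr rfl fun i _ => ?_
    rw [Finset.sum_mul]
  unfold HV.val sumHV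
  simp only
  rw [h3, h2]
  ring

theorem sum_le [IsAlgClosed k] (A : RatFunc k → (Fin m → ℤ) → Prop)
    (γ : (RatFunc k × (Fin m → ℤ)) →₀ ℝ) (B : Finset (Option k)) (hB : GoodB A γ B)
    (X : Option k → HV k m) (R : Option k)
    (j : ℕ) (hR : R ∈ B) (hP : ∀ Q ∈ B, (X Q).P = Q) (hj : ∀ Q ∈ B, Q ≠ R → (X Q).n = j)
    (hRj : j ≤ (X R).n) (g : RatFunc k) (u : Fin m → ℤ) (hg : g ≠ 0) (hA : A g u) :
    ∑ Q ∈ B, (X Q).val g u ≤ (sumHV B X R j).val g u := by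
  rw [sum_val B X R j hR hP hj hRj g u]
  obtain ⟨B', hB'⟩ := ordAt_finite hg
  have h1 : ∑ P ∈ B ∪ B', ordAt P g = 0 :=
    ordAt_sum hg (B ∪ B') fun P hP => Finset.mem_union_right _ (hB' P hP)
  have h2 : ∑ P ∈ B ∪ B', ordAt P g = ∑ P ∈ B, ordAt P g + ∑ P ∈ B' \ B, ordAt P g := by
    rw [← Finset.union_sdiff_self_eq_union, Finset.sum_union Finset.disjoint_sdiff]
  have h3 : 0 ≤ ∑ P ∈ B' \ B, ordAt P g :=
    Finset.sum_nonneg fun P hP => hB.pos P (Finset.mem_sdiff.1 hP).2 g u hA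
  have h4 : (j : ℤ) * ∑ P ∈ B, ordAt P g ≤ 0 :=
    mul_nonpos_of_nonneg_of_nonpos (Int.natCast_nonneg j) (by linarith)
  linarith

theorem sum_S [IsAlgClosed k] (B : Finset (Option k))
    (X : Option k → HV k m) (R : Option k)
    (j : ℕ) (hR : R ∈ B) (hP : ∀ Q ∈ B, (X Q).P = Q) (hj : ∀ Q ∈ B, Q ≠ R → (X Q).n = j)
    (hRj : j ≤ (X R).n) (g : RatFunc k) (u : Fin m → ℤ) (hg : g ≠ 0)
    (hB : ∀ Q ∉ B, ordAt Q g = 0) (hX : ∀ Q ∈ B, (X Q).val g u = 0) :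
    (sumHV B X R j).val g u = 0 := by
  rw [sum_val B X R j hR hP hj hRj g u, Finset.sum_eq_zero hX]
  rw [ordAt_sum hg B fun P hP => by
    by_contra h
    exact hP (hB P h)]
  simp

theorem sum_ld [IsAlgClosed k] (A : RatFunc k → (Fin m → ℤ) → Prop)
    (γ : (RatFunc k × (Fin m → ℤ)) →₀ ℝ) (B : Finset (Option k)) (hB : GoodB A γ B)
    (X : Option k → HV k m) (R : Option k)
    (j : ℕ) (hR : R ∈ B) (hP : ∀ Q ∈ B, (X Q).P = Q) (hj : ∀ Q ∈ B, Q ≠ R → (X Q).n = j)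
    (hRj : j ≤ (X R).n) :
    (sumHV B X R j).ld γ = ∑ Q ∈ B, (X Q).ld γ - j * ((B.card : ℝ) - 2) := by
  have hval : (sumHV B X R j).valR γ = ∑ Q ∈ B, (X Q).valR γ := by
    unfold HV.valR Finsupp.sum
    rw [Finset.sum_comm]
    refine Finset.sum_congr rfl fun h hh => ?_
    rw [← Finset.mul_sum, ← Int.cast_sum]
    beta_reduce
    rw [sum_val B X R j hR hP hj hRj h.1 h.2,
      ordAt_sum (hB.ne h hh) B fun P hP => by
        by_contra hc
        exact hP (hB.gam h hh P hc)]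
    simp
  have hdisc : (sumHV B X R j).disc = ∑ Q ∈ B, (X Q).disc - j * ((B.card : ℤ) - 2) := by
    have h1 : ∀ Q ∈ B, (X Q).disc = ((X Q).n : ℤ) * kap Q + ∑ i, (X Q).w i := by
      intro Q hQ
      unfold HV.disc
      rw [hP Q hQ]
    rw [Finset.sum_congr rfl h1, Finset.sum_add_distrib]
    have h2 := Sum.wsum B X R j hR hj hRj kap
    rw [Sum.kap_sum B hB.none_mem] at h2
    have h3 : ∑ i, ∑ Q ∈ B, (X Q).w i = ∑ Q ∈ B, ∑ i, (X Q).w i := Finset.sum_comm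
    unfold HV.disc sumHV
    simp only
    rw [h3, h2]
    ring
  unfold HV.ld
  rw [hval, hdisc, Finset.sum_sub_distrib]
  push_cast
  ring

end SUM

end

end Pool.Agent.MLD
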